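import Pool.Agent.Lib.MP_28b8de_an.P.PDefs

/-!
MP_28b8de_an, module PGron (PTD-PGron): Gronwall in integral form, and existence for Volterra equations.

PROOFS.  gron: on [a,b] let Z t := e + K ∫_a^t f; Z' = K f ≤ K Z (f continuous), so (Z exp(-K(t-a)))' ≤ 0 and
f t ≤ Z t ≤ e exp(K (t-a)).  (f ContinuousOn Icc; one may extend f to the line by IccExtend.)
gron_back: mirror.
volterra: E complete, X ↦ (t ↦ x₀ + ∫_a^t Ψ s (X s) ds) on C(Icc a b, E) (or on BoundedContinuous / ContinuousMap): the n-th iterate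
is Lipschitz with constant (L(b-a))^n/n!, so some iterate is a contraction; the unique fixed point of an iterate is a
fixed point (ContractingWith.isFixedPt_fixedPoint_iterate).  Alternative: the norm sup |exp(-2L(t-a)) x(t)|, or small
steps and concatenation.  Functions on Icc a b are extended by projIcc.
-/

namespace Pool.Agent.Lib.MP_28b8de_an.PT

open Filter Topology Set MeasureTheory

theorem gron {f : ℝ → ℝ} {a b e K : ℝ} (hf : ContinuousOn f (Icc a b)) (hK : 0 ≤ K)
    (h : ∀ t ∈ Icc a b, f t ≤ e + K * ∫ s in a..t, f s) :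
    ∀ t ∈ Icc a b, f t ≤ e * Real.exp (K * (t - a)) := by
  intro t0 ht0
  have hab : a ≤ b := ht0.1.trans ht0.2
  set F : ℝ → ℝ := IccExtend hab ((Icc a b).restrict f) with hF
  have hFc : Continuous F := (continuousOn_iff_continuous_restrict.1 hf).Icc_extend'
  have hFe : ∀ t ∈ Icc a b, F t = f t := fun t ht => IccExtend_of_mem hab _ ht
  have hint : ∀ t ∈ Icc a b, ∫ s in a..t, f s = ∫ s in a..t, F s := by
    intro t ht
    refine intervalIntegral.integral_congr fun s hs => ?_
    rw [uIcc_of_le ht.1] at hs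
    exact (hFe s ⟨hs.1, hs.2.trans ht.2⟩).symm
  set Z : ℝ → ℝ := fun t => e + K * ∫ s in a..t, F s with hZ
  have hZd : ∀ t, HasDerivAt Z (K * F t) t := by
    intro t
    have := (hFc.integral_hasStrictDerivAt a t).hasDerivAt
    exact (this.const_mul K).const_add e
  have hE : ∀ t, HasDerivAt (fun t => Real.exp (-(K * (t - a)))) (Real.exp (-(K * (t - a))) * (-(K * 1))) t := by
    intro t
    exact ((((hasDerivAt_id t).sub_const a).const_mul K).neg).exp
  have hW : ∀ t, HasDerivAt (fun t => Z t * Real.exp (-(K * (t - a))))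
      (K * F t * Real.exp (-(K * (t - a))) + Z t * (Real.exp (-(K * (t - a))) * (-(K * 1)))) t := fun t =>
    (hZd t).mul (hE t)
  have hanti : AntitoneOn (fun t => Z t * Real.exp (-(K * (t - a)))) (Icc a b) := by
    refine antitoneOn_of_deriv_nonpos (convex_Icc a b) (fun t _ => (hW t).continuousAt.continuousWithinAt)
      (fun t _ => (hW t).differentiableAt.differentiableWithinAt) ?_
    intro t ht
    rw [interior_Icc] at ht
    have ht' : t ∈ Icc a b := Ioo_subset_Icc_self ht
    rw [(hW t).deriv]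
    have h1 : F t ≤ Z t := by
      have := h t ht'
      rw [hint t ht', ← hFe t ht'] at this
      exact this
    have h2 := Real.exp_pos (-(K * (t - a)))
    have h3 : K * F t * Real.exp (-(K * (t - a))) + Z t * (Real.exp (-(K * (t - a))) * (-(K * 1)))
        = K * Real.exp (-(K * (t - a))) * (F t - Z t) := by ring
    rw [h3]
    exact mul_nonpos_of_nonneg_of_nonpos (by positivity) (by linarith)
  have h1 := hanti (left_mem_Icc.2 hab) ht0 ht0.1
  have h2 : Z a = e := by simp [hZ]
  simp only [sub_self, mul_zero, neg_zero, Real.exp_zero, mul_one, h2] at h1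
  have h3 : f t0 ≤ Z t0 := by
    have := h t0 ht0
    rw [hint t0 ht0] at this
    exact this
  have h4 : Z t0 = Z t0 * Real.exp (-(K * (t0 - a))) * Real.exp (K * (t0 - a)) := by
    rw [mul_assoc, ← Real.exp_add]; simp
  calc f t0 ≤ Z t0 := h3
    _ = Z t0 * Real.exp (-(K * (t0 - a))) * Real.exp (K * (t0 - a)) := h4
    _ ≤ e * Real.exp (K * (t0 - a)) := mul_le_mul_of_nonneg_right h1 (Real.exp_pos _).le

theorem gron_back {f : ℝ → ℝ} {a b e K : ℝ} (hf : ContinuousOn f (Icc a b)) (hK : 0 ≤ K)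
    (h : ∀ t ∈ Icc a b, f t ≤ e + K * ∫ s in t..b, f s) :
    ∀ t ∈ Icc a b, f t ≤ e * Real.exp (K * (b - t)) := by
  have hm : ∀ t ∈ Icc a b, a + b - t ∈ Icc a b := fun t ht => ⟨by linarith [ht.2], by linarith [ht.1]⟩
  have key := gron (f := fun t => f (a + b - t)) (a := a) (b := b) (e := e) (K := K)
    (hf.comp (by fun_prop) hm) hK (by
      intro t ht
      have h1 := h (a + b - t) (hm t ht)
      have h2 : ∫ s in a..t, f (a + b - s) = ∫ s in (a + b - t)..b, f s := by
        rw [intervalIntegral.integral_comp_sub_left (fun x => f x) (a + b)]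
        congr 1; ring
      show f (a + b - t) ≤ e + K * ∫ s in a..t, f (a + b - s)
      rw [h2]; exact h1)
  intro t ht
  have h3 := key (a + b - t) (hm t ht)
  have e1 : a + b - (a + b - t) = t := by ring
  have e2 : a + b - t - a = b - t := by ring
  simp only [e1, e2] at h3
  exact h3

theorem volterra {E : Type*} [NormedAddCommGroup E] [NormedSpace ℝ E] [CompleteSpace E]
    {Ψ : ℝ → E → E} {a b L : ℝ} (hab : a ≤ b) (hL : 0 ≤ L)
    (hm : ∀ x : ℝ → E, Continuous x → IntervalIntegrable (fun s => Ψ s (x s)) volume a b)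
    (hl : ∀ s ∈ Icc a b, ∀ x y : E, ‖Ψ s x - Ψ s y‖ ≤ L * ‖x - y‖) (x₀ : E) :
    ∃ x : ℝ → E, Continuous x ∧ x a = x₀ ∧ ∀ t ∈ Icc a b, x t = x₀ + ∫ s in a..t, Ψ s (x s) := by
  set l : ℝ := 2 * L + 1 with hl0
  have hlpos : 0 < l := by positivity
  -- the unknown function is `exp (l (s - a)) Y s`
  set X : C(Icc a b, E) → ℝ → E := fun Y s => Real.exp (l * (s - a)) • Y (projIcc a b hab s) with hX
  have hXc : ∀ Y, Continuous (X Y) := by
    intro Y
    have h1 : Continuous fun s : ℝ => Real.exp (l * (s - a)) := by fun_prop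
    exact h1.smul (Y.continuous.comp continuous_projIcc)
  have hXi : ∀ Y, IntervalIntegrable (fun s => Ψ s (X Y s)) volume a b := fun Y => hm _ (hXc Y)
  have hXi' : ∀ Y, ∀ t ∈ Icc a b, IntervalIntegrable (fun s => Ψ s (X Y s)) volume a t := by
    intro Y t ht
    refine (hXi Y).mono_set ?_
    rw [uIcc_of_le ht.1, uIcc_of_le hab]
    exact Icc_subset_Icc_right ht.2
  have hTc : ∀ Y, Continuous fun t : Icc a b => Real.exp (-(l * ((t : ℝ) - a))) • (x₀ + ∫ s in a..(t : ℝ), Ψ s (X Y s)) := by
    intro Y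
    have h1 : ContinuousOn (fun t => ∫ s in a..t, Ψ s (X Y s)) (Icc a b) := by
      have := intervalIntegral.continuousOn_primitive_interval' (hXi Y) left_mem_uIcc
      rwa [uIcc_of_le hab] at this
    have h2 : Continuous fun t : Icc a b => ∫ s in a..(t : ℝ), Ψ s (X Y s) := continuousOn_iff_continuous_restrict.1 h1
    have h3 : Continuous fun t : Icc a b => Real.exp (-(l * ((t : ℝ) - a))) := by fun_prop
    exact h3.smul (continuous_const.add h2)
  set T : C(Icc a b, E) → C(Icc a b, E) := fun Y =>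
    ⟨fun t : Icc a b => Real.exp (-(l * ((t : ℝ) - a))) • (x₀ + ∫ s in a..(t : ℝ), Ψ s (X Y s)), hTc Y⟩ with hT
  have hcontr : ContractingWith (1 / 2) T := by
    refine ⟨by norm_num, LipschitzWith.of_dist_le_mul fun Y W => ?_⟩
    rw [ContinuousMap.dist_le (by positivity)]
    intro t
    have ht := t.2
    have hsub : T Y t - T W t = Real.exp (-(l * ((t : ℝ) - a))) • ∫ s in a..(t : ℝ), (Ψ s (X Y s) - Ψ s (X W s)) := by
      rw [intervalIntegral.integral_sub (hXi' Y t ht) (hXi' W t ht)]
      show Real.exp (-(l * ((t : ℝ) - a))) • (x₀ + ∫ s in a..(t : ℝ), Ψ s (X Y s)) -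
        Real.exp (-(l * ((t : ℝ) - a))) • (x₀ + ∫ s in a..(t : ℝ), Ψ s (X W s)) = _
      rw [← smul_sub]; congr 1; abel
    have hbound : ‖∫ s in a..(t : ℝ), (Ψ s (X Y s) - Ψ s (X W s))‖
        ≤ ∫ s in a..(t : ℝ), L * dist Y W * Real.exp (l * (s - a)) := by
      refine intervalIntegral.norm_integral_le_of_norm_le ht.1 (ae_of_all _ fun s hs => ?_)
        ((by fun_prop : Continuous fun s => L * dist Y W * Real.exp (l * (s - a))).intervalIntegrable _ _)
      have hs' : s ∈ Icc a b := ⟨hs.1.le, hs.2.trans ht.2⟩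
      refine (hl s hs' _ _).trans ?_
      have h1 : X Y s - X W s = Real.exp (l * (s - a)) • (Y (projIcc a b hab s) - W (projIcc a b hab s)) := by
        rw [smul_sub]
      have h2 : ‖Y (projIcc a b hab s) - W (projIcc a b hab s)‖ ≤ dist Y W := by
        rw [← dist_eq_norm]; exact ContinuousMap.dist_apply_le_dist _
      rw [h1, norm_smul, Real.norm_of_nonneg (Real.exp_pos _).le]
      calc L * (Real.exp (l * (s - a)) * ‖Y (projIcc a b hab s) - W (projIcc a b hab s)‖)
          ≤ L * (Real.exp (l * (s - a)) * dist Y W) := by gcongr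
        _ = L * dist Y W * Real.exp (l * (s - a)) := by ring
    have hval : ∫ s in a..(t : ℝ), L * dist Y W * Real.exp (l * (s - a))
        = L * dist Y W * ((Real.exp (l * ((t : ℝ) - a)) - 1) / l) := by
      rw [intervalIntegral.integral_const_mul]
      congr 1
      have hd : ∀ s ∈ uIcc a (t : ℝ), HasDerivAt (fun s => Real.exp (l * (s - a)) / l) (Real.exp (l * (s - a))) s := by
        intro s _
        have h1 : HasDerivAt (fun s => Real.exp (l * (s - a))) (Real.exp (l * (s - a)) * (l * 1)) s :=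
          (((hasDerivAt_id s).sub_const a).const_mul l).exp
        have h2 := h1.div_const l
        have e : Real.exp (l * (s - a)) * (l * 1) / l = Real.exp (l * (s - a)) := by field_simp
        rwa [e] at h2
      rw [intervalIntegral.integral_eq_sub_of_hasDerivAt hd
        ((by fun_prop : Continuous fun s => Real.exp (l * (s - a))).intervalIntegrable _ _)]
      simp only [sub_self, mul_zero, Real.exp_zero]
      ring
    rw [dist_eq_norm, hsub, norm_smul, Real.norm_of_nonneg (Real.exp_pos _).le]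
    have h5 : Real.exp (-(l * ((t : ℝ) - a))) * ((Real.exp (l * ((t : ℝ) - a)) - 1) / l) ≤ 1 / l := by
      rw [mul_div_assoc', mul_sub, ← Real.exp_add]
      have : -(l * ((t : ℝ) - a)) + l * ((t : ℝ) - a) = 0 := by ring
      rw [this, Real.exp_zero]
      have := Real.exp_pos (-(l * ((t : ℝ) - a)))
      gcongr
      linarith
    have h6 : L * (1 / l) ≤ 1 / 2 := by
      rw [mul_one_div, div_le_div_iff₀ hlpos (by norm_num)]
      rw [hl0]; linarith
    have hd0 : 0 ≤ dist Y W := dist_nonneg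
    calc Real.exp (-(l * ((t : ℝ) - a))) * ‖∫ s in a..(t : ℝ), (Ψ s (X Y s) - Ψ s (X W s))‖
        ≤ Real.exp (-(l * ((t : ℝ) - a))) * (L * dist Y W * ((Real.exp (l * ((t : ℝ) - a)) - 1) / l)) := by
          rw [← hval]
          exact mul_le_mul_of_nonneg_left hbound (Real.exp_pos _).le
      _ = L * dist Y W * (Real.exp (-(l * ((t : ℝ) - a))) * ((Real.exp (l * ((t : ℝ) - a)) - 1) / l)) := by ring
      _ ≤ L * dist Y W * (1 / l) := mul_le_mul_of_nonneg_left h5 (by positivity)
      _ = L * (1 / l) * dist Y W := by ring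
      _ ≤ 1 / 2 * dist Y W := mul_le_mul_of_nonneg_right h6 hd0
      _ = ((1 / 2 : NNReal) : ℝ) * dist Y W := by norm_num
  haveI : Nonempty (Icc a b) := ⟨⟨a, left_mem_Icc.2 hab⟩⟩
  obtain ⟨Y, hY⟩ : ∃ Y, T Y = Y := ⟨_, hcontr.fixedPoint_isFixedPt⟩
  have hfix : ∀ t (ht : t ∈ Icc a b), X Y t = x₀ + ∫ s in a..t, Ψ s (X Y s) := by
    intro t ht
    have h1 : T Y ⟨t, ht⟩ = Y ⟨t, ht⟩ := by rw [hY]
    have h2 : T Y ⟨t, ht⟩ = Real.exp (-(l * (t - a))) • (x₀ + ∫ s in a..t, Ψ s (X Y s)) := rfl
    show Real.exp (l * (t - a)) • Y (projIcc a b hab t) = _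
    rw [projIcc_of_mem hab ht, ← h1, h2, smul_smul, ← Real.exp_add]
    have : l * (t - a) + -(l * (t - a)) = 0 := by ring
    rw [this, Real.exp_zero, one_smul]
  refine ⟨X Y, hXc Y, ?_, hfix⟩
  have := hfix a (left_mem_Icc.2 hab)
  simpa using this

end Pool.Agent.Lib.MP_28b8de_an.PT
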