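import Pool.Agent.Lib.MP_28b8de_an.P.PRel
import Pool.Agent.Lib.MP_28b8de_an.P.PGron
import Pool.Agent.Lib.MP_28b8de_an.Gap

/-!
MP_28b8de_an, module PRelMin (PTD-PRelMin): relay, k odd, e B < 0 (energy).

PROOF.  θ := e/B < 0 (continuous, bounded away from 0 on Icc s s', Lipschitz).  E := |φ| - β φ - θ z^{k+1}/(k+1).  All terms are Lipschitz on Icc s s'
(z, φ have bounded a.e. derivatives; |φ| too; products of Lipschitz functions).  k + 1 is even: E ≥ c (|φ| + |z|^{k+1}) for some c > 0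
(|β| ≤ 1 - c by compactness, -θ ≥ c').  A.e.: |φ|' = u φ' (der_abs in Gap.lean: at a.e. zero of φ the derivative of φ is 0), so
E' = (u - β) φ' - β' φ - θ' z^{k+1}/(k+1) - θ z^k z' with z' = B (u - β), θ B = e, φ' = N + μ φ:
E' = (u - β)(N - e z^k) + (u-β) μ φ - β' φ - θ' z^{k+1}/(k+1) ≤ K' (|φ| + |z|^{k+1}) ≤ K'' E.
(|β'|, |θ'| ≤ Lipschitz constants where they exist: a.e.)  E s = 0, so E t ≤ K'' ∫_s^t E and `gron` gives E ≤ 0: z = 0.
Note: for the integral form E t = ∫_s^t E' use absolute continuity of E (Lipschitz).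
-/

namespace Pool.Agent.Lib.MP_28b8de_an.PT

open Filter Topology Set MeasureTheory

theorem prm_ac_congr {f g : ℝ → ℝ} {a b : ℝ} (h : AbsolutelyContinuousOnInterval f a b)
    (hfg : ∀ t ∈ uIcc a b, g t = f t) : AbsolutelyContinuousOnInterval g a b := by
  rw [absolutelyContinuousOnInterval_iff] at h ⊢
  intro ε hε
  obtain ⟨δ, hδ, hE⟩ := h ε hε
  refine ⟨δ, hδ, fun E hE1 hE2 => ?_⟩
  refine lt_of_eq_of_lt (Finset.sum_congr rfl fun i hi => ?_) (hE E hE1 hE2)
  have h1 := hE1.1 i (Finset.mem_coe.mpr hi)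
  rw [hfg _ h1.1, hfg _ h1.2]

theorem prm_int {f g : ℝ → ℝ} {s s' : ℝ} (hs : s < s') (hg : IntervalIntegrable g volume s s')
    (hf : ∀ t ∈ Icc s s', f t = ∫ r in s..t, g r) :
    AbsolutelyContinuousOnInterval f s s' ∧ ∀ᵐ t, t ∈ uIoc s s' → HasDerivAt f (g t) t := by
  have hI : uIcc s s' = Icc s s' := uIcc_of_le hs.le
  constructor
  · refine prm_ac_congr (hg.absolutelyContinuousOnInterval_intervalIntegral
      (c := s) left_mem_uIcc) fun t ht => ?_
    rw [hI] at ht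
    exact hf t ht
  · have h1 := hg.ae_hasDerivAt_integral
    have h2 : ∀ᵐ t : ℝ, t ≠ s' := by
      rw [ae_iff]
      simp
    filter_upwards [h1, h2] with t ht1 ht2 ht
    rw [uIoc_of_le hs.le] at ht
    have htI : t ∈ uIcc s s' := by
      rw [hI]
      exact ⟨ht.1.le, ht.2⟩
    have h3 := ht1 htI s left_mem_uIcc
    refine h3.congr_of_eventuallyEq ?_
    have h4 : Ioo s s' ∈ 𝓝 t := Ioo_mem_nhds ht.1 (lt_of_le_of_ne ht.2 ht2)
    filter_upwards [h4] with r hr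
    exact hf r ⟨hr.1.le, hr.2.le⟩

theorem prm_lip {f : ℝ → ℝ} {s s' : ℝ} (hs : s < s') {L : NNReal}
    (hf : LipschitzOnWith L f (Icc s s')) :
    AbsolutelyContinuousOnInterval f s s' ∧ ∀ᵐ t, t ∈ uIoc s s' → HasDerivAt f (deriv f t) t ∧
      |deriv f t| ≤ L := by
  have hI : uIcc s s' = Icc s s' := uIcc_of_le hs.le
  have hac : AbsolutelyContinuousOnInterval f s s' := by
    apply LipschitzOnWith.absolutelyContinuousOnInterval (K := L)
    rw [hI]
    exact hf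
  refine ⟨hac, ?_⟩
  have h2 : ∀ᵐ t : ℝ, t ≠ s' := by
    rw [ae_iff]
    simp
  filter_upwards [hac.ae_differentiableAt, h2] with t ht1 ht2 ht
  rw [uIoc_of_le hs.le] at ht
  have htI : t ∈ uIcc s s' := by
    rw [hI]
    exact ⟨ht.1.le, ht.2⟩
  refine ⟨(ht1 htI).hasDerivAt, ?_⟩
  have h4 : Icc s s' ∈ 𝓝 t := Icc_mem_nhds ht.1 (lt_of_le_of_ne ht.2 ht2)
  have := norm_deriv_le_of_lipschitzOn h4 hf
  rwa [Real.norm_eq_abs] at this

theorem prm_pow {z : ℝ → ℝ} {s s' : ℝ} (hz : AbsolutelyContinuousOnInterval z s s') (m : ℕ) :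
    AbsolutelyContinuousOnInterval (fun t => z t ^ m) s s' := by
  induction m with
  | zero =>
    simp only [pow_zero]
    exact ContDiffOn.absolutelyContinuousOnInterval contDiffOn_const
  | succ m ih =>
    have : (fun t => z t ^ (m + 1)) = (fun t => z t ^ m * z t) := by
      funext t
      rw [pow_succ]
    rw [this]
    exact ih.fun_mul hz

theorem prm_u {u : ℝ → ℝ} (um : Measurable u) (ub : ∀ t, |u t| ≤ 1) (s s' : ℝ) :
    IntervalIntegrable u volume s s' := by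
  rw [intervalIntegrable_iff]
  refine Measure.integrableOn_of_bounded (M := 1) ?_ um.aestronglyMeasurable
    (Eventually.of_forall fun t => ?_)
  · rw [uIoc, Real.volume_Ioc]
    exact ENNReal.ofReal_ne_top
  · rw [Real.norm_eq_abs]
    exact ub t

/-- the pointwise identity and bound -/
theorem prm_bound {k : ℕ} {K u β β' φ N μ e θ θ' z B Mμ Lβ Lθ : ℝ} (hK : 0 ≤ K) (hM : 0 ≤ Mμ)
    (hLβ0 : 0 ≤ Lβ) (hLθ0 : 0 ≤ Lθ)
    (hu : |u| ≤ 1) (hβ : |β| < 1) (hμ : |μ| ≤ Mμ) (hβ' : |β'| ≤ Lβ) (hθ' : |θ'| ≤ Lθ)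
    (hθ : θ * B = e) (hN : |N - e * z ^ k| ≤ K * |z| ^ (k + 1)) :
    u * (N + μ * φ) - (β' * φ + β * (N + μ * φ)) -
      (θ' * (z ^ (k + 1) / (k + 1)) + θ * (z ^ k * (B * (u - β)))) ≤
      (2 * K + 2 * Mμ + Lβ + Lθ) * (|φ| + |z| ^ (k + 1)) := by
  have e1 : u * (N + μ * φ) - (β' * φ + β * (N + μ * φ)) -
      (θ' * (z ^ (k + 1) / (k + 1)) + θ * (z ^ k * (B * (u - β)))) =
      (u - β) * (N - e * z ^ k) + (u - β) * (μ * φ) - β' * φ - θ' * (z ^ (k + 1) / (k + 1)) := by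
    rw [← hθ]
    ring
  rw [e1]
  have hub : |u - β| ≤ 2 := by
    refine (abs_sub _ _).trans ?_
    linarith
  have hz0 : 0 ≤ |z| ^ (k + 1) := by positivity
  have hφ0 : 0 ≤ |φ| := abs_nonneg _
  have b1 : (u - β) * (N - e * z ^ k) ≤ 2 * (K * |z| ^ (k + 1)) := by
    refine (le_abs_self _).trans ?_
    rw [abs_mul]
    exact mul_le_mul hub hN (abs_nonneg _) (by norm_num)
  have b2 : (u - β) * (μ * φ) ≤ 2 * (Mμ * |φ|) := by
    refine (le_abs_self _).trans ?_
    rw [abs_mul, abs_mul]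
    exact mul_le_mul hub (mul_le_mul_of_nonneg_right hμ hφ0) (by positivity) (by norm_num)
  have b3 : -(β' * φ) ≤ Lβ * |φ| := by
    refine (neg_le_abs _).trans ?_
    rw [abs_mul]
    exact mul_le_mul_of_nonneg_right hβ' hφ0
  have b4 : -(θ' * (z ^ (k + 1) / (k + 1))) ≤ Lθ * |z| ^ (k + 1) := by
    refine (neg_le_abs _).trans ?_
    rw [abs_mul, abs_div, abs_pow]
    refine mul_le_mul hθ' ?_ (by positivity) hLθ0
    have hk1 : (1 : ℝ) ≤ |(k : ℝ) + 1| := by
      rw [abs_of_nonneg (by positivity)]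
      have : (0 : ℝ) ≤ k := Nat.cast_nonneg k
      linarith
    exact div_le_self hz0 hk1
  have c1 : 0 ≤ K * |φ| := by positivity
  have c2 : 0 ≤ Mμ * |z| ^ (k + 1) := by positivity
  have c3 : 0 ≤ Lβ * |z| ^ (k + 1) := by positivity
  have c4 : 0 ≤ Lθ * |φ| := by positivity
  nlinarith

theorem rel_min {k : ℕ} {K s s' : ℝ} {z φ u B β N μ e : ℝ → ℝ}
    (h : Rel k K s s' z φ u B β N μ e) (hk : Odd k) (heB : ∀ t ∈ Icc s s', e t * B t < 0) :
    ∀ t ∈ Icc s s', z t = 0 := by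
  have hs := h.hs
  have hI : uIcc s s' = Icc s s' := uIcc_of_le hs.le
  have hne : (Icc s s').Nonempty := nonempty_Icc.mpr hs.le
  obtain ⟨Lβ, hβl⟩ := h.βl
  obtain ⟨Lθ, hθl⟩ := h.θl
  obtain ⟨acβ, dβ⟩ := prm_lip hs hβl
  obtain ⟨acθ, dθ⟩ := prm_lip hs hθl
  set θ : ℝ → ℝ := fun t => e t / B t with hθdef
  have hθB : ∀ t ∈ Icc s s', θ t * B t = e t := fun t ht => div_mul_cancel₀ _ (h.B0 t ht)
  have hu : IntervalIntegrable u volume s s' := prm_u h.um h.ub s s'
  have hβi : IntervalIntegrable β volume s s' := by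
    apply ContinuousOn.intervalIntegrable
    rw [hI]
    exact h.βc
  have hzi : IntervalIntegrable (fun r => B r * (u r - β r)) volume s s' := by
    apply (hu.sub hβi).continuousOn_mul
    rw [hI]
    exact h.Bc
  have hφi : IntervalIntegrable (fun r => N r + μ r * φ r) volume s s' := by
    apply ContinuousOn.intervalIntegrable
    rw [hI]
    exact h.Nc.add (h.μc.mul h.φc)
  obtain ⟨acz, dz⟩ := prm_int hs hzi h.zeq
  obtain ⟨acφ, dφ⟩ := prm_int hs hφi h.φeq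
  have hus : ∀ᵐ t, t ∈ uIoc s s' → u t * φ t = |φ t| := by
    filter_upwards [h.usgn] with t ht htm
    rw [uIoc_of_le hs.le] at htm
    exact ht ⟨htm.1.le, htm.2⟩
  have dabs := der_abs acφ dφ hus
  -- the energy
  set E : ℝ → ℝ := fun t => |φ t| - β t * φ t - θ t * (z t ^ (k + 1) / (k + 1)) with hE
  have acE : AbsolutelyContinuousOnInterval E s s' := by
    have h1 : AbsolutelyContinuousOnInterval (fun t => z t ^ (k + 1) / ((k : ℝ) + 1)) s s' := by
      have h2 := (prm_pow acz (k + 1)).const_mul (1 / ((k : ℝ) + 1))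
      have e2 : (fun t => z t ^ (k + 1) / ((k : ℝ) + 1)) =
          fun t => 1 / ((k : ℝ) + 1) * z t ^ (k + 1) := by
        funext t
        ring
      rw [e2]
      exact h2
    exact ((ac_abs acφ).fun_sub (acβ.fun_mul acφ)).fun_sub (acθ.fun_mul h1)
  have dE : ∀ᵐ t, t ∈ uIoc s s' → HasDerivAt E (u t * (N t + μ t * φ t) -
      (deriv β t * φ t + β t * (N t + μ t * φ t)) -
      (deriv θ t * (z t ^ (k + 1) / (k + 1)) + θ t * (z t ^ k * (B t * (u t - β t))))) t := by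
    filter_upwards [dabs, dβ, dθ, dz, dφ] with t h1 h2 h3 h4 h5 ht
    have hk0 : (k : ℝ) + 1 ≠ 0 := by positivity
    have hz1 : HasDerivAt (fun t => z t ^ (k + 1) / ((k : ℝ) + 1))
        (z t ^ k * (B t * (u t - β t))) t := by
      have h6 := ((h4 ht).fun_pow (k + 1)).div_const ((k : ℝ) + 1)
      have e6 : (((k + 1 : ℕ) : ℝ) * z t ^ (k + 1 - 1) * (B t * (u t - β t))) / ((k : ℝ) + 1) =
          z t ^ k * (B t * (u t - β t)) := by
        rw [Nat.add_sub_cancel]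
        push_cast
        field_simp
      rw [e6] at h6
      exact h6
    exact ((h1 ht).sub ((h2 ht).1.mul (h5 ht))).sub ((h3 ht).1.mul hz1)
  -- bounds
  obtain ⟨tμ, -, hμm⟩ := isCompact_Icc.exists_isMaxOn hne h.μc.abs
  set Mμ : ℝ := |μ tμ| with hMμ
  have hMμ0 : 0 ≤ Mμ := abs_nonneg _
  have hμb : ∀ t ∈ Icc s s', |μ t| ≤ Mμ := fun t ht => hμm ht
  obtain ⟨tβ, htβ, hβm⟩ := isCompact_Icc.exists_isMaxOn hne h.βc.abs
  have hβb : ∀ t ∈ Icc s s', |β t| ≤ |β tβ| := fun t ht => hβm ht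
  have hβ1 : |β tβ| < 1 := h.β1 tβ htβ
  have hθc : ContinuousOn θ (Icc s s') := h.ec.div h.Bc h.B0
  obtain ⟨tθ, htθ, hθm⟩ := isCompact_Icc.exists_isMaxOn hne hθc
  have hθb : ∀ t ∈ Icc s s', θ t ≤ θ tθ := fun t ht => hθm ht
  have hθneg : θ tθ < 0 := by
    have h1 := heB tθ htθ
    have h2 := h.B0 tθ htθ
    have h3 : θ tθ = e tθ * B tθ / (B tθ) ^ 2 := by
      rw [hθdef]
      field_simp
    rw [h3]
    exact div_neg_of_neg_of_pos h1 (by positivity)
  set c : ℝ := min (1 - |β tβ|) (-(θ tθ) / (k + 1)) with hc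
  have hk1 : (0 : ℝ) < (k : ℝ) + 1 := by positivity
  have hc0 : 0 < c := lt_min (by linarith) (div_pos (by linarith) hk1)
  have heven : Even (k + 1) := hk.add_one
  have hEc : ∀ t ∈ Icc s s', c * (|φ t| + |z t| ^ (k + 1)) ≤ E t := by
    intro t ht
    have e1 : z t ^ (k + 1) = |z t| ^ (k + 1) := (heven.pow_abs (z t)).symm
    have hz0 : 0 ≤ |z t| ^ (k + 1) := by positivity
    have h1 : β t * φ t ≤ |β tβ| * |φ t| := by
      refine (le_abs_self _).trans ?_
      rw [abs_mul]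
      exact mul_le_mul_of_nonneg_right (hβb t ht) (abs_nonneg _)
    have h2 : c * |φ t| ≤ (1 - |β tβ|) * |φ t| :=
      mul_le_mul_of_nonneg_right (min_le_left _ _) (abs_nonneg _)
    have h3 : c * |z t| ^ (k + 1) ≤ -(θ tθ) / (k + 1) * |z t| ^ (k + 1) :=
      mul_le_mul_of_nonneg_right (min_le_right _ _) hz0
    have h4 : θ t * (|z t| ^ (k + 1) / (k + 1)) ≤ θ tθ * (|z t| ^ (k + 1) / (k + 1)) :=
      mul_le_mul_of_nonneg_right (hθb t ht) (by positivity)
    have h5 : -(θ tθ) / (k + 1) * |z t| ^ (k + 1) = -(θ tθ * (|z t| ^ (k + 1) / (k + 1))) := by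
      ring
    show c * (|φ t| + |z t| ^ (k + 1)) ≤ |φ t| - β t * φ t - θ t * (z t ^ (k + 1) / (k + 1))
    rw [e1]
    linarith
  set K1 : ℝ := 2 * K + 2 * Mμ + Lβ + Lθ with hK1
  have hK10 : 0 ≤ K1 := by
    have := h.hK
    have h1 : (0 : ℝ) ≤ Lβ := Lβ.2
    have h2 : (0 : ℝ) ≤ Lθ := Lθ.2
    positivity
  have hEs : E s = 0 := by
    have h1 : z s = 0 := by
      rw [h.zeq s (left_mem_Icc.mpr hs.le), intervalIntegral.integral_same]
    have h2 : φ s = 0 := by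
      rw [h.φeq s (left_mem_Icc.mpr hs.le), intervalIntegral.integral_same]
    show |φ s| - β s * φ s - θ s * (z s ^ (k + 1) / (k + 1)) = 0
    rw [h1, h2]
    simp
  have hEcont : ContinuousOn E (Icc s s') := by
    rw [← hI]
    exact acE.continuousOn
  have hmain : ∀ t ∈ Icc s s', E t ≤ 0 + K1 / c * ∫ r in s..t, E r := by
    intro t ht
    have hsub : uIcc s t ⊆ uIcc s s' := by
      rw [hI, uIcc_of_le ht.1]
      exact Icc_subset_Icc_right ht.2
    have hacT := acE.mono hsub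
    have hftc := hacT.integral_deriv_eq_sub
    rw [hEs, sub_zero] at hftc
    rw [zero_add, ← hftc, ← intervalIntegral.integral_const_mul]
    have hEi : IntervalIntegrable E volume s t := by
      apply ContinuousOn.intervalIntegrable
      rw [uIcc_of_le ht.1]
      exact hEcont.mono (Icc_subset_Icc_right ht.2)
    apply intervalIntegral.integral_mono_ae_restrict ht.1 hacT.intervalIntegrable_deriv
      (hEi.const_mul _)
    rw [Filter.EventuallyLE, ae_restrict_iff' measurableSet_Icc]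
    have hae : ∀ᵐ r : ℝ, r ≠ s := by
      rw [ae_iff]
      simp
    filter_upwards [dE, dβ, dθ, hae] with r h1 h2 h3 h4 hr
    have hrI : r ∈ Icc s s' := ⟨hr.1, hr.2.trans ht.2⟩
    have hrm : r ∈ uIoc s s' := by
      rw [uIoc_of_le hs.le]
      exact ⟨lt_of_le_of_ne hr.1 (Ne.symm h4), hrI.2⟩
    rw [(h1 hrm).deriv]
    have h5 := prm_bound (k := k) (K := K) (u := u r) (β := β r) (β' := deriv β r) (φ := φ r)
      (N := N r) (μ := μ r) (e := e r) (θ := θ r) (θ' := deriv θ r) (z := z r) (B := B r)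
      (Mμ := Mμ) (Lβ := Lβ) (Lθ := Lθ) h.hK hMμ0 Lβ.2 Lθ.2 (h.ub r) (h.β1 r hrI) (hμb r hrI)
      (h2 hrm).2 (h3 hrm).2 (hθB r hrI) (h.N1 r hrI)
    refine h5.trans ?_
    have h6 := hEc r hrI
    have h7 : |φ r| + |z r| ^ (k + 1) ≤ E r / c := by
      rw [le_div_iff₀ hc0]
      linarith
    calc K1 * (|φ r| + |z r| ^ (k + 1)) ≤ K1 * (E r / c) := mul_le_mul_of_nonneg_left h7 hK10
      _ = K1 / c * E r := by ring
  have hfin := gron hEcont (by positivity : 0 ≤ K1 / c) hmain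
  intro t ht
  have h1 := hfin t ht
  rw [zero_mul] at h1
  have h2 := hEc t ht
  have h3 : 0 ≤ |φ t| := abs_nonneg _
  have h4 : |z t| ^ (k + 1) ≤ 0 := by
    by_contra hcon
    push Not at hcon
    have : 0 < c * (|φ t| + |z t| ^ (k + 1)) := by positivity
    linarith
  have h5 : |z t| ^ (k + 1) = 0 := le_antisymm h4 (by positivity)
  exact abs_eq_zero.mp (pow_eq_zero_iff (Nat.succ_ne_zero k) |>.mp h5)

end Pool.Agent.Lib.MP_28b8de_an.PT
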