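import Pool.Agent.Lib.MP_28b8de_an.P.PDefs

/-!
MP_28b8de_an, module PCut: cutting off analytic fields outside a box.
-/

namespace Pool.Agent.Lib.MP_28b8de_an.PT

open Filter Topology Set MeasureTheory

theorem isOpen_box (R : ℝ) : IsOpen (Box R) := isOpen_Ioo.prod (isOpen_Ioo.prod isOpen_Ioo)

theorem box_sub_ball {R : ℝ} (hR : 0 < R) : Box R ⊆ Metric.ball (0 : ℝ × ℝ × ℝ) R := by
  rintro ⟨t, x, y⟩ ⟨ht, hx, hy⟩
  rw [mem_ball_zero_iff, Prod.norm_def, Prod.norm_def]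
  simp only [Real.norm_eq_abs]
  exact max_lt (abs_lt.2 ht) (max_lt (abs_lt.2 hx) (abs_lt.2 hy))

/-- a smooth compactly supported function is bounded, has bounded and Lipschitz derivative -/
theorem cut_bounds {H : ℝ × ℝ × ℝ → ℝ × ℝ} (hs : ContDiff ℝ (⊤ : ℕ∞) H)
    (hc : HasCompactSupport H) : ∃ M : ℝ, 1 ≤ M ∧ (∀ z, ‖H z‖ ≤ M) ∧ (∀ z, ‖fderiv ℝ H z‖ ≤ M) ∧
      ∀ z w, ‖fderiv ℝ H z - fderiv ℝ H w‖ ≤ M * ‖z - w‖ := by
  obtain ⟨M₁, h₁⟩ := hc.exists_bound_of_continuous hs.continuous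
  have hf : ContDiff ℝ (⊤ : ℕ∞) (fderiv ℝ H) := hs.fderiv_right (by simp)
  have hfc : HasCompactSupport (fderiv ℝ H) := hc.fderiv ℝ
  obtain ⟨M₂, h₂⟩ := hfc.exists_bound_of_continuous hf.continuous
  obtain ⟨M₃, h₃⟩ := ContDiff.lipschitzWith_of_hasCompactSupport hfc hf (by simp)
  refine ⟨max 1 (max M₁ (max M₂ M₃)), le_max_left _ _, fun z => ?_, fun z => ?_, fun z w => ?_⟩
  · exact (h₁ z).trans ((le_max_left _ _).trans (le_max_right _ _))
  · exact (h₂ z).trans ((le_max_left _ _).trans ((le_max_right _ _).trans (le_max_right _ _)))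
  · have h := h₃.dist_le_mul z w
    rw [dist_eq_norm, dist_eq_norm] at h
    refine h.trans (mul_le_mul_of_nonneg_right ?_ (norm_nonneg _))
    exact (le_max_right _ _).trans ((le_max_right _ _).trans (le_max_right _ _))

theorem cut_env {F G : ℝ × ℝ × ℝ → ℝ × ℝ} (hF : AnalyticOnNhd ℝ F univ)
    (hG : AnalyticOnNhd ℝ G univ) {R : ℝ} (hR : 0 < R) :
    ∃ (F' G' : ℝ × ℝ × ℝ → ℝ × ℝ) (M : ℝ), Env F' G' R M ∧ (∀ z ∈ Box R, F' z = F z) ∧
      ∀ z ∈ Box R, G' z = G z := by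
  obtain ⟨χ⟩ : Nonempty (ContDiffBump (0 : ℝ × ℝ × ℝ)) := ⟨⟨R, R + 1, hR, by linarith⟩⟩
  let χ : ContDiffBump (0 : ℝ × ℝ × ℝ) := ⟨R, R + 1, hR, by linarith⟩
  have hχs : ContDiff ℝ (⊤ : ℕ∞) χ := χ.contDiff
  have hχc : HasCompactSupport χ := χ.hasCompactSupport
  have hχ1 : ∀ z ∈ Box R, χ z = 1 := fun z hz =>
    χ.one_of_mem_closedBall (Metric.ball_subset_closedBall (box_sub_ball hR hz))
  have hFs : ContDiff ℝ (⊤ : ℕ∞) F := by
    rw [contDiff_iff_contDiffAt]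
    exact fun z => (hF z (mem_univ _)).contDiffAt
  have hGs : ContDiff ℝ (⊤ : ℕ∞) G := by
    rw [contDiff_iff_contDiffAt]
    exact fun z => (hG z (mem_univ _)).contDiffAt
  obtain ⟨M₁, hM₁, a1, a2, a3⟩ := cut_bounds (H := fun z => χ z • F z) (hχs.smul hFs)
    (hχc.smul_right)
  obtain ⟨M₂, hM₂, b1, b2, b3⟩ := cut_bounds (H := fun z => χ z • G z) (hχs.smul hGs)
    (hχc.smul_right)
  have e1 : ∀ z ∈ Box R, χ z • F z = F z := fun z hz => by rw [hχ1 z hz, one_smul]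
  have e2 : ∀ z ∈ Box R, χ z • G z = G z := fun z hz => by rw [hχ1 z hz, one_smul]
  refine ⟨fun z => χ z • F z, fun z => χ z • G z, max M₁ M₂, ?_, e1, e2⟩
  refine ⟨hM₁.trans (le_max_left _ _), hχs.smul hFs, hχs.smul hGs, ?_, ?_,
    fun z => (a1 z).trans (le_max_left _ _), fun z => (b1 z).trans (le_max_right _ _),
    fun z => (a2 z).trans (le_max_left _ _), fun z => (b2 z).trans (le_max_right _ _),
    fun z w => (a3 z w).trans (mul_le_mul_of_nonneg_right (le_max_left _ _) (norm_nonneg _)),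
    fun z w => (b3 z w).trans (mul_le_mul_of_nonneg_right (le_max_right _ _) (norm_nonneg _))⟩
  · intro z hz
    refine (hF z (mem_univ _)).congr ?_
    filter_upwards [(isOpen_box R).mem_nhds hz] with w hw
    exact (e1 w hw).symm
  · intro z hz
    refine (hG z (mem_univ _)).congr ?_
    filter_upwards [(isOpen_box R).mem_nhds hz] with w hw
    exact (e2 w hw).symm

end Pool.Agent.Lib.MP_28b8de_an.PT
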