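import Pool.Agent.Lib.MP_28b8de_an.P.PDefs

/-!
MP_28b8de_an, module PKder (PTD-PKder): derivatives along a perfect set, and consequences of int = 0.

PROOFS.  kder: let ε > 0, t_n → t in C ∩ Ioo α β, t_n ≠ t.  0 = m t_n - m t = ∫_t^{t_n} (A + u B); by continuity of A, B at t
|∫_t^{t_n} (A + uB) - (t_n - t)(A t + c_n B t)| ≤ ε |t_n - t| with c_n = (∫_t^{t_n} u)/(t_n - t) ∈ [-1,1]
(∫_t^{t_n} u(r) B(r) dr = B t ∫ u + ∫ u (B r - B t)).  So |A t| ≤ |B t| + ε.
ae_zero: if ∫_s^{s'} f = 0 for all s, s' in [a,b] then f = 0 a.e. on (a,b) (Lebesgue differentiation, or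
`ae_eq_zero_of_forall_setIntegral...`/ derivative of the primitive).
-/

namespace Pool.Agent.Lib.MP_28b8de_an.PT

open Filter Topology Set MeasureTheory

theorem kder {T : ℝ} {C : Set ℝ} (hC : Perf T C) {t α β : ℝ} (ht : t ∈ C) (htI : t ∈ Ioo α β)
    {A B u m : ℝ → ℝ} (hu : Adm u) (hA : ContinuousOn A (Ioo α β)) (hB : ContinuousOn B (Ioo α β))
    (hm : ∀ s ∈ C, s ∈ Ioo α β → m s = 0)
    (hint : ∀ s ∈ Ioo α β, ∀ s' ∈ Ioo α β, m s' - m s = ∫ r in s..s', (A r + u r * B r)) :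
    |A t| ≤ |B t| := by
  refine le_of_forall_pos_le_add fun ε hε => ?_
  have hn : Ioo α β ∈ 𝓝 t := Ioo_mem_nhds htI.1 htI.2
  have hAt : ContinuousAt A t := hA.continuousAt hn
  have hBt : ContinuousAt B t := hB.continuousAt hn
  have e1 : ∀ᶠ r in 𝓝 t, |A r - A t| < ε / 2 := by
    have := Metric.tendsto_nhds.1 hAt (ε / 2) (by positivity)
    simpa [Real.dist_eq] using this
  have e2 : ∀ᶠ r in 𝓝 t, |B r - B t| < ε / 2 := by
    have := Metric.tendsto_nhds.1 hBt (ε / 2) (by positivity)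
    simpa [Real.dist_eq] using this
  obtain ⟨δ, hδ, hball⟩ := Metric.eventually_nhds_iff.1 ((e1.and e2).and (eventually_mem_set.2 hn))
  obtain ⟨s, hsC, hst, hsd⟩ := hC.acc t ht δ hδ
  have hsub : ∀ r ∈ uIcc t s, |A r - A t| < ε / 2 ∧ |B r - B t| < ε / 2 ∧ r ∈ Ioo α β := by
    intro r hr
    have hr2 : dist r t < δ := by
      rw [Real.dist_eq]
      refine lt_of_le_of_lt ?_ hsd
      have := abs_sub_left_of_mem_uIcc hr
      exact this
    obtain ⟨⟨h1, h2⟩, h3⟩ := hball hr2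
    exact ⟨h1, h2, h3⟩
  have hsI : s ∈ Ioo α β := (hsub s right_mem_uIcc).2.2
  have hAi : IntervalIntegrable A volume t s :=
    (hA.mono fun r hr => (hsub r hr).2.2).intervalIntegrable
  have hBi : IntervalIntegrable B volume t s :=
    (hB.mono fun r hr => (hsub r hr).2.2).intervalIntegrable
  have huB : IntervalIntegrable (fun r => u r * B r) volume t s := by
    rw [intervalIntegrable_iff] at hBi ⊢
    exact Integrable.bdd_mul (c := 1) hBi hu.1.aestronglyMeasurable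
      (Eventually.of_forall fun r => by rw [Real.norm_eq_abs]; exact hu.2 r)
  have h0 : ∫ r in t..s, (A r + u r * B r) = 0 := by
    rw [← hint t htI s hsI, hm s hsC hsI, hm t ht htI, sub_zero]
  have h1 : ∫ r in t..s, (A t - (A r + u r * B r)) = (s - t) * A t := by
    rw [intervalIntegral.integral_sub (by simp) (hAi.add huB), h0, sub_zero,
      intervalIntegral.integral_const, smul_eq_mul]
  have h2 : ‖∫ r in t..s, (A t - (A r + u r * B r))‖ ≤ (|B t| + ε) * |s - t| := by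
    refine intervalIntegral.norm_integral_le_of_norm_le_const fun r hr => ?_
    obtain ⟨h3, h4, _⟩ := hsub r (uIoc_subset_uIcc hr)
    rw [Real.norm_eq_abs]
    have h5 : |u r * B r| ≤ |B t| + ε / 2 := by
      rw [abs_mul]
      have h6 : |B r| ≤ |B t| + ε / 2 := by
        have := abs_sub_abs_le_abs_sub (B r) (B t)
        linarith
      calc |u r| * |B r| ≤ 1 * |B r| := mul_le_mul_of_nonneg_right (hu.2 r) (abs_nonneg _)
        _ ≤ |B t| + ε / 2 := by rw [one_mul]; exact h6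
    have h7 : |A t - (A r + u r * B r)| ≤ |A r - A t| + |u r * B r| := by
      have e : A t - (A r + u r * B r) = -(A r - A t) - u r * B r := by ring
      rw [e]
      refine le_trans (abs_sub _ _) ?_
      rw [abs_neg]
    linarith
  rw [h1, Real.norm_eq_abs, abs_mul, mul_comm] at h2
  exact le_of_mul_le_mul_right h2 (abs_pos.2 (sub_ne_zero.2 hst))

theorem ae_zero {f : ℝ → ℝ} {a b : ℝ} (hf : IntervalIntegrable f volume a b)
    (h : ∀ t ∈ Icc a b, ∫ s in a..t, f s = 0) : ∀ᵐ t : ℝ, t ∈ Ioo a b → f t = 0 := by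
  filter_upwards [hf.ae_hasDerivAt_integral] with t ht htI
  have hab : a ≤ b := (htI.1.trans htI.2).le
  have hd := ht (by rw [uIcc_of_le hab]; exact Ioo_subset_Icc_self htI) a left_mem_uIcc
  have h2 : (fun x => ∫ s in a..x, f s) =ᶠ[𝓝 t] fun _ => (0 : ℝ) := by
    filter_upwards [Ioo_mem_nhds htI.1 htI.2] with x hx
    exact h x (Ioo_subset_Icc_self hx)
  exact hd.unique ((hasDerivAt_const t (0 : ℝ)).congr_of_eventuallyEq h2)

/-- a perfect set meeting an open interval `(α,β)` has a point of `(0,T)` in it -/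
theorem perf_inner {T : ℝ} (hT : 0 < T) {C : Set ℝ} (hC : Perf T C) {α β : ℝ}
    (h : ∃ t ∈ C, t ∈ Ioo α β) : ∃ t ∈ C, t ∈ Ioo α β ∧ t ∈ Ioo 0 T := by
  obtain ⟨t, htC, htI⟩ := h
  by_cases hin : t ∈ Ioo 0 T
  · exact ⟨t, htC, htI, hin⟩
  have htT := hC.sub htC
  obtain ⟨s, hsC, hst, hsd⟩ := hC.acc t htC (min (min (β - t) (t - α)) T)
    (lt_min (lt_min (by linarith [htI.2]) (by linarith [htI.1])) hT)
  have hsT := hC.sub hsC
  have h1 : |s - t| < β - t := lt_of_lt_of_le hsd ((min_le_left _ _).trans (min_le_left _ _))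
  have h2 : |s - t| < t - α := lt_of_lt_of_le hsd ((min_le_left _ _).trans (min_le_right _ _))
  have h3 : |s - t| < T := lt_of_lt_of_le hsd (min_le_right _ _)
  rw [abs_lt] at h1 h2 h3
  refine ⟨s, hsC, ⟨by linarith [h2.1], by linarith [h1.2]⟩, ?_⟩
  have h4 : t = 0 ∨ t = T := by
    by_contra hcon
    push Not at hcon
    exact hin ⟨lt_of_le_of_ne htT.1 (Ne.symm hcon.1), lt_of_le_of_ne htT.2 hcon.2⟩
  rcases h4 with h4 | h4
  · subst h4
    exact ⟨lt_of_le_of_ne hsT.1 (Ne.symm hst), by linarith [h3.2]⟩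
  · subst h4
    exact ⟨by linarith [h3.1], lt_of_le_of_ne hsT.2 hst⟩

end Pool.Agent.Lib.MP_28b8de_an.PT
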