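import Pool.Agent.Lib.MP_28b8de_an.P.PZeq
import Pool.Agent.Lib.MP_28b8de_an.P.PKder
import Pool.Agent.Lib.MP_28b8de_an.P.POde
import Pool.Agent.Lib.MP_28b8de_an.P.PGlue

/-!
MP_28b8de_an, module PFeed (PTD-PFeed): a trajectory on the surface with zb ≠ 0 follows an analytic feedback: smooth.

PROOF.  On Icc s s' z = 0, so by zeq ∫_s^t (za + u zb)(τ, q τ) dτ = 0 for all t, hence (ae_zero; the integrand is bounded and measurable) u = -za/zb at (τ, q τ)
= up ζ (τ, y τ), a.e.  So y t' - y t = ∫_t^{t'} (F2 + u G2) = ∫ h (τ, y τ), h p := (F (up ζ p)).2 - za F ζ (up ζ p) / zb G ζ (up ζ p) * (G (up ζ p)).2, analytic on the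
rectangle, so C^∞ (AnalyticOnNhd.contDiffOn).  `ode_smooth` (E = ℝ): y is C^∞ on Ioo s s', and so is q t = (ζ (t, y t), y t).  The bad set of q on Ioo s s' is empty; jn_self.
-/

namespace Pool.Agent.Lib.MP_28b8de_an.PT

open Filter Topology Set MeasureTheory

variable {F G : ℝ × ℝ × ℝ → ℝ × ℝ} {R M : ℝ}

theorem feed_jn (E : Env F G R M) {ζ : ℝ × ℝ → ℝ} {α β c d : ℝ}
    (hζ : AnalyticOnNhd ℝ ζ (Ioo α β ×ˢ Ioo c d))
    (hbox : ∀ p ∈ Ioo α β ×ˢ Ioo c d, up ζ p ∈ Box R)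
    (hb : ∀ p ∈ Ioo α β ×ˢ Ioo c d, zb G ζ (up ζ p) ≠ 0) {u : ℝ → ℝ} (hu : Adm u)
    {q : ℝ → ℝ × ℝ} {s s' : ℝ} (hs : s < s') (hq : Sol F G u q s s')
    (hsub : Icc s s' ⊆ Ioo α β) (hy : ∀ t ∈ Icc s s', (q t).2 ∈ Ioo c d)
    (hx : ∀ t ∈ Icc s s', (q t).1 = ζ (t, (q t).2)) : Jn F G q s s' := by
  have hPo : IsOpen (Ioo α β ×ˢ Ioo c d) := isOpen_Ioo.prod isOpen_Ioo
  have hpP : ∀ t ∈ Icc s s', (t, (q t).2) ∈ Ioo α β ×ˢ Ioo c d := fun t ht => ⟨hsub ht, hy t ht⟩
  have hup : ∀ t ∈ Icc s s', up ζ (t, (q t).2) = (t, q t) := by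
    intro t ht
    unfold up
    rw [← hx t ht]
  have hza := up_za_an E hζ hbox
  have hzb := up_zb_an E hζ hbox
  have hF2 : AnalyticOnNhd ℝ (fun p => (F (up ζ p)).2) (Ioo α β ×ˢ Ioo c d) :=
    up_an (a := fun z => (F z).2) (fun z hz =>
      AnalyticAt.comp (g := fun y : ℝ × ℝ => y.2) (f := F) analyticAt_snd (E.Fa z hz)) hζ hbox
  have hG2 : AnalyticOnNhd ℝ (fun p => (G (up ζ p)).2) (Ioo α β ×ˢ Ioo c d) :=
    up_an (a := fun z => (G z).2) (fun z hz =>
      AnalyticAt.comp (g := fun y : ℝ × ℝ => y.2) (f := G) analyticAt_snd (E.Ga z hz)) hζ hbox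
  have hh : AnalyticOnNhd ℝ (fun p => (F (up ζ p)).2
      - za F ζ (up ζ p) / zb G ζ (up ζ p) * (G (up ζ p)).2) (Ioo α β ×ˢ Ioo c d) := fun p hp =>
    (hF2 p hp).sub (((hza p hp).div (hzb p hp) (hb p hp)).mul (hG2 p hp))
  have hhc : ContDiffOn ℝ (⊤ : ℕ∞) (fun p => (F (up ζ p)).2
      - za F ζ (up ζ p) / zb G ζ (up ζ p) * (G (up ζ p)).2) (Ioo α β ×ˢ Ioo c d) :=
    hh.contDiffOn hPo.uniqueDiffOn
  have hyc : ContinuousOn (fun t => (q t).2) (Icc s s') := continuous_snd.comp_continuousOn hq.cont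
  have hpc : ContinuousOn (fun t => (t, (q t).2)) (Icc s s') := continuousOn_id.prodMk hyc
  have hA : ContinuousOn (fun t => za F ζ (t, q t)) (Icc s s') := by
    have h1 : ContinuousOn (fun t => za F ζ (up ζ (t, (q t).2))) (Icc s s') :=
      hza.continuousOn.comp hpc hpP
    refine h1.congr fun t ht => ?_
    simp only
    rw [hup t ht]
  have hB : ContinuousOn (fun t => zb G ζ (t, q t)) (Icc s s') := by
    have h1 : ContinuousOn (fun t => zb G ζ (up ζ (t, (q t).2))) (Icc s s') :=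
      hzb.continuousOn.comp hpc hpP
    refine h1.congr fun t ht => ?_
    simp only
    rw [hup t ht]
  have hAi : IntervalIntegrable (fun t => za F ζ (t, q t)) volume s s' := by
    refine ContinuousOn.intervalIntegrable ?_
    rw [uIcc_of_le hs.le]
    exact hA
  have hBi : IntervalIntegrable (fun t => zb G ζ (t, q t)) volume s s' := by
    refine ContinuousOn.intervalIntegrable ?_
    rw [uIcc_of_le hs.le]
    exact hB
  have huB : IntervalIntegrable (fun t => u t * zb G ζ (t, q t)) volume s s' := by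
    refine hBi.norm.mono_fun' ?_ (Eventually.of_forall fun t => ?_)
    · refine AEStronglyMeasurable.mul hu.1.aestronglyMeasurable ?_
      exact (intervalIntegrable_iff.1 hBi).aestronglyMeasurable
    · simp only [norm_mul]
      have h1 : ‖u t‖ ≤ 1 := by simpa using hu.2 t
      nlinarith [norm_nonneg (zb G ζ (t, q t)), norm_nonneg (u t)]
  have hss : s ∈ Icc s s' := ⟨le_refl _, hs.le⟩
  have hae : ∀ᵐ t : ℝ, t ∈ Ioo s s' → za F ζ (t, q t) + u t * zb G ζ (t, q t) = 0 := by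
    refine ae_zero (hAi.add huB) fun t ht => ?_
    have h1 := zeq E hζ hu hq hsub hy s hss t ht
    rw [hx t ht, hx s hss, sub_self, sub_self, sub_self] at h1
    exact h1.symm
  have hyeq : ∀ t ∈ Ioo s s', ∀ t' ∈ Ioo s s', (q t').2 - (q t).2
      = ∫ r in t..t', (fun p => (F (up ζ p)).2
        - za F ζ (up ζ p) / zb G ζ (up ζ p) * (G (up ζ p)).2) (r, (q r).2) := by
    intro t ht t' ht'
    have htI := Ioo_subset_Icc_self ht
    have htI' := Ioo_subset_Icc_self ht'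
    have h1 := sol_sub E hu hq htI htI'
    have hi := rhs_int E hu hq.cont htI htI'
    have h2 : (∫ r in t..t', (F (r, q r) + u r • G (r, q r))).2
        = ∫ r in t..t', (F (r, q r) + u r • G (r, q r)).2 :=
      ((ContinuousLinearMap.snd ℝ ℝ ℝ).intervalIntegral_comp_comm hi).symm
    have h3 : (q t').2 - (q t).2 = ∫ r in t..t', (F (r, q r) + u r • G (r, q r)).2 := by
      rw [← h2, ← h1, Prod.snd_sub]
    rw [h3]
    refine intervalIntegral.integral_congr_ae ?_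
    filter_upwards [hae] with r hr hrI
    have hrS : r ∈ Ioo s s' := by
      rcases le_total t t' with hle | hle
      · rw [uIoc_of_le hle] at hrI
        exact ⟨ht.1.trans hrI.1, lt_of_le_of_lt hrI.2 ht'.2⟩
      · rw [uIoc_of_ge hle] at hrI
        exact ⟨ht'.1.trans hrI.1, lt_of_le_of_lt hrI.2 ht.2⟩
    have hrc := Ioo_subset_Icc_self hrS
    have hz := hr hrS
    have hbn := hb _ (hpP r hrc)
    simp only [hup r hrc] at hbn ⊢
    have hu' : u r = - za F ζ (r, q r) / zb G ζ (r, q r) := by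
      field_simp
      linarith
    simp only [Prod.snd_add, Prod.smul_snd, smul_eq_mul]
    rw [hu']
    ring
  have hysm : ContDiffOn ℝ (⊤ : ℕ∞) (fun t => (q t).2) (Ioo s s') :=
    ode_smooth hPo hhc hyc (fun t ht => hpP t (Ioo_subset_Icc_self ht)) hyeq
  have hqsm : ContDiffOn ℝ (⊤ : ℕ∞) q (Ioo s s') := by
    have hζc : ContDiffOn ℝ (⊤ : ℕ∞) ζ (Ioo α β ×ˢ Ioo c d) := hζ.contDiffOn hPo.uniqueDiffOn
    have h1 : ContDiffOn ℝ (⊤ : ℕ∞) (fun t => (t, (q t).2)) (Ioo s s') :=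
      contDiffOn_id.prodMk hysm
    have h2 : ContDiffOn ℝ (⊤ : ℕ∞) (fun t => ζ (t, (q t).2)) (Ioo s s') :=
      hζc.comp h1 (fun t ht => hpP t (Ioo_subset_Icc_self ht))
    refine (h2.prodMk hysm).congr fun t ht => ?_
    rw [← hx t (Ioo_subset_Icc_self ht)]
  refine jn_self hu hq ?_
  have : {t ∈ Ioo s s' | ¬ SmAt q t} = ∅ := by
    ext t
    simp only [mem_ofPred_eq, mem_empty_iff_false, iff_false, not_and, not_not]
    intro ht
    refine ⟨min (t - s) (s' - t), lt_min (by linarith [ht.1]) (by linarith [ht.2]), ?_⟩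
    refine hqsm.mono fun r hr => ?_
    have h1 := min_le_left (t - s) (s' - t)
    have h2 := min_le_right (t - s) (s' - t)
    exact ⟨by linarith [hr.1], by linarith [hr.2]⟩
  rw [this]
  exact countable_empty

end Pool.Agent.Lib.MP_28b8de_an.PT
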