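import Pool.Agent.Lib.MP_28b8de_an.P.PRel

/-!
MP_28b8de_an, module PRelEven (PTD-PRelEven): relay, k even.

PROOF.  e has constant sign on Icc s s' (continuous, nonzero): say ς e > 0, ς = ±1.  By N2, ς N ≥ |e| |z|^k / 2 ≥ 0 (z^k = |z|^k).
Let E(t) = exp(-∫_s^t μ): (E φ)' = E N on the open interval (φ is C^1 there: φeq with continuous integrand), so
0 = E(s') φ(s') - E(s) φ(s) = ∫_s^{s'} E N; ς E N ≥ 0 continuous with zero integral: N = 0 on Icc s s', so |z|^k = 0.
-/

namespace Pool.Agent.Lib.MP_28b8de_an.PT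

open Filter Topology Set MeasureTheory

private theorem relEven_deriv {s s' : ℝ} {g : ℝ → ℝ} (hg : ContinuousOn g (Icc s s')) {t : ℝ}
    (ht : t ∈ Ioo s s') : HasDerivAt (fun x => ∫ r in s..x, g r) (g t) t := by
  have hn : Icc s s' ∈ 𝓝 t := Icc_mem_nhds ht.1 ht.2
  have hi : IntervalIntegrable g volume s t := by
    apply ContinuousOn.intervalIntegrable
    rw [uIcc_of_le ht.1.le]
    exact hg.mono (Icc_subset_Icc_right ht.2.le)
  refine intervalIntegral.integral_hasDerivAt_right hi ?_ (hg.continuousAt hn)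
  exact ⟨Icc s s', hn, hg.aestronglyMeasurable measurableSet_Icc⟩

private theorem relEven_core {s s' : ℝ} {φ N μ : ℝ → ℝ} (hs : s < s')
    (φc : ContinuousOn φ (Icc s s')) (Nc : ContinuousOn N (Icc s s')) (μc : ContinuousOn μ (Icc s s'))
    (φeq : ∀ t ∈ Icc s s', φ t = ∫ r in s..t, (N r + μ r * φ r)) (φ1 : φ s' = 0)
    (hN : ∀ t ∈ Icc s s', 0 ≤ N t) : ∀ t ∈ Icc s s', N t = 0 := by
  have hgc : ContinuousOn (fun r => N r + μ r * φ r) (Icc s s') := Nc.add (μc.mul φc)
  have hφd : ∀ t ∈ Ioo s s', HasDerivAt φ (N t + μ t * φ t) t := by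
    intro t ht
    have h1 := relEven_deriv hgc ht
    refine h1.congr_of_eventuallyEq ?_
    filter_upwards [Icc_mem_nhds ht.1 ht.2] with x hx
    exact φeq x hx
  set M : ℝ → ℝ := fun x => ∫ r in s..x, μ r with hM
  have hMd : ∀ t ∈ Ioo s s', HasDerivAt M (μ t) t := fun t ht => relEven_deriv μc ht
  have hMc : ContinuousOn M (Icc s s') := by
    have := intervalIntegral.continuousOn_primitive_interval (μ := volume) (f := μ) (a := s) (b := s')
      (by
        rw [uIcc_of_le hs.le]
        exact μc.integrableOn_Icc)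
    rwa [uIcc_of_le hs.le] at this
  set G : ℝ → ℝ := fun t => Real.exp (-M t) * φ t with hG
  have hGc : ContinuousOn G (Icc s s') := (Real.continuous_exp.comp_continuousOn hMc.neg).mul φc
  have hGd : ∀ t ∈ Ioo s s', HasDerivAt G (Real.exp (-M t) * N t) t := by
    intro t ht
    have h1 := ((hMd t ht).neg.exp).mul (hφd t ht)
    refine h1.congr_deriv ?_
    simp only [Pi.neg_apply]
    ring
  have hGc' : ContinuousOn (fun t => Real.exp (-M t) * N t) (Icc s s') :=
    (Real.continuous_exp.comp_continuousOn hMc.neg).mul Nc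
  have hint : IntervalIntegrable (fun t => Real.exp (-M t) * N t) volume s s' := by
    apply ContinuousOn.intervalIntegrable
    rwa [uIcc_of_le hs.le]
  have h0 := intervalIntegral.integral_eq_sub_of_hasDerivAt_of_le hs.le hGc hGd hint
  have hφs : φ s = 0 := by
    rw [φeq s (left_mem_Icc.2 hs.le), intervalIntegral.integral_same]
  have hz : (∫ t in s..s', Real.exp (-M t) * N t) = 0 := by
    rw [h0, hG]
    simp only [φ1, hφs, mul_zero, sub_zero]
  intro t ht
  by_contra hne
  have hpos : 0 < N t := lt_of_le_of_ne (hN t ht) (Ne.symm hne)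
  have h1 : 0 < ∫ t in s..s', Real.exp (-M t) * N t := by
    refine intervalIntegral.integral_pos hs hGc' (fun x hx => ?_) ⟨t, ht, ?_⟩
    · exact mul_nonneg (Real.exp_pos _).le (hN x ⟨hx.1.le, hx.2⟩)
    · exact mul_pos (Real.exp_pos _) hpos
  linarith

private theorem relEven_sign {s s' : ℝ} {e : ℝ → ℝ} (ec : ContinuousOn e (Icc s s'))
    (e0 : ∀ t ∈ Icc s s', e t ≠ 0) (h : 0 < e s) : ∀ t ∈ Icc s s', 0 < e t := by
  intro t ht
  by_contra hne
  have h1 := intermediate_value_Icc' ht.1 (ec.mono (Icc_subset_Icc_right ht.2))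
  obtain ⟨x, hx, hx0⟩ := h1 ⟨not_lt.1 hne, h.le⟩
  exact e0 x ⟨hx.1, hx.2.trans ht.2⟩ hx0

theorem rel_even {k : ℕ} {K s s' : ℝ} {z φ u B β N μ e : ℝ → ℝ}
    (h : Rel k K s s' z φ u B β N μ e) (hk : Even k) : ∀ t ∈ Icc s s', z t = 0 := by
  have hs := h.hs
  have hk1 := h.hk
  have hsm : s ∈ Icc s s' := left_mem_Icc.2 hs.le
  have key : ∀ t ∈ Icc s s', N t = 0 → z t = 0 := by
    intro t ht h0
    have h2 := h.N2 t ht
    rw [h0, zero_sub, abs_neg, abs_mul, abs_pow] at h2
    have h3 : 0 < |e t| := abs_pos.2 (h.e0 t ht)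
    have h4 : 0 ≤ |z t| ^ k := by positivity
    have h5 : |z t| ^ k = 0 := by
      have : |e t| * |z t| ^ k ≤ 0 := by linarith
      nlinarith [mul_nonneg h3.le h4]
    exact abs_eq_zero.1 (eq_zero_of_pow_eq_zero h5)
  rcases lt_or_gt_of_ne (h.e0 s hsm) with he | he
  · have hsg := relEven_sign (e := fun t => - e t) h.ec.neg (fun t ht => neg_ne_zero.2 (h.e0 t ht))
      (by simpa using he)
    have hc := relEven_core (φ := fun t => - φ t) (N := fun t => - N t) (μ := μ) hs h.φc.neg h.Nc.neg h.μc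
      (fun t ht => by
        rw [h.φeq t ht, ← intervalIntegral.integral_neg]
        congr 1
        funext r
        ring) (by simp [h.φ1])
      (fun t ht => by
        have h2 := (abs_le.1 (h.N2 t ht)).2
        have h3 : e t < 0 := by simpa using hsg t ht
        rw [abs_of_neg h3, hk.pow_abs] at h2
        have h4 : 0 ≤ z t ^ k := hk.pow_nonneg _
        nlinarith [mul_nonneg (neg_nonneg.2 h3.le) h4])
    intro t ht
    exact key t ht (by simpa using hc t ht)
  · have hsg := relEven_sign h.ec h.e0 he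
    have hc := relEven_core hs h.φc h.Nc h.μc h.φeq h.φ1
      (fun t ht => by
        have h2 := (abs_le.1 (h.N2 t ht)).1
        have h3 := hsg t ht
        rw [abs_of_pos h3, hk.pow_abs] at h2
        have h4 : 0 ≤ z t ^ k := hk.pow_nonneg _
        nlinarith [mul_nonneg h3.le h4])
    intro t ht
    exact key t ht (hc t ht)

end Pool.Agent.Lib.MP_28b8de_an.PT
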