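import Pool.Agent.Lib.MP_28b8de_an.P.PRel

/-!
MP_28b8de_an, module PRelMax (PTD-PRelMax): relay, k odd, e B > 0.

PROOF.  Suppose |z| has a positive maximum X on Icc s s', at r; r ∈ Ioo s s' as z s = z s' = 0.  Let z₀ = z r, |z₀| = X.
(a) φ r = 0: if φ r > 0 then φ > 0 near r, u = 1 a.e. near r (usgn), so z t - z r = ∫_r^t B (1 - β) with B(1-β) continuous, of constant sign
(B0, β1) near r: z is strictly monotone near r, contradiction with |z| ≤ X near r (z₀ ≠ 0).  φ r < 0: the same with u = -1.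
(b) φ is C^1 near r, φ' r = N r + μ r φ r = N r; by N2, N r has the sign of e r z₀^k, i.e. (k odd) of e r z₀, i.e. (e B > 0) of B r z₀.
(c) so for t > r near r: φ t has the sign σ of B r z₀, u = σ a.e. there, z t - z r = ∫_r^t B (σ - β), whose integrand has the sign of B σ,
i.e. of z₀: |z t| > |z r| = X, contradiction.
(φ' r ≠ 0 and φ r = 0 give the sign after r: use HasDerivAt / HasDerivWithinAt, or: N + μφ is continuous with the sign of N r near r,
so φ t = ∫_r^t (N + μ φ) has that sign.)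
-/

namespace Pool.Agent.Lib.MP_28b8de_an.PT

open Filter Topology Set MeasureTheory

private lemma relmax_ii {k : ℕ} {K s s' : ℝ} {z φ u B β N μ e : ℝ → ℝ}
    (h : Rel k K s s' z φ u B β N μ e) {a b : ℝ} (ha : a ∈ Icc s s') (hb : b ∈ Icc s s') :
    IntervalIntegrable (fun r => B r * (u r - β r)) volume a b := by
  have hsub : uIcc a b ⊆ Icc s s' := by
    rw [← uIcc_of_le h.hs.le]
    apply uIcc_subset_uIcc
    · rw [uIcc_of_le h.hs.le]; exact ha
    · rw [uIcc_of_le h.hs.le]; exact hb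
  have hu : IntervalIntegrable u volume a b := by
    rw [intervalIntegrable_iff]
    apply Measure.integrableOn_of_bounded (M := 1)
    · simp
    · exact h.um.aestronglyMeasurable
    · exact Eventually.of_forall (fun t => by simpa using h.ub t)
  have hβ : IntervalIntegrable β volume a b := (h.βc.mono hsub).intervalIntegrable
  exact (hu.sub hβ).continuousOn_mul (h.Bc.mono hsub)

private lemma relmax_zdiff {k : ℕ} {K s s' : ℝ} {z φ u B β N μ e : ℝ → ℝ}
    (h : Rel k K s s' z φ u B β N μ e) {a b : ℝ} (ha : a ∈ Icc s s') (hb : b ∈ Icc s s') :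
    z b - z a = ∫ r in a..b, B r * (u r - β r) := by
  rw [h.zeq b hb, h.zeq a ha]
  have hs : s ∈ Icc s s' := ⟨le_rfl, h.hs.le⟩
  exact intervalIntegral.integral_interval_sub_left (relmax_ii h hs hb) (relmax_ii h hs ha)

private lemma relmax_u {k : ℕ} {K s s' : ℝ} {z φ u B β N μ e : ℝ → ℝ}
    (h : Rel k K s s' z φ u B β N μ e) {a b σ : ℝ} (ha : a ∈ Icc s s') (hb : b ∈ Icc s s')
    (hσ : σ = 1 ∨ σ = -1) (hφ : ∀ t ∈ Ioc a b, 0 < φ t * σ) :
    ∀ᵐ t : ℝ, t ∈ Ioc a b → u t = σ := by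
  filter_upwards [h.usgn] with t ht htab
  have h1 := ht ⟨ha.1.trans htab.1.le, htab.2.trans hb.2⟩
  have h2 := hφ t htab
  rcases hσ with rfl | rfl
  · have h3 : 0 < φ t := by linarith
    rw [abs_of_pos h3] at h1
    have : (u t - 1) * φ t = 0 := by linarith
    rcases mul_eq_zero.mp this with h4 | h4
    · linarith
    · exact absurd h4 h3.ne'
  · have h3 : φ t < 0 := by linarith
    rw [abs_of_neg h3] at h1
    have : (u t + 1) * φ t = 0 := by linarith
    rcases mul_eq_zero.mp this with h4 | h4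
    · linarith
    · exact absurd h4 h3.ne

private lemma relmax_fac {σ β : ℝ} (hσ : σ = 1 ∨ σ = -1) (hβ : |β| < 1) : 0 < 1 - σ * β := by
  rcases abs_lt.mp hβ with ⟨h1, h2⟩
  rcases hσ with rfl | rfl <;> linarith

private lemma relmax_sq {σ : ℝ} (hσ : σ = 1 ∨ σ = -1) : σ * σ = 1 := by
  rcases hσ with rfl | rfl <;> norm_num

private lemma relmax_int {k : ℕ} {K s s' : ℝ} {z φ u B β N μ e : ℝ → ℝ}
    (h : Rel k K s s' z φ u B β N μ e) {a b σ : ℝ} (ha : a ∈ Icc s s') (hb : b ∈ Icc s s')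
    (hab : a < b) (hσ : σ = 1 ∨ σ = -1) (hφ : ∀ t ∈ Ioc a b, 0 < φ t * σ) (w : ℝ)
    (hB : ∀ t ∈ Ioc a b, 0 < B t * σ * w) : 0 < (z b - z a) * w := by
  have hsub : uIcc a b ⊆ Icc s s' := by
    rw [← uIcc_of_le h.hs.le]
    apply uIcc_subset_uIcc
    · rw [uIcc_of_le h.hs.le]; exact ha
    · rw [uIcc_of_le h.hs.le]; exact hb
  have e1 : z b - z a = ∫ r in a..b, B r * (σ - β r) := by
    rw [relmax_zdiff h ha hb]
    apply intervalIntegral.integral_congr_ae
    filter_upwards [relmax_u h ha hb hσ hφ] with t ht ht2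
    rw [uIoc_of_le hab.le] at ht2
    rw [ht ht2]
  rw [e1, ← intervalIntegral.integral_mul_const]
  have hci : IntervalIntegrable (fun r => B r * (σ - β r) * w) volume a b :=
    (((h.Bc.mono hsub).mul (continuousOn_const.sub (h.βc.mono hsub))).mul
      continuousOn_const).intervalIntegrable
  apply intervalIntegral.intervalIntegral_pos_of_pos_on hci _ hab
  intro t ht
  have h1 := hB t ⟨ht.1, ht.2.le⟩
  have h2 : 0 < 1 - σ * β t :=
    relmax_fac hσ (h.β1 t ⟨ha.1.trans ht.1.le, ht.2.le.trans hb.2⟩)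
  have h3 : B t * (σ - β t) * w = B t * σ * w * (1 - σ * β t) := by
    have := relmax_sq hσ
    linear_combination (β t * B t * w) * this
  rw [h3]
  exact mul_pos h1 h2

private lemma relmax_abs {x y : ℝ} (hxy : 0 < (x - y) * y) : |y| < |x| := by
  have h1 : y * y < x * y := by linarith
  have h2 : |y| * |y| < |x| * |y| := by
    calc |y| * |y| = y * y := abs_mul_abs_self y
      _ < x * y := h1
      _ ≤ |x * y| := le_abs_self _
      _ = |x| * |y| := abs_mul x y
  exact lt_of_mul_lt_mul_right h2 (abs_nonneg y)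

theorem rel_max {k : ℕ} {K s s' : ℝ} {z φ u B β N μ e : ℝ → ℝ}
    (h : Rel k K s s' z φ u B β N μ e) (hk : Odd k) (heB : ∀ t ∈ Icc s s', 0 < e t * B t) :
    ∀ t ∈ Icc s s', z t = 0 := by
  by_contra hcon
  push Not at hcon
  obtain ⟨t1, ht1, hzt1⟩ := hcon
  obtain ⟨r, hr, hmax⟩ := isCompact_Icc.exists_isMaxOn (nonempty_Icc.mpr h.hs.le) h.zc.abs
  have hmax' : ∀ t ∈ Icc s s', |z t| ≤ |z r| := fun t ht => hmax ht
  have hzr : z r ≠ 0 := by
    intro h0
    have := hmax' t1 ht1
    rw [h0, abs_zero] at this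
    exact hzt1 (abs_eq_zero.mp (le_antisymm this (abs_nonneg _)))
  have hzs : z s = 0 := by
    rw [h.zeq s ⟨le_rfl, h.hs.le⟩]; simp
  have hrs : s < r := by
    rcases hr.1.lt_or_eq with h1 | h1
    · exact h1
    · exact absurd (h1 ▸ hzs) hzr
  have hrs' : r < s' := by
    rcases hr.2.lt_or_eq with h1 | h1
    · exact h1
    · exact absurd (h1 ▸ h.z1) hzr
  have hnh : Icc s s' ∈ 𝓝 r := Icc_mem_nhds hrs hrs'
  have cB : ContinuousAt B r := h.Bc.continuousAt hnh
  have cφ : ContinuousAt φ r := h.φc.continuousAt hnh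
  have cN : ContinuousAt N r := h.Nc.continuousAt hnh
  have cμ : ContinuousAt μ r := h.μc.continuousAt hnh
  have hBr : B r ≠ 0 := h.B0 r hr
  -- contradiction lemmas
  have right : ∀ σ : ℝ, (σ = 1 ∨ σ = -1) → 0 < B r * σ * z r →
      (∃ b, r < b ∧ ∀ t ∈ Ioc r b, 0 < φ t * σ) → False := by
    intro σ hσ hBσ ⟨b, hb, hφ⟩
    have c1 : ContinuousAt (fun t => B t * σ * z r) r := (cB.mul_const σ).mul_const (z r)
    have ev : ∀ᶠ t in 𝓝 r, 0 < B t * σ * z r := c1.eventually (lt_mem_nhds hBσ)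
    obtain ⟨δ, hδ, hδ'⟩ := Metric.eventually_nhds_iff.mp ev
    set c : ℝ := min (min b s') (r + δ / 2) with hc
    have hrc : r < c := by
      rw [hc]; exact lt_min (lt_min hb hrs') (by linarith)
    have hcb : c ≤ b := (min_le_left _ _).trans (min_le_left _ _)
    have hcs : c ≤ s' := (min_le_left _ _).trans (min_le_right _ _)
    have hcd : c ≤ r + δ / 2 := min_le_right _ _
    have hcI : c ∈ Icc s s' := ⟨hr.1.trans hrc.le, hcs⟩
    have key := relmax_int h hr hcI hrc hσ (fun t ht => hφ t ⟨ht.1, ht.2.trans hcb⟩) (z r)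
      (fun t ht => hδ' (by
        rw [Real.dist_eq, abs_lt]
        constructor <;> linarith [ht.1, ht.2]))
    exact absurd (hmax' c hcI) (not_le.mpr (relmax_abs key))
  have left : ∀ σ : ℝ, (σ = 1 ∨ σ = -1) → B r * σ * z r < 0 →
      (∃ a, a < r ∧ ∀ t ∈ Ioc a r, 0 < φ t * σ) → False := by
    intro σ hσ hBσ ⟨a, hab, hφ⟩
    have c1 : ContinuousAt (fun t => B t * σ * z r) r := (cB.mul_const σ).mul_const (z r)
    have ev : ∀ᶠ t in 𝓝 r, B t * σ * z r < 0 := c1.eventually (gt_mem_nhds hBσ)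
    obtain ⟨δ, hδ, hδ'⟩ := Metric.eventually_nhds_iff.mp ev
    set c : ℝ := max (max a s) (r - δ / 2) with hc
    have hrc : c < r := by
      rw [hc]; exact max_lt (max_lt hab hrs) (by linarith)
    have hcb : a ≤ c := (le_max_left _ _).trans (le_max_left _ _)
    have hcs : s ≤ c := (le_max_right _ _).trans (le_max_left _ _)
    have hcd : r - δ / 2 ≤ c := le_max_right _ _
    have hcI : c ∈ Icc s s' := ⟨hcs, hrc.le.trans hr.2⟩
    have key := relmax_int h hcI hr hrc hσ (fun t ht => hφ t ⟨hcb.trans_lt ht.1, ht.2⟩) (-z r)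
      (fun t ht => by
        have : B t * σ * z r < 0 := hδ' (by
          rw [Real.dist_eq, abs_lt]
          constructor <;> linarith [ht.1, ht.2])
        linarith)
    have key2 : 0 < (z c - z r) * z r := by linarith
    exact absurd (hmax' c hcI) (not_le.mpr (relmax_abs key2))
  have hφr : φ r = 0 := by
    by_contra hne
    obtain ⟨σ, hσ, hσφ⟩ : ∃ σ : ℝ, (σ = 1 ∨ σ = -1) ∧ 0 < φ r * σ := by
      rcases lt_or_gt_of_ne hne with h1 | h1
      · exact ⟨-1, Or.inr rfl, by linarith⟩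
      · exact ⟨1, Or.inl rfl, by linarith⟩
    have c1 : ContinuousAt (fun t => φ t * σ) r := cφ.mul_const σ
    have ev : ∀ᶠ t in 𝓝 r, 0 < φ t * σ := c1.eventually (lt_mem_nhds hσφ)
    obtain ⟨δ, hδ, hδ'⟩ := Metric.eventually_nhds_iff.mp ev
    have hne2 : B r * σ * z r ≠ 0 := by
      apply mul_ne_zero (mul_ne_zero hBr _) hzr
      rcases hσ with rfl | rfl <;> norm_num
    rcases lt_or_gt_of_ne hne2 with h1 | h1
    · apply left σ hσ h1
      refine ⟨r - δ / 2, by linarith, fun t ht => hδ' ?_⟩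
      rw [Real.dist_eq, abs_lt]
      constructor <;> linarith [ht.1, ht.2]
    · apply right σ hσ h1
      refine ⟨r + δ / 2, by linarith, fun t ht => hδ' ?_⟩
      rw [Real.dist_eq, abs_lt]
      constructor <;> linarith [ht.1, ht.2]
  -- sign of N r
  have hN : 0 < N r * (B r * z r) := by
    have hzk : 0 < |z r| ^ k := pow_pos (abs_pos.mpr hzr) k
    have her : 0 < |e r| := abs_pos.mpr (h.e0 r hr)
    have hN2 := h.N2 r hr
    have hab : |e r * z r ^ k| = |e r| * |z r| ^ k := by rw [abs_mul, abs_pow]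
    have hpos : 0 < |e r| * |z r| ^ k := mul_pos her hzk
    -- N r * (e r * z r ^ k) > 0
    have h1 : 0 < N r * (e r * z r ^ k) := by
      rcases abs_le.mp hN2 with ⟨ha, hb⟩
      rcases lt_or_gt_of_ne (mul_ne_zero (h.e0 r hr) (pow_ne_zero k hzr)) with h2 | h2
      · rw [abs_of_neg h2] at hab
        apply mul_pos_of_neg_of_neg _ h2
        nlinarith
      · rw [abs_of_pos h2] at hab
        apply mul_pos _ h2
        nlinarith
    obtain ⟨m, hm⟩ := hk
    have h2 : z r ^ k = z r * (z r ^ m) ^ 2 := by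
      rw [hm]; ring
    have h3 := heB r hr
    have h4 : 0 < (z r ^ m) ^ 2 := by positivity
    have h5 : 0 < (N r * (B r * z r)) * ((z r ^ m) ^ 2 * (e r * e r)) := by
      have : (N r * (B r * z r)) * ((z r ^ m) ^ 2 * (e r * e r)) =
          (N r * (e r * (z r * (z r ^ m) ^ 2))) * (e r * B r) := by ring
      rw [this, ← h2]
      exact mul_pos h1 h3
    have h6 : 0 < (z r ^ m) ^ 2 * (e r * e r) :=
      mul_pos h4 (mul_self_pos.mpr (h.e0 r hr))
    exact (pos_iff_pos_of_mul_pos h5).mpr h6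
  obtain ⟨σ, hσ, hσN, hσB⟩ : ∃ σ : ℝ, (σ = 1 ∨ σ = -1) ∧ 0 < N r * σ ∧ 0 < B r * σ * z r := by
    rcases lt_or_gt_of_ne (mul_ne_zero hBr hzr) with h1 | h1
    · refine ⟨-1, Or.inr rfl, ?_, by linarith⟩
      have : N r < 0 := by
        by_contra h2
        push Not at h2
        nlinarith
      linarith
    · refine ⟨1, Or.inl rfl, ?_, by linarith⟩
      have : 0 < N r := by
        by_contra h2
        push Not at h2
        nlinarith
      linarith
  apply right σ hσ hσB
  have c1 : ContinuousAt (fun t => (N t + μ t * φ t) * σ) r :=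
    (cN.add (cμ.mul cφ)).mul_const σ
  have hpos : 0 < (N r + μ r * φ r) * σ := by rw [hφr]; simpa using hσN
  have ev : ∀ᶠ t in 𝓝 r, 0 < (N t + μ t * φ t) * σ := c1.eventually (lt_mem_nhds hpos)
  obtain ⟨δ, hδ, hδ'⟩ := Metric.eventually_nhds_iff.mp ev
  refine ⟨min s' (r + δ / 2), lt_min hrs' (by linarith), fun t ht => ?_⟩
  have hts : t ≤ s' := ht.2.trans (min_le_left _ _)
  have htd : t ≤ r + δ / 2 := ht.2.trans (min_le_right _ _)
  have htI : t ∈ Icc s s' := ⟨hr.1.trans ht.1.le, hts⟩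
  have hcg : ContinuousOn (fun t => N t + μ t * φ t) (Icc s s') := h.Nc.add (h.μc.mul h.φc)
  have hii : ∀ c ∈ Icc s s', IntervalIntegrable (fun t => N t + μ t * φ t) volume s c := by
    intro c hc
    apply ContinuousOn.intervalIntegrable
    apply hcg.mono
    rw [uIcc_of_le hc.1]
    exact Icc_subset_Icc le_rfl hc.2
  have e1 : φ t = ∫ x in r..t, (N x + μ x * φ x) := by
    have := intervalIntegral.integral_interval_sub_left (hii t htI) (hii r hr)
    rw [← h.φeq t htI, ← h.φeq r hr, hφr, sub_zero] at this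
    exact this
  rw [e1, ← intervalIntegral.integral_mul_const]
  have hci : IntervalIntegrable (fun x => (N x + μ x * φ x) * σ) volume r t := by
    apply ContinuousOn.intervalIntegrable
    apply (hcg.mul continuousOn_const).mono
    rw [uIcc_of_le ht.1.le]
    exact Icc_subset_Icc hr.1 hts
  apply intervalIntegral.intervalIntegral_pos_of_pos_on hci _ ht.1
  intro x hx
  apply hδ'
  rw [Real.dist_eq, abs_lt]
  constructor <;> linarith [hx.1, hx.2]

end Pool.Agent.Lib.MP_28b8de_an.PT
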