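import Pool.Agent.Lib.MP_28b8de_an.P.PDefs

/-!
MP_28b8de_an, module PTay (PTD-PTay): Taylor expansion in the direction x at a surface, and the case that all coefficients vanish.

PROOFS.  dx_iter_an: Dx^[j] a is analytic where a is (AnalyticOnNhd.fderiv; as D2_iter_an in E/EDefs.lean).
taylor: near z₀ = up ζ p₀ the functions Dx^[j] a, j ≤ k+1, are continuous; on a ball N of z₀ |Dx^[k+1] a| ≤ K.  For z = (t,x,y) near z₀, with
up ζ (t,y) ∈ N: Taylor's formula with Lagrange remainder for f(x') := a (t, x', y) on the segment between ζ(t,y) and x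
(f^{(j)}(x') = Dx^[j] a (t,x',y)): f(x) - f^{(k)}(ζ)(x-ζ)^k/k! is bounded by K |x-ζ|^{k+1}/(k+1)! since f^{(j)}(ζ) = 0 for j < k.
(Mathlib: taylor_mean_remainder_bound / taylor_mean_remainder_lagrange, or induction on k by integration:
|f^{(j)}(x) - e (x-ζ)^{k-j}/(k-j)!| ≤ K |x-ζ|^{k+1-j}, downward in j.)
all_zero: for p = (t,y) in the rectangle x ↦ a (t,x,y) is analytic on Ioo (-R) R with all derivatives 0 at ζ p ∈ Ioo (-R) R: 0.  So a = 0 on
(Ioo α β) × Ioo (-R) R × Ioo c d (open, nonempty), and on the convex box (identity theorem).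
-/

namespace Pool.Agent.Lib.MP_28b8de_an.PT

open Filter Topology Set MeasureTheory

theorem dx_iter_an {a : ℝ × ℝ × ℝ → ℝ} {s : Set (ℝ × ℝ × ℝ)} (ha : AnalyticOnNhd ℝ a s) (j : ℕ) :
    AnalyticOnNhd ℝ (Dx^[j] a) s := by
  induction j with
  | zero => simpa using ha
  | succ j ih =>
    rw [Function.iterate_succ_apply']
    intro z hz
    exact ((ContinuousLinearMap.apply ℝ ℝ ((0 : ℝ), (1 : ℝ), (0 : ℝ))).analyticAt _).comp
      (ih.fderiv z hz)

/-- Taylor estimate in one variable for a function whose derivatives vanish up to order `k - 1` -/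
private theorem PTay_one {S : Set ℝ} (hS : Convex ℝ S) {ξ K : ℝ} (hξ : ξ ∈ S) (hK : 0 ≤ K)
    (k : ℕ) : ∀ f : ℕ → ℝ → ℝ, (∀ j ≤ k, ∀ x ∈ S, HasDerivAt (f j) (f (j + 1) x) x) →
      (∀ j < k, f j ξ = 0) → (∀ x ∈ S, |f (k + 1) x| ≤ K) →
      ∀ x ∈ S, |f 0 x - f k ξ / (k.factorial : ℝ) * (x - ξ) ^ k| ≤ K * |x - ξ| ^ (k + 1) := by
  induction k with
  | zero =>
    intro f hf h0 hb x hx
    have h := hS.norm_image_sub_le_of_norm_hasDerivWithin_le (f := f 0) (f' := f 1) (C := K)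
      (fun y hy => (hf 0 le_rfl y hy).hasDerivWithinAt) (fun y hy => hb y hy) hξ hx
    simp only [Real.norm_eq_abs] at h
    simpa using h
  | succ k ih =>
    intro f hf h0 hb x hx
    have h1 := ih (fun j => f (j + 1)) (fun j hj y hy => hf (j + 1) (by omega) y hy)
      (fun j hj => h0 (j + 1) (by omega)) (fun y hy => hb y hy)
    simp only [Nat.zero_add] at h1
    set e : ℝ := f (k + 1) ξ with he
    set g : ℝ → ℝ := fun y => f 0 y - e / ((k + 1).factorial : ℝ) * (y - ξ) ^ (k + 1) with hg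
    have hgd : ∀ y ∈ S, HasDerivAt g (f 1 y - e / (k.factorial : ℝ) * (y - ξ) ^ k) y := by
      intro y hy
      have h2 : HasDerivAt (fun y : ℝ => (y - ξ) ^ (k + 1)) (((k + 1 : ℕ) : ℝ) * (y - ξ) ^ k * 1) y := by
        have h0' : HasDerivAt (fun y : ℝ => y - ξ) 1 y := (hasDerivAt_id y).sub_const ξ
        have h1' := h0'.fun_pow (k + 1)
        simpa using h1'
      have h3 := (hf 0 (Nat.zero_le _) y hy).sub (h2.const_mul (e / ((k + 1).factorial : ℝ)))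
      refine h3.congr_deriv ?_
      have h4 : ((k + 1).factorial : ℝ) = ((k + 1 : ℕ) : ℝ) * (k.factorial : ℝ) := by
        rw [Nat.factorial_succ]
        push_cast
        ring
      rw [h4]
      have h5 : ((k + 1 : ℕ) : ℝ) ≠ 0 := by positivity
      have h6 : (k.factorial : ℝ) ≠ 0 := by positivity
      field_simp
    have hseg : segment ℝ ξ x ⊆ S := hS.segment_subset hξ hx
    have h7 : ∀ y ∈ segment ℝ ξ x, |y - ξ| ≤ |x - ξ| := by
      intro y hy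
      rw [segment_eq_uIcc] at hy
      exact abs_sub_left_of_mem_uIcc hy
    have h8 := (convex_segment ξ x).norm_image_sub_le_of_norm_hasDerivWithin_le (f := g)
      (f' := fun y => f 1 y - e / (k.factorial : ℝ) * (y - ξ) ^ k) (C := K * |x - ξ| ^ (k + 1))
      (fun y hy => (hgd y (hseg hy)).hasDerivWithinAt) (fun y hy => by
        rw [Real.norm_eq_abs]
        refine (h1 y (hseg hy)).trans ?_
        exact mul_le_mul_of_nonneg_left
          (pow_le_pow_left₀ (abs_nonneg _) (h7 y hy) _) hK) (left_mem_segment ℝ ξ x) (right_mem_segment ℝ ξ x)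
    rw [Real.norm_eq_abs, Real.norm_eq_abs] at h8
    have h9 : g ξ = 0 := by
      simp only [hg]
      rw [h0 0 (by omega)]
      simp
    rw [h9, sub_zero] at h8
    calc |g x| ≤ K * |x - ξ| ^ (k + 1) * |x - ξ| := h8
      _ = K * |x - ξ| ^ (k + 1 + 1) := by ring

/-- derivative in the direction `x` along a line -/
private theorem PTay_deriv {a : ℝ × ℝ × ℝ → ℝ} {R : ℝ} (ha : AnalyticOnNhd ℝ a (Box R)) (j : ℕ)
    (t x y : ℝ) (h : (t, x, y) ∈ Box R) :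
    HasDerivAt (fun x' : ℝ => (Dx^[j] a) (t, x', y)) ((Dx^[j + 1] a) (t, x, y)) x := by
  have h1 : HasFDerivAt (Dx^[j] a) (fderiv ℝ (Dx^[j] a) (t, x, y)) (t, x, y) :=
    ((dx_iter_an ha j) _ h).differentiableAt.hasFDerivAt
  have h2 : HasDerivAt (fun x' : ℝ => ((t, x', y) : ℝ × ℝ × ℝ)) ((0 : ℝ), (1 : ℝ), (0 : ℝ)) x :=
    (hasDerivAt_const x t).prodMk ((hasDerivAt_id x).prodMk (hasDerivAt_const x y))
  have h3 := h1.comp_hasDerivAt x h2
  rw [Function.iterate_succ_apply']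
  exact h3

private theorem PTay_open (R : ℝ) : IsOpen (Box R) :=
  isOpen_Ioo.prod (isOpen_Ioo.prod isOpen_Ioo)

theorem taylor {R : ℝ} {a : ℝ × ℝ × ℝ → ℝ} (ha : AnalyticOnNhd ℝ a (Box R)) {ζ : ℝ × ℝ → ℝ}
    {α β c d : ℝ} (hζ : AnalyticOnNhd ℝ ζ (Ioo α β ×ˢ Ioo c d))
    (hbox : ∀ p ∈ Ioo α β ×ˢ Ioo c d, up ζ p ∈ Box R) {k : ℕ}
    (h0 : ∀ j < k, ∀ p ∈ Ioo α β ×ˢ Ioo c d, (Dx^[j] a) (up ζ p) = 0) {p₀ : ℝ × ℝ}
    (hp₀ : p₀ ∈ Ioo α β ×ˢ Ioo c d) :
    ∃ K : ℝ, 0 ≤ K ∧ ∀ᶠ z in 𝓝 (up ζ p₀),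
      |a z - (Dx^[k] a) (up ζ (z.1, z.2.2)) / (k.factorial : ℝ) * (z.2.1 - ζ (z.1, z.2.2)) ^ k|
        ≤ K * |z.2.1 - ζ (z.1, z.2.2)| ^ (k + 1) := by
  set z₀ := up ζ p₀ with hz₀
  have hz₀B : z₀ ∈ Box R := hbox p₀ hp₀
  have hc1 : ContinuousAt (Dx^[k + 1] a) z₀ := ((dx_iter_an ha (k + 1)) z₀ hz₀B).continuousAt
  have hc2 : ∀ᶠ z in 𝓝 z₀, |(Dx^[k + 1] a) z| ≤ |(Dx^[k + 1] a) z₀| + 1 := by
    have h := hc1.abs.eventually (gt_mem_nhds (lt_add_one |(Dx^[k + 1] a) z₀|))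
    exact h.mono fun z hz => le_of_lt hz
  obtain ⟨r, hr, hball⟩ := Metric.eventually_nhds_iff_ball.1
    (hc2.and ((PTay_open R).mem_nhds hz₀B))
  refine ⟨|(Dx^[k + 1] a) z₀| + 1, by positivity, ?_⟩
  have hq : Tendsto (fun z : ℝ × ℝ × ℝ => ((z.1, z.2.2) : ℝ × ℝ)) (𝓝 z₀) (𝓝 p₀) := by
    have h : Continuous (fun z : ℝ × ℝ × ℝ => ((z.1, z.2.2) : ℝ × ℝ)) := by fun_prop
    have h' := h.tendsto z₀
    exact h'
  have hup : Tendsto (fun z : ℝ × ℝ × ℝ => up ζ (z.1, z.2.2)) (𝓝 z₀) (𝓝 z₀) := by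
    have h1 : ContinuousAt (up ζ) p₀ := by
      have h2 : ContinuousAt ζ p₀ := (hζ p₀ hp₀).continuousAt
      exact continuousAt_fst.prodMk (h2.prodMk continuousAt_snd)
    exact h1.tendsto.comp hq
  have hrect : ∀ᶠ z in 𝓝 z₀, ((z.1, z.2.2) : ℝ × ℝ) ∈ Ioo α β ×ˢ Ioo c d :=
    hq.eventually ((isOpen_Ioo.prod isOpen_Ioo).mem_nhds hp₀)
  filter_upwards [Metric.ball_mem_nhds z₀ hr, hup (Metric.ball_mem_nhds z₀ hr), hrect]
    with z hz hz1 hz2
  obtain ⟨t, x, y⟩ := z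
  simp only at hz1 hz2 ⊢
  have hz1' : (t, ζ (t, y), y) ∈ Metric.ball z₀ r := hz1
  set S : Set ℝ := {x' | (t, x', y) ∈ Metric.ball z₀ r} with hS
  have hconv : Convex ℝ S := by
    intro u hu v hv p q hp hq' hpq
    have h := convex_ball z₀ r hu hv hp hq' hpq
    have h2 : p • ((t, u, y) : ℝ × ℝ × ℝ) + q • ((t, v, y) : ℝ × ℝ × ℝ)
        = (t, p • u + q • v, y) := by
      ext
      · simp only [Prod.smul_mk, Prod.mk_add_mk, smul_eq_mul]
        rw [← add_mul, hpq, one_mul]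
      · simp only [Prod.smul_mk, Prod.mk_add_mk, smul_eq_mul]
      · simp only [Prod.smul_mk, Prod.mk_add_mk, smul_eq_mul]
        rw [← add_mul, hpq, one_mul]
    rw [h2] at h
    exact h
  exact PTay_one hconv (ξ := ζ (t, y)) hz1' (by positivity) k
    (fun j x' => (Dx^[j] a) (t, x', y))
    (fun j _ x' hx' => PTay_deriv ha j t x' y (hball _ hx').2)
    (fun j hj => h0 j hj (t, y) hz2) (fun x' hx' => (hball _ hx').1) x hz

theorem all_zero {R : ℝ} {a : ℝ × ℝ × ℝ → ℝ} (ha : AnalyticOnNhd ℝ a (Box R)) {ζ : ℝ × ℝ → ℝ}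
    {α β c d : ℝ} (hα : α < β) (hc : c < d)
    (hbox : ∀ p ∈ Ioo α β ×ˢ Ioo c d, up ζ p ∈ Box R)
    (h0 : ∀ j, ∀ p ∈ Ioo α β ×ˢ Ioo c d, (Dx^[j] a) (up ζ p) = 0) : ∀ z ∈ Box R, a z = 0 := by
  -- zero over the rectangle
  have hrect : ∀ t ∈ Ioo α β, ∀ y ∈ Ioo c d, ∀ x ∈ Ioo (-R) R, a (t, x, y) = 0 := by
    intro t ht y hy
    have hp : ((t, y) : ℝ × ℝ) ∈ Ioo α β ×ˢ Ioo c d := ⟨ht, hy⟩
    have hb := hbox _ hp
    have hbt : t ∈ Ioo (-R) R := hb.1
    have hbx : ζ (t, y) ∈ Ioo (-R) R := hb.2.1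
    have hby : y ∈ Ioo (-R) R := hb.2.2
    set g : ℝ → ℝ := fun x => a (t, x, y) with hg
    have hin : ∀ x ∈ Ioo (-R) R, (t, x, y) ∈ Box R := fun x hx => ⟨hbt, hx, hby⟩
    have hga : AnalyticOnNhd ℝ g (Ioo (-R) R) := by
      intro x hx
      have h1 : AnalyticAt ℝ (fun x' : ℝ => ((t, x', y) : ℝ × ℝ × ℝ)) x :=
        analyticAt_const.prod (analyticAt_id.prod analyticAt_const)
      exact AnalyticAt.comp (g := a) (f := fun x' : ℝ => ((t, x', y) : ℝ × ℝ × ℝ))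
        (ha _ (hin x hx)) h1
    have hit : ∀ n, ∀ x ∈ Ioo (-R) R, iteratedDeriv n g x = (Dx^[n] a) (t, x, y) := by
      intro n
      induction n with
      | zero => intro x _; simp [hg]
      | succ n ih =>
        intro x hx
        rw [iteratedDeriv_succ]
        have h1 : iteratedDeriv n g =ᶠ[𝓝 x] fun x' => (Dx^[n] a) (t, x', y) := by
          filter_upwards [isOpen_Ioo.mem_nhds hx] with x' hx'
          exact ih x' hx'
        rw [h1.deriv_eq]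
        exact (PTay_deriv ha n t x y (hin x hx)).deriv
    have hz : ∀ᶠ x in 𝓝 (ζ (t, y)), g x = 0 := by
      have h1 := (hga _ hbx).hasFPowerSeriesAt
      have h2 : (FormalMultilinearSeries.ofScalars ℝ
          (fun n => iteratedDeriv n g (ζ (t, y)) / (n.factorial : ℝ))) = 0 := by
        have h3 : (fun n => iteratedDeriv n g (ζ (t, y)) / (n.factorial : ℝ)) = 0 := by
          funext n
          rw [hit n _ hbx]
          have h4 := h0 n (t, y) hp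
          have h5 : (Dx^[n] a) (t, ζ (t, y), y) = 0 := h4
          rw [h5]
          simp
        rw [h3]
        ext n
        simp [FormalMultilinearSeries.ofScalars]
      rw [h2] at h1
      exact h1.eventually_eq_zero
    intro x hx
    exact hga.eqOn_zero_of_preconnected_of_eventuallyEq_zero isPreconnected_Ioo hbx hz hx
  -- identity theorem in the box
  have hm : (α + β) / 2 ∈ Ioo α β := ⟨by linarith, by linarith⟩
  have hm' : (c + d) / 2 ∈ Ioo c d := ⟨by linarith, by linarith⟩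
  have hp : (((α + β) / 2, (c + d) / 2) : ℝ × ℝ) ∈ Ioo α β ×ˢ Ioo c d := ⟨hm, hm'⟩
  have hb := hbox _ hp
  have hopen : IsOpen (Ioo α β ×ˢ Ioo (-R) R ×ˢ Ioo c d : Set (ℝ × ℝ × ℝ)) :=
    isOpen_Ioo.prod (isOpen_Ioo.prod isOpen_Ioo)
  have hmem : up ζ ((α + β) / 2, (c + d) / 2)
      ∈ (Ioo α β ×ˢ Ioo (-R) R ×ˢ Ioo c d : Set (ℝ × ℝ × ℝ)) := ⟨hm, hb.2.1, hm'⟩
  have hev : a =ᶠ[𝓝 (up ζ ((α + β) / 2, (c + d) / 2))] 0 := by
    filter_upwards [hopen.mem_nhds hmem] with z hz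
    exact hrect z.1 hz.1 z.2.2 hz.2.2 z.2.1 hz.2.1
  have hpre : IsPreconnected (Box R) :=
    ((convex_Ioo (-R) R).prod ((convex_Ioo (-R) R).prod (convex_Ioo (-R) R))).isPreconnected
  intro z hz
  exact ha.eqOn_zero_of_preconnected_of_eventuallyEq_zero hpre hb hev hz

end Pool.Agent.Lib.MP_28b8de_an.PT
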