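import Pool.Agent.Lib.MP_28b8de_an.P.PChartA
import Pool.Agent.Lib.MP_28b8de_an.P.PFeed
import Pool.Agent.Lib.MP_28b8de_an.P.PTay
import Pool.Agent.Lib.MP_28b8de_an.P.PRelEven
import Pool.Agent.Lib.MP_28b8de_an.P.PRelMax
import Pool.Agent.Lib.MP_28b8de_an.P.PRelMin

/-!
MP_28b8de_an, module PChartU (PTD-PChartU): a chart with zb ≠ 0 and an unsaturated point of C.

Hypotheses: zb ≠ 0 along q over Ioo α β and on the surface; |za| < |zb| along q over Ioo α β; p a multiplier with p(G) = 0 on C; D = 0 on C; D is not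
identically 0 on the box.
PROOF.  δ_j(p) := (Dx^[j] (Dt F G)) (up ζ p), analytic on the rectangle.  If for every j δ_j vanishes at all (t, (q t).2), t ∈ C ∩ Ioo α β: chart_zero gives Goal or all δ_j = 0 on the
rectangle, and then all_zero contradicts hne.  So let k be the least index with δ_k (t₅, (q t₅).2) ≠ 0 for some t₅ ∈ C ∩ Ioo α β; k ≥ 1 by hD.  For j < k: δ_j = 0 on C, so
(chart_zero) Goal, or δ_j = 0 on the rectangle for all j < k: assume the latter.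
`taylor` at (t₅, (q t₅).2): |D z - (δ_k/k!) (x - ζ)^k| ≤ K |x-ζ|^{k+1} near (t₅, q t₅).
Along q near t₅ (G ≠ 0 there: zb ≠ 0 implies G ≠ 0): with φ t = p t (G (t,q t)), p_decomp and phi_eq: φ' = N + μ φ, N = κ D, κ t = p t (G^⊥)/(G·G) (t, q t), μ = (G·W)/(G·G).
κ t₅ ≠ 0 (p_perp).  e t := κ t δ_k(t, (q t).2)/k! ≠ 0 near t₅, B t := zb G ζ (t,q t), β t := - za/zb (t, q t), |β| < 1, z t = (q t).1 - ζ (t,(q t).2): zeq gives z t - z s = ∫ B (u - β).
N1: |N - e z^k| ≤ |κ| K |z|^{k+1}; N2 near t₅ since z t₅ = 0 and e t₅ ≠ 0: |κ| K |z| ≤ |e|/2.  All functions continuous, β and e/B Lipschitz on compact subintervals (compositions of Lipschitz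
functions t ↦ (t, q t), p with functions analytic near (t₅, q t₅): choose the neighbourhood so that these are Lipschitz on it).
Chart_shrink around t₅ such that all this holds on Ioo α' β'.  For s < s' in C ∩ Ioo α' β': z, φ vanish at s, s' (Chart.x; hφ).  `Rel` holds on Icc s s'.  e B has constant sign on
Icc s s'.  rel_even / rel_max / rel_min: z = 0 on Icc s s'; feed_jn: Jn F G q s s'.  Goal.
-/

namespace Pool.Agent.Lib.MP_28b8de_an.PT

open Filter Topology Set MeasureTheory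

variable {F G : ℝ × ℝ × ℝ → ℝ × ℝ} {R M : ℝ}

private theorem PChartU_lipmap {T : ℝ} {u : ℝ → ℝ} {q : ℝ → ℝ × ℝ} (h : Tr F G R M T u q) :
    LipschitzOnWith (2 * M).toNNReal (fun t => ((t, q t) : ℝ × ℝ × ℝ)) (Icc 0 T) := by
  have hM := h.env.hM
  refine LipschitzOnWith.of_dist_le_mul fun s hs t ht => ?_
  rw [Real.coe_toNNReal _ (by linarith)]
  have h1 := sol_lip h.env h.adm h.sol ht hs
  rw [Prod.dist_eq]
  refine max_le ?_ ?_
  · show dist s t ≤ 2 * M * dist s t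
    have := dist_nonneg (x := s) (y := t)
    nlinarith
  · show dist (q s) (q t) ≤ 2 * M * dist s t
    rw [dist_eq_norm, Real.dist_eq]
    exact h1

private theorem PChartU_lip_mul {f g : ℝ → ℝ} {a b : ℝ} {K L : NNReal}
    (hf : LipschitzOnWith K f (Icc a b)) (hg : LipschitzOnWith L g (Icc a b)) :
    ∃ C : NNReal, LipschitzOnWith C (fun t => f t * g t) (Icc a b) := by
  obtain ⟨A, hA⟩ := isCompact_Icc.exists_bound_of_continuousOn hf.continuousOn
  obtain ⟨B, hB⟩ := isCompact_Icc.exists_bound_of_continuousOn hg.continuousOn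
  refine ⟨K * (max B 0).toNNReal + (max A 0).toNNReal * L,
    LipschitzOnWith.of_dist_le_mul fun s hs t ht => ?_⟩
  have h1 := hf.dist_le_mul s hs t ht
  have h2 := hg.dist_le_mul s hs t ht
  rw [Real.dist_eq] at h1 h2 ⊢
  rw [NNReal.coe_add, NNReal.coe_mul, NNReal.coe_mul, Real.coe_toNNReal _ (le_max_right _ _),
    Real.coe_toNNReal _ (le_max_right _ _)]
  have h3 : |g s| ≤ max B 0 := (hB s hs).trans (le_max_left _ _)
  have h4 : |f t| ≤ max A 0 := (hA t ht).trans (le_max_left _ _)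
  have e : f s * g s - f t * g t = (f s - f t) * g s + f t * (g s - g t) := by ring
  rw [e]
  refine (abs_add_le _ _).trans ?_
  rw [abs_mul, abs_mul]
  have h5 : |f s - f t| * |g s| ≤ K * dist s t * max B 0 :=
    mul_le_mul h1 h3 (abs_nonneg _) (by positivity)
  have h6 : |f t| * |g s - g t| ≤ max A 0 * (L * dist s t) :=
    mul_le_mul h4 h2 (abs_nonneg _) (by positivity)
  calc _ ≤ K * dist s t * max B 0 + max A 0 * (L * dist s t) := add_le_add h5 h6
    _ = _ := by ring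

private theorem PChartU_lip_apply {p : ℝ → (ℝ × ℝ) →L[ℝ] ℝ} {w : ℝ → ℝ × ℝ} {a b : ℝ}
    {K L : NNReal} (hp : LipschitzOnWith K p (Icc a b)) (hw : LipschitzOnWith L w (Icc a b)) :
    ∃ C : NNReal, LipschitzOnWith C (fun t => p t (w t)) (Icc a b) := by
  obtain ⟨A, hA⟩ := isCompact_Icc.exists_bound_of_continuousOn hp.continuousOn
  obtain ⟨B, hB⟩ := isCompact_Icc.exists_bound_of_continuousOn hw.continuousOn
  refine ⟨K * (max B 0).toNNReal + (max A 0).toNNReal * L,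
    LipschitzOnWith.of_dist_le_mul fun s hs t ht => ?_⟩
  have h1 := hp.dist_le_mul s hs t ht
  have h2 := hw.dist_le_mul s hs t ht
  rw [dist_eq_norm] at h1 h2
  rw [Real.dist_eq, NNReal.coe_add, NNReal.coe_mul, NNReal.coe_mul,
    Real.coe_toNNReal _ (le_max_right _ _), Real.coe_toNNReal _ (le_max_right _ _)]
  have h3 : ‖w s‖ ≤ max B 0 := (hB s hs).trans (le_max_left _ _)
  have h4 : ‖p t‖ ≤ max A 0 := (hA t ht).trans (le_max_left _ _)
  have e : p s (w s) - p t (w t) = (p s - p t) (w s) + p t (w s - w t) := by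
    rw [sub_apply, map_sub]; ring
  rw [e]
  refine (abs_add_le _ _).trans ?_
  have h5 : |(p s - p t) (w s)| ≤ K * dist s t * max B 0 := by
    have := (p s - p t).le_opNorm (w s)
    rw [Real.norm_eq_abs] at this
    exact this.trans (mul_le_mul h1 h3 (norm_nonneg _) (by positivity))
  have h6 : |p t (w s - w t)| ≤ max A 0 * (L * dist s t) := by
    have := (p t).le_opNorm (w s - w t)
    rw [Real.norm_eq_abs] at this
    exact this.trans (mul_le_mul h4 h2 (norm_nonneg _) (by positivity))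
  calc _ ≤ K * dist s t * max B 0 + max A 0 * (L * dist s t) := add_le_add h5 h6
    _ = _ := by ring

private theorem PChartU_pos {g : ℝ × ℝ} (hg : g ≠ 0) : 0 < g.1 ^ 2 + g.2 ^ 2 := by
  rcases eq_or_ne g.1 0 with h1 | h1
  · have h2 : g.2 ≠ 0 := fun h2 => hg (Prod.ext h1 h2)
    positivity
  · positivity

theorem chart_u {T : ℝ} {u : ℝ → ℝ} {q : ℝ → ℝ × ℝ} (h : Tr F G R M T u q) {C : Set ℝ}
    (hC : Perf T C) {p : ℝ → (ℝ × ℝ) →L[ℝ] ℝ} (hp : Mul F G T u q p)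
    (hφ : ∀ t ∈ C, p t (G (t, q t)) = 0) (hD : ∀ t ∈ C, Dt F G (t, q t) = 0)
    (hne : ∃ z ∈ Box R, Dt F G z ≠ 0)
    {ζ : ℝ × ℝ → ℝ} {α β c d : ℝ} (hch : Chart R T q C ζ α β c d)
    (hb : ∀ t ∈ Ioo α β, zb G ζ (t, q t) ≠ 0)
    (hb' : ∀ p ∈ Ioo α β ×ˢ Ioo c d, zb G ζ (up ζ p) ≠ 0)
    (hu : ∀ t ∈ Ioo α β, |za F ζ (t, q t)| < |zb G ζ (t, q t)|) : Goal F G q C := by
  classical
  by_contra hgoal
  have E := h.env
  have hsub : Ioo α β ⊆ Icc 0 T := fun t ht => ⟨hch.hα.trans ht.1.le, ht.2.le.trans hch.hβ⟩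
  have hqc : ContinuousOn q (Icc 0 T) := h.sol.cont
  obtain ⟨t₀, ht₀, ht₀'⟩ := hch.ne
  have hαβ : α < β := ht₀'.1.trans ht₀'.2
  have hcd : c < d := (hch.y t₀ ht₀').1.trans (hch.y t₀ ht₀').2
  have hDan := Dt_an E
  have hδan : ∀ j, AnalyticOnNhd ℝ (fun p => (Dx^[j] (Dt F G)) (up ζ p))
      (Ioo α β ×ˢ Ioo c d) := fun j => up_an (dx_iter_an hDan j) hch.an hch.box
  have hz : ∀ j, (∀ t ∈ C, t ∈ Ioo α β → (Dx^[j] (Dt F G)) (up ζ (t, (q t).2)) = 0) →
      ∀ p ∈ Ioo α β ×ˢ Ioo c d, (Dx^[j] (Dt F G)) (up ζ p) = 0 := by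
    intro j hj
    rcases chart_zero h hC hch (hδan j) hj with h1 | h1
    · exact h1
    · exact absurd h1 hgoal
  have hex : ∃ j, ∃ t ∈ C, t ∈ Ioo α β ∧ (Dx^[j] (Dt F G)) (up ζ (t, (q t).2)) ≠ 0 := by
    by_contra hcon
    push Not at hcon
    obtain ⟨z, hzB, hz0⟩ := hne
    exact hz0 (all_zero hDan hαβ hcd hch.box (fun j => hz j (hcon j)) z hzB)
  obtain ⟨k, hkdef⟩ : ∃ k, k = Nat.find hex := ⟨_, rfl⟩
  have hspec := Nat.find_spec hex
  rw [← hkdef] at hspec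
  obtain ⟨t₅, ht₅, ht₅', hδ5⟩ := hspec
  have hlow : ∀ j < k, ∀ p ∈ Ioo α β ×ˢ Ioo c d, (Dx^[j] (Dt F G)) (up ζ p) = 0 := by
    intro j hj
    rw [hkdef] at hj
    apply hz j
    intro t ht ht'
    by_contra hne'
    exact Nat.find_min hex hj ⟨t, ht, ht', hne'⟩
  have hup : ∀ t ∈ C, t ∈ Ioo α β → up ζ (t, (q t).2) = (t, q t) := by
    intro t ht ht'
    simp only [up]
    rw [← hch.x t ht ht']
  have hk1 : 1 ≤ k := by
    by_contra hk0
    have hk0 : k = 0 := by omega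
    rw [hk0, Function.iterate_zero, id_eq, hup t₅ ht₅ ht₅'] at hδ5
    exact hδ5 (hD t₅ ht₅)
  have hp₀ : (t₅, (q t₅).2) ∈ Ioo α β ×ˢ Ioo c d := ⟨ht₅', hch.y t₅ ht₅'⟩
  obtain ⟨K, hK, htay⟩ := taylor hDan hch.an hch.box hlow hp₀
  rw [hup t₅ ht₅ ht₅'] at htay
  -- functions on space
  obtain ⟨δ, hδdef⟩ : ∃ δ : ℝ × ℝ × ℝ → ℝ, δ = fun z =>
      (Dx^[k] (Dt F G)) (up ζ (z.1, z.2.2)) / (k.factorial : ℝ) := ⟨_, rfl⟩
  have hfac : (k.factorial : ℝ) ≠ 0 := by positivity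
  have hbox : ∀ t ∈ Ioo α β, (t, q t) ∈ Box R := fun t ht =>
    tr_box h (hsub ht) (by simp)
  have hprj : ∀ t ∈ Ioo α β, AnalyticAt ℝ (fun z : ℝ × ℝ × ℝ => (z.1, z.2.2)) (t, q t) := by
    intro t _
    exact analyticAt_fst.prod (AnalyticAt.comp (g := fun w : ℝ × ℝ => w.2)
      (f := fun z : ℝ × ℝ × ℝ => z.2) analyticAt_snd analyticAt_snd)
  have hrect : ∀ t ∈ Ioo α β, ((t, (q t).2) : ℝ × ℝ) ∈ Ioo α β ×ˢ Ioo c d :=
    fun t ht => ⟨ht, hch.y t ht⟩
  have δan : ∀ t ∈ Ioo α β, AnalyticAt ℝ δ (t, q t) := by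
    intro t ht
    rw [hδdef]
    have h1 : AnalyticAt ℝ (fun z : ℝ × ℝ × ℝ => (Dx^[k] (Dt F G)) (up ζ (z.1, z.2.2))) (t, q t) :=
      AnalyticAt.comp (g := fun p => (Dx^[k] (Dt F G)) (up ζ p))
        (f := fun z : ℝ × ℝ × ℝ => (z.1, z.2.2)) (hδan k _ (hrect t ht)) (hprj t ht)
    exact h1.div analyticAt_const hfac
  have zaan : ∀ t ∈ Ioo α β, AnalyticAt ℝ (za F ζ) (t, q t) :=
    fun t ht => za_an E (hbox t ht) (hch.an _ (hrect t ht))
  have zban : ∀ t ∈ Ioo α β, AnalyticAt ℝ (zb G ζ) (t, q t) :=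
    fun t ht => zb_an E (hbox t ht) (hch.an _ (hrect t ht))
  have βan : ∀ t ∈ Ioo α β, AnalyticAt ℝ (fun z => -(za F ζ z) / zb G ζ z) (t, q t) :=
    fun t ht => (zaan t ht).neg.div (zban t ht) (hb t ht)
  have ζan : ∀ t ∈ Ioo α β, AnalyticAt ℝ (fun z : ℝ × ℝ × ℝ => ζ (z.1, z.2.2)) (t, q t) :=
    fun t ht => AnalyticAt.comp (g := ζ) (f := fun z : ℝ × ℝ × ℝ => (z.1, z.2.2))
      (hch.an _ (hrect t ht)) (hprj t ht)
  have hG0 : ∀ t ∈ Ioo α β, G (t, q t) ≠ 0 := by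
    intro t ht h0
    apply hb t ht
    simp only [zb, h0, Prod.fst_zero, Prod.snd_zero, mul_zero, sub_zero]
  have G1an : ∀ t ∈ Ioo α β, AnalyticAt ℝ (fun z => (G z).1) (t, q t) := fun t ht =>
    AnalyticAt.comp (g := Prod.fst) (f := G) analyticAt_fst (E.Ga _ (hbox t ht))
  have G2an : ∀ t ∈ Ioo α β, AnalyticAt ℝ (fun z => (G z).2) (t, q t) := fun t ht =>
    AnalyticAt.comp (g := Prod.snd) (f := G) analyticAt_snd (E.Ga _ (hbox t ht))
  have gan : ∀ t ∈ Ioo α β, AnalyticAt ℝ (fun z => (G z).1 ^ 2 + (G z).2 ^ 2) (t, q t) :=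
    fun t ht => ((G1an t ht).pow 2).add ((G2an t ht).pow 2)
  have hg0 : ∀ t ∈ Ioo α β, (G (t, q t)).1 ^ 2 + (G (t, q t)).2 ^ 2 ≠ 0 :=
    fun t ht => (PChartU_pos (hG0 t ht)).ne'
  have Γan : ∀ t ∈ Ioo α β,
      AnalyticAt ℝ (fun z => δ z / ((G z).1 ^ 2 + (G z).2 ^ 2) / zb G ζ z) (t, q t) :=
    fun t ht => ((δan t ht).div (gan t ht) (hg0 t ht)).div (zban t ht) (hb t ht)
  -- continuity along q
  have hzt : ∀ t ∈ Ioo α β, ContinuousAt (fun t => ((t, q t) : ℝ × ℝ × ℝ)) t := by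
    intro t ht
    refine continuousAt_id.prodMk (hqc.continuousAt ?_)
    exact mem_of_superset (Ioo_mem_nhds ht.1 ht.2) hsub
  have hpc : ∀ t ∈ Ioo α β, ContinuousAt p t := by
    intro t ht
    exact hp.adj.cont.continuousAt (mem_of_superset (Ioo_mem_nhds ht.1 ht.2) hsub)
  have hcomp : ∀ {f : ℝ × ℝ × ℝ → ℝ}, (∀ t ∈ Ioo α β, AnalyticAt ℝ f (t, q t)) →
      ∀ t ∈ Ioo α β, ContinuousAt (fun t => f (t, q t)) t := by
    intro f hf t ht
    exact ContinuousAt.comp (g := f) (f := fun t => ((t, q t) : ℝ × ℝ × ℝ))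
      (hf t ht).continuousAt (hzt t ht)
  -- the functions of the relay
  obtain ⟨κ, hκdef⟩ : ∃ κ : ℝ → ℝ, κ = fun t => p t (-(G (t, q t)).2, (G (t, q t)).1) /
      ((G (t, q t)).1 ^ 2 + (G (t, q t)).2 ^ 2) := ⟨_, rfl⟩
  have hκc : ∀ t ∈ Ioo α β, ContinuousAt κ t := by
    intro t ht
    rw [hκdef]
    refine ContinuousAt.div ?_ (hcomp gan t ht) (hg0 t ht)
    exact (hpc t ht).clm_apply ((hcomp G2an t ht).neg.prodMk (hcomp G1an t ht))
  have hκ5 : κ t₅ ≠ 0 := by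
    rw [hκdef]
    exact div_ne_zero (p_perp (hG0 t₅ ht₅') (hp.ne t₅ (hsub ht₅')) (hφ t₅ ht₅)) (hg0 t₅ ht₅')
  have hδ5' : δ (t₅, q t₅) ≠ 0 := by
    rw [hδdef]
    exact div_ne_zero hδ5 hfac
  obtain ⟨Lβ, Nβ, hNβ, hLβ⟩ := ((βan t₅ ht₅').contDiffAt (n := 1)).exists_lipschitzOnWith
  obtain ⟨LΓ, NΓ, hNΓ, hLΓ⟩ := ((Γan t₅ ht₅').contDiffAt (n := 1)).exists_lipschitzOnWith
  have hz5 : (fun z : ℝ × ℝ × ℝ => z.2.1 - ζ (z.1, z.2.2)) (t₅, q t₅) = 0 := by
    show (q t₅).1 - ζ (t₅, (q t₅).2) = 0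
    rw [hch.x t₅ ht₅ ht₅', sub_self]
  have zan : ∀ t ∈ Ioo α β,
      AnalyticAt ℝ (fun z : ℝ × ℝ × ℝ => z.2.1 - ζ (z.1, z.2.2)) (t, q t) := by
    intro t ht
    exact (AnalyticAt.comp (g := fun w : ℝ × ℝ => w.1)
      (f := fun z : ℝ × ℝ × ℝ => z.2) analyticAt_fst analyticAt_snd).sub (ζan t ht)
  have ev1 : ∀ᶠ t in 𝓝 t₅, (t, q t) ∈ Nβ := (hzt t₅ ht₅').eventually hNβ
  have ev2 : ∀ᶠ t in 𝓝 t₅, (t, q t) ∈ NΓ := (hzt t₅ ht₅').eventually hNΓ
  have ev3 := (hzt t₅ ht₅').eventually htay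
  have ev4 : ∀ᶠ t in 𝓝 t₅, κ t ≠ 0 := (hκc t₅ ht₅').eventually_ne hκ5
  have ev5 : ∀ᶠ t in 𝓝 t₅, |κ t| < |κ t₅| + 1 :=
    (hκc t₅ ht₅').abs.eventually_lt_const (lt_add_one _)
  have ev6 : ∀ᶠ t in 𝓝 t₅, δ (t, q t) ≠ 0 := (hcomp δan t₅ ht₅').eventually_ne hδ5'
  have ev7 : ∀ᶠ t in 𝓝 t₅, K * |(q t).1 - ζ (t, (q t).2)| < |δ (t, q t)| / 2 := by
    have c1 : ContinuousAt (fun t => K * |(q t).1 - ζ (t, (q t).2)|) t₅ :=
      continuousAt_const.mul (hcomp zan t₅ ht₅').abs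
    have c2 : ContinuousAt (fun t => |δ (t, q t)| / 2) t₅ :=
      (hcomp δan t₅ ht₅').abs.div_const 2
    refine c1.eventually_lt c2 ?_
    have : (q t₅).1 - ζ (t₅, (q t₅).2) = 0 := hz5
    rw [this, abs_zero, mul_zero]
    positivity
  have ev8 : (∀ᶠ t in 𝓝 t₅, 0 < κ t * δ (t, q t) * zb G ζ (t, q t)) ∨
      (∀ᶠ t in 𝓝 t₅, κ t * δ (t, q t) * zb G ζ (t, q t) < 0) := by
    have c : ContinuousAt (fun t => κ t * δ (t, q t) * zb G ζ (t, q t)) t₅ :=
      ((hκc t₅ ht₅').mul (hcomp δan t₅ ht₅')).mul (hcomp zban t₅ ht₅')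
    rcases lt_or_gt_of_ne (mul_ne_zero (mul_ne_zero hκ5 hδ5') (hb t₅ ht₅')) with h1 | h1
    · exact Or.inr (c.eventually_lt_const h1)
    · exact Or.inl (c.eventually_const_lt h1)
  have ev9 : ∀ᶠ t in 𝓝 t₅, t ∈ Ioo α β := Ioo_mem_nhds ht₅'.1 ht₅'.2
  have evall := ((((((ev1.and ev2).and ev3).and ev4).and ev5).and ev6).and ev7).and ev9
  -- the key: on every interval on which all this holds
  have key : ∀ s ∈ C, ∀ s' ∈ C, s < s' → (∀ t ∈ Icc s s', ((((((((t, q t) ∈ Nβ ∧ (t, q t) ∈ NΓ) ∧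
      |Dt F G (t, q t) - (Dx^[k] (Dt F G)) (up ζ ((t, q t).1, (t, q t).2.2)) / (k.factorial : ℝ) *
        ((t, q t).2.1 - ζ ((t, q t).1, (t, q t).2.2)) ^ k| ≤
          K * |(t, q t).2.1 - ζ ((t, q t).1, (t, q t).2.2)| ^ (k + 1)) ∧ κ t ≠ 0) ∧
      |κ t| < |κ t₅| + 1) ∧ δ (t, q t) ≠ 0) ∧ K * |(q t).1 - ζ (t, (q t).2)| < |δ (t, q t)| / 2) ∧
      t ∈ Ioo α β)) → ((∀ t ∈ Icc s s', 0 < κ t * δ (t, q t) * zb G ζ (t, q t)) ∨
        (∀ t ∈ Icc s s', κ t * δ (t, q t) * zb G ζ (t, q t) < 0)) → Jn F G q s s' := by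
    intro s hs s' hs' hss hall hsgn
    have hI : Icc s s' ⊆ Ioo α β := fun t ht => (hall t ht).2
    have hIT : Icc s s' ⊆ Icc 0 T := hI.trans hsub
    have hsm : s ∈ Icc s s' := left_mem_Icc.2 hss.le
    have hsm' : s' ∈ Icc s s' := right_mem_Icc.2 hss.le
    have hcon : ∀ {f : ℝ → ℝ}, (∀ t ∈ Ioo α β, ContinuousAt f t) → ContinuousOn f (Icc s s') :=
      fun hf t ht => (hf t (hI ht)).continuousWithinAt
    have hqs : Sol F G u q s s' := sol_mono E h.adm h.sol (hIT hsm).1 (hIT hsm').2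
    have hzs : (q s).1 - ζ (s, (q s).2) = 0 := by rw [hch.x s hs (hI hsm), sub_self]
    have hzs' : (q s').1 - ζ (s', (q s').2) = 0 := by rw [hch.x s' hs' (hI hsm'), sub_self]
    have Gc : ∀ t ∈ Ioo α β, ContinuousAt (fun t => G (t, q t)) t := fun t ht =>
      ContinuousAt.comp (g := G) (f := fun t => ((t, q t) : ℝ × ℝ × ℝ))
        E.Gs.continuous.continuousAt (hzt t ht)
    have Wc : ∀ t ∈ Ioo α β, ContinuousAt (fun t => W F G (t, q t)) t := fun t ht =>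
      ContinuousAt.comp (g := W F G) (f := fun t => ((t, q t) : ℝ × ℝ × ℝ))
        (W_cont E).continuousAt (hzt t ht)
    have φc : ∀ t ∈ Ioo α β, ContinuousAt (fun t => p t (G (t, q t))) t := fun t ht =>
      (hpc t ht).clm_apply (Gc t ht)
    have hlipz := (PChartU_lipmap h).mono hIT
    have hrel : Rel k ((|κ t₅| + 1) * K) s s' (fun t => (q t).1 - ζ (t, (q t).2))
        (fun t => p t (G (t, q t))) u (fun t => zb G ζ (t, q t))
        (fun t => -(za F ζ (t, q t)) / zb G ζ (t, q t)) (fun t => κ t * Dt F G (t, q t))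
        (fun t => ((G (t, q t)).1 * (W F G (t, q t)).1 + (G (t, q t)).2 * (W F G (t, q t)).2) /
          ((G (t, q t)).1 ^ 2 + (G (t, q t)).2 ^ 2)) (fun t => κ t * δ (t, q t)) := by
      refine ⟨hss, by positivity, hk1, h.adm.1, h.adm.2, ?_, hcon (hcomp zan), hcon φc,
        hcon (hcomp zban), hcon (hcomp βan), ?_, ?_, ?_, ?_, ?_, hzs', hφ s' hs',
        fun t ht => hb t (hI ht), ?_, ?_, ?_, ?_, ?_, ?_⟩
      · filter_upwards [hp.max] with t ht htI
        exact ht (hIT htI)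
      · refine hcon fun t ht => (hκc t ht).mul ?_
        exact ContinuousAt.comp (g := Dt F G) (f := fun t => ((t, q t) : ℝ × ℝ × ℝ))
          (Dt_cont E).continuousAt (hzt t ht)
      · refine hcon fun t ht => ContinuousAt.div ?_ (hcomp gan t ht) (hg0 t ht)
        exact ((Gc t ht).fst.mul (Wc t ht).fst).add ((Gc t ht).snd.mul (Wc t ht).snd)
      · exact hcon fun t ht => (hκc t ht).mul (hcomp δan t ht)
      · intro t ht
        have h1 := zeq E hch.an h.adm hqs hI (fun t ht => hch.y t (hI ht)) s hsm t ht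
        rw [hzs, sub_zero] at h1
        show (q t).1 - ζ (t, (q t).2) = _
        rw [h1]
        refine intervalIntegral.integral_congr fun r hr => ?_
        have hr' : r ∈ Icc s s' := (uIcc_subset_Icc hsm ht) hr
        have hb0 := hb r (hI hr')
        show za F ζ (r, q r) + u r * zb G ζ (r, q r) =
          zb G ζ (r, q r) * (u r - -(za F ζ (r, q r)) / zb G ζ (r, q r))
        field_simp
        ring
      · intro t ht
        have h1 := phi_eq E h.adm h.sol hp.adj (hIT hsm) (hIT ht)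
        rw [hφ s hs, sub_zero] at h1
        show p t (G (t, q t)) = _
        rw [h1]
        refine intervalIntegral.integral_congr fun r hr => ?_
        have hr' : r ∈ Icc s s' := (uIcc_subset_Icc hsm ht) hr
        have h2 := p_decomp (p r) (G (r, q r)) (W F G (r, q r)) (hG0 r (hI hr'))
        show p r (W F G (r, q r)) = _
        rw [h2, hκdef]
        simp only [Dt]
        ring
      · exact fun t ht => mul_ne_zero (hall t ht).1.1.1.1.2 (hall t ht).1.1.2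
      · intro t ht
        show |-(za F ζ (t, q t)) / zb G ζ (t, q t)| < 1
        rw [abs_div, abs_neg, div_lt_one (abs_pos.2 (hb t (hI ht)))]
        exact hu t (hI ht)
      · intro t ht
        have h1 := (hall t ht).1.1.1.1.1.2
        have h2 := (hall t ht).1.1.1.2
        show |κ t * Dt F G (t, q t) - κ t * δ (t, q t) * ((q t).1 - ζ (t, (q t).2)) ^ k| ≤
          (|κ t₅| + 1) * K * |(q t).1 - ζ (t, (q t).2)| ^ (k + 1)
        rw [hδdef]
        have e1 : κ t * Dt F G (t, q t) - κ t * ((Dx^[k] (Dt F G)) (up ζ (t, (q t).2)) /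
            (k.factorial : ℝ)) * ((q t).1 - ζ (t, (q t).2)) ^ k =
            κ t * (Dt F G (t, q t) - (Dx^[k] (Dt F G)) (up ζ (t, (q t).2)) / (k.factorial : ℝ) *
              ((q t).1 - ζ (t, (q t).2)) ^ k) := by ring
        show |κ t * Dt F G (t, q t) - κ t * ((Dx^[k] (Dt F G)) (up ζ (t, (q t).2)) /
            (k.factorial : ℝ)) * ((q t).1 - ζ (t, (q t).2)) ^ k| ≤ _
        rw [e1, abs_mul, mul_assoc]
        exact mul_le_mul h2.le h1 (abs_nonneg _) (by positivity)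
      · intro t ht
        have h1 := (hall t ht).1.1.1.1.1.2
        have h3 := (hall t ht).1.2
        show |κ t * Dt F G (t, q t) - κ t * δ (t, q t) * ((q t).1 - ζ (t, (q t).2)) ^ k| ≤
          |κ t * δ (t, q t)| * |(q t).1 - ζ (t, (q t).2)| ^ k / 2
        have e1 : κ t * Dt F G (t, q t) - κ t * δ (t, q t) * ((q t).1 - ζ (t, (q t).2)) ^ k =
            κ t * (Dt F G (t, q t) - δ (t, q t) * ((q t).1 - ζ (t, (q t).2)) ^ k) := by ring
        rw [e1, abs_mul, abs_mul, mul_assoc, mul_div_assoc]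
        refine mul_le_mul_of_nonneg_left ?_ (abs_nonneg _)
        have h4 : |Dt F G (t, q t) - δ (t, q t) * ((q t).1 - ζ (t, (q t).2)) ^ k| ≤
            K * |(q t).1 - ζ (t, (q t).2)| ^ (k + 1) := by
          rw [hδdef]
          exact h1
        refine h4.trans ?_
        rw [pow_succ]
        have h5 : 0 ≤ |(q t).1 - ζ (t, (q t).2)| ^ k := by positivity
        calc K * (|(q t).1 - ζ (t, (q t).2)| ^ k * |(q t).1 - ζ (t, (q t).2)|)
            = |(q t).1 - ζ (t, (q t).2)| ^ k * (K * |(q t).1 - ζ (t, (q t).2)|) := by ring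
          _ ≤ |(q t).1 - ζ (t, (q t).2)| ^ k * (|δ (t, q t)| / 2) :=
              mul_le_mul_of_nonneg_left h3.le h5
          _ = |δ (t, q t)| * |(q t).1 - ζ (t, (q t).2)| ^ k / 2 := by ring
      · exact ⟨_, hLβ.comp hlipz fun t ht => (hall t ht).1.1.1.1.1.1.1⟩
      · obtain ⟨Kp, hKp⟩ := adj_lip E h.adm h.sol hp.adj
        have hKp' := hKp.mono hIT
        have hGl : LipschitzOnWith M.toNNReal (fun z : ℝ × ℝ × ℝ => ((-(G z).2, (G z).1) : ℝ × ℝ))
            univ := by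
          refine LipschitzOnWith.of_dist_le_mul fun z _ w _ => ?_
          have hM := E.hM
          rw [Real.coe_toNNReal _ (by linarith)]
          have h1 := env_lipG E z w
          rw [← dist_eq_norm, ← dist_eq_norm, Prod.dist_eq] at h1
          rw [Prod.dist_eq]
          refine max_le ?_ ?_
          · show dist (-(G z).2) (-(G w).2) ≤ _
            rw [dist_neg_neg]
            exact (le_max_right _ _).trans h1
          · exact (le_max_left _ _).trans h1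
        have hw := hGl.comp hlipz (fun t _ => mem_univ _)
        obtain ⟨C1, hC1⟩ := PChartU_lip_apply hKp' hw
        have h2 := hLΓ.comp hlipz fun t ht => (hall t ht).1.1.1.1.1.1.2
        obtain ⟨C2, hC2⟩ := PChartU_lip_mul hC1 h2
        refine ⟨C2, ?_⟩
        have he : (fun t => κ t * δ (t, q t) / zb G ζ (t, q t)) = fun t =>
            (p t) (((fun z : ℝ × ℝ × ℝ => ((-(G z).2, (G z).1) : ℝ × ℝ)) ∘
              fun t => ((t, q t) : ℝ × ℝ × ℝ)) t) *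
            ((fun z => δ z / ((G z).1 ^ 2 + (G z).2 ^ 2) / zb G ζ z) ∘
              fun t => ((t, q t) : ℝ × ℝ × ℝ)) t := by
          funext t
          rw [hκdef]
          simp only [Function.comp]
          ring
        rw [he]
        exact hC2
    have hz0 : ∀ t ∈ Icc s s', (q t).1 - ζ (t, (q t).2) = 0 := by
      rcases Nat.even_or_odd k with hk | hk
      · exact rel_even hrel hk
      · rcases hsgn with h1 | h1
        · exact rel_max hrel hk h1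
        · exact rel_min hrel hk h1
    exact feed_jn E hch.an hch.box hb' h.adm hss hqs hI (fun t ht => hch.y t (hI ht))
      fun t ht => sub_eq_zero.1 (hz0 t ht)
  -- conclusion
  apply hgoal
  have hfin : ∀ᶠ t in 𝓝 t₅, ((((((((t, q t) ∈ Nβ ∧ (t, q t) ∈ NΓ) ∧
      |Dt F G (t, q t) - (Dx^[k] (Dt F G)) (up ζ ((t, q t).1, (t, q t).2.2)) / (k.factorial : ℝ) *
        ((t, q t).2.1 - ζ ((t, q t).1, (t, q t).2.2)) ^ k| ≤
          K * |(t, q t).2.1 - ζ ((t, q t).1, (t, q t).2.2)| ^ (k + 1)) ∧ κ t ≠ 0) ∧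
      |κ t| < |κ t₅| + 1) ∧ δ (t, q t) ≠ 0) ∧ K * |(q t).1 - ζ (t, (q t).2)| < |δ (t, q t)| / 2) ∧
      t ∈ Ioo α β) := evall
  rcases ev8 with ev8 | ev8
  · obtain ⟨ε, hε, hball⟩ := Metric.eventually_nhds_iff.1 (hfin.and ev8)
    refine ⟨t₅ - ε, t₅ + ε, ⟨t₅, ht₅, by constructor <;> linarith⟩, ?_⟩
    intro s hs hsI s' hs' hsI' hss
    have hin : ∀ t ∈ Icc s s', dist t t₅ < ε := by
      intro t ht
      rw [Real.dist_eq, abs_lt]
      constructor <;> linarith [ht.1, ht.2, hsI.1, hsI'.2]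
    exact key s hs s' hs' hss (fun t ht => (hball (hin t ht)).1)
      (Or.inl fun t ht => (hball (hin t ht)).2)
  · obtain ⟨ε, hε, hball⟩ := Metric.eventually_nhds_iff.1 (hfin.and ev8)
    refine ⟨t₅ - ε, t₅ + ε, ⟨t₅, ht₅, by constructor <;> linarith⟩, ?_⟩
    intro s hs hsI s' hs' hsI' hss
    have hin : ∀ t ∈ Icc s s', dist t t₅ < ε := by
      intro t ht
      rw [Real.dist_eq, abs_lt]
      constructor <;> linarith [ht.1, ht.2, hsI.1, hsI'.2]
    exact key s hs s' hs' hss (fun t ht => (hball (hin t ht)).1)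
      (Or.inr fun t ht => (hball (hin t ht)).2)

end Pool.Agent.Lib.MP_28b8de_an.PT
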