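import Pool.Agent.Lib.MP_28b8de_an.P.PDefs

/-!
MP_28b8de_an, module PDens (PTD-PDens): controls with a countable switching set are dense in `L^1`.

PROOF.  u ∈ UU, ε > 0.  u is integrable on [0,T]; a continuous g with ∫_{[0,T]} |u - g| ≤ ε/2 exists (e.g.
`MeasureTheory.Integrable.exists_hasCompactSupport_integral_sub_le` for the indicator of Icc 0 T times u, or
`Integrable.exists_boundedContinuous_integral_sub_le`); clamping g to [-1,1] does not increase |u - g|.  g is uniformly continuous on [0,T]: for n large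
v t := g (⌊t/h⌋ h), h = T/n, is within ε/(2(T+1)) of g on [0,T] (for t ∈ [0,T] also ⌊t/h⌋ h ∈ [0,T]); v is measurable, |v| ≤ 1,
locally constant off {i h}: SwSet T v is countable (see the proof of `dense_DD` in Approx.lean).
Then the restricted version: U' = {v ∈ UU | l1 T (v - u₀) ≤ ρ}, D' = DD T ∩ U': convex; for u ∈ U' approximate
u'' = u₀ + (1-η)(u - u₀) (l1 (u''-u₀) ≤ (1-η) ρ, l1 (u''-u) ≤ η ρ) by v ∈ DD T with l1 (v - u'') ≤ η ρ.
l1_UU: l1 T u ≤ T for u ∈ UU, T ≥ 0.
-/

namespace Pool.Agent.Lib.MP_28b8de_an.PT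

open Filter Topology Set MeasureTheory

private theorem PDens_int (v : BM) (T : ℝ) : IntegrableOn (fun s => |v.1 s|) (Icc (0 : ℝ) T) := by
  obtain ⟨K, _, hK⟩ := BM_bdd v
  refine Measure.integrableOn_of_bounded (M := K) (by simp) (BM_meas v).abs.aestronglyMeasurable
    (Eventually.of_forall fun s => ?_)
  simpa using hK s

theorem l1_UU {T : ℝ} (hT : 0 ≤ T) {u : BM} (hu : u ∈ UU) : l1 T u ≤ T := by
  rw [l1_apply]
  have h1 : ∫ s in Icc (0 : ℝ) T, |u.1 s| ≤ ∫ _ in Icc (0 : ℝ) T, (1 : ℝ) := by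
    apply setIntegral_mono (PDens_int u T) (integrableOn_const (by simp) (by simp))
    intro s
    exact hu s
  refine h1.trans ?_
  simp [hT]

theorem l1_eq {T : ℝ} (hT : 0 ≤ T) (v : BM) : l1 T v = ∫ s in (0 : ℝ)..T, |v.1 s| := by
  rw [l1_apply, intervalIntegral.integral_of_le hT, integral_Icc_eq_integral_Ioc]

/-- clamping to `[-1,1]` -/
private def PDens_cl (x : ℝ) : ℝ := max (-1) (min x 1)

private theorem PDens_cl_abs (x : ℝ) : |PDens_cl x| ≤ 1 := by
  unfold PDens_cl
  rw [abs_le]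
  exact ⟨le_max_left _ _, max_le (by norm_num) (min_le_right _ _)⟩

private theorem PDens_cl_sub {a x : ℝ} (ha : |a| ≤ 1) : |PDens_cl x - a| ≤ |x - a| := by
  unfold PDens_cl
  rw [abs_le] at ha
  rcases le_total x 1 with h1 | h1
  · rw [min_eq_left h1]
    rcases le_total (-1) x with h2 | h2
    · rw [max_eq_right h2]
    · rw [max_eq_left h2, abs_of_nonpos (by linarith), abs_of_nonpos (by linarith)]
      linarith
  · rw [min_eq_right h1, max_eq_right (by norm_num), abs_of_nonneg (by linarith),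
      abs_of_nonneg (by linarith)]
    linarith

private theorem PDens_cl_cont : Continuous PDens_cl := by
  unfold PDens_cl
  exact continuous_const.max (continuous_id.min continuous_const)

theorem dense_L1 {T : ℝ} (hT : 0 < T) {u : BM} (hu : u ∈ UU) {ε : ℝ} (hε : 0 < ε) :
    ∃ v ∈ DD T, l1 T (v - u) ≤ ε := by
  -- continuous approximation
  have hui : IntegrableOn u.1 (Icc (0 : ℝ) T) := by
    refine Measure.integrableOn_of_bounded (M := 1) (by simp) (BM_meas u).aestronglyMeasurable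
      (Eventually.of_forall fun s => ?_)
    rw [Real.norm_eq_abs]
    exact hu s
  have hfi : Integrable ((Icc (0 : ℝ) T).indicator u.1) := by
    rw [integrable_indicator_iff measurableSet_Icc]
    exact hui
  obtain ⟨g, -, hg1, hg2, hg3⟩ :=
    hfi.exists_hasCompactSupport_integral_sub_le (half_pos hε)
  set f : ℝ → ℝ := fun t => PDens_cl (g t) with hf
  have hfc : Continuous f := PDens_cl_cont.comp hg2
  have hfb : ∀ t, |f t| ≤ 1 := fun t => PDens_cl_abs _
  have hfu : ∫ s in Icc (0 : ℝ) T, |f s - u.1 s| ≤ ε / 2 := by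
    have h1 : Integrable (fun x => ‖(Icc (0 : ℝ) T).indicator u.1 x - g x‖) :=
      (hfi.sub hg3).norm
    have h2 : ∫ s in Icc (0 : ℝ) T, ‖(Icc (0 : ℝ) T).indicator u.1 s - g s‖ ≤
        ∫ s, ‖(Icc (0 : ℝ) T).indicator u.1 s - g s‖ :=
      setIntegral_le_integral h1 (Eventually.of_forall fun s => norm_nonneg _)
    refine le_trans ?_ (h2.trans hg1)
    have h4 : IntegrableOn (fun s => |f s - u.1 s|) (Icc (0 : ℝ) T) := by
      refine Measure.integrableOn_of_bounded (M := 2) (by simp)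
        ((hfc.measurable.sub (BM_meas u)).abs.aestronglyMeasurable)
        (Eventually.of_forall fun s => ?_)
      rw [Real.norm_eq_abs, abs_abs]
      refine (abs_sub _ _).trans ?_
      have e1 := hfb s
      have e2 := hu s
      linarith
    apply setIntegral_mono_on h4 h1.integrableOn measurableSet_Icc
    intro s hs
    rw [indicator_of_mem hs, Real.norm_eq_abs, abs_sub_comm (u.1 s)]
    exact PDens_cl_sub (hu s)
  -- uniform continuity
  have huc : UniformContinuousOn f (Icc 0 T) :=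
    isCompact_Icc.uniformContinuousOn_of_continuous hfc.continuousOn
  rw [Metric.uniformContinuousOn_iff] at huc
  have hε' : 0 < ε / (2 * (T + 1)) := by positivity
  obtain ⟨δ, hδ, hδ2⟩ := huc _ hε'
  obtain ⟨n, hn⟩ := exists_nat_gt (T / δ)
  have hn0 : (0 : ℝ) < n := lt_trans (by positivity) hn
  set h : ℝ := T / n with hh
  have hpos : 0 < h := div_pos hT hn0
  have hhδ : h < δ := by
    rw [hh, div_lt_iff₀ hn0]
    rw [div_lt_iff₀ hδ] at hn
    linarith
  set gg : ℤ → ℝ := fun i => f ((i : ℝ) * h) with hgg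
  set vf : ℝ → ℝ := fun t => gg ⌊t / h⌋ with hvf
  have hvm : Measurable vf :=
    (measurable_of_countable gg).comp (Int.measurable_floor.comp (measurable_id.div_const h))
  have hvb : ∀ t, |vf t| ≤ 1 := fun t => hfb _
  have hcell : ∀ (i : ℤ) (t : ℝ), (i : ℝ) * h ≤ t → t < ((i : ℝ) + 1) * h → vf t = gg i := by
    intro i t h1 h2
    show gg ⌊t / h⌋ = gg i
    congr 1
    rw [Int.floor_eq_iff]
    constructor
    · rw [le_div_iff₀ hpos]; exact h1
    · rw [div_lt_iff₀ hpos]; exact h2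
  set v : BM := ⟨vf, hvm, 1, hvb⟩ with hv
  refine ⟨v, ⟨hvb, ?_⟩, ?_⟩
  · apply (countable_range (fun i : ℤ => (i : ℝ) * h)).mono
    intro t ht
    by_contra hcon
    apply ht.2
    set i : ℤ := ⌊t / h⌋ with hi
    have h1 : (i : ℝ) * h ≤ t := by
      rw [← le_div_iff₀ hpos]; exact Int.floor_le _
    have h2 : t < ((i : ℝ) + 1) * h := by
      rw [← div_lt_iff₀ hpos]; exact Int.lt_floor_add_one _
    have h3 : (i : ℝ) * h < t := lt_of_le_of_ne h1 (fun hEq => hcon ⟨i, hEq⟩)
    refine ⟨min (t - (i : ℝ) * h) (((i : ℝ) + 1) * h - t),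
      lt_min (by linarith) (by linarith), fun _ => gg i, contDiffOn_const, ?_⟩
    refine Eventually.of_forall fun r hr _ => ?_
    apply hcell i r
    · have := min_le_left (t - (i : ℝ) * h) (((i : ℝ) + 1) * h - t)
      linarith [hr.1]
    · have := min_le_right (t - (i : ℝ) * h) (((i : ℝ) + 1) * h - t)
      linarith [hr.2]
  · rw [l1_apply]
    have hvf2 : ∀ s ∈ Icc (0 : ℝ) T, |vf s - f s| ≤ ε / (2 * (T + 1)) := by
      intro s hs
      have h1 : (⌊s / h⌋ : ℝ) * h ≤ s := by
        rw [← le_div_iff₀ hpos]; exact Int.floor_le _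
      have h2 : s < ((⌊s / h⌋ : ℝ) + 1) * h := by
        rw [← div_lt_iff₀ hpos]; exact Int.lt_floor_add_one _
      have h3 : (0 : ℝ) ≤ ⌊s / h⌋ := by
        exact_mod_cast Int.floor_nonneg.mpr (div_nonneg hs.1 hpos.le)
      have h4 : (⌊s / h⌋ : ℝ) * h ∈ Icc (0 : ℝ) T :=
        ⟨mul_nonneg h3 hpos.le, h1.trans hs.2⟩
      have h5 : dist ((⌊s / h⌋ : ℝ) * h) s < δ := by
        rw [Real.dist_eq, abs_sub_comm, abs_of_nonneg (by linarith)]
        linarith
      have h6 := hδ2 _ h4 _ hs h5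
      rw [Real.dist_eq] at h6
      exact h6.le
    have hi1 : IntegrableOn (fun s => |vf s - f s|) (Icc (0 : ℝ) T) := by
      refine Measure.integrableOn_of_bounded (M := 2) (by simp)
        ((hvm.sub hfc.measurable).abs.aestronglyMeasurable)
        (Eventually.of_forall fun s => ?_)
      rw [Real.norm_eq_abs, abs_abs]
      refine (abs_sub _ _).trans ?_
      have e1 := hfb s
      have e2 := hvb s
      linarith
    have hi2 : IntegrableOn (fun s => |f s - u.1 s|) (Icc (0 : ℝ) T) := by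
      refine Measure.integrableOn_of_bounded (M := 2) (by simp)
        ((hfc.measurable.sub (BM_meas u)).abs.aestronglyMeasurable)
        (Eventually.of_forall fun s => ?_)
      rw [Real.norm_eq_abs, abs_abs]
      refine (abs_sub _ _).trans ?_
      have e1 := hfb s
      have e2 := hu s
      linarith
    have h1 : ∫ s in Icc (0 : ℝ) T, |(v - u).1 s| ≤
        ∫ s in Icc (0 : ℝ) T, (|vf s - f s| + |f s - u.1 s|) := by
      apply setIntegral_mono (PDens_int (v - u) T) (hi1.add hi2)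
      intro s
      show |vf s - u.1 s| ≤ |vf s - f s| + |f s - u.1 s|
      exact abs_sub_le _ _ _
    have h2 : ∫ s in Icc (0 : ℝ) T, (|vf s - f s| + |f s - u.1 s|) =
        (∫ s in Icc (0 : ℝ) T, |vf s - f s|) + ∫ s in Icc (0 : ℝ) T, |f s - u.1 s| :=
      integral_add hi1 hi2
    have h3 : ∫ s in Icc (0 : ℝ) T, |vf s - f s| ≤ ∫ _ in Icc (0 : ℝ) T, ε / (2 * (T + 1)) :=
      setIntegral_mono_on hi1 (integrableOn_const (by simp) (by simp)) measurableSet_Icc hvf2
    have h4 : ∫ _ in Icc (0 : ℝ) T, ε / (2 * (T + 1)) = T * (ε / (2 * (T + 1))) := by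
      simp [hT.le]
    have h5 : T * (ε / (2 * (T + 1))) ≤ ε / 2 := by
      rw [show T * (ε / (2 * (T + 1))) = (ε / 2) * (T / (T + 1)) by field_simp]
      have h6 : T / (T + 1) ≤ 1 := by
        rw [div_le_one (by linarith)]
        linarith
      nlinarith [half_pos hε]
    linarith

theorem dense_L1_ball {T : ℝ} (hT : 0 < T) {u₀ u : BM} (hu₀ : u₀ ∈ UU) (hu : u ∈ UU) {ρ : ℝ}
    (hρ : 0 < ρ) (h : l1 T (u - u₀) ≤ ρ) {ε : ℝ} (hε : 0 < ε) :
    ∃ v ∈ DD T, l1 T (v - u₀) ≤ ρ ∧ l1 T (v - u) ≤ ε := by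
  set η : ℝ := min 1 (ε / (2 * ρ)) with hη
  have hη0 : 0 < η := lt_min one_pos (by positivity)
  have hη1 : η ≤ 1 := min_le_left _ _
  have hη2 : η * ρ ≤ ε / 2 := by
    have h1 : η ≤ ε / (2 * ρ) := min_le_right _ _
    have h2 : η * ρ ≤ ε / (2 * ρ) * ρ := mul_le_mul_of_nonneg_right h1 hρ.le
    have h3 : ε / (2 * ρ) * ρ = ε / 2 := by field_simp
    linarith
  set w : BM := η • u₀ + (1 - η) • u with hw
  have hwU : w ∈ UU := convex_UU hu₀ hu hη0.le (by linarith) (by ring)
  obtain ⟨v, hv, hv2⟩ := dense_L1 hT hwU (mul_pos hη0 hρ)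
  refine ⟨v, hv, ?_, ?_⟩
  · have h1 : v - u₀ = (v - w) + (1 - η) • (u - u₀) := by
      rw [hw]
      module
    rw [h1]
    refine (map_add_le_add _ _ _).trans ?_
    rw [map_smul_eq_mul, Real.norm_eq_abs, abs_of_nonneg (by linarith)]
    have h2 : (1 - η) * l1 T (u - u₀) ≤ (1 - η) * ρ :=
      mul_le_mul_of_nonneg_left h (by linarith)
    linarith
  · have h1 : v - u = (v - w) + (-η) • (u - u₀) := by
      rw [hw]
      module
    rw [h1]
    refine (map_add_le_add _ _ _).trans ?_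
    rw [map_smul_eq_mul, Real.norm_eq_abs, abs_neg, abs_of_nonneg hη0.le]
    have h2 : η * l1 T (u - u₀) ≤ η * ρ := mul_le_mul_of_nonneg_left h hη0.le
    linarith

end Pool.Agent.Lib.MP_28b8de_an.PT
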