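import Pool.Agent.Lib.MP_28b8de_an.P.PFoe
import Pool.Agent.Lib.MP_28b8de_an.P.PDens
import Pool.Agent.Lib.MP_28b8de_an.P.PGlue
import Pool.Agent.Lib.MP_28b8de_an.P.POde

/-!
MP_28b8de_an, module PPmp (PTD-PPmp): either the trajectory can be replaced or it has a multiplier.

PROOF.  u₀ : BM with value u (u is admissible, in UU).  For v : BM let cl v t := max (-1) (min 1 (v t)) (admissible, = v for v ∈ UU) and
r_v the solution with control cl v, r_v 0 = q 0 (`sol_exists`).  J v := ![(r_v T).1, (r_v T).2] : Fin 2 → ℝ.  p₁, p₂ := the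
adjoint solutions along q with p_i T = fst, snd (norm ≤ 1).  L v := ![∫_0^T v p₁(G(s,q s)), ∫_0^T v p₂(G(s,q s))] (linear in v : BM).
With ρ > 0 so small that C₁ ρ ≤ 1 (sol_dist: ‖r_v - q‖ ≤ M exp(2MT) l1(v - u₀)) let U = {v ∈ UU | l1 T (v - u₀) ≤ ρ}, D = DD T ∩ U.
Hypotheses of `open_map2` (om := l1 T): convexity (convex_UU, convex_DD, seminorm balls), hdense = dense_L1_ball, hJ = foe (for p₁
and p₂), hL, hom: bounds.
Case 1: hpos holds: v ∈ D with r_v T = q T (r_{u₀} T = q T by uniqueness: sol_dist).  r_v is smooth at every t ∈ (0,T) outside SwSet T v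
(`smAt_of_ctrl`), so Jn F G q 0 T.
Case 2: there is lam ≠ 0 with ∑ lam_i L(w - u₀)_i ≤ 0 for all w ∈ U, hence (by scaling u₀ + s(w - u₀)) for all w ∈ UU.  p := adjoint solution with
p T = lam₀ fst + lam₁ snd ≠ 0; p = lam₀ p₁ + lam₁ p₂ (uniqueness, or define p by this formula: Adj is linear), φ = p(G(s,q s)): ∫_0^T (w - u) φ ≤ 0 for all
w ∈ UU; w := sign φ (measurable): the integrand |φ| - u φ ≥ 0 has integral ≤ 0, so it is 0 a.e.  adj_ne gives p t ≠ 0.
-/

namespace Pool.Agent.Lib.MP_28b8de_an.PT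

open Filter Topology Set MeasureTheory

variable {F G : ℝ × ℝ × ℝ → ℝ × ℝ} {R M : ℝ}

/-- clamping to `[-1,1]` -/
private noncomputable def PPmp_cl (v : BM) (t : ℝ) : ℝ := max (-1) (min (v.1 t) 1)

private theorem PPmp_cl_adm (v : BM) : Adm (PPmp_cl v) := by
  refine ⟨measurable_const.max ((BM_meas v).min measurable_const), fun t => ?_⟩
  unfold PPmp_cl
  rw [abs_le]
  exact ⟨le_max_left _ _, max_le (by norm_num) (min_le_right _ _)⟩

private theorem PPmp_cl_eq {v : BM} (hv : v ∈ UU) : PPmp_cl v = v.1 := by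
  funext t
  have h := abs_le.1 (hv t)
  unfold PPmp_cl
  rw [min_eq_left h.2, max_eq_right h.1]

/-- the product of a bounded measurable function with a continuous function is integrable -/
private theorem PPmp_int (v : BM) {φ : ℝ → ℝ} {T : ℝ} (hT : 0 ≤ T) (hφ : ContinuousOn φ (Icc 0 T)) :
    IntervalIntegrable (fun s => v.1 s * φ s) volume 0 T := by
  rw [intervalIntegrable_iff_integrableOn_Icc_of_le hT]
  obtain ⟨K, _, hK⟩ := BM_bdd v
  have h1 : IntegrableOn φ (Icc 0 T) := hφ.integrableOn_Icc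
  exact Integrable.bdd_mul h1 (BM_meas v).aestronglyMeasurable (ae_of_all _ fun s => hK s)

/-- the linear functional given by a continuous density -/
private noncomputable def PPmp_L (φ : ℝ → ℝ) (T : ℝ) (hT : 0 ≤ T) (hφ : ContinuousOn φ (Icc 0 T)) :
    BM →ₗ[ℝ] ℝ where
  toFun v := ∫ s in (0 : ℝ)..T, v.1 s * φ s
  map_add' v w := by
    rw [← intervalIntegral.integral_add (PPmp_int v hT hφ) (PPmp_int w hT hφ)]
    refine intervalIntegral.integral_congr fun s _ => ?_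
    show (v.1 s + w.1 s) * φ s = _
    ring
  map_smul' c v := by
    rw [RingHom.id_apply, smul_eq_mul, ← intervalIntegral.integral_const_mul]
    refine intervalIntegral.integral_congr fun s _ => ?_
    show (c * v.1 s) * φ s = _
    ring

private theorem PPmp_L_apply (φ : ℝ → ℝ) (T : ℝ) (hT : 0 ≤ T) (hφ : ContinuousOn φ (Icc 0 T))
    (v : BM) : PPmp_L φ T hT hφ v = ∫ s in (0 : ℝ)..T, v.1 s * φ s := rfl

private theorem PPmp_L_le (φ : ℝ → ℝ) (T : ℝ) (hT : 0 ≤ T) (hφ : ContinuousOn φ (Icc 0 T)) :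
    ∃ K : ℝ, 0 ≤ K ∧ ∀ v : BM, |PPmp_L φ T hT hφ v| ≤ K * l1 T v := by
  obtain ⟨K, hK⟩ := isCompact_Icc.exists_bound_of_continuousOn hφ
  refine ⟨K, (norm_nonneg _).trans (hK 0 (left_mem_Icc.2 hT)), fun v => ?_⟩
  rw [PPmp_L_apply, l1_eq hT, ← intervalIntegral.integral_const_mul]
  have h1 : IntervalIntegrable (fun s => K * |v.1 s|) volume 0 T := by
    refine IntervalIntegrable.const_mul ?_ K
    exact (BM_int v 0 T).abs
  have h2 : ‖∫ s in (0 : ℝ)..T, v.1 s * φ s‖ ≤ ∫ s in (0 : ℝ)..T, K * |v.1 s| := by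
    refine intervalIntegral.norm_integral_le_of_norm_le hT (ae_of_all _ fun s hs => ?_) h1
    rw [norm_mul, mul_comm]
    exact mul_le_mul_of_nonneg_right (hK s ⟨hs.1.le, hs.2⟩) (norm_nonneg _)
  exact h2

private theorem PPmp_adj {u : ℝ → ℝ} {q : ℝ → ℝ × ℝ} {T : ℝ} (E : Env F G R M) (hu : Adm u)
    (hT : 0 ≤ T) (hq : Sol F G u q 0 T)
    {p₁ p₂ : ℝ → (ℝ × ℝ) →L[ℝ] ℝ} (h₁ : Adj F G u q p₁ 0 T) (h₂ : Adj F G u q p₂ 0 T) (a b : ℝ) :
    Adj F G u q (fun s => a • p₁ s + b • p₂ s) 0 T := by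
  refine ⟨(h₁.cont.const_smul a).add (h₂.cont.const_smul b), fun t ht => ?_⟩
  have hb : T ∈ Icc 0 T := right_mem_Icc.2 hT
  have i₁ := adj_int E hu hq h₁.cont ht hb
  have i₂ := adj_int E hu hq h₂.cont ht hb
  have e : ∀ s, (a • p₁ s + b • p₂ s).comp (Aop F G u q s)
      = a • (p₁ s).comp (Aop F G u q s) + b • (p₂ s).comp (Aop F G u q s) := by
    intro s
    ext <;> simp
  show a • p₁ t + b • p₂ t = _
  simp_rw [e]
  have h3 : ∫ s in t..T, (a • (p₁ s).comp (Aop F G u q s) + b • (p₂ s).comp (Aop F G u q s))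
      = a • (∫ s in t..T, (p₁ s).comp (Aop F G u q s))
        + b • ∫ s in t..T, (p₂ s).comp (Aop F G u q s) := by
    rw [← intervalIntegral.integral_smul, ← intervalIntegral.integral_smul]
    exact intervalIntegral.integral_add (i₁.smul a) (i₂.smul b)
  rw [h3]
  nth_rewrite 1 [h₁.eq t ht, h₂.eq t ht]
  module

private theorem PPmp_phi (E : Env F G R M) {u : ℝ → ℝ} {q : ℝ → ℝ × ℝ} {T : ℝ}
    (hq : Sol F G u q 0 T) {p : ℝ → (ℝ × ℝ) →L[ℝ] ℝ} (h : Adj F G u q p 0 T) :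
    ContinuousOn (fun s => p s (G (s, q s))) (Icc 0 T) := by
  refine h.cont.clm_apply ?_
  exact E.Gs.continuous.comp_continuousOn (continuousOn_id.prodMk hq.cont)

/-- the maximum condition from the inequality -/
private theorem PPmp_max {u : ℝ → ℝ} (hu : Adm u) {φ : ℝ → ℝ} {T : ℝ} (hT : 0 ≤ T)
    (hφ : ContinuousOn φ (Icc 0 T))
    (h : ∀ w : BM, w ∈ UU → ∫ s in (0 : ℝ)..T, (w.1 s - u s) * φ s ≤ 0) :
    ∀ᵐ s : ℝ, s ∈ Icc 0 T → u s * φ s = |φ s| := by
  classical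
  set A : Set ℝ := Icc 0 T ∩ φ ⁻¹' (Ici 0) with hA
  have hAc : IsClosed A := hφ.preimage_isClosed_of_isClosed isClosed_Icc isClosed_Ici
  have hwm : Measurable (fun s => if s ∈ A then (1 : ℝ) else -1) :=
    Measurable.ite hAc.measurableSet measurable_const measurable_const
  have hw1 : ∀ s, |(if s ∈ A then (1 : ℝ) else -1)| ≤ 1 := by
    intro s
    split_ifs <;> simp
  set w : BM := ⟨fun s => if s ∈ A then (1 : ℝ) else -1, hwm, 1, hw1⟩ with hw
  have hwU : w ∈ UU := hw1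
  have hwφ : ∀ s ∈ Icc 0 T, w.1 s * φ s = |φ s| := by
    intro s hs
    show (if s ∈ A then (1 : ℝ) else -1) * φ s = _
    by_cases hsA : s ∈ A
    · rw [if_pos hsA, one_mul, abs_of_nonneg hsA.2]
    · rw [if_neg hsA]
      have h1 : φ s < 0 := by
        by_contra hcon
        exact hsA ⟨hs, not_lt.1 hcon⟩
      rw [abs_of_neg h1]
      ring
  set u₀ : BM := ⟨u, hu.1, 1, hu.2⟩ with hu₀
  have hi : IntegrableOn (fun s => (w.1 s - u s) * φ s) (Icc 0 T) := by
    have := PPmp_int (w - u₀) hT hφ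
    rw [intervalIntegrable_iff_integrableOn_Icc_of_le hT] at this
    exact this
  have hnn : 0 ≤ᵐ[volume.restrict (Icc 0 T)] fun s => (w.1 s - u s) * φ s := by
    rw [EventuallyLE, ae_restrict_iff' measurableSet_Icc]
    refine ae_of_all _ fun s hs => ?_
    show 0 ≤ (w.1 s - u s) * φ s
    rw [sub_mul, hwφ s hs]
    have h1 : u s * φ s ≤ |u s * φ s| := le_abs_self _
    rw [abs_mul] at h1
    have h2 : |u s| * |φ s| ≤ 1 * |φ s| := mul_le_mul_of_nonneg_right (hu.2 s) (abs_nonneg _)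
    linarith
  have h0 : ∫ s in Icc 0 T, (w.1 s - u s) * φ s = 0 := by
    have h1 := h w hwU
    rw [intervalIntegral.integral_of_le hT, ← integral_Icc_eq_integral_Ioc] at h1
    exact le_antisymm h1 (integral_nonneg_of_ae hnn)
  rw [integral_eq_zero_iff_of_nonneg_ae hnn hi] at h0
  rw [EventuallyEq, ae_restrict_iff' measurableSet_Icc] at h0
  filter_upwards [h0] with s hs hsI
  have h1 : (w.1 s - u s) * φ s = 0 := hs hsI
  rw [sub_mul, hwφ s hsI] at h1
  linarith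

theorem pmp_or {T : ℝ} {u : ℝ → ℝ} {q : ℝ → ℝ × ℝ} (h : Tr F G R M T u q) :
    Jn F G q 0 T ∨ ∃ p : ℝ → (ℝ × ℝ) →L[ℝ] ℝ, Mul F G T u q p := by
  have E := h.env
  have hT := h.hT
  have hT0 := h.hT.le
  have hu := h.adm
  have hq := h.sol
  have hM := E.hM
  have h0 : (0 : ℝ) ∈ Icc 0 T := left_mem_Icc.2 hT0
  have hTT : T ∈ Icc 0 T := right_mem_Icc.2 hT0
  set u₀ : BM := ⟨u, hu.1, 1, hu.2⟩ with hu₀def
  have hu₀ : u₀ ∈ UU := hu.2
  -- trajectories
  have hex : ∀ v : BM, ∃ r : ℝ → ℝ × ℝ, Continuous r ∧ r 0 = q 0 ∧ Sol F G (PPmp_cl v) r 0 T :=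
    fun v => sol_exists E (PPmp_cl_adm v) hT0 (q 0)
  choose r hrc hr0 hrs using hex
  have hrs' : ∀ v ∈ UU, Sol F G v.1 (r v) 0 T := by
    intro v hv
    have := hrs v
    rwa [PPmp_cl_eq hv] at this
  -- adjoint solutions
  obtain ⟨p₁, hp₁, hp₁T⟩ := adj_exists E hu hT0 hq (ContinuousLinearMap.fst ℝ ℝ ℝ)
  obtain ⟨p₂, hp₂, hp₂T⟩ := adj_exists E hu hT0 hq (ContinuousLinearMap.snd ℝ ℝ ℝ)
  have hφ₁ := PPmp_phi E hq hp₁
  have hφ₂ := PPmp_phi E hq hp₂
  obtain ⟨C₀, hC₀, hfoe⟩ := foe E hT0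
  obtain ⟨K₁, hK₁, hL₁⟩ := PPmp_L_le _ T hT0 hφ₁
  obtain ⟨K₂, hK₂, hL₂⟩ := PPmp_L_le _ T hT0 hφ₂
  set L : BM →ₗ[ℝ] (Fin 2 → ℝ) :=
    LinearMap.pi ![PPmp_L _ T hT0 hφ₁, PPmp_L _ T hT0 hφ₂] with hL
  have hLi0 : ∀ v, L v 0 = ∫ s in (0 : ℝ)..T, v.1 s * p₁ s (G (s, q s)) := fun v => rfl
  have hLi1 : ∀ v, L v 1 = ∫ s in (0 : ℝ)..T, v.1 s * p₂ s (G (s, q s)) := fun v => rfl
  set J : BM → (Fin 2 → ℝ) := fun v => ![(r v T).1, (r v T).2] with hJ
  -- the radius
  set P : ℝ := M * Real.exp (2 * M * (T - 0)) with hP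
  have hP0 : 0 < P := mul_pos (by linarith) (Real.exp_pos _)
  set ρ : ℝ := 1 / P with hρ
  have hρ0 : 0 < ρ := by positivity
  have hdist : ∀ v ∈ UU, ∀ t ∈ Icc 0 T, ‖r v t - q t‖ ≤ P * l1 T (v - u₀) := by
    intro v hv t ht
    have h1 := sol_dist E (v := v.1) (w := u) ⟨BM_meas v, hv⟩ hu (hrs' v hv) hq t ht
    rw [hr0, sub_self, norm_zero, zero_add] at h1
    rw [l1_eq hT0]
    calc ‖r v t - q t‖ ≤ _ := h1
      _ = P * ∫ s in (0 : ℝ)..T, |(v - u₀).1 s| := by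
          rw [hP]
          have : ∀ s, (v - u₀).1 s = v.1 s - u s := fun s => rfl
          simp_rw [this]
          ring
  set U : Set BM := {v | v ∈ UU ∧ l1 T (v - u₀) ≤ ρ} with hU
  set D : Set BM := DD T ∩ U with hD
  have hball : Convex ℝ {v : BM | l1 T (v - u₀) ≤ ρ} := by
    intro v hv w hw a b ha hb hab
    have h1 : a • v + b • w - u₀ = a • (v - u₀) + b • (w - u₀) := by
      have : u₀ = (a + b) • u₀ := by rw [hab, one_smul]
      nth_rewrite 1 [this]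
      module
    show l1 T (a • v + b • w - u₀) ≤ ρ
    rw [h1]
    refine (map_add_le_add _ _ _).trans ?_
    rw [map_smul_eq_mul, map_smul_eq_mul, Real.norm_eq_abs, Real.norm_eq_abs, abs_of_nonneg ha,
      abs_of_nonneg hb]
    have h2 : a * l1 T (v - u₀) ≤ a * ρ := mul_le_mul_of_nonneg_left hv ha
    have h3 : b * l1 T (w - u₀) ≤ b * ρ := mul_le_mul_of_nonneg_left hw hb
    calc a * l1 T (v - u₀) + b * l1 T (w - u₀) ≤ a * ρ + b * ρ := add_le_add h2 h3
      _ = ρ := by rw [← add_mul, hab, one_mul]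
  have hUconv : Convex ℝ U := convex_UU.inter hball
  have hDconv : Convex ℝ D := (convex_DD T).inter hUconv
  have hu₀U : u₀ ∈ U := ⟨hu₀, by rw [sub_self, map_zero]; exact hρ0.le⟩
  have hdense : ∀ w ∈ U, ∀ ε : ℝ, 0 < ε → ∃ v ∈ D, l1 T (v - w) ≤ ε := by
    intro w hw ε hε
    obtain ⟨v, hv, hv1, hv2⟩ := dense_L1_ball hT hu₀ hw.1 hρ0 hw.2 hε
    exact ⟨v, ⟨hv, DD_subset T hv, hv1⟩, hv2⟩
  set C : ℝ := C₀ + K₁ + K₂ + T with hC
  have hC0 : 0 ≤ C := by positivity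
  have hLle : ∀ v, ‖L v‖ ≤ C * l1 T v := by
    intro v
    have hl : 0 ≤ l1 T v := apply_nonneg _ _
    refine (pi_norm_le_iff_of_nonneg (mul_nonneg hC0 hl)).2 fun i => ?_
    fin_cases i
    · refine (hL₁ v).trans (mul_le_mul_of_nonneg_right ?_ hl)
      rw [hC]; linarith
    · refine (hL₂ v).trans (mul_le_mul_of_nonneg_right ?_ hl)
      rw [hC]; linarith
  have hJle : ∀ v ∈ U, ∀ w ∈ U, ‖J v - J w - L (v - w)‖
      ≤ C * (l1 T (v - u₀) + l1 T (w - u₀)) * l1 T (v - w) := by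
    intro v hv w hw
    have hl1 : 0 ≤ l1 T (v - u₀) := apply_nonneg _ _
    have hl2 : 0 ≤ l1 T (w - u₀) := apply_nonneg _ _
    have hl3 : 0 ≤ l1 T (v - w) := apply_nonneg _ _
    have hCC : C₀ * (l1 T (v - u₀) + l1 T (w - u₀)) * l1 T (v - w)
        ≤ C * (l1 T (v - u₀) + l1 T (w - u₀)) * l1 T (v - w) := by
      have : C₀ ≤ C := by rw [hC]; linarith
      gcongr
    have key : ∀ p : ℝ → (ℝ × ℝ) →L[ℝ] ℝ, Adj F G u q p 0 T → ‖p T‖ ≤ 1 →
        |p T (r v T - r w T) - ∫ s in (0 : ℝ)..T, (v - w).1 s * p s (G (s, q s))|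
          ≤ C * (l1 T (v - u₀) + l1 T (w - u₀)) * l1 T (v - w) := by
      intro p hp hpT
      have h1 := hfoe u v.1 w.1 q (r v) (r w) p hu ⟨BM_meas v, hv.1⟩ ⟨BM_meas w, hw.1⟩ hq
        (hrs' v hv.1) (hrs' w hw.1) (hr0 v) (hr0 w) hp hpT
      refine le_trans ?_ hCC
      rw [l1_eq hT0, l1_eq hT0, l1_eq hT0]
      exact h1
    refine (pi_norm_le_iff_of_nonneg (by positivity)).2 fun i => ?_
    fin_cases i
    · have h1 := key p₁ hp₁ (by rw [hp₁T]; exact ContinuousLinearMap.norm_fst_le ℝ ℝ ℝ)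
      rw [hp₁T] at h1
      exact h1
    · have h1 := key p₂ hp₂ (by rw [hp₂T]; exact ContinuousLinearMap.norm_snd_le ℝ ℝ ℝ)
      rw [hp₂T] at h1
      exact h1
  by_cases hpos : ∀ lam : Fin 2 → ℝ, lam ≠ 0 → ∃ w ∈ U, 0 < ∑ i, lam i * L (w - u₀) i
  · left
    obtain ⟨v, hvD, hvJ⟩ := open_map2 (l1 T) J L hUconv hDconv inter_subset_right hdense hC0
      (fun w hw => (l1_UU hT0 hw.1).trans (by rw [hC]; linarith)) hLle hu₀U hJle hpos
    have hvU : v ∈ UU := hvD.2.1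
    have e0 : r u₀ T = q T := by
      have h1 := hdist u₀ hu₀ T hTT
      rw [sub_self, map_zero, mul_zero] at h1
      exact sub_eq_zero.1 (norm_le_zero_iff.1 h1)
    have e1 : r v T = q T := by
      rw [← e0]
      have h1 := congrFun hvJ 0
      have h2 := congrFun hvJ 1
      exact Prod.ext h1 h2
    refine ⟨v.1, r v, ⟨BM_meas v, hvU⟩, hrs' v hvU, hr0 v, e1, ?_, ?_⟩
    · intro t ht
      refine (hdist v hvU t ht).trans ?_
      calc P * l1 T (v - u₀) ≤ P * ρ := mul_le_mul_of_nonneg_left hvD.2.2 hP0.le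
        _ = 1 := by rw [hρ]; field_simp
    · refine hvD.1.2.mono ?_
      rintro t ⟨ht, hns⟩
      refine ⟨Ioo_subset_Icc_self ht, fun hsm => hns ?_⟩
      obtain ⟨ε, hε, g, hg, hga⟩ := hsm
      refine smAt_of_ctrl E ⟨BM_meas v, hvU⟩ (hrs' v hvU) ht hε hg ?_
      filter_upwards [hga] with s hs h1 h2
      exact hs h1 (Ioo_subset_Icc_self h2)
  · right
    push Not at hpos
    obtain ⟨lam, hlam, hneg⟩ := hpos
    have hneg' : ∀ w ∈ UU, ∑ i, lam i * L (w - u₀) i ≤ 0 := by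
      intro w hw
      set l : ℝ := l1 T (w - u₀) with hl
      have hl0 : 0 ≤ l := apply_nonneg _ _
      set s : ℝ := min 1 (ρ / (l + 1)) with hs
      have hs0 : 0 < s := lt_min one_pos (by positivity)
      have hs1 : s ≤ 1 := min_le_left _ _
      have hs2 : s * l ≤ ρ := by
        have h1 : s ≤ ρ / (l + 1) := min_le_right _ _
        have h2 : s * (l + 1) ≤ ρ := by
          rwa [le_div_iff₀ (by linarith)] at h1
        nlinarith
      set w' : BM := (1 - s) • u₀ + s • w with hw'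
      have e : w' - u₀ = s • (w - u₀) := by
        rw [hw']
        module
      have hw'U : w' ∈ U := by
        refine ⟨convex_UU hu₀ hw (by linarith) hs0.le (by ring), ?_⟩
        rw [e, map_smul_eq_mul, Real.norm_eq_abs, abs_of_pos hs0]
        exact hs2
      have h1 := hneg w' hw'U
      rw [e] at h1
      have h2 : ∑ i, lam i * L (s • (w - u₀)) i = s * ∑ i, lam i * L (w - u₀) i := by
        rw [map_smul, Finset.mul_sum]
        refine Finset.sum_congr rfl fun i _ => ?_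
        rw [Pi.smul_apply, smul_eq_mul]
        ring
      rw [h2] at h1
      by_contra hcon
      push Not at hcon
      exact absurd h1 (not_le.2 (mul_pos hs0 hcon))
    set p : ℝ → (ℝ × ℝ) →L[ℝ] ℝ := fun s => lam 0 • p₁ s + lam 1 • p₂ s with hp
    have hpA : Adj F G u q p 0 T := PPmp_adj E hu hT0 hq hp₁ hp₂ _ _
    have hpT : p T ≠ 0 := by
      intro hz
      apply hlam
      have h1 : p T (1, 0) = lam 0 := by
        show (lam 0 • p₁ T + lam 1 • p₂ T) (1, 0) = _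
        rw [hp₁T, hp₂T]
        simp
      have h2 : p T (0, 1) = lam 1 := by
        show (lam 0 • p₁ T + lam 1 • p₂ T) (0, 1) = _
        rw [hp₁T, hp₂T]
        simp
      rw [hz] at h1 h2
      funext i
      fin_cases i
      · exact h1.symm
      · exact h2.symm
    refine ⟨p, hpA, adj_ne E hu hq hpA hpT, ?_⟩
    have hφ := PPmp_phi E hq hpA
    refine PPmp_max hu hT0 hφ fun w hw => ?_
    have h1 := hneg' w hw
    rw [Fin.sum_univ_two, hLi0, hLi1, ← intervalIntegral.integral_const_mul,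
      ← intervalIntegral.integral_const_mul,
      ← intervalIntegral.integral_add ((PPmp_int (w - u₀) hT0 hφ₁).const_mul _)
        ((PPmp_int (w - u₀) hT0 hφ₂).const_mul _)] at h1
    refine le_trans (le_of_eq ?_) h1
    refine intervalIntegral.integral_congr fun s _ => ?_
    show (w.1 s - u s) * (lam 0 • p₁ s + lam 1 • p₂ s) (G (s, q s))
      = lam 0 * ((w.1 s - u s) * p₁ s (G (s, q s))) + lam 1 * ((w.1 s - u s) * p₂ s (G (s, q s)))
    simp only [add_apply, smul_apply, smul_eq_mul]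
    ring

end Pool.Agent.Lib.MP_28b8de_an.PT
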