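import Pool.Agent.Lib.MP_28b8de_an.P.PSolX

/-!
MP_28b8de_an, module PPhi (PTD-PPhi): the switching function `φ = p(G)` has derivative `p(W)`.

PROOF.  φ(t) = p t (G (t, q t)) is Lipschitz on [a,b] (p Lipschitz `adj_lip`, q Lipschitz `sol_lip`, G Lipschitz), and a.e.
φ' = - p (A G) + p (fderiv G (t,q) (1, q')) with q' = F + u G: fderiv G z (1, q') = fderiv G z (1,0) + dx G z q'; A G = dxF G + u dxG G;
the u-terms cancel: φ' = p (G_t + dxG F - dxF G) = p W.  FTC for Lipschitz functions (AbsolutelyContinuousOnInterval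
.integral_deriv_eq_sub, LipschitzOnWith.absolutelyContinuousOnInterval).  W_cont: W F G is continuous (F, G smooth).
W_an, Dt_an: analytic on the box.
-/

namespace Pool.Agent.Lib.MP_28b8de_an.PT

open Filter Topology Set MeasureTheory

variable {F G : ℝ × ℝ × ℝ → ℝ × ℝ} {R M : ℝ}

private theorem an_apply {X E' F' : Type*} [NormedAddCommGroup X] [NormedSpace ℝ X]
    [NormedAddCommGroup E'] [NormedSpace ℝ E'] [NormedAddCommGroup F'] [NormedSpace ℝ F']
    {A : X → (E' →L[ℝ] F')} {w : X → E'} {s : Set X}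
    (hA : AnalyticOnNhd ℝ A s) (hw : AnalyticOnNhd ℝ w s) :
    AnalyticOnNhd ℝ (fun z => A z (w z)) s := by
  intro z hz
  have h1 := (ContinuousLinearMap.id ℝ (E' →L[ℝ] F')).analyticAt_bilinear (A z, w z)
  exact AnalyticAt.comp (f := fun z => (A z, w z)) h1 ((hA z hz).prod (hw z hz))

private theorem dx_apply (F : ℝ × ℝ × ℝ → ℝ × ℝ) (z : ℝ × ℝ × ℝ) (v : ℝ × ℝ) :
    dx F z v = fderiv ℝ F z (0, v) := rfl

private theorem W_eq (F G : ℝ × ℝ × ℝ → ℝ × ℝ) : W F G = fun z =>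
    fderiv ℝ G z (1, 0) + fderiv ℝ G z (0, F z) - fderiv ℝ F z (0, G z) := rfl

theorem W_cont (E : Env F G R M) : Continuous (W F G) := by
  have hF : Continuous F := E.Fs.continuous
  have hG : Continuous G := E.Gs.continuous
  have hF' : Continuous (fderiv ℝ F) := E.Fs.continuous_fderiv (by simp)
  have hG' : Continuous (fderiv ℝ G) := E.Gs.continuous_fderiv (by simp)
  rw [W_eq]
  exact ((hG'.clm_apply continuous_const).add
    (hG'.clm_apply (continuous_const.prodMk hF))).sub (hF'.clm_apply (continuous_const.prodMk hG))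

theorem Dt_cont (E : Env F G R M) : Continuous (Dt F G) := by
  have hG : Continuous G := E.Gs.continuous
  have hW := W_cont E
  exact (hG.fst.mul hW.snd).sub (hG.snd.mul hW.fst)

theorem W_an (E : Env F G R M) : AnalyticOnNhd ℝ (W F G) (Box R) := by
  have hF' : AnalyticOnNhd ℝ (fderiv ℝ F) (Box R) := E.Fa.fderiv
  have hG' : AnalyticOnNhd ℝ (fderiv ℝ G) (Box R) := E.Ga.fderiv
  rw [W_eq]
  exact ((an_apply hG' analyticOnNhd_const).add
    (an_apply hG' (analyticOnNhd_const.prod E.Fa))).sub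
      (an_apply hF' (analyticOnNhd_const.prod E.Ga))

private theorem an_fst {f : ℝ × ℝ × ℝ → ℝ × ℝ} {s : Set (ℝ × ℝ × ℝ)} (h : AnalyticOnNhd ℝ f s) :
    AnalyticOnNhd ℝ (fun z => (f z).1) s := (ContinuousLinearMap.fst ℝ ℝ ℝ).comp_analyticOnNhd h

private theorem an_snd {f : ℝ × ℝ × ℝ → ℝ × ℝ} {s : Set (ℝ × ℝ × ℝ)} (h : AnalyticOnNhd ℝ f s) :
    AnalyticOnNhd ℝ (fun z => (f z).2) s := (ContinuousLinearMap.snd ℝ ℝ ℝ).comp_analyticOnNhd h

theorem Dt_an (E : Env F G R M) : AnalyticOnNhd ℝ (Dt F G) (Box R) := by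
  have hW := W_an E
  exact ((an_fst E.Ga).mul (an_snd hW)).sub ((an_snd E.Ga).mul (an_fst hW))

private theorem phi_lip (E : Env F G R M) {u : ℝ → ℝ} (hu : Adm u) {q : ℝ → ℝ × ℝ} {a b : ℝ}
    (hq : Sol F G u q a b) {p : ℝ → (ℝ × ℝ) →L[ℝ] ℝ} (hp : Adj F G u q p a b) :
    ∃ K : NNReal, LipschitzOnWith K (fun t => p t (G (t, q t))) (Icc a b) := by
  obtain ⟨K, hK⟩ := adj_lip E hu hq hp
  have hM := E.hM
  set P := ‖p b‖ * Real.exp (2 * M * (b - a)) with hP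
  have hP0 : 0 ≤ P := by positivity
  refine ⟨K * M.toNNReal + P.toNNReal * (M * (2 * M)).toNNReal, ?_⟩
  refine LipschitzOnWith.of_dist_le_mul fun s hs t ht => ?_
  have h1 : ‖p s - p t‖ ≤ K * |s - t| := by
    have := hK.dist_le_mul s hs t ht
    rwa [dist_eq_norm, Real.dist_eq] at this
  have h2 : ‖q s - q t‖ ≤ 2 * M * |s - t| := sol_lip E hu hq ht hs
  have h3 : ‖G (s, q s) - G (t, q t)‖ ≤ M * (2 * M * |s - t|) := by
    refine (env_lipG E _ _).trans (mul_le_mul_of_nonneg_left ?_ (by linarith))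
    rw [Prod.mk_sub_mk, Prod.norm_mk]
    refine max_le ?_ h2
    rw [Real.norm_eq_abs]
    nlinarith [abs_nonneg (s - t)]
  have h4 : ‖p t‖ ≤ P := adj_bound E hu hq hp t ht
  have h5 : ‖G (s, q s)‖ ≤ M := E.Gb _
  rw [Real.dist_eq, Real.dist_eq]
  have h6 : p s (G (s, q s)) - p t (G (t, q t)) =
      (p s - p t) (G (s, q s)) + p t (G (s, q s) - G (t, q t)) := by
    rw [sub_apply, map_sub]; ring
  rw [h6]
  have h7 : |(p s - p t) (G (s, q s))| ≤ K * |s - t| * M := by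
    have := (p s - p t).le_opNorm (G (s, q s))
    rw [Real.norm_eq_abs] at this
    exact this.trans (mul_le_mul h1 h5 (norm_nonneg _) (by positivity))
  have h8 : |p t (G (s, q s) - G (t, q t))| ≤ P * (M * (2 * M * |s - t|)) := by
    have := (p t).le_opNorm (G (s, q s) - G (t, q t))
    rw [Real.norm_eq_abs] at this
    exact this.trans (mul_le_mul h4 h3 (norm_nonneg _) hP0)
  refine (abs_add_le _ _).trans ((add_le_add h7 h8).trans (le_of_eq ?_))
  rw [NNReal.coe_add, NNReal.coe_mul, NNReal.coe_mul,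
    Real.coe_toNNReal _ (by linarith : (0:ℝ) ≤ M), Real.coe_toNNReal _ hP0,
    Real.coe_toNNReal _ (by positivity : (0:ℝ) ≤ M * (2 * M))]
  ring

theorem phi_eq (E : Env F G R M) {u : ℝ → ℝ} (hu : Adm u) {q : ℝ → ℝ × ℝ} {a b : ℝ}
    (hq : Sol F G u q a b) {p : ℝ → (ℝ × ℝ) →L[ℝ] ℝ} (hp : Adj F G u q p a b) {s t : ℝ}
    (hs : s ∈ Icc a b) (ht : t ∈ Icc a b) :
    p t (G (t, q t)) - p s (G (s, q s)) = ∫ τ in s..t, p τ (W F G (τ, q τ)) := by
  obtain ⟨K, hK⟩ := phi_lip E hu hq hp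
  have hsub : uIcc s t ⊆ Icc a b := by
    intro x hx
    exact ⟨(le_min hs.1 ht.1).trans hx.1, hx.2.trans (max_le hs.2 ht.2)⟩
  have hac := (hK.mono hsub).absolutelyContinuousOnInterval
  rw [← hac.integral_deriv_eq_sub]
  refine intervalIntegral.integral_congr_ae ?_
  have hna : ∀ᵐ τ : ℝ, τ ≠ a := by
    rw [ae_iff]; simp
  have hnb : ∀ᵐ τ : ℝ, τ ≠ b := by
    rw [ae_iff]; simp
  filter_upwards [sol_ae E hu hq, adj_ae E hu hq hp, hna, hnb] with τ h1 h2 h3 h4 hτ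
  have hτ' : τ ∈ Icc a b := hsub (uIoc_subset_uIcc hτ)
  have hτo : τ ∈ Ioo a b :=
    ⟨lt_of_le_of_ne hτ'.1 (Ne.symm h3), lt_of_le_of_ne hτ'.2 h4⟩
  have hq' := h1 hτo
  have hp' := h2 hτo
  have hz : HasDerivAt (fun τ => (τ, q τ)) ((1 : ℝ), F (τ, q τ) + u τ • G (τ, q τ)) τ :=
    (hasDerivAt_id τ).prodMk hq'
  have hGd : HasFDerivAt G (fderiv ℝ G (τ, q τ)) (τ, q τ) :=
    ((E.Gs.differentiable (by simp)) _).hasFDerivAt
  have hG1 : HasDerivAt (fun τ => G (τ, q τ))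
      (fderiv ℝ G (τ, q τ) ((1 : ℝ), F (τ, q τ) + u τ • G (τ, q τ))) τ :=
    hGd.comp_hasDerivAt τ hz
  have hφ := hp'.clm_apply hG1
  rw [hφ.deriv]
  have e1 : ((1 : ℝ), F (τ, q τ) + u τ • G (τ, q τ)) =
      ((1 : ℝ), (0 : ℝ × ℝ)) + ((0 : ℝ), F (τ, q τ)) + u τ • ((0 : ℝ), G (τ, q τ)) := by
    ext <;> simp
  rw [e1, map_add, map_add, map_smul]
  simp only [W_eq, Aop, neg_apply, ContinuousLinearMap.comp_apply,
    add_apply, smul_apply, dx_apply, map_add, map_sub,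
    map_smul, smul_eq_mul]
  ring

/-- decomposition of `p(w)` in the basis `g`, `g^⊥` -/
theorem p_decomp (p : (ℝ × ℝ) →L[ℝ] ℝ) (g w : ℝ × ℝ) (hg : g ≠ 0) :
    p w = (g.1 * w.1 + g.2 * w.2) / (g.1 ^ 2 + g.2 ^ 2) * p g
      + (g.1 * w.2 - g.2 * w.1) * (p (-g.2, g.1) / (g.1 ^ 2 + g.2 ^ 2)) := by
  have hN : g.1 ^ 2 + g.2 ^ 2 ≠ 0 := by
    intro h
    apply hg
    have h1 : g.1 = 0 := by nlinarith [sq_nonneg g.1, sq_nonneg g.2]
    have h2 : g.2 = 0 := by nlinarith [sq_nonneg g.1, sq_nonneg g.2]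
    exact Prod.ext h1 h2
  have hw : w = ((g.1 * w.1 + g.2 * w.2) / (g.1 ^ 2 + g.2 ^ 2)) • g
      + ((g.1 * w.2 - g.2 * w.1) / (g.1 ^ 2 + g.2 ^ 2)) • ((-g.2, g.1) : ℝ × ℝ) := by
    ext
    · simp only [Prod.fst_add, Prod.smul_fst, smul_eq_mul]
      field_simp
      ring
    · simp only [Prod.snd_add, Prod.smul_snd, smul_eq_mul]
      field_simp
      ring
  have h := congrArg p hw
  rw [map_add, map_smul, map_smul, smul_eq_mul, smul_eq_mul] at h
  rw [h]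
  ring

/-- if a nonzero functional kills `g ≠ 0` then it does not kill `g^⊥` -/
theorem p_perp {p : (ℝ × ℝ) →L[ℝ] ℝ} {g : ℝ × ℝ} (hg : g ≠ 0) (hp : p ≠ 0) (h : p g = 0) :
    p (-g.2, g.1) ≠ 0 := by
  intro h'
  apply hp
  ext
  · rw [ContinuousLinearMap.comp_apply, p_decomp p g _ hg, h, h']
    simp
  · rw [ContinuousLinearMap.comp_apply, p_decomp p g _ hg, h, h']
    simp

/-- if a nonzero functional kills `g` and `w`, they are dependent -/
theorem p_det {p : (ℝ × ℝ) →L[ℝ] ℝ} {g w : ℝ × ℝ} (hp : p ≠ 0) (h : p g = 0) (h' : p w = 0) :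
    g.1 * w.2 - g.2 * w.1 = 0 := by
  rcases eq_or_ne g 0 with hg | hg
  · simp [hg]
  · have h1 := p_decomp p g w hg
    rw [h', h, mul_zero, zero_add] at h1
    have hN : g.1 ^ 2 + g.2 ^ 2 ≠ 0 := by
      intro h
      apply hg
      have h1 : g.1 = 0 := by nlinarith [sq_nonneg g.1, sq_nonneg g.2]
      have h2 : g.2 = 0 := by nlinarith [sq_nonneg g.1, sq_nonneg g.2]
      exact Prod.ext h1 h2
    rcases mul_eq_zero.mp h1.symm with h2 | h2
    · exact h2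
    · exact absurd ((div_eq_zero_iff.mp h2).resolve_right hN) (p_perp hg hp h)

end Pool.Agent.Lib.MP_28b8de_an.PT
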