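import Pool.Agent.Lib.MP_28b8de_an.P.PSolX
import Pool.Agent.Lib.MP_28b8de_an.P.PGlue
import Pool.Agent.Lib.MP_28b8de_an.P.PPhi

/-!
MP_28b8de_an, module PSw (PTD-PSw): exchanging x and y.

PROOFS.  sw F = swap ∘ F ∘ S with S (t,x,y) = (t,y,x), a linear isometry; swap is a linear isometry of ℝ × ℝ (sup norm): ContinuousLinearEquiv.prodComm.
env_sw: composition with linear isometries (fderiv (sw F) z = swap ∘ fderiv F (S z) ∘ S).  sol_sw: swap of the integral.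
jn_sw: (sw (sw F) = F, swap swap = id.)  adj: p ∘ swap; A_sw = swap ∘ A ∘ swap.  Dt (sw F) (sw G) (t,x,y) = - Dt F G (t,y,x).
-/

namespace Pool.Agent.Lib.MP_28b8de_an.PT

open Filter Topology Set MeasureTheory

variable {F G : ℝ × ℝ × ℝ → ℝ × ℝ} {R M : ℝ}

/-- swap as a linear isometry equivalence -/
private noncomputable def PSw_e : (ℝ × ℝ) ≃ₗᵢ[ℝ] (ℝ × ℝ) := LinearIsometryEquiv.prodComm ℝ ℝ ℝ

private theorem PSw_e_apply (v : ℝ × ℝ) : PSw_e v = v.swap := rfl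

private theorem PSw_e_symm_apply (v : ℝ × ℝ) : PSw_e.symm v = v.swap := rfl

/-- the exchange of `x` and `y` in `(t,x,y)` -/
private noncomputable def PSw_S : (ℝ × ℝ × ℝ) ≃ₗᵢ[ℝ] (ℝ × ℝ × ℝ) where
  toLinearEquiv := (LinearEquiv.refl ℝ ℝ).prodCongr (LinearEquiv.prodComm ℝ ℝ ℝ)
  norm_map' := by
    rintro ⟨a, b, c⟩
    simp [Prod.norm_def, max_comm]

private theorem PSw_S_apply (z : ℝ × ℝ × ℝ) : PSw_S z = (z.1, z.2.2, z.2.1) := rfl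

private theorem PSw_sw_eq (F : ℝ × ℝ × ℝ → ℝ × ℝ) : sw F = PSw_e ∘ F ∘ PSw_S := rfl

private theorem PSw_fderiv {F : ℝ × ℝ × ℝ → ℝ × ℝ} (hF : Differentiable ℝ F) (z : ℝ × ℝ × ℝ) :
    fderiv ℝ (sw F) z = (PSw_e : (ℝ × ℝ) →L[ℝ] (ℝ × ℝ)).comp
      ((fderiv ℝ F (PSw_S z)).comp (PSw_S : (ℝ × ℝ × ℝ) →L[ℝ] (ℝ × ℝ × ℝ))) := by
  have h1 : HasFDerivAt (PSw_S : (ℝ × ℝ × ℝ) → (ℝ × ℝ × ℝ))
      (PSw_S : (ℝ × ℝ × ℝ) →L[ℝ] (ℝ × ℝ × ℝ)) z :=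
    (PSw_S : (ℝ × ℝ × ℝ) →L[ℝ] (ℝ × ℝ × ℝ)).hasFDerivAt
  have h2 : HasFDerivAt F (fderiv ℝ F (PSw_S z)) (PSw_S z) := (hF _).hasFDerivAt
  have h3 : HasFDerivAt (PSw_e : (ℝ × ℝ) → (ℝ × ℝ))
      (PSw_e : (ℝ × ℝ) →L[ℝ] (ℝ × ℝ)) (F (PSw_S z)) :=
    (PSw_e : (ℝ × ℝ) →L[ℝ] (ℝ × ℝ)).hasFDerivAt
  exact (h3.comp z (h2.comp z h1)).fderiv

private theorem PSw_dx {F : ℝ × ℝ × ℝ → ℝ × ℝ} (hF : Differentiable ℝ F) (z : ℝ × ℝ × ℝ)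
    (v : ℝ × ℝ) : dx (sw F) z v = (dx F (PSw_S z) v.swap).swap := by
  simp only [dx, PSw_fderiv hF]
  rfl

private theorem PSw_ft {F : ℝ × ℝ × ℝ → ℝ × ℝ} (hF : Differentiable ℝ F) (z : ℝ × ℝ × ℝ) :
    fderiv ℝ (sw F) z (1, 0) = (fderiv ℝ F (PSw_S z) (1, 0)).swap := by
  rw [PSw_fderiv hF]
  rfl

private theorem PSw_norm (L : (ℝ × ℝ × ℝ) →L[ℝ] (ℝ × ℝ)) :
    ‖(PSw_e : (ℝ × ℝ) →L[ℝ] (ℝ × ℝ)).comp
      (L.comp (PSw_S : (ℝ × ℝ × ℝ) →L[ℝ] (ℝ × ℝ × ℝ)))‖ ≤ ‖L‖ := by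
  refine ContinuousLinearMap.opNorm_le_bound _ (norm_nonneg _) fun v => ?_
  show ‖PSw_e (L (PSw_S v))‖ ≤ ‖L‖ * ‖v‖
  rw [LinearIsometryEquiv.norm_map, ← LinearIsometryEquiv.norm_map PSw_S v]
  exact L.le_opNorm _

private theorem PSw_box {R : ℝ} {z : ℝ × ℝ × ℝ} (h : z ∈ Box R) : PSw_S z ∈ Box R := by
  rw [PSw_S_apply]
  exact ⟨h.1, h.2.2, h.2.1⟩

private theorem PSw_norm_swap (v : ℝ × ℝ) : ‖v.swap‖ = ‖v‖ := by
  rw [← PSw_e_apply, LinearIsometryEquiv.norm_map]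

private theorem PSw_an {F : ℝ × ℝ × ℝ → ℝ × ℝ} {R : ℝ} (h : AnalyticOnNhd ℝ F (Box R)) :
    AnalyticOnNhd ℝ (sw F) (Box R) := by
  intro z hz
  have h1 : AnalyticAt ℝ (PSw_S : (ℝ × ℝ × ℝ) → (ℝ × ℝ × ℝ)) z :=
    (PSw_S : (ℝ × ℝ × ℝ) →L[ℝ] (ℝ × ℝ × ℝ)).analyticAt z
  have h2 : AnalyticAt ℝ F (PSw_S z) := h _ (PSw_box hz)
  have h3 : AnalyticAt ℝ (PSw_e : (ℝ × ℝ) → (ℝ × ℝ)) (F (PSw_S z)) :=
    (PSw_e : (ℝ × ℝ) →L[ℝ] (ℝ × ℝ)).analyticAt _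
  exact AnalyticAt.comp (g := (PSw_e : (ℝ × ℝ) → (ℝ × ℝ))) (f := F ∘ PSw_S) h3
    (AnalyticAt.comp (g := F) (f := PSw_S) h2 h1)

private theorem PSw_cd {F : ℝ × ℝ × ℝ → ℝ × ℝ} (h : ContDiff ℝ (⊤ : ℕ∞) F) :
    ContDiff ℝ (⊤ : ℕ∞) (sw F) :=
  (PSw_e : (ℝ × ℝ) →L[ℝ] (ℝ × ℝ)).contDiff.comp
    (h.comp (PSw_S : (ℝ × ℝ × ℝ) →L[ℝ] (ℝ × ℝ × ℝ)).contDiff)

private theorem PSw_diff {F : ℝ × ℝ × ℝ → ℝ × ℝ} (h : ContDiff ℝ (⊤ : ℕ∞) F) :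
    Differentiable ℝ F := h.differentiable (by simp)

private theorem PSw_lip {F : ℝ × ℝ × ℝ → ℝ × ℝ} {M : ℝ} (hF : Differentiable ℝ F)
    (h : ∀ z w, ‖fderiv ℝ F z - fderiv ℝ F w‖ ≤ M * ‖z - w‖) (z w : ℝ × ℝ × ℝ) :
    ‖fderiv ℝ (sw F) z - fderiv ℝ (sw F) w‖ ≤ M * ‖z - w‖ := by
  rw [PSw_fderiv hF, PSw_fderiv hF, ← ContinuousLinearMap.comp_sub,
    ← ContinuousLinearMap.sub_comp]
  refine (PSw_norm _).trans ((h _ _).trans (le_of_eq ?_))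
  rw [← map_sub, LinearIsometryEquiv.norm_map]

theorem env_sw (E : Env F G R M) : Env (sw F) (sw G) R M where
  hM := E.hM
  Fs := PSw_cd E.Fs
  Gs := PSw_cd E.Gs
  Fa := PSw_an E.Fa
  Ga := PSw_an E.Ga
  Fb z := by
    show ‖(F _).swap‖ ≤ M
    rw [PSw_norm_swap]; exact E.Fb _
  Gb z := by
    show ‖(G _).swap‖ ≤ M
    rw [PSw_norm_swap]; exact E.Gb _
  Fd z := by
    rw [PSw_fderiv (PSw_diff E.Fs)]; exact (PSw_norm _).trans (E.Fd _)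
  Gd z := by
    rw [PSw_fderiv (PSw_diff E.Gs)]; exact (PSw_norm _).trans (E.Gd _)
  Fl := PSw_lip (PSw_diff E.Fs) E.Fl
  Gl := PSw_lip (PSw_diff E.Gs) E.Gl

private theorem PSw_ii {E₁ E₂ : Type} [NormedAddCommGroup E₁] [NormedSpace ℝ E₁]
    [NormedAddCommGroup E₂] [NormedSpace ℝ E₂] (L : E₁ ≃L[ℝ] E₂) (f : ℝ → E₁) (a b : ℝ) :
    ∫ s in a..b, L (f s) = L (∫ s in a..b, f s) := by
  simp only [intervalIntegral, map_sub]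
  rw [ContinuousLinearEquiv.integral_comp_comm, ContinuousLinearEquiv.integral_comp_comm]

theorem sol_sw {v : ℝ → ℝ} {r : ℝ → ℝ × ℝ} {a b : ℝ} (h : Sol F G v r a b) :
    Sol (sw F) (sw G) v (fun t => (r t).swap) a b where
  cont := continuous_swap.comp_continuousOn h.cont
  eq t ht := by
    have h1 := h.eq t ht
    have h2 : (∫ s in a..t, (sw F (s, (r s).swap) + v s • sw G (s, (r s).swap))) =
        (∫ s in a..t, (F (s, r s) + v s • G (s, r s))).swap := by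
      have := PSw_ii PSw_e.toContinuousLinearEquiv
        (fun s => F (s, r s) + v s • G (s, r s)) a t
      exact this
    show (r t).swap = (r a).swap + _
    rw [h2]
    conv_lhs => rw [h1]
    rfl

theorem tr_sw {T : ℝ} {u : ℝ → ℝ} {q : ℝ → ℝ × ℝ} (h : Tr F G R M T u q) :
    Tr (sw F) (sw G) R M T u (fun t => (q t).swap) where
  env := env_sw h.env
  hT := h.hT
  hTR := h.hTR
  adm := h.adm
  sol := sol_sw h.sol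
  box t ht := by
    show ‖(q t).swap‖ ≤ R - 2
    rw [PSw_norm_swap]; exact h.box t ht

private theorem PSw_aop (E : Env F G R M) (u : ℝ → ℝ) (q : ℝ → ℝ × ℝ) (s : ℝ) (v : ℝ × ℝ) :
    Aop (sw F) (sw G) u (fun t => (q t).swap) s v = (Aop F G u q s v.swap).swap := by
  have h1 := PSw_dx (PSw_diff E.Fs) (s, (q s).swap) v
  have h2 := PSw_dx (PSw_diff E.Gs) (s, (q s).swap) v
  show dx (sw F) (s, (q s).swap) v + u s • dx (sw G) (s, (q s).swap) v = _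
  rw [h1, h2]
  rfl

theorem mul_sw (E : Env F G R M) {T : ℝ} {u : ℝ → ℝ} {q : ℝ → ℝ × ℝ}
    {p : ℝ → (ℝ × ℝ) →L[ℝ] ℝ} (h : Mul F G T u q p) :
    ∃ p' : ℝ → (ℝ × ℝ) →L[ℝ] ℝ, Mul (sw F) (sw G) T u (fun t => (q t).swap) p' ∧
      ∀ (t : ℝ) (v : ℝ × ℝ), p' t v = p t v.swap := by
  let Φ : ((ℝ × ℝ) →L[ℝ] ℝ) ≃L[ℝ] ((ℝ × ℝ) →L[ℝ] ℝ) :=
    ContinuousLinearEquiv.arrowCongr PSw_e.toContinuousLinearEquiv (ContinuousLinearEquiv.refl ℝ ℝ)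
  have hΦ : ∀ (L : (ℝ × ℝ) →L[ℝ] ℝ) (v : ℝ × ℝ), Φ L v = L v.swap := fun L v => rfl
  refine ⟨fun t => Φ (p t), ⟨⟨?_, ?_⟩, ?_, ?_⟩, fun t v => hΦ _ _⟩
  · exact Φ.continuous.comp_continuousOn h.adj.cont
  · intro t ht
    have h1 := h.adj.eq t ht
    have h2 : ∀ s, (Φ (p s)).comp (Aop (sw F) (sw G) u (fun t => (q t).swap) s) =
        Φ ((p s).comp (Aop F G u q s)) := by
      intro s
      refine ContinuousLinearMap.ext fun v => ?_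
      show Φ (p s) (Aop (sw F) (sw G) u (fun t => (q t).swap) s v) = _
      rw [hΦ, hΦ, PSw_aop E]
      rfl
    show Φ (p t) = Φ (p T) + ∫ s in t..T, (Φ (p s)).comp _
    rw [intervalIntegral.integral_congr (fun s _ => h2 s), PSw_ii Φ, ← map_add, ← h1]
  · intro t ht hz
    refine h.ne t ht ?_
    have : Φ (p t) = Φ 0 := by rw [map_zero]; exact hz
    exact Φ.injective this
  · filter_upwards [h.max] with s hs hsT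
    have := hs hsT
    show u s * Φ (p s) (sw G (s, (q s).swap)) = |Φ (p s) (sw G (s, (q s).swap))|
    rw [hΦ]
    exact this

theorem jn_sw {q : ℝ → ℝ × ℝ} {a b : ℝ} (h : Jn (sw F) (sw G) (fun t => (q t).swap) a b) :
    Jn F G q a b := by
  obtain ⟨v, r, hv, hs, ha, hb, hn, hc⟩ := h
  have hss : ∀ H : ℝ × ℝ × ℝ → ℝ × ℝ, sw (sw H) = H := fun H => rfl
  have hs' := sol_sw hs
  rw [hss, hss] at hs'
  refine ⟨v, fun t => (r t).swap, hv, hs', ?_, ?_, ?_, ?_⟩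
  · show (r a).swap = q a
    rw [ha]; rfl
  · show (r b).swap = q b
    rw [hb]; rfl
  · intro t ht
    have h1 := hn t ht
    show ‖(r t).swap - q t‖ ≤ 1
    have h2 : (r t).swap - q t = (r t - (q t).swap).swap := rfl
    rw [h2, PSw_norm_swap]
    exact h1
  · refine hc.mono ?_
    rintro t ⟨ht, hnt⟩
    refine ⟨ht, fun hsm => hnt ?_⟩
    obtain ⟨ε, hε, hcd⟩ := hsm
    refine ⟨ε, hε, ?_⟩
    exact (PSw_e : (ℝ × ℝ) →L[ℝ] (ℝ × ℝ)).contDiff.comp_contDiffOn hcd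

theorem goal_sw {q : ℝ → ℝ × ℝ} {C : Set ℝ} (h : Goal (sw F) (sw G) (fun t => (q t).swap) C) :
    Goal F G q C := by
  obtain ⟨α, β, h1, h2⟩ := h
  exact ⟨α, β, h1, fun s hs hs' t ht ht' hst => jn_sw (h2 s hs hs' t ht ht' hst)⟩

theorem Dt_sw (E : Env F G R M) (z : ℝ × ℝ × ℝ) :
    Dt (sw F) (sw G) z = - Dt F G (z.1, z.2.2, z.2.1) := by
  have hW : W (sw F) (sw G) z = (W F G (PSw_S z)).swap := by
    show fderiv ℝ (sw G) z (1, 0) + dx (sw G) z (sw F z) - dx (sw F) z (sw G z) = _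
    rw [PSw_ft (PSw_diff E.Gs), PSw_dx (PSw_diff E.Gs), PSw_dx (PSw_diff E.Fs)]
    rfl
  have hG : sw G z = (G (PSw_S z)).swap := rfl
  show (sw G z).1 * (W (sw F) (sw G) z).2 - (sw G z).2 * (W (sw F) (sw G) z).1 =
    - ((G (PSw_S z)).1 * (W F G (PSw_S z)).2 - (G (PSw_S z)).2 * (W F G (PSw_S z)).1)
  rw [hW, hG]
  simp only [Prod.fst_swap, Prod.snd_swap]
  ring

end Pool.Agent.Lib.MP_28b8de_an.PT
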