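import Pool.Agent.Lib.MP_28b8de_an.P.PZtwo
import Pool.Agent.Lib.MP_28b8de_an.P.PKder

/-!
MP_28b8de_an, module PZthree (PTD-PZthree): a chart from an analytic function vanishing along the trajectory on a perfect set.

PROOF.  a_i := Dx^[i] a, analytic on Box R.
Case 1: ∃ i, ∃ t₂ ∈ C ∩ Ioo 0 T with a_i (t₂, q t₂) ≠ 0.  Least such i (≥ 1 by h0): σ = a_{i-1} vanishes at (t, q t) for all t ∈ C ∩ Ioo 0 T,
Dx σ (t₂, q t₂) ≠ 0.  Implicit function theorem (Mathlib/Analysis/Calculus/ImplicitContDiff.lean,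
`ContDiffAt.implicitFunction` with n = ω as in E/Zeta.lean, applied to ((t,y), x) ↦ σ (t, x, y)): ζ analytic at (t₂, (q t₂).2) and, near (t₂, q t₂), σ z = 0 →
z.2.1 = ζ (z.1, z.2.2).  Choose α < t₂ < β in [0,T] and c < (q t₂).2 < d so small that ζ is analytic on the rectangle, up ζ p ∈ Box R there
(ζ(t₂,(q t₂).2) = (q t₂).1, continuity, Box open), (q t).2 ∈ Ioo c d and (t, q t) is in the neighbourhood for t ∈ Ioo α β: Chart.
Case 2: all a_i vanish at (t, q t), t ∈ C ∩ Ioo 0 T.  b_i (t,y) := a_i (t, 0, y), analytic on Ioo (-R) R ×ˢ Ioo (-R) R.  For t ∈ C ∩ Ioo 0 T the function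
x ↦ a (t, x, (q t).2) is analytic on Ioo (-R) R with all derivatives 0 at (q t).1: identically 0, so b_i (t, (q t).2) = 0 for all i.
If all b_i were 0 on the rectangle Ioo 0 T ×ˢ Ioo (-R) R then a (t,·,y) = 0 for t ∈ Ioo 0 T (derivatives at x = 0), so a = 0 on an open
subset of the box, hence on the box (AnalyticOnNhd.eqOn_zero_of_preconnected_of_eventuallyEq_zero; the box is convex), contradiction
with hne.  So some b_i is not identically 0 on Ioo 0 T ×ˢ Ioo (-R) R and `ztwo` (α = 0, β = T, y = (q ·).2) gives t₃ ∈ C ∩ Ioo 0 T and η analytic at t₃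
with (q t).2 = η t for t ∈ C near t₃.  Chart for the swapped curve with ζ (t,x) := η t: first component of (q t).swap is (q t).2.
(hbox: |q t| < R; `perf_inner` gives C ∩ Ioo 0 T ≠ ∅.)
-/

namespace Pool.Agent.Lib.MP_28b8de_an.PT

open Filter Topology Set MeasureTheory

/-- the derivative in the direction `x` is analytic -/
private theorem PZthree_Dx_an {a : ℝ × ℝ × ℝ → ℝ} {s : Set (ℝ × ℝ × ℝ)} (ha : AnalyticOnNhd ℝ a s) :
    AnalyticOnNhd ℝ (Dx a) s := by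
  intro p hp
  exact ((ContinuousLinearMap.apply ℝ ℝ ((0 : ℝ), (1 : ℝ), (0 : ℝ))).analyticAt _).comp
    (ha.fderiv p hp)

private theorem PZthree_Dx_iter_an {a : ℝ × ℝ × ℝ → ℝ} {s : Set (ℝ × ℝ × ℝ)}
    (ha : AnalyticOnNhd ℝ a s) (j : ℕ) : AnalyticOnNhd ℝ (Dx^[j] a) s := by
  induction j with
  | zero => simpa using ha
  | succ j ih =>
    rw [Function.iterate_succ_apply']
    exact PZthree_Dx_an ih

/-- the derivative along the first space variable -/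
private theorem PZthree_deriv1 {G : ℝ × ℝ × ℝ → ℝ} {t s y : ℝ} (h : AnalyticAt ℝ G (t, s, y)) :
    HasDerivAt (fun r => G (t, r, y)) (Dx G (t, s, y)) s := by
  have h1 : HasFDerivAt G (fderiv ℝ G (t, s, y)) (t, s, y) := h.differentiableAt.hasFDerivAt
  have h2 : HasDerivAt (fun r : ℝ => (t, r, y)) ((0 : ℝ), (1 : ℝ), (0 : ℝ)) s :=
    (hasDerivAt_const s t).prodMk ((hasDerivAt_id s).prodMk (hasDerivAt_const s y))
  exact h1.comp_hasDerivAt s h2

/-- iterated derivatives along the first space variable -/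
private theorem PZthree_iter {a : ℝ × ℝ × ℝ → ℝ} {R : ℝ}
    (ha : AnalyticOnNhd ℝ a (Box R)) {t y : ℝ} (ht : t ∈ Ioo (-R) R) (hy : y ∈ Ioo (-R) R) (j : ℕ) :
    ∀ s ∈ Ioo (-R) R, iteratedDeriv j (fun r => a (t, r, y)) s = (Dx^[j] a) (t, s, y) := by
  induction j with
  | zero =>
    intro s _
    simp
  | succ j ih =>
    intro s hs
    rw [iteratedDeriv_succ, Function.iterate_succ_apply']
    have h1 : iteratedDeriv j (fun r => a (t, r, y)) =ᶠ[𝓝 s] fun r => (Dx^[j] a) (t, r, y) := by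
      filter_upwards [isOpen_Ioo.mem_nhds hs] with r hr
      exact ih r hr
    rw [h1.deriv_eq]
    exact (PZthree_deriv1 (PZthree_Dx_iter_an ha j _ ⟨ht, hs, hy⟩)).deriv

private theorem PZthree_slice {a : ℝ × ℝ × ℝ → ℝ} {R : ℝ}
    (ha : AnalyticOnNhd ℝ a (Box R)) {t y : ℝ} (ht : t ∈ Ioo (-R) R) (hy : y ∈ Ioo (-R) R) :
    AnalyticOnNhd ℝ (fun r => a (t, r, y)) (Ioo (-R) R) := by
  intro s hs
  have h1 : AnalyticAt ℝ a ((fun r : ℝ => (t, r, y)) s) := ha _ ⟨ht, hs, hy⟩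
  have h2 : AnalyticAt ℝ (fun r : ℝ => (t, r, y)) s :=
    analyticAt_const.prod (analyticAt_id.prod analyticAt_const)
  exact AnalyticAt.comp (f := fun r : ℝ => (t, r, y)) h1 h2

/-- if all derivatives in the direction `x` vanish at one point of a line, the function vanishes on it -/
private theorem PZthree_line {a : ℝ × ℝ × ℝ → ℝ} {R : ℝ}
    (ha : AnalyticOnNhd ℝ a (Box R)) {t x y : ℝ} (ht : t ∈ Ioo (-R) R) (hy : y ∈ Ioo (-R) R)
    (hx : x ∈ Ioo (-R) R) (h : ∀ j : ℕ, (Dx^[j] a) (t, x, y) = 0) :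
    ∀ s ∈ Ioo (-R) R, a (t, s, y) = 0 := by
  have hg := PZthree_slice ha ht hy
  have hord : analyticOrderAt (fun s => a (t, s, y)) x = ⊤ := by
    rw [ENat.eq_top_iff_forall_ge]
    intro m
    rw [natCast_le_analyticOrderAt_iff_iteratedDeriv_eq_zero (hg _ hx)]
    intro i _
    rw [PZthree_iter ha ht hy i _ hx]
    exact h i
  rw [analyticOrderAt_eq_top] at hord
  exact hg.eqOn_zero_of_preconnected_of_eventuallyEq_zero isPreconnected_Ioo hx hord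

private theorem PZthree_line_iter {a : ℝ × ℝ × ℝ → ℝ} {R : ℝ}
    (ha : AnalyticOnNhd ℝ a (Box R)) {t y : ℝ} (ht : t ∈ Ioo (-R) R) (hy : y ∈ Ioo (-R) R)
    (h : ∀ s ∈ Ioo (-R) R, a (t, s, y) = 0) (j : ℕ) :
    ∀ s ∈ Ioo (-R) R, (Dx^[j] a) (t, s, y) = 0 := by
  intro s hs
  rw [← PZthree_iter ha ht hy j s hs]
  have h1 : (fun r => a (t, r, y)) =ᶠ[𝓝 s] fun _ => (0 : ℝ) := by
    filter_upwards [isOpen_Ioo.mem_nhds hs] with r hr
    exact h r hr
  rw [h1.iteratedDeriv_eq]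
  simp

/-- the analytic implicit function at a point -/
private theorem PZthree_impl {G : ℝ × ℝ × ℝ → ℝ} {t x y : ℝ} (hG : AnalyticAt ℝ G (t, x, y))
    (h0 : G (t, x, y) = 0) (h1 : Dx G (t, x, y) ≠ 0) :
    ∃ ζ : ℝ × ℝ → ℝ, AnalyticAt ℝ ζ (t, y) ∧ ζ (t, y) = x ∧
      ∀ᶠ p in 𝓝 (t, x, y), G p = 0 → p.2.1 = ζ (p.1, p.2.2) := by
  set L : ((ℝ × ℝ) × ℝ) →L[ℝ] (ℝ × ℝ × ℝ) :=
    ((ContinuousLinearMap.fst ℝ ℝ ℝ).comp (ContinuousLinearMap.fst ℝ (ℝ × ℝ) ℝ)).prod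
      ((ContinuousLinearMap.snd ℝ (ℝ × ℝ) ℝ).prod
        ((ContinuousLinearMap.snd ℝ ℝ ℝ).comp (ContinuousLinearMap.fst ℝ (ℝ × ℝ) ℝ))) with hL
  have hLe : ∀ p : (ℝ × ℝ) × ℝ, L p = (p.1.1, p.2, p.1.2) := fun p => rfl
  set H : (ℝ × ℝ) × ℝ → ℝ := fun p => G (L p) with hH
  have hHa : AnalyticAt ℝ H ((t, y), x) := by
    have h1 : AnalyticAt ℝ G (L ((t, y), x)) := hG
    exact h1.comp (L.analyticAt _)
  have hfd : fderiv ℝ H ((t, y), x) = (fderiv ℝ G (t, x, y)).comp L := by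
    have h1 : HasFDerivAt G (fderiv ℝ G (t, x, y)) (L ((t, y), x)) :=
      hG.differentiableAt.hasFDerivAt
    exact (h1.comp _ L.hasFDerivAt).fderiv
  have hc : ContDiffAt ℝ (⊤ : WithTop ℕ∞) H ((t, y), x) := hHa.contDiffAt
  have pn : (⊤ : WithTop ℕ∞) ≠ 0 := by simp
  have hinv : (fderiv ℝ H ((t, y), x) ∘L .inr ℝ (ℝ × ℝ) ℝ).IsInvertible := by
    refine ⟨ContinuousLinearEquiv.unitsEquivAut ℝ (Units.mk0 (Dx G (t, x, y)) h1), ?_⟩
    ext
    rw [hfd]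
    simp [Dx, ContinuousLinearEquiv.unitsEquivAut, hLe]
  have hself : hc.implicitFunction pn hinv (t, y) = x := hc.implicitFunction_apply_self pn hinv
  refine ⟨hc.implicitFunction pn hinv, ?_, hself, ?_⟩
  · exact (hc.contDiffAt_implicitFunction pn hinv).analyticAt
  · have h := hc.eventually_apply_eq_iff_implicitFunction pn hinv
    have hcont : Tendsto (fun p : ℝ × ℝ × ℝ => ((p.1, p.2.2), p.2.1)) (𝓝 (t, x, y))
        (𝓝 ((t, y), x)) := by
      have : Continuous (fun p : ℝ × ℝ × ℝ => ((p.1, p.2.2), p.2.1)) := by fun_prop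
      exact this.tendsto _
    filter_upwards [hcont.eventually h] with p hp hp0
    exact (hp.1 (by show G (p.1, p.2.1, p.2.2) = G (t, x, y); rw [h0]; exact hp0)).symm

private theorem PZthree_open (R : ℝ) : IsOpen (Box R) :=
  isOpen_Ioo.prod (isOpen_Ioo.prod isOpen_Ioo)

/-- a local chart near a point of `C` -/
private theorem PZthree_chart {R T : ℝ} (hTR : T < R) {C : Set ℝ}
    {r : ℝ → ℝ × ℝ} {ζ : ℝ × ℝ → ℝ} {t₂ : ℝ} (ht₂ : t₂ ∈ C) (hI : t₂ ∈ Ioo 0 T)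
    (hr : ContinuousAt r t₂) (hbox : ‖r t₂‖ < R) (hζ : AnalyticAt ℝ ζ (t₂, (r t₂).2))
    (hself : ζ (t₂, (r t₂).2) = (r t₂).1)
    (hev : ∀ᶠ t in 𝓝 t₂, t ∈ C → (r t).1 = ζ (t, (r t).2)) :
    ∃ (α β c d : ℝ), Chart R T r C ζ α β c d := by
  have hx : |(r t₂).1| < R := lt_of_le_of_lt (norm_fst_le (r t₂)) hbox
  have hy : |(r t₂).2| < R := lt_of_le_of_lt (norm_snd_le (r t₂)) hbox
  have hmem : up ζ (t₂, (r t₂).2) ∈ Box R := by
    refine ⟨⟨?_, ?_⟩, ?_, ?_⟩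
    · show -R < t₂
      linarith [hI.1, hI.2]
    · show t₂ < R
      linarith [hI.2]
    · show ζ (t₂, (r t₂).2) ∈ Ioo (-R) R
      rw [hself]
      exact abs_lt.1 hx
    · exact abs_lt.1 hy
  have hupc : ContinuousAt (up ζ) (t₂, (r t₂).2) := by
    unfold up
    exact continuousAt_fst.prodMk (hζ.continuousAt.prodMk continuousAt_snd)
  have h1 : ∀ᶠ p in 𝓝 (t₂, (r t₂).2), up ζ p ∈ Box R :=
    hupc.eventually ((PZthree_open R).mem_nhds hmem)
  obtain ⟨ε, hε, hball⟩ := Metric.eventually_nhds_iff.1 (h1.and hζ.eventually_analyticAt)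
  have h2 : ∀ᶠ t in 𝓝 t₂, |(r t).2 - (r t₂).2| < ε := by
    have h3 : ContinuousAt (fun t => (r t).2) t₂ := continuousAt_snd.comp hr
    have := Metric.tendsto_nhds.1 h3 ε hε
    simpa [Real.dist_eq] using this
  obtain ⟨δ, hδ, hb2⟩ := Metric.eventually_nhds_iff.1 (h2.and hev)
  set δ' := min δ ε with hδ'
  have hδ'0 : 0 < δ' := lt_min hδ hε
  refine ⟨max 0 (t₂ - δ'), min T (t₂ + δ'), (r t₂).2 - ε, (r t₂).2 + ε, ?_⟩
  have hIoo : ∀ t ∈ Ioo (max 0 (t₂ - δ')) (min T (t₂ + δ')), |t - t₂| < δ' := by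
    intro t ht
    have h3 := lt_of_le_of_lt (le_max_right _ _) ht.1
    have h4 := lt_of_lt_of_le ht.2 (min_le_right _ _)
    rw [abs_lt]
    constructor <;> linarith
  have hIoo2 : ∀ t ∈ Ioo (max 0 (t₂ - δ')) (min T (t₂ + δ')), |t - t₂| < δ := fun t ht =>
    lt_of_lt_of_le (hIoo t ht) (min_le_left _ _)
  have hIoo3 : ∀ t ∈ Ioo (max 0 (t₂ - δ')) (min T (t₂ + δ')), |t - t₂| < ε := fun t ht =>
    lt_of_lt_of_le (hIoo t ht) (min_le_right _ _)
  have hrect : ∀ p ∈ Ioo (max 0 (t₂ - δ')) (min T (t₂ + δ')) ×ˢ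
      Ioo ((r t₂).2 - ε) ((r t₂).2 + ε), dist p (t₂, (r t₂).2) < ε := by
    intro p hp
    rw [Prod.dist_eq, max_lt_iff]
    refine ⟨?_, ?_⟩
    · rw [Real.dist_eq]
      exact hIoo3 _ hp.1
    · rw [Real.dist_eq, abs_lt]
      have h5 := hp.2.1
      have h6 := hp.2.2
      constructor <;> simp only <;> linarith
  exact
    { hα := le_max_left _ _
      hβ := min_le_left _ _
      ne := ⟨t₂, ht₂, max_lt hI.1 (by linarith), lt_min hI.2 (by linarith)⟩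
      an := fun p hp => (hball (hrect p hp)).2
      y := by
        intro t ht
        have h5 := (hb2 (by rw [Real.dist_eq]; exact hIoo2 t ht)).1
        rw [abs_lt] at h5
        constructor <;> linarith [h5.1, h5.2]
      x := fun t htC ht => (hb2 (by rw [Real.dist_eq]; exact hIoo2 t ht)).2 htC
      box := fun p hp => (hball (hrect p hp)).1 }

theorem zthree {R T : ℝ} (hT : 0 < T) (hTR : T < R) {C : Set ℝ} (hC : Perf T C)
    {q : ℝ → ℝ × ℝ} (hq : ContinuousOn q (Icc 0 T)) (hbox : ∀ t ∈ Icc 0 T, ‖q t‖ < R)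
    {a : ℝ × ℝ × ℝ → ℝ} (ha : AnalyticOnNhd ℝ a (Box R)) (hne : ∃ z ∈ Box R, a z ≠ 0)
    (h0 : ∀ t ∈ C, a (t, q t) = 0) :
    (∃ (ζ : ℝ × ℝ → ℝ) (α β c d : ℝ), Chart R T q C ζ α β c d) ∨
      ∃ (ζ : ℝ × ℝ → ℝ) (α β c d : ℝ), Chart R T (fun t => (q t).swap) C ζ α β c d := by
  classical
  have hcont : ∀ t ∈ Ioo 0 T, ContinuousAt q t := fun t ht =>
    hq.continuousAt (Icc_mem_nhds ht.1 ht.2)
  have hx : ∀ t ∈ Icc 0 T, (q t).1 ∈ Ioo (-R) R := fun t ht =>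
    abs_lt.1 (lt_of_le_of_lt (norm_fst_le (q t)) (hbox t ht))
  have hy : ∀ t ∈ Icc 0 T, (q t).2 ∈ Ioo (-R) R := fun t ht =>
    abs_lt.1 (lt_of_le_of_lt (norm_snd_le (q t)) (hbox t ht))
  have htR : ∀ t ∈ Icc 0 T, t ∈ Ioo (-R) R := fun t ht =>
    ⟨by linarith [ht.1], by linarith [ht.2]⟩
  have hR0 : (0 : ℝ) ∈ Ioo (-R) R := ⟨by linarith, by linarith⟩
  by_cases hex : ∃ i : ℕ, ∃ t₂ ∈ C, t₂ ∈ Ioo 0 T ∧ (Dx^[i] a) (t₂, q t₂) ≠ 0
  · left
    have hspec := Nat.find_spec hex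
    have hmin : ∀ m < Nat.find hex, ¬ ∃ t₂ ∈ C, t₂ ∈ Ioo 0 T ∧ (Dx^[m] a) (t₂, q t₂) ≠ 0 :=
      fun m hm => Nat.find_min hex hm
    obtain ⟨t₂, ht₂, hI, hj⟩ := hspec
    rcases hn : Nat.find hex with _ | n
    · rw [hn] at hj
      exact absurd (h0 t₂ ht₂) hj
    · rw [hn] at hj hmin
      have hz : ∀ t ∈ C, t ∈ Ioo 0 T → (Dx^[n] a) (t, q t) = 0 := by
        intro t ht htI
        by_contra hcon
        exact hmin n (Nat.lt_succ_self n) ⟨t, ht, htI, hcon⟩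
      rw [Function.iterate_succ_apply'] at hj
      have hIc : t₂ ∈ Icc 0 T := Ioo_subset_Icc_self hI
      have hGa : AnalyticAt ℝ (Dx^[n] a) (t₂, (q t₂).1, (q t₂).2) :=
        PZthree_Dx_iter_an ha n _ ⟨htR t₂ hIc, hx t₂ hIc, hy t₂ hIc⟩
      obtain ⟨ζ, hζ, hself, hev⟩ := PZthree_impl hGa (hz t₂ ht₂ hI) hj
      have hcq : Tendsto (fun t => (t, q t)) (𝓝 t₂) (𝓝 (t₂, (q t₂).1, (q t₂).2)) :=
        (continuousAt_id.prodMk (hcont t₂ hI))
      have hev2 : ∀ᶠ t in 𝓝 t₂, t ∈ C → (q t).1 = ζ (t, (q t).2) := by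
        filter_upwards [hcq.eventually hev, Ioo_mem_nhds hI.1 hI.2] with t ht htI htC
        exact ht (hz t htC htI)
      obtain ⟨α, β, c, d, h⟩ :=
        PZthree_chart hTR ht₂ hI (hcont t₂ hI) (hbox t₂ hIc) hζ hself hev2
      exact ⟨ζ, α, β, c, d, h⟩
  · right
    push Not at hex
    set b : ℕ → ℝ × ℝ → ℝ := fun i p => (Dx^[i] a) (p.1, 0, p.2) with hb
    have hban : ∀ i, AnalyticOnNhd ℝ (b i) (Ioo 0 T ×ˢ Ioo (-R) R) := by
      intro i p hp
      have h1 : AnalyticAt ℝ (Dx^[i] a) ((fun p : ℝ × ℝ => (p.1, (0 : ℝ), p.2)) p) :=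
        PZthree_Dx_iter_an ha i _ ⟨htR _ (Ioo_subset_Icc_self hp.1), hR0, hp.2⟩
      have h2 : AnalyticAt ℝ (fun p : ℝ × ℝ => (p.1, (0 : ℝ), p.2)) p :=
        analyticAt_fst.prod (analyticAt_const.prod analyticAt_snd)
      exact AnalyticAt.comp (f := fun p : ℝ × ℝ => (p.1, (0 : ℝ), p.2)) h1 h2
    have hb0 : ∀ i, ∀ t ∈ C, t ∈ Ioo 0 T → b i (t, (q t).2) = 0 := by
      intro i t htC htI
      have hIc : t ∈ Icc 0 T := Ioo_subset_Icc_self htI
      have hl := PZthree_line ha (htR t hIc) (hy t hIc) (hx t hIc) (fun j => hex j t htC htI)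
      exact PZthree_line_iter ha (htR t hIc) (hy t hIc) hl i 0 hR0
    obtain ⟨t₁, ht₁, -, hI₁⟩ := perf_inner hT hC (α := -1) (β := T + 1) (by
      obtain ⟨t, ht⟩ := hC.ne
      have := hC.sub ht
      exact ⟨t, ht, by linarith [this.1], by linarith [this.2]⟩)
    by_cases hall : ∀ i, ∀ p ∈ Ioo 0 T ×ˢ Ioo (-R) R, b i p = 0
    · exfalso
      obtain ⟨z, hz, hza⟩ := hne
      apply hza
      have hzero : a =ᶠ[𝓝 (t₁, (0 : ℝ), (0 : ℝ))] 0 := by
        have hopen : IsOpen (Ioo 0 T ×ˢ (Ioo (-R) R ×ˢ Ioo (-R) R) : Set (ℝ × ℝ × ℝ)) :=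
          isOpen_Ioo.prod (isOpen_Ioo.prod isOpen_Ioo)
        filter_upwards [hopen.mem_nhds (show (t₁, (0 : ℝ), (0 : ℝ)) ∈
          (Ioo 0 T ×ˢ (Ioo (-R) R ×ˢ Ioo (-R) R) : Set (ℝ × ℝ × ℝ)) from ⟨hI₁, hR0, hR0⟩)] with w hw
        have hwI : w.1 ∈ Ioo (-R) R := htR _ (Ioo_subset_Icc_self hw.1)
        exact PZthree_line ha hwI hw.2.2 hR0 (fun j => hall j (w.1, w.2.2) ⟨hw.1, hw.2.2⟩)
          w.2.1 hw.2.1
      have hconv : Convex ℝ (Box R) :=
        (convex_Ioo _ _).prod ((convex_Ioo _ _).prod (convex_Ioo _ _))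
      exact ha.eqOn_zero_of_preconnected_of_eventuallyEq_zero hconv.isPreconnected
        ⟨htR _ (Ioo_subset_Icc_self hI₁), hR0, hR0⟩ hzero hz
    · push Not at hall
      obtain ⟨i, p, hp, hbp⟩ := hall
      have hyc : ContinuousOn (fun t => (q t).2) (Icc 0 T) := continuous_snd.comp_continuousOn hq
      rcases ztwo hC hyc (hban i) ⟨t₁, ht₁, hI₁⟩
        (fun t _ htI => hy t (Ioo_subset_Icc_self htI)) (hb0 i) with h | h
      · exact absurd (h p hp) hbp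
      · obtain ⟨t₃, ht₃, hI, η, hη, ε, hε, hev⟩ := h
        have hIc : t₃ ∈ Icc 0 T := Ioo_subset_Icc_self hI
        have hζ : AnalyticAt ℝ (fun p : ℝ × ℝ => η p.1) (t₃, ((q t₃).swap).2) :=
          AnalyticAt.comp (f := fun p : ℝ × ℝ => p.1) hη analyticAt_fst
        have hsw : ContinuousAt (fun t => (q t).swap) t₃ :=
          continuous_swap.continuousAt.comp (hcont t₃ hI)
        have hnorm : ‖(q t₃).swap‖ < R := by
          have : ‖(q t₃).swap‖ = ‖q t₃‖ := by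
            rw [Prod.norm_def, Prod.norm_def, Prod.fst_swap, Prod.snd_swap, max_comm]
          rw [this]
          exact hbox t₃ hIc
        have hself : (fun p : ℝ × ℝ => η p.1) (t₃, ((q t₃).swap).2) = ((q t₃).swap).1 :=
          (hev t₃ ht₃ (by simpa using hε)).symm
        have hev2 : ∀ᶠ t in 𝓝 t₃, t ∈ C →
            ((q t).swap).1 = (fun p : ℝ × ℝ => η p.1) (t, ((q t).swap).2) := by
          filter_upwards [Metric.ball_mem_nhds t₃ hε] with t ht htC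
          exact hev t htC (by rwa [Metric.mem_ball, Real.dist_eq] at ht)
        obtain ⟨α, β, c, d, h⟩ :=
          PZthree_chart hTR ht₃ hI hsw hnorm hζ hself hev2
        exact ⟨_, α, β, c, d, h⟩

end Pool.Agent.Lib.MP_28b8de_an.PT
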