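import Pool.Agent.Lib.MP_28b8de_an.P.PChartS
import Pool.Agent.Lib.MP_28b8de_an.P.PChartU
import Pool.Agent.Lib.MP_28b8de_an.P.PZthree
import Pool.Agent.Lib.MP_28b8de_an.P.PSw
import Pool.Agent.Lib.MP_28b8de_an.P.PLoc
import Pool.Agent.Lib.MP_28b8de_an.P.PPrin
import Pool.Agent.Lib.MP_28b8de_an.P.PPmp

/-!
MP_28b8de_an, module PMain: the replacement theorem for cut off planar systems.
-/

namespace Pool.Agent.Lib.MP_28b8de_an.PT

open Filter Topology Set MeasureTheory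

variable {F G : ℝ × ℝ × ℝ → ℝ × ℝ} {R M : ℝ}

/-- a chart gives the goal, if D is not identically zero or G = 0 on C -/
theorem chart_goal {T : ℝ} {u : ℝ → ℝ} {q : ℝ → ℝ × ℝ} (h : Tr F G R M T u q) {C : Set ℝ}
    (hC : Perf T C) {p : ℝ → (ℝ × ℝ) →L[ℝ] ℝ} (hp : Mul F G T u q p)
    (hφ : ∀ t ∈ C, p t (G (t, q t)) = 0) (hD : ∀ t ∈ C, Dt F G (t, q t) = 0)
    (hne : (∃ z ∈ Box R, Dt F G z ≠ 0) ∨ ∀ t ∈ C, G (t, q t) = 0)
    {ζ : ℝ × ℝ → ℝ} {α β c d : ℝ} (hch : Chart R T q C ζ α β c d) : Goal F G q C := by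
  have hcont := h.sol.cont
  by_cases hb : ∀ t ∈ C, t ∈ Ioo α β → zb G ζ (t, q t) = 0
  · exact chart_a h hC hD hch hb
  push Not at hb
  obtain ⟨t₃, ht₃, ht₃', hb₃⟩ := hb
  have hT₃ : t₃ ∈ Ioo 0 T := ⟨lt_of_le_of_lt hch.hα ht₃'.1, lt_of_lt_of_le ht₃'.2 hch.hβ⟩
  have hne' : ∃ z ∈ Box R, Dt F G z ≠ 0 := by
    rcases hne with h1 | h1
    · exact h1
    · exfalso
      apply hb₃
      simp [zb, h1 t₃ ht₃]
  have hbox : ∀ t ∈ Icc 0 T, (t, q t) ∈ Box R := fun t ht => tr_box h ht (by simp)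
  have han : ∀ t ∈ Ioo α β, AnalyticAt ℝ ζ (t, (q t).2) := fun t ht =>
    hch.an (t, (q t).2) ⟨ht, hch.y t ht⟩
  have hsubI : ∀ t ∈ Ioo α β, t ∈ Icc 0 T := fun t ht =>
    ⟨hch.hα.trans ht.1.le, ht.2.le.trans hch.hβ⟩
  -- zb is continuous and nonzero near (t₃, q t₃)
  have hzb : ContinuousAt (zb G ζ) (t₃, q t₃) :=
    (zb_an h.env (hbox t₃ (hsubI t₃ ht₃')) (han t₃ ht₃')).continuousAt
  have hN : {z | zb G ζ z ≠ 0} ∈ 𝓝 (t₃, q t₃) := hzb.eventually_ne hb₃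
  obtain ⟨α', β', c', d', hα', hβ', hc', hd', ht₃'', hch', hq', hup'⟩ :=
    chart_shrink hcont hch ht₃ ht₃' hN
  by_cases hs : ∀ t ∈ C, t ∈ Ioo α' β' → |za F ζ (t, q t)| = |zb G ζ (t, q t)|
  · exact chart_s h hC hch' (fun t ht => hq' t ht) (fun p hp => hup' p hp) hs
  push Not at hs
  obtain ⟨t₄, ht₄, ht₄', hs₄⟩ := hs
  have hlt : |za F ζ (t₄, q t₄)| < |zb G ζ (t₄, q t₄)| :=
    lt_of_le_of_ne (chart_kder h hC hch' t₄ ht₄ ht₄') hs₄
  have ht₄i : t₄ ∈ Icc 0 T :=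
    ⟨hch'.hα.trans ht₄'.1.le, ht₄'.2.le.trans hch'.hβ⟩
  have han₄ : AnalyticAt ℝ ζ (t₄, (q t₄).2) := hch'.an (t₄, (q t₄).2) ⟨ht₄', hch'.y t₄ ht₄'⟩
  have hza₄ : ContinuousAt (fun z => |za F ζ z|) (t₄, q t₄) :=
    ((za_an h.env (hbox t₄ ht₄i) han₄).continuousAt).abs
  have hzb₄ : ContinuousAt (fun z => |zb G ζ z|) (t₄, q t₄) :=
    ((zb_an h.env (hbox t₄ ht₄i) han₄).continuousAt).abs
  have hN₄ : {z | |za F ζ z| < |zb G ζ z|} ∈ 𝓝 (t₄, q t₄) := hza₄.eventually_lt hzb₄ hlt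
  obtain ⟨α₄, β₄, c₄, d₄, hα₄, hβ₄, hc₄, hd₄, ht₄'', hch₄, hq₄, -⟩ :=
    chart_shrink hcont hch' ht₄ ht₄' hN₄
  refine chart_u h hC hp hφ hD hne' hch₄ (fun t ht => ?_) (fun p hp => ?_) (fun t ht => hq₄ t ht)
  · exact hq' t ⟨lt_of_le_of_lt hα₄ ht.1, lt_of_lt_of_le ht.2 hβ₄⟩
  · exact hup' p ⟨⟨lt_of_le_of_lt hα₄ hp.1.1, lt_of_lt_of_le hp.1.2 hβ₄⟩,
      ⟨lt_of_le_of_lt hc₄ hp.2.1, lt_of_lt_of_le hp.2.2 hd₄⟩⟩

/-- an analytic function vanishing on C along q gives the goal -/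
theorem zero_goal {T : ℝ} {u : ℝ → ℝ} {q : ℝ → ℝ × ℝ} (h : Tr F G R M T u q) {C : Set ℝ}
    (hC : Perf T C) {p : ℝ → (ℝ × ℝ) →L[ℝ] ℝ} (hp : Mul F G T u q p)
    (hφ : ∀ t ∈ C, p t (G (t, q t)) = 0) (hD : ∀ t ∈ C, Dt F G (t, q t) = 0)
    (hne : (∃ z ∈ Box R, Dt F G z ≠ 0) ∨ ∀ t ∈ C, G (t, q t) = 0)
    {a : ℝ × ℝ × ℝ → ℝ} (ha : AnalyticOnNhd ℝ a (Box R)) (hane : ∃ z ∈ Box R, a z ≠ 0)
    (h0 : ∀ t ∈ C, a (t, q t) = 0) : Goal F G q C := by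
  have hbox : ∀ t ∈ Icc 0 T, ‖q t‖ < R := fun t ht => by linarith [h.box t ht]
  rcases zthree h.hT h.hTR hC h.sol.cont hbox ha hane h0 with h1 | h1
  · obtain ⟨ζ, α, β, c, d, hch⟩ := h1
    exact chart_goal h hC hp hφ hD hne hch
  · obtain ⟨ζ, α, β, c, d, hch⟩ := h1
    obtain ⟨p', hp', hpp⟩ := mul_sw h.env hp
    have h' := tr_sw h
    have hGs : ∀ t, sw G (t, (q t).swap) = (G (t, q t)).swap := fun t => rfl
    apply goal_sw
    refine chart_goal h' hC hp' (fun t ht => ?_) (fun t ht => ?_) ?_ hch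
    · rw [hGs, hpp, Prod.swap_swap]
      exact hφ t ht
    · rw [Dt_sw h.env]
      show - Dt F G (t, q t) = 0
      rw [hD t ht, neg_zero]
    · rcases hne with ⟨z, hz, hz0⟩ | h2
      · refine Or.inl ⟨(z.1, z.2.2, z.2.1), ⟨hz.1, hz.2.2, hz.2.1⟩, ?_⟩
        rw [Dt_sw h.env]
        exact neg_ne_zero.2 hz0
      · refine Or.inr fun t ht => ?_
        rw [hGs, h2 t ht]
        rfl

/-- the totally degenerate case: D = 0 on the box -/
theorem leaf_goal {T : ℝ} {u : ℝ → ℝ} {q : ℝ → ℝ × ℝ} (h : Tr F G R M T u q) {C : Set ℝ}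
    (hC : Perf T C) (hDz : ∀ z ∈ Box R, Dt F G z = 0) {t₀ : ℝ} (ht₀ : t₀ ∈ C)
    (hG : G (t₀, q t₀) ≠ 0) : Goal F G q C := by
  have hM := h.env.hM
  have hM0 : 0 < M := by linarith
  have hT₀ : t₀ ∈ Icc 0 T := hC.sub ht₀
  set g0 : ℝ := ‖G (t₀, q t₀)‖ with hg0
  have hg0p : 0 < g0 := norm_pos_iff.2 hG
  set ρ : ℝ := min (1 / (16 * M)) (g0 / (32 * M * M)) with hρ
  have hρ0 : 0 < ρ := by positivity
  have hρ1 : ρ ≤ 1 / (16 * M) := min_le_left _ _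
  have hρ2 : ρ ≤ g0 / (32 * M * M) := min_le_right _ _
  have hρ1' : 16 * M * ρ ≤ 1 := by
    rw [le_div_iff₀ (by positivity)] at hρ1
    linarith
  have hρ2' : 32 * M * M * ρ ≤ g0 := by
    rw [le_div_iff₀ (by positivity)] at hρ2
    linarith
  refine ⟨t₀ - ρ, t₀ + ρ, ⟨t₀, ht₀, by linarith, by linarith⟩, ?_⟩
  intro s hs hsI t ht htI hst
  have hsT := hC.sub hs
  have htT := hC.sub ht
  have hsol : Sol F G u q s t := sol_mono h.env h.adm h.sol hsT.1 htT.2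
  have hqs : ‖q s - q t₀‖ ≤ 2 * M * ρ := by
    refine (sol_lip h.env h.adm h.sol hT₀ hsT).trans ?_
    apply mul_le_mul_of_nonneg_left _ (by positivity)
    rw [abs_le]
    constructor <;> linarith [hsI.1, hsI.2]
  refine leaf_jn h.env h.adm hst hsol (c0 := g0 / 2) (by positivity) ?_ ?_
  · nlinarith [hsI.1, htI.2]
  intro v r hv hr hrs τ hτ
  have hτs : |τ - s| ≤ 2 * ρ := by
    rw [abs_le]
    constructor <;> linarith [hτ.1, hτ.2, hsI.1, htI.2]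
  have hrτ : ‖r τ - r s‖ ≤ 4 * M * ρ := by
    refine (sol_lip h.env hv hr ⟨le_rfl, hst.le⟩ hτ).trans ?_
    nlinarith
  have hqτ : ‖q τ - q s‖ ≤ 4 * M * ρ := by
    refine (sol_lip h.env h.adm hsol ⟨le_rfl, hst.le⟩ hτ).trans ?_
    nlinarith
  have hτT : τ ∈ Icc 0 T := ⟨hsT.1.trans hτ.1, hτ.2.trans htT.2⟩
  have hclose : ‖r τ - q τ‖ ≤ 1 := by
    have h1 : r τ - q τ = (r τ - r s) - (q τ - q s) := by rw [hrs]; abel
    rw [h1]
    refine (norm_sub_le _ _).trans ?_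
    linarith
  refine ⟨hDz _ (tr_box h hτT hclose), ?_⟩
  have hdist : ‖((τ, r τ) : ℝ × ℝ × ℝ) - (t₀, q t₀)‖ ≤ 16 * M * ρ := by
    rw [Prod.norm_def]
    apply max_le
    · show ‖τ - t₀‖ ≤ _
      rw [Real.norm_eq_abs, abs_le]
      constructor <;> nlinarith [hτ.1, hτ.2, hsI.1, htI.2]
    · show ‖r τ - q t₀‖ ≤ _
      have h1 : r τ - q t₀ = (r τ - r s) + (q s - q t₀) := by rw [hrs]; abel
      rw [h1]
      refine (norm_add_le _ _).trans ?_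
      nlinarith
  have hGl := env_lipG h.env (τ, r τ) (t₀, q t₀)
  have h3 : ‖G (t₀, q t₀)‖ ≤ ‖G (τ, r τ)‖ + ‖G (τ, r τ) - G (t₀, q t₀)‖ := by
    have := norm_sub_norm_le (G (t₀, q t₀)) (G (τ, r τ))
    rw [norm_sub_rev] at this
    linarith
  have h4 : ‖G (τ, r τ) - G (t₀, q t₀)‖ ≤ g0 / 2 := by
    refine hGl.trans ?_
    have := mul_le_mul_of_nonneg_left hdist hM0.le
    nlinarith
  linarith

/-- the replacement theorem for cut off planar systems -/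
theorem replace {T : ℝ} {u : ℝ → ℝ} {q : ℝ → ℝ × ℝ} (h : Tr F G R M T u q) : Jn F G q 0 T := by
  rcases pmp_or h with h1 | ⟨p, hp⟩
  · exact h1
  apply principle h.env h.hT h.sol.cont
  intro C hC hbad
  have hCT : ∀ t ∈ C, t ∈ Icc 0 T := fun t ht => hC.sub ht
  have hbp := fun t ht => bad_point h hp (hCT t ht) (hbad t ht)
  have hφ : ∀ t ∈ C, p t (G (t, q t)) = 0 := fun t ht => (hbp t ht).1
  have hD : ∀ t ∈ C, Dt F G (t, q t) = 0 := fun t ht => (hbp t ht).2.2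
  have hbox : ∀ t ∈ Icc 0 T, (t, q t) ∈ Box R := fun t ht => tr_box h ht (by simp)
  by_cases hG : ∀ t ∈ C, G (t, q t) = 0
  · by_cases hG1 : ∀ z ∈ Box R, (G z).1 = 0
    · by_cases hG2 : ∀ z ∈ Box R, (G z).2 = 0
      · -- no control at all
        exfalso
        obtain ⟨t, ht⟩ := hC.ne
        obtain ⟨a, b, ha, hb, -, -, hab, hn⟩ := hbad t ht 1 one_pos
        apply hn
        apply jn_self h.adm (sol_mono h.env h.adm h.sol ha.1 hb.2)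
        have hempty : {t ∈ Ioo a b | ¬ SmAt q t} = ∅ := by
          ext s
          simp only [mem_setOf_eq, mem_empty_iff_false, iff_false, not_and, not_not]
          intro hs
          refine smAt_const h.env h.adm (sol_mono h.env h.adm h.sol ha.1 hb.2) (lam := 0) ?_ hs
          refine Eventually.of_forall fun r hr => ?_
          have hrT : r ∈ Icc 0 T := ⟨ha.1.trans hr.1.le, hr.2.le.trans hb.2⟩
          have hr0 : G (r, q r) = 0 := Prod.ext (hG1 _ (hbox r hrT)) (hG2 _ (hbox r hrT))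
          rw [hr0, smul_zero, smul_zero]
        rw [hempty]
        exact countable_empty
      · push Not at hG2
        exact zero_goal h hC hp hφ hD (Or.inr hG) (a := fun z => (G z).2)
          (fun z hz => ((ContinuousLinearMap.snd ℝ ℝ ℝ).analyticAt _).comp (h.env.Ga z hz)) hG2
          (fun t ht => by simp [hG t ht])
    · push Not at hG1
      exact zero_goal h hC hp hφ hD (Or.inr hG) (a := fun z => (G z).1)
        (fun z hz => ((ContinuousLinearMap.fst ℝ ℝ ℝ).analyticAt _).comp (h.env.Ga z hz)) hG1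
        (fun t ht => by simp [hG t ht])
  · push Not at hG
    obtain ⟨t₀, ht₀, hGt₀⟩ := hG
    by_cases hDz : ∀ z ∈ Box R, Dt F G z = 0
    · exact leaf_goal h hC hDz ht₀ hGt₀
    · push Not at hDz
      exact zero_goal h hC hp hφ hD (Or.inl hDz) (Dt_an h.env) hDz hD

end Pool.Agent.Lib.MP_28b8de_an.PT
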