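import Pool.Agent.Lib.MP_28b8de_an.P.PGron

/-!
MP_28b8de_an, module PSat (PTD-PSat): the saturated case.

PROOF.  B has constant sign; ν = ±1, so B (u - ν) has constant sign ς' (= - sgn(B) ν): replacing z by ± z we may assume B (u - ν) ≤ 0.
Forward: z t ≤ K ∫_s^t |z|.  Let z⁺ = max z 0.  Claim z ≤ 0 on Icc s s': if z t₁ > 0, let t₀ < t₁ be the last zero before t₁ (z s = 0), z > 0 on (t₀,t₁];
for t in [t₀,t₁]: z t = ∫_{t₀}^t (...) ≤ K ∫_{t₀}^t z, `gron` gives z ≤ 0.  Backward: z s' = 0, z ≤ 0, m = -z ≥ 0: m t = ∫_t^{s'} (B(u-ν) + ε)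
≤ K ∫_t^{s'} m, `gron_back` gives m ≤ 0.  So z = 0.
-/

namespace Pool.Agent.Lib.MP_28b8de_an.PT

open Filter Topology Set MeasureTheory

private theorem psat_aux {K s s' : ℝ} {z h ε : ℝ → ℝ} (hs : s ≤ s') (hK : 0 ≤ K)
    (zc : ContinuousOn z (Icc s s')) (hint : IntervalIntegrable h volume s s')
    (εc : ContinuousOn ε (Icc s s')) (h0 : ∀ t ∈ Icc s s', h t ≤ 0)
    (hε : ∀ t ∈ Icc s s', |ε t| ≤ K * |z t|)
    (zeq : ∀ t ∈ Icc s s', z t = ∫ r in s..t, (h r + ε r)) (z1 : z s' = 0) :
    ∀ t ∈ Icc s s', z t = 0 := by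
  have hεi : IntervalIntegrable ε volume s s' := by
    apply ContinuousOn.intervalIntegrable
    rwa [uIcc_of_le hs]
  have hsum : IntervalIntegrable (fun r => h r + ε r) volume s s' := hint.add hεi
  have hsub : ∀ a b : ℝ, a ∈ Icc s s' → b ∈ Icc s s' →
      IntervalIntegrable (fun r => h r + ε r) volume a b := by
    intro a b ha hb
    apply hsum.mono_set
    rw [uIcc_of_le hs]
    exact uIcc_subset_Icc ha hb
  have hdiff : ∀ a b : ℝ, a ∈ Icc s s' → b ∈ Icc s s' → z b - z a = ∫ r in a..b, (h r + ε r) := by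
    intro a b ha hb
    rw [zeq b hb, zeq a ha]
    exact intervalIntegral.integral_interval_sub_left (hsub s b ⟨le_refl s, hs⟩ hb)
      (hsub s a ⟨le_refl s, hs⟩ ha)
  have hzp : ContinuousOn (fun t => max (z t) 0) (Icc s s') := zc.sup continuousOn_const
  have hzpi : ∀ a b : ℝ, a ∈ Icc s s' → b ∈ Icc s s' →
      IntervalIntegrable (fun r => max (z r) 0) volume a b := by
    intro a b ha hb
    apply (hzp.mono (uIcc_subset_Icc ha hb)).intervalIntegrable
  have hzs : z s = 0 := by
    rw [zeq s ⟨le_refl s, hs⟩]; simp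
  -- step 1
  have step1 : ∀ t ∈ Icc s s', max (z t) 0 ≤ 0 + K * ∫ r in s..t, max (z r) 0 := by
    intro t ht
    have hsm : s ∈ Icc s s' := ⟨le_refl s, hs⟩
    have hnn : 0 ≤ ∫ r in s..t, max (z r) 0 :=
      intervalIntegral.integral_nonneg ht.1 (fun r _ => le_max_right _ _)
    rw [zero_add]
    rcases le_or_gt (z t) 0 with hzt | hzt
    · rw [max_eq_right hzt]
      exact mul_nonneg hK hnn
    · rw [max_eq_left hzt.le]
      have hsubt : Icc s t ⊆ Icc s s' := Icc_subset_Icc_right ht.2
      have hScl : IsClosed {r ∈ Icc s t | z r ≤ 0} :=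
        (zc.mono hsubt).preimage_isClosed_of_isClosed isClosed_Icc isClosed_Iic
      have hScp : IsCompact {r ∈ Icc s t | z r ≤ 0} :=
        isCompact_Icc.of_isClosed_subset hScl (fun r hr => hr.1)
      have hSne : ({r ∈ Icc s t | z r ≤ 0}).Nonempty := ⟨s, ⟨le_refl s, ht.1⟩, hzs.le⟩
      obtain ⟨t0, ht0⟩ : ∃ x, x = sSup {r ∈ Icc s t | z r ≤ 0} := ⟨_, rfl⟩
      have hmem : t0 ∈ {r ∈ Icc s t | z r ≤ 0} := by
        rw [ht0]; exact hScp.sSup_mem hSne
      have hpos : ∀ r ∈ Ioo t0 t, 0 < z r := by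
        intro r hr
        by_contra hc
        have hle : z r ≤ 0 := not_lt.mp hc
        have hrm : r ∈ {r ∈ Icc s t | z r ≤ 0} :=
          ⟨⟨hmem.1.1.trans hr.1.le, hr.2.le⟩, hle⟩
        have := le_csSup hScp.bddAbove hrm
        rw [← ht0] at this
        exact absurd hr.1 (not_lt.mpr this)
      have ht0m : t0 ∈ Icc s s' := hsubt hmem.1
      have hd := hdiff t0 t ht0m ht
      have hle1 : ∫ r in t0..t, (h r + ε r) ≤ ∫ r in t0..t, K * max (z r) 0 := by
        apply intervalIntegral.integral_mono_on_of_le_Ioo hmem.1.2 (hsub t0 t ht0m ht)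
          ((hzpi t0 t ht0m ht).const_mul K)
        intro r hr
        have hrm : r ∈ Icc s s' := ⟨hmem.1.1.trans hr.1.le, hr.2.le.trans ht.2⟩
        have h1 := h0 r hrm
        have h2 := hε r hrm
        have h3 := hpos r hr
        rw [abs_of_pos h3] at h2
        rw [max_eq_left h3.le]
        have h4 := le_abs_self (ε r)
        linarith
      have hle2 : ∫ r in t0..t, max (z r) 0 ≤ ∫ r in s..t, max (z r) 0 := by
        have := intervalIntegral.integral_add_adjacent_intervals (hzpi s t0 hsm ht0m)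
          (hzpi t0 t ht0m ht)
        have hnn2 : 0 ≤ ∫ r in s..t0, max (z r) 0 :=
          intervalIntegral.integral_nonneg hmem.1.1 (fun r _ => le_max_right _ _)
        linarith
      rw [intervalIntegral.integral_const_mul] at hle1
      have h5 := mul_le_mul_of_nonneg_left hle2 hK
      have h6 : z t0 ≤ 0 := hmem.2
      linarith
  have hz0 : ∀ t ∈ Icc s s', z t ≤ 0 := by
    intro t ht
    have := gron hzp hK step1 t ht
    rw [zero_mul] at this
    exact (le_max_left _ _).trans this
  -- step 2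
  have step2 : ∀ t ∈ Icc s s', (fun r => - z r) t ≤ 0 + K * ∫ r in t..s', (fun r => - z r) r := by
    intro t ht
    have hs'm : s' ∈ Icc s s' := ⟨hs, le_refl s'⟩
    have hd := hdiff t s' ht hs'm
    rw [z1] at hd
    have hzi : IntervalIntegrable (fun r => - z r) volume t s' := by
      apply ((zc.neg).mono (uIcc_subset_Icc ht hs'm)).intervalIntegrable
    have hle1 : ∫ r in t..s', (h r + ε r) ≤ ∫ r in t..s', K * (- z r) := by
      apply intervalIntegral.integral_mono_on ht.2 (hsub t s' ht hs'm) (hzi.const_mul K)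
      intro r hr
      have hrm : r ∈ Icc s s' := ⟨ht.1.trans hr.1, hr.2⟩
      have h1 := h0 r hrm
      have h2 := hε r hrm
      have h3 := hz0 r hrm
      rw [abs_of_nonpos h3] at h2
      have h4 := le_abs_self (ε r)
      linarith
    rw [intervalIntegral.integral_const_mul] at hle1
    show - z t ≤ 0 + K * ∫ r in t..s', - z r
    linarith
  intro t ht
  have h1 := gron_back zc.neg hK step2 t ht
  rw [zero_mul] at h1
  have h2 := hz0 t ht
  have h3 : - z t ≤ 0 := h1
  linarith

theorem sat {K s s' ν : ℝ} {z u B ε : ℝ → ℝ} (hs : s < s') (hK : 0 ≤ K) (hν : ν = 1 ∨ ν = -1)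
    (hu : Adm u) (zc : ContinuousOn z (Icc s s')) (Bc : ContinuousOn B (Icc s s'))
    (εc : ContinuousOn ε (Icc s s')) (B0 : ∀ t ∈ Icc s s', B t ≠ 0)
    (hε : ∀ t ∈ Icc s s', |ε t| ≤ K * |z t|)
    (zeq : ∀ t ∈ Icc s s', z t = ∫ r in s..t, (B r * (u r - ν) + ε r)) (z1 : z s' = 0) :
    ∀ t ∈ Icc s s', z t = 0 := by
  have hBi : IntervalIntegrable (fun r => B r * (u r - ν)) volume s s' := by
    have hu1 : IntervalIntegrable (fun r => u r - ν) volume s s' := by
      rw [intervalIntegrable_iff_integrableOn_Ioc_of_le hs.le]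
      refine Measure.integrableOn_of_bounded (M := 2) (by simp)
        (hu.1.sub_const ν).aestronglyMeasurable (Eventually.of_forall fun r => ?_)
      rw [Real.norm_eq_abs]
      have h1 := hu.2 r
      have h2 : |ν| ≤ 1 := by rcases hν with h | h <;> rw [h] <;> norm_num
      calc |u r - ν| ≤ |u r| + |ν| := abs_sub _ _
        _ ≤ 2 := by linarith
    have hBc : ContinuousOn B (uIcc s s') := by rwa [uIcc_of_le hs.le]
    have := hu1.mul_continuousOn hBc
    refine this.congr ?_
    intro r _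
    ring
  have hsign : (∀ t ∈ Icc s s', B t * (u t - ν) ≤ 0) ∨ (∀ t ∈ Icc s s', 0 ≤ B t * (u t - ν)) := by
    have hBs : (∀ t ∈ Icc s s', 0 < B t) ∨ (∀ t ∈ Icc s s', B t < 0) := by
      have hsm : s ∈ Icc s s' := ⟨le_refl s, hs.le⟩
      rcases lt_or_gt_of_ne (B0 s hsm) with h | h
      · right
        intro t ht
        by_contra hc
        have hc' : 0 ≤ B t := not_lt.mp hc
        have := intermediate_value_Icc ht.1 (Bc.mono (Icc_subset_Icc_right ht.2))
        obtain ⟨r, hr, hr0⟩ := this ⟨h.le, hc'⟩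
        exact B0 r ⟨hr.1, hr.2.trans ht.2⟩ hr0
      · left
        intro t ht
        by_contra hc
        have hc' : B t ≤ 0 := not_lt.mp hc
        have := intermediate_value_Icc' ht.1 (Bc.mono (Icc_subset_Icc_right ht.2))
        obtain ⟨r, hr, hr0⟩ := this ⟨hc', h.le⟩
        exact B0 r ⟨hr.1, hr.2.trans ht.2⟩ hr0
    have hle : ∀ t, -1 ≤ u t ∧ u t ≤ 1 := fun t => abs_le.mp (hu.2 t)
    rcases hν with h | h <;> rcases hBs with hB | hB
    · left; intro t ht
      have := hle t; have := hB t ht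
      rw [h]; nlinarith
    · right; intro t ht
      have := hle t; have := hB t ht
      rw [h]; nlinarith
    · right; intro t ht
      have := hle t; have := hB t ht
      rw [h]; nlinarith
    · left; intro t ht
      have := hle t; have := hB t ht
      rw [h]; nlinarith
  rcases hsign with h | h
  · exact psat_aux hs.le hK zc hBi εc h hε zeq z1
  · have h1 : ∀ t ∈ Icc s s', (fun r => - z r) t = 0 := by
      apply psat_aux (z := fun r => - z r) (h := fun r => - (B r * (u r - ν)))
        (ε := fun r => - ε r) hs.le hK zc.neg hBi.neg εc.neg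
      · intro t ht; have := h t ht; linarith
      · intro t ht; rw [abs_neg, abs_neg]; exact hε t ht
      · intro t ht
        show - z t = _
        rw [zeq t ht, ← intervalIntegral.integral_neg]
        congr 1
        ext r
        ring
      · show - z s' = 0
        rw [z1]; simp
    intro t ht
    have h2 : - z t = 0 := h1 t ht
    linarith

/-- sliding at rate proportional to the distance: `|z'| ≤ K |z|`, `z = 0` initially -/
theorem stay {K s s' : ℝ} {z f : ℝ → ℝ} (hs : s ≤ s') (hK : 0 ≤ K)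
    (zc : ContinuousOn z (Icc s s')) (hf : IntervalIntegrable f volume s s')
    (zeq : ∀ t ∈ Icc s s', z t = ∫ r in s..t, f r)
    (hb : ∀ t ∈ Icc s s', |f t| ≤ K * |z t|) : ∀ t ∈ Icc s s', z t = 0 := by
  have habs : ∀ t ∈ Icc s s', (fun r => |z r|) t ≤ 0 + K * ∫ r in s..t, (fun r => |z r|) r := by
    intro t ht
    have hft : IntervalIntegrable f volume s t := by
      apply hf.mono_set
      rw [uIcc_of_le hs]
      exact uIcc_subset_Icc ⟨le_refl s, hs⟩ ht
    have hzt : IntervalIntegrable (fun r => |z r|) volume s t :=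
      ((zc.abs).mono (uIcc_subset_Icc ⟨le_refl s, hs⟩ ht)).intervalIntegrable
    show |z t| ≤ 0 + K * ∫ r in s..t, |z r|
    rw [zeq t ht, zero_add, ← intervalIntegral.integral_const_mul]
    calc |∫ r in s..t, f r| ≤ ∫ r in s..t, |f r| :=
          intervalIntegral.abs_integral_le_integral_abs ht.1
      _ ≤ ∫ r in s..t, K * |z r| := by
          apply intervalIntegral.integral_mono_on ht.1 hft.abs (hzt.const_mul K)
          intro r hr
          exact hb r ⟨hr.1, hr.2.trans ht.2⟩
  intro t ht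
  have h1 := gron zc.abs hK habs t ht
  rw [zero_mul] at h1
  have h2 : |z t| ≤ 0 := h1
  exact abs_eq_zero.mp (le_antisymm h2 (abs_nonneg _))

end Pool.Agent.Lib.MP_28b8de_an.PT
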