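import Pool.Agent.Lib.MP_28b8de_an.P.PZeq
import Pool.Agent.Lib.MP_28b8de_an.P.PSat

/-!
MP_28b8de_an, module PInv (PTD-PInv): a surface to which F and G are tangent is invariant.

PROOF.  Let z₀ = up ζ p₀, p₀ = (t₀, y₀) in the rectangle.  za F ζ and zb G ζ are analytic (za_an, zb_an) near z₀, so C^1: on a convex (ball) neighbourhood N
of z₀ they are K-Lipschitz, and N ⊆ {z | (z.1, z.2.2) ∈ rectangle}.  Choose ρ so small that for |t - t₀| < ρ, |y - y₀| < small: up ζ (t,y) ∈ N, and such that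
trajectories starting at (s, r s) with |s - t₀| < ρ, |(r s).2 - y₀| < ρ, (r s).1 = ζ (s, (r s).2) stay in N with up ζ (t, (r t).2) ∈ N for t ∈ Icc s s',
|s' - t₀| < ρ (speed ≤ 2M: ‖r t - r s‖ ≤ 2M · 2ρ).  For z t := (r t).1 - ζ (t, (r t).2): zeq, and
|za F ζ (t, r t)| = |za F ζ (t, r t) - za F ζ (up ζ (t, (r t).2))| ≤ K |z t|, the same for zb; so by `stay` z = 0.
-/

namespace Pool.Agent.Lib.MP_28b8de_an.PT

open Filter Topology Set MeasureTheory

variable {F G : ℝ × ℝ × ℝ → ℝ × ℝ} {R M : ℝ}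

/-- a common neighbourhood -/
private theorem PInv_nbhd (E : Env F G R M) {ζ : ℝ × ℝ → ℝ} {α β c d : ℝ}
    (hζ : AnalyticOnNhd ℝ ζ (Ioo α β ×ˢ Ioo c d))
    (hbox : ∀ p ∈ Ioo α β ×ˢ Ioo c d, up ζ p ∈ Box R) {p₀ : ℝ × ℝ}
    (hp₀ : p₀ ∈ Ioo α β ×ˢ Ioo c d) :
    ∃ K η : ℝ, 0 ≤ K ∧ 0 < η ∧ ∀ z ∈ Metric.ball (up ζ p₀) η, (z.1, z.2.2) ∈ Ioo α β ×ˢ Ioo c d ∧
      ∀ w ∈ Metric.ball (up ζ p₀) η, |za F ζ z - za F ζ w| ≤ K * dist z w ∧
        |zb G ζ z - zb G ζ w| ≤ K * dist z w := by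
  have hz₀ : up ζ p₀ ∈ Box R := hbox p₀ hp₀
  have hζ₀ : AnalyticAt ℝ ζ ((up ζ p₀).1, (up ζ p₀).2.2) := hζ p₀ hp₀
  obtain ⟨K1, V1, hV1, hL1⟩ := (za_an E hz₀ hζ₀).contDiffAt (n := 1) |>.exists_lipschitzOnWith
  obtain ⟨K2, V2, hV2, hL2⟩ := (zb_an E hz₀ hζ₀).contDiffAt (n := 1) |>.exists_lipschitzOnWith
  have hV3 : {z : ℝ × ℝ × ℝ | (z.1, z.2.2) ∈ Ioo α β ×ˢ Ioo c d} ∈ 𝓝 (up ζ p₀) := by
    have hc : Continuous fun z : ℝ × ℝ × ℝ => (z.1, z.2.2) :=
      continuous_fst.prodMk (continuous_snd.comp continuous_snd)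
    exact ((isOpen_Ioo.prod isOpen_Ioo).preimage hc).mem_nhds hp₀
  obtain ⟨η, hη, hball⟩ := Metric.mem_nhds_iff.1 (inter_mem (inter_mem hV1 hV2) hV3)
  refine ⟨max K1 K2, η, le_trans K1.2 (le_max_left _ _), hη, fun z hz => ⟨(hball hz).2, fun w hw => ⟨?_, ?_⟩⟩⟩
  · have h1 := hL1.dist_le_mul z (hball hz).1.1 w (hball hw).1.1
    rw [Real.dist_eq] at h1
    exact h1.trans (mul_le_mul_of_nonneg_right (le_max_left _ _) dist_nonneg)
  · have h1 := hL2.dist_le_mul z (hball hz).1.2 w (hball hw).1.2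
    rw [Real.dist_eq] at h1
    exact h1.trans (mul_le_mul_of_nonneg_right (le_max_right _ _) dist_nonneg)

theorem inv_surf (E : Env F G R M) {ζ : ℝ × ℝ → ℝ} {α β c d : ℝ}
    (hζ : AnalyticOnNhd ℝ ζ (Ioo α β ×ˢ Ioo c d))
    (hbox : ∀ p ∈ Ioo α β ×ˢ Ioo c d, up ζ p ∈ Box R)
    (ha : ∀ p ∈ Ioo α β ×ˢ Ioo c d, za F ζ (up ζ p) = 0)
    (hb : ∀ p ∈ Ioo α β ×ˢ Ioo c d, zb G ζ (up ζ p) = 0) {t₀ y₀ : ℝ} (ht₀ : t₀ ∈ Ioo α β)
    (hy₀ : y₀ ∈ Ioo c d) :
    ∃ ρ : ℝ, 0 < ρ ∧ ∀ (v : ℝ → ℝ) (r : ℝ → ℝ × ℝ) (s s' : ℝ), Adm v → Sol F G v r s s' →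
      s ≤ s' → |s - t₀| < ρ → |s' - t₀| < ρ → |(r s).2 - y₀| < ρ →
      (r s).1 = ζ (s, (r s).2) →
      ∀ t ∈ Icc s s', t ∈ Ioo α β ∧ (r t).2 ∈ Ioo c d ∧ (r t).1 = ζ (t, (r t).2) := by
  have hM := E.hM
  have hp₀ : (t₀, y₀) ∈ Ioo α β ×ˢ Ioo c d := ⟨ht₀, hy₀⟩
  obtain ⟨K, η, hK, hη, hN⟩ := PInv_nbhd E hζ hbox hp₀
  -- continuity of `up`
  have hupc : ContinuousAt (up ζ) (t₀, y₀) := by
    have h1 : ContinuousAt ζ (t₀, y₀) := (hζ _ hp₀).continuousAt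
    exact continuousAt_fst.prodMk (h1.prodMk continuousAt_snd)
  obtain ⟨δ, hδ, hδb⟩ := Metric.continuousAt_iff.1 hupc (η / 2) (by linarith)
  -- the choice of `ρ`
  obtain ⟨ρ, hρ, hρ1, hρ2⟩ : ∃ ρ : ℝ, 0 < ρ ∧ (1 + 4 * M) * ρ ≤ δ ∧ (1 + 4 * M) * ρ ≤ η / 2 := by
    have h4 : 0 < 1 + 4 * M := by linarith
    refine ⟨min δ (η / 2) / (1 + 4 * M), div_pos (lt_min hδ (by linarith)) h4, ?_, ?_⟩
    · rw [mul_div_cancel₀ _ h4.ne']
      exact min_le_left _ _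
    · rw [mul_div_cancel₀ _ h4.ne']
      exact min_le_right _ _
  refine ⟨ρ, hρ, fun v r s s' hv hr hs hst hst' hy hx => ?_⟩
  have hsm : s ∈ Icc s s' := ⟨le_refl _, hs⟩
  have ht0 : ∀ t ∈ Icc s s', |t - t₀| < ρ := by
    intro t ht
    rw [abs_lt] at hst hst' ⊢
    constructor
    · linarith [ht.1]
    · linarith [ht.2]
  have hmove : ∀ t ∈ Icc s s', ‖r t - r s‖ ≤ 4 * M * ρ := by
    intro t ht
    have h1 := sol_lip E hv hr hsm ht
    have h2 : |t - s| ≤ 2 * ρ := by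
      have h3 := abs_lt.1 (ht0 t ht)
      have h4 := abs_lt.1 hst
      rw [abs_le]
      constructor <;> linarith
    have h3 : 2 * M * |t - s| ≤ 2 * M * (2 * ρ) := mul_le_mul_of_nonneg_left h2 (by linarith)
    linarith
  have hmove1 : ∀ t ∈ Icc s s', |(r t).1 - (r s).1| ≤ 4 * M * ρ := fun t ht => by
    have h1 : ‖(r t - r s).1‖ ≤ ‖r t - r s‖ := norm_fst_le _
    rw [Real.norm_eq_abs] at h1
    exact h1.trans (hmove t ht)
  have hmove2 : ∀ t ∈ Icc s s', |(r t).2 - (r s).2| ≤ 4 * M * ρ := fun t ht => by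
    have h1 : ‖(r t - r s).2‖ ≤ ‖r t - r s‖ := norm_snd_le _
    rw [Real.norm_eq_abs] at h1
    exact h1.trans (hmove t ht)
  have hy2 : ∀ t ∈ Icc s s', |(r t).2 - y₀| < (1 + 4 * M) * ρ := by
    intro t ht
    have h1 := hmove2 t ht
    have h2 : |(r t).2 - y₀| ≤ |(r t).2 - (r s).2| + |(r s).2 - y₀| := abs_sub_le _ _ _
    linarith
  have hMρ : 0 ≤ 4 * M * ρ := by positivity
  have hup : ∀ t ∈ Icc s s', dist (up ζ (t, (r t).2)) (up ζ (t₀, y₀)) < η / 2 := by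
    intro t ht
    apply hδb
    rw [Prod.dist_eq, Real.dist_eq, Real.dist_eq]
    refine max_lt ?_ ?_
    · have := ht0 t ht
      show |t - t₀| < δ
      linarith
    · have := hy2 t ht
      show |(r t).2 - y₀| < δ
      linarith
  have hcur : ∀ t ∈ Icc s s', dist ((t, r t) : ℝ × ℝ × ℝ) (up ζ (t₀, y₀)) < η := by
    intro t ht
    have e1 : up ζ (t₀, y₀) = (t₀, ζ (t₀, y₀), y₀) := rfl
    have h1 := hup s hsm
    have e2 : up ζ (s, (r s).2) = (s, ζ (s, (r s).2), (r s).2) := rfl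
    rw [e1, e2, Prod.dist_eq, Prod.dist_eq, Real.dist_eq, Real.dist_eq, Real.dist_eq] at h1
    have h2 : |ζ (s, (r s).2) - ζ (t₀, y₀)| < η / 2 :=
      lt_of_le_of_lt ((le_max_left _ _).trans (le_max_right _ _)) h1
    rw [← hx] at h2
    rw [e1, Prod.dist_eq, Prod.dist_eq, Real.dist_eq, Real.dist_eq, Real.dist_eq]
    refine max_lt ?_ (max_lt ?_ ?_)
    · have := ht0 t ht
      show |t - t₀| < η
      linarith
    · have h3 := hmove1 t ht
      have h4 : |(r t).1 - ζ (t₀, y₀)| ≤ |(r t).1 - (r s).1| + |(r s).1 - ζ (t₀, y₀)| :=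
        abs_sub_le _ _ _
      show |(r t).1 - ζ (t₀, y₀)| < η
      linarith
    · have h3 := hy2 t ht
      show |(r t).2 - y₀| < η
      linarith
  have hrect : ∀ t ∈ Icc s s', t ∈ Ioo α β ∧ (r t).2 ∈ Ioo c d := by
    intro t ht
    have h1 := (hN (t, r t) (hcur t ht)).1
    exact ⟨h1.1, h1.2⟩
  -- the equation of `z`
  have hz := zeq E hζ hv hr (fun t ht => (hrect t ht).1) (fun t ht => (hrect t ht).2) s hsm
  have hz0 : (r s).1 - ζ (s, (r s).2) = 0 := by rw [hx, sub_self]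
  -- Lipschitz bounds
  have hdist : ∀ t ∈ Icc s s', dist ((t, r t) : ℝ × ℝ × ℝ) (up ζ (t, (r t).2)) =
      |(r t).1 - ζ (t, (r t).2)| := by
    intro t ht
    have e1 : up ζ (t, (r t).2) = (t, ζ (t, (r t).2), (r t).2) := rfl
    rw [e1, Prod.dist_eq, Prod.dist_eq]
    show max (dist t t) (max (dist (r t).1 (ζ (t, (r t).2))) (dist (r t).2 (r t).2)) = _
    have e2 : max |(r t).1 - ζ (t, (r t).2)| 0 = |(r t).1 - ζ (t, (r t).2)| :=
      max_eq_left (abs_nonneg _)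
    rw [dist_self, dist_self, Real.dist_eq, e2]
    exact max_eq_right (abs_nonneg _)
  have hza : ∀ t ∈ Icc s s', |za F ζ (t, r t)| ≤ K * |(r t).1 - ζ (t, (r t).2)| := by
    intro t ht
    have h1 := ((hN (t, r t) (hcur t ht)).2 (up ζ (t, (r t).2))
      (Metric.mem_ball.2 (by linarith [hup t ht]))).1
    rw [ha (t, (r t).2) ⟨(hrect t ht).1, (hrect t ht).2⟩, sub_zero, hdist t ht] at h1
    exact h1
  have hzb : ∀ t ∈ Icc s s', |zb G ζ (t, r t)| ≤ K * |(r t).1 - ζ (t, (r t).2)| := by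
    intro t ht
    have h1 := ((hN (t, r t) (hcur t ht)).2 (up ζ (t, (r t).2))
      (Metric.mem_ball.2 (by linarith [hup t ht]))).2
    rw [hb (t, (r t).2) ⟨(hrect t ht).1, (hrect t ht).2⟩, sub_zero, hdist t ht] at h1
    exact h1
  -- continuity along the curve
  have hcc : ContinuousOn (fun t => ((t, r t) : ℝ × ℝ × ℝ)) (Icc s s') :=
    continuousOn_id.prodMk hr.cont
  have hzac : ContinuousOn (fun t => za F ζ (t, r t)) (Icc s s') := by
    have h1 : ContinuousOn (za F ζ) (Metric.ball (up ζ (t₀, y₀)) η) := by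
      have h2 : LipschitzOnWith (Real.toNNReal K) (za F ζ) (Metric.ball (up ζ (t₀, y₀)) η) := by
        refine LipschitzOnWith.of_dist_le_mul fun z hz w hw => ?_
        rw [Real.dist_eq, Real.coe_toNNReal _ hK]
        exact ((hN z hz).2 w hw).1
      exact h2.continuousOn
    exact h1.comp hcc fun t ht => Metric.mem_ball.2 (hcur t ht)
  have hzbc : ContinuousOn (fun t => zb G ζ (t, r t)) (Icc s s') := by
    have h1 : ContinuousOn (zb G ζ) (Metric.ball (up ζ (t₀, y₀)) η) := by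
      have h2 : LipschitzOnWith (Real.toNNReal K) (zb G ζ) (Metric.ball (up ζ (t₀, y₀)) η) := by
        refine LipschitzOnWith.of_dist_le_mul fun z hz w hw => ?_
        rw [Real.dist_eq, Real.coe_toNNReal _ hK]
        exact ((hN z hz).2 w hw).2
      exact h2.continuousOn
    exact h1.comp hcc fun t ht => Metric.mem_ball.2 (hcur t ht)
  have hrc1 : ContinuousOn (fun t => (r t).1) (Icc s s') := continuous_fst.comp_continuousOn hr.cont
  have hrc2 : ContinuousOn (fun t => (r t).2) (Icc s s') := continuous_snd.comp_continuousOn hr.cont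
  have hζc : ContinuousOn (fun t => ζ (t, (r t).2)) (Icc s s') := by
    have h1 : ContinuousOn ζ (Ioo α β ×ˢ Ioo c d) := hζ.continuousOn
    exact h1.comp (continuousOn_id.prodMk hrc2) fun t ht => ⟨(hrect t ht).1, (hrect t ht).2⟩
  have hvi : IntervalIntegrable v volume s s' := by
    have h1 : IntervalIntegrable (fun _ : ℝ => (1 : ℝ)) volume s s' := intervalIntegrable_const
    refine h1.mono_fun hv.1.aestronglyMeasurable (Eventually.of_forall fun t => ?_)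
    show ‖v t‖ ≤ ‖(1 : ℝ)‖
    rw [Real.norm_eq_abs, norm_one]
    exact hv.2 t
  have hst0 := stay (K := K + K) (z := fun t => (r t).1 - ζ (t, (r t).2))
    (f := fun t => za F ζ (t, r t) + v t * zb G ζ (t, r t)) hs (by linarith)
    (hrc1.sub hζc) (by
      refine IntervalIntegrable.add ?_ ?_
      · apply ContinuousOn.intervalIntegrable
        rw [uIcc_of_le hs]
        exact hzac
      · refine hvi.mul_continuousOn ?_
        rw [uIcc_of_le hs]
        exact hzbc)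
    (fun t ht => by
      have h1 := hz t ht
      rw [hz0, sub_zero] at h1
      exact h1)
    (fun t ht => by
      have h1 := hza t ht
      have h2 := hzb t ht
      have h3 : |v t * zb G ζ (t, r t)| ≤ K * |(r t).1 - ζ (t, (r t).2)| := by
        rw [abs_mul]
        calc |v t| * |zb G ζ (t, r t)| ≤ 1 * |zb G ζ (t, r t)| :=
              mul_le_mul_of_nonneg_right (hv.2 t) (abs_nonneg _)
          _ ≤ K * |(r t).1 - ζ (t, (r t).2)| := by rw [one_mul]; exact h2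
      have h4 := abs_add_le (za F ζ (t, r t)) (v t * zb G ζ (t, r t))
      show |za F ζ (t, r t) + v t * zb G ζ (t, r t)| ≤ (K + K) * |(r t).1 - ζ (t, (r t).2)|
      linarith)
  intro t ht
  refine ⟨(hrect t ht).1, (hrect t ht).2, ?_⟩
  have h1 : (r t).1 - ζ (t, (r t).2) = 0 := hst0 t ht
  linarith

end Pool.Agent.Lib.MP_28b8de_an.PT
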