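import Pool.Agent.Lib.MP_28b8de_an.P.PFoe
import Pool.Agent.Lib.MP_28b8de_an.P.PPhi
import Pool.Agent.Lib.MP_28b8de_an.P.POde
import Pool.Agent.Lib.MP_28b8de_an.P.PGlue

/-!
MP_28b8de_an, module PLeaf (PTD-PLeaf): if all trajectories from q(s) have D = 0 and G ≠ 0 along them, a constant control reaches
q(s').

PROOF.  For lam ∈ [-1,1], θ ∈ [0,1]: v = v_{lam,θ} := (1-θ) u + θ lam (admissible), r = r_{lam,θ} the solution with r s = q s (sol_exists;
unique on Icc s s' by sol_dist).  Along r: G ≠ 0 and det(G,W) = 0, so W = μ G with μ(t,z) := (G·W)/(G·G) (p_decomp), continuous near;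
|μ| ≤ K₁ on the compact set of points reached (‖G‖ ≥ c0, ‖W‖ bounded on the compact set {|t| ≤ .., ‖z - q s‖ ≤ 2M(s'-s)}).
For an adjoint solution p along r with p s' = l: φ = p(G) satisfies φ' = μ φ (phi_eq), so φ(τ) = exp(-∫_τ^{s'} μ) l(G(s', r s')).
With foe (u := v_{lam,θ}, v := v_{lam,θ'}, w := v_{lam,θ}) for l = fst, snd:
|r_{lam,θ'}(s') - r_{lam,θ}(s') - (θ'-θ) k(lam,θ) G(s', r_{lam,θ}(s'))| ≤ C (θ'-θ)²,  k(lam,θ) := ∫_s^{s'} exp(-∫_τ^{s'} μ(t, r_{lam,θ} t) dt)(lam - u τ) dτ.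
So θ ↦ e(θ) := r_{lam,θ}(s') has the derivative k(lam,θ) G(s', e(θ)) on [0,1] (one-sided at the ends).  k is Lipschitz in (lam, θ)
(sol_dist, μ Lipschitz on the compact set; or just continuous).  ℓ(lam) := ∫_0^1 k(lam,θ) dθ is continuous on [-1,1], ℓ(1) ≥ 0, ℓ(-1) ≤ 0
(the integrand has a sign).  IVT: lam* with ℓ(lam*) = 0.  Let γ be the integral curve of x ↦ G(s', x) with γ 0 = q s', on [-K₂,K₂], K₂ ≥ |∫_0^θ k|
(forward and backward: `volterra` with Ψ _ x = ± G (s', x), glued at 0; or Mathlib's global/ local existence), and K(θ) = ∫_0^θ k(lam*,·).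
Both e(θ) and γ(K(θ)) solve x' = k(θ) G(s', x), x(0) = q s' (e(0) = r_{lam,0}(s') = q s'): equal (gron).  At θ = 1: e(1) = γ(0) = q s', and
r := r_{lam*,1} is the solution with the constant control lam*.
leaf_jn: ‖r t - q t‖ ≤ 4M(s'-s) ≤ 1 (sol_lip for both), r smooth on (s,s') (smAt_const).
-/

namespace Pool.Agent.Lib.MP_28b8de_an.PT

open Filter Topology Set MeasureTheory

variable {F G : ℝ × ℝ × ℝ → ℝ × ℝ} {R M : ℝ}

private noncomputable def PLeaf_mu (F G : ℝ × ℝ × ℝ → ℝ × ℝ) (c0 : ℝ) (z : ℝ × ℝ × ℝ) : ℝ :=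
  ((G z).1 * (W F G z).1 + (G z).2 * (W F G z).2) / max ((G z).1 ^ 2 + (G z).2 ^ 2) (c0 ^ 2)

private theorem PLeaf_mu_cont (E : Env F G R M) {c0 : ℝ} (hc0 : 0 < c0) :
    Continuous (PLeaf_mu F G c0) := by
  have hG : Continuous G := E.Gs.continuous
  have hW := W_cont E
  unfold PLeaf_mu
  refine Continuous.div ((hG.fst.mul hW.fst).add (hG.snd.mul hW.snd))
    (((hG.fst.pow 2).add (hG.snd.pow 2)).max continuous_const) fun z => ?_
  have : 0 < max ((G z).1 ^ 2 + (G z).2 ^ 2) (c0 ^ 2) := lt_max_of_lt_right (by positivity)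
  exact this.ne'

private theorem PLeaf_mu_eq {c0 : ℝ} (hc0 : 0 < c0) {z : ℝ × ℝ × ℝ} (h : Dt F G z = 0)
    (hz : c0 ≤ ‖G z‖) : W F G z = PLeaf_mu F G c0 z • G z := by
  unfold Dt at h
  have h1 : c0 ^ 2 ≤ (G z).1 ^ 2 + (G z).2 ^ 2 := by
    rw [Prod.norm_def, Real.norm_eq_abs, Real.norm_eq_abs] at hz
    rcases le_max_iff.1 hz with h2 | h2
    · have := pow_le_pow_left₀ hc0.le h2 2
      rw [sq_abs] at this
      nlinarith [sq_nonneg (G z).2]
    · have := pow_le_pow_left₀ hc0.le h2 2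
      rw [sq_abs] at this
      nlinarith [sq_nonneg (G z).1]
  have h2 : 0 < (G z).1 ^ 2 + (G z).2 ^ 2 := lt_of_lt_of_le (by positivity) h1
  unfold PLeaf_mu
  rw [max_eq_left h1]
  refine Prod.ext ?_ ?_
  · show (W F G z).1 = _ * (G z).1
    rw [div_mul_eq_mul_div, eq_div_iff h2.ne']
    linear_combination (-(G z).2) * h
  · show (W F G z).2 = _ * (G z).2
    rw [div_mul_eq_mul_div, eq_div_iff h2.ne']
    linear_combination ((G z).1) * h

private theorem PLeaf_mu_bdd (E : Env F G R M) {c0 : ℝ} (hc0 : 0 < c0) :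
    ∃ K : ℝ, 0 ≤ K ∧ ∀ z, |PLeaf_mu F G c0 z| ≤ K := by
  have hM := E.hM
  have hW : ∀ z, ‖W F G z‖ ≤ M + M * M + M * M := by
    intro z
    have h1 : ‖fderiv ℝ G z (1, 0)‖ ≤ M := by
      refine ((fderiv ℝ G z).le_opNorm _).trans ?_
      have h2 : ‖((1, 0) : ℝ × ℝ × ℝ)‖ = 1 := by
        rw [Prod.norm_def, norm_zero, norm_one]; exact max_eq_left zero_le_one
      rw [h2, mul_one]; exact E.Gd z
    have h2 : ‖dx G z (F z)‖ ≤ M * M := by
      show ‖fderiv ℝ G z (0, F z)‖ ≤ _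
      refine ((fderiv ℝ G z).le_opNorm _).trans ?_
      have h3 : ‖((0, F z) : ℝ × ℝ × ℝ)‖ ≤ M := by
        rw [Prod.norm_def, norm_zero]; exact max_le (by linarith) (E.Fb z)
      exact mul_le_mul (E.Gd z) h3 (norm_nonneg _) (by linarith)
    have h3 : ‖dx F z (G z)‖ ≤ M * M := by
      show ‖fderiv ℝ F z (0, G z)‖ ≤ _
      refine ((fderiv ℝ F z).le_opNorm _).trans ?_
      have h3 : ‖((0, G z) : ℝ × ℝ × ℝ)‖ ≤ M := by
        rw [Prod.norm_def, norm_zero]; exact max_le (by linarith) (E.Gb z)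
      exact mul_le_mul (E.Fd z) h3 (norm_nonneg _) (by linarith)
    unfold W
    exact (norm_sub_le _ _).trans (add_le_add ((norm_add_le _ _).trans (add_le_add h1 h2)) h3)
  set B := M + M * M + M * M with hB
  have hB0 : 0 ≤ B := by positivity
  refine ⟨(M * B + M * B) / c0 ^ 2, by positivity, fun z => ?_⟩
  have a1 : |(G z).1| ≤ M := (norm_fst_le (G z)).trans (E.Gb z)
  have a2 : |(G z).2| ≤ M := (norm_snd_le (G z)).trans (E.Gb z)
  have a3 : |(W F G z).1| ≤ B := (norm_fst_le (W F G z)).trans (hW z)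
  have a4 : |(W F G z).2| ≤ B := (norm_snd_le (W F G z)).trans (hW z)
  unfold PLeaf_mu
  have h1 : c0 ^ 2 ≤ max ((G z).1 ^ 2 + (G z).2 ^ 2) (c0 ^ 2) := le_max_right _ _
  have h0 : 0 < c0 ^ 2 := by positivity
  rw [abs_div, abs_of_pos (lt_of_lt_of_le h0 h1)]
  refine div_le_div₀ (by positivity) ?_ h0 h1
  refine (abs_add_le _ _).trans (add_le_add ?_ ?_)
  · rw [abs_mul]; exact mul_le_mul a1 a3 (abs_nonneg _) (by linarith)
  · rw [abs_mul]; exact mul_le_mul a2 a4 (abs_nonneg _) (by linarith)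

private theorem PLeaf_fac (E : Env F G R M) {v : ℝ → ℝ} (hv : Adm v) {r : ℝ → ℝ × ℝ} {a b : ℝ}
    (hab : a ≤ b) (hrc : Continuous r) (hr : Sol F G v r a b) {p : ℝ → (ℝ × ℝ) →L[ℝ] ℝ}
    (hp : Adj F G v r p a b) {μ : ℝ × ℝ × ℝ → ℝ} (hμ : Continuous μ)
    (hW : ∀ t ∈ Icc a b, W F G (t, r t) = μ (t, r t) • G (t, r t)) :
    ∀ τ ∈ Icc a b, p τ (G (τ, r τ)) =
      Real.exp (-∫ t in τ..b, μ (t, r t)) * p b (G (b, r b)) := by
  have hG : Continuous G := E.Gs.continuous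
  obtain ⟨P, hP⟩ : ∃ P : ℝ → ℝ, P = fun t : ℝ => p (projIcc a b hab t)
    (G ((projIcc a b hab t : ℝ), r (projIcc a b hab t))) := ⟨_, rfl⟩
  have hπ : Continuous fun t : ℝ => (projIcc a b hab t : ℝ) := continuous_subtype_val.comp continuous_projIcc
  have hPc : Continuous P := by
    rw [hP]
    have h1 : Continuous fun t : ℝ => p (projIcc a b hab t) := by
      have := (continuousOn_iff_continuous_domRestrict.1 hp.cont).comp (continuous_projIcc (h := hab))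
      exact this
    exact h1.clm_apply (hG.comp (hπ.prodMk (hrc.comp hπ)))
  have hPe : ∀ t ∈ Icc a b, P t = p t (G (t, r t)) := by
    intro t ht
    rw [hP]
    show p (projIcc a b hab t) (G ((projIcc a b hab t : ℝ), r (projIcc a b hab t))) = _
    rw [projIcc_of_mem hab ht]
  have hμc : Continuous fun t : ℝ => μ (t, r t) := hμ.comp (continuous_id.prodMk hrc)
  have hmc : Continuous fun t : ℝ => μ (t, r t) * P t := hμc.mul hPc
  obtain ⟨Z, hZ⟩ : ∃ Z : ℝ → ℝ, Z = fun t => P a + ∫ x in a..t, μ (x, r x) * P x := ⟨_, rfl⟩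
  have ha : a ∈ Icc a b := left_mem_Icc.2 hab
  have hb : b ∈ Icc a b := right_mem_Icc.2 hab
  have hZe : ∀ t ∈ Icc a b, Z t = P t := by
    intro t ht
    have h1 := phi_eq E hv hr hp ha ht
    have h2 : ∫ τ in a..t, p τ (W F G (τ, r τ)) = ∫ x in a..t, μ (x, r x) * P x := by
      refine intervalIntegral.integral_congr fun x hx => ?_
      rw [uIcc_of_le ht.1] at hx
      have hx' : x ∈ Icc a b := ⟨hx.1, hx.2.trans ht.2⟩
      show p x (W F G (x, r x)) = μ (x, r x) * P x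
      rw [hW x hx', map_smul, hPe x hx', smul_eq_mul]
    rw [hZ]
    show P a + _ = _
    rw [← h2, ← h1, hPe a ha, hPe t ht]
    ring
  have hZd : ∀ t, HasDerivAt Z (μ (t, r t) * P t) t := by
    intro t
    rw [hZ]
    exact ((hmc.integral_hasStrictDerivAt a t).hasDerivAt).const_add _
  obtain ⟨N, hN⟩ : ∃ N : ℝ → ℝ, N = fun t => ∫ x in t..b, μ (x, r x) := ⟨_, rfl⟩
  have hNd : ∀ t, HasDerivAt N (-μ (t, r t)) t := by
    intro t
    rw [hN]
    exact intervalIntegral.integral_hasDerivAt_left (hμc.intervalIntegrable _ _)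
      (hμc.stronglyMeasurableAtFilter _ _) hμc.continuousAt
  have hVd : ∀ t, HasDerivAt (fun t => Z t * Real.exp (N t))
      (μ (t, r t) * P t * Real.exp (N t) + Z t * (Real.exp (N t) * -μ (t, r t))) t := fun t =>
    (hZd t).mul (hNd t).exp
  have hconst := constant_of_has_deriv_right_zero (f := fun t => Z t * Real.exp (N t)) (a := a) (b := b)
    (fun t _ => (hVd t).continuousAt.continuousWithinAt) (fun t ht => by
      have h1 := (hVd t).hasDerivWithinAt (s := Ici t)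
      have h2 : μ (t, r t) * P t * Real.exp (N t) + Z t * (Real.exp (N t) * -μ (t, r t)) = 0 := by
        rw [hZe t ⟨ht.1, ht.2.le⟩]; ring
      rw [h2] at h1
      exact h1)
  intro τ hτ
  have h1 : Z τ * Real.exp (N τ) = Z b * Real.exp (N b) := (hconst τ hτ).trans (hconst b hb).symm
  have h2 : N b = 0 := by rw [hN]; simp
  rw [h2, Real.exp_zero, mul_one, hZe b hb, hPe b hb, hZe τ hτ, hPe τ hτ] at h1
  rw [← h1, hN, Real.exp_neg]
  field_simp

private theorem PLeaf_step (E : Env F G R M) {a b : ℝ} (hab : a ≤ b) :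
    ∃ C : ℝ, 0 ≤ C ∧ ∀ (v w : ℝ → ℝ) (r r' : ℝ → ℝ × ℝ) (μ : ℝ × ℝ × ℝ → ℝ), Adm v → Adm w →
      Continuous r → Sol F G v r a b → Sol F G w r' a b → r' a = r a → Continuous μ →
      (∀ t ∈ Icc a b, W F G (t, r t) = μ (t, r t) • G (t, r t)) →
      ‖r' b - r b - (∫ τ in a..b, (w τ - v τ) * Real.exp (-∫ t in τ..b, μ (t, r t))) • G (b, r b)‖
        ≤ C * (∫ s in a..b, |w s - v s|) ^ 2 := by
  obtain ⟨C, hC, hfoe⟩ := foe E hab
  refine ⟨C, hC, ?_⟩
  intro v w r r' μ hv hw hrc hr hr' hra hμ hW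
  have key : ∀ l : (ℝ × ℝ) →L[ℝ] ℝ, ‖l‖ ≤ 1 →
      |l (r' b - r b - (∫ τ in a..b, (w τ - v τ) * Real.exp (-∫ t in τ..b, μ (t, r t))) • G (b, r b))|
        ≤ C * (∫ s in a..b, |w s - v s|) ^ 2 := by
    intro l hl
    obtain ⟨p, hp, hpb⟩ := adj_exists E hv hab hr l
    have h1 := hfoe v w v r r' r p hv hw hv hr hr' hr hra rfl hp (by rw [hpb]; exact hl)
    have h2 : ∫ s in a..b, (w s - v s) * p s (G (s, r s)) =
        (∫ τ in a..b, (w τ - v τ) * Real.exp (-∫ t in τ..b, μ (t, r t))) * l (G (b, r b)) := by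
      rw [← intervalIntegral.integral_mul_const]
      refine intervalIntegral.integral_congr fun x hx => ?_
      rw [uIcc_of_le hab] at hx
      show (w x - v x) * p x (G (x, r x)) = (w x - v x) * Real.exp (-∫ t in x..b, μ (t, r t)) * l (G (b, r b))
      rw [PLeaf_fac E hv hab hrc hr hp hμ hW x hx, hpb]
      ring
    have h3 : ∫ s in a..b, |v s - v s| = 0 := by simp
    rw [h3, add_zero, h2, hpb] at h1
    rw [map_sub, map_smul, smul_eq_mul]
    refine h1.trans (le_of_eq ?_)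
    ring
  have k1 := key (ContinuousLinearMap.fst ℝ ℝ ℝ) (ContinuousLinearMap.norm_fst_le _ _ _)
  have k2 := key (ContinuousLinearMap.snd ℝ ℝ ℝ) (ContinuousLinearMap.norm_snd_le _ _ _)
  rw [Prod.norm_def]
  exact max_le k1 k2

/-- clamping -/
private def PLeaf_c (lo hi x : ℝ) : ℝ := max lo (min x hi)

private theorem PLeaf_c_cont (lo hi : ℝ) : Continuous (PLeaf_c lo hi) :=
  continuous_const.max (continuous_id.min continuous_const)

private theorem PLeaf_c_mem {lo hi : ℝ} (h : lo ≤ hi) (x : ℝ) : PLeaf_c lo hi x ∈ Icc lo hi :=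
  ⟨le_max_left _ _, max_le h (min_le_right _ _)⟩

private theorem PLeaf_c_of_mem {lo hi x : ℝ} (h : x ∈ Icc lo hi) : PLeaf_c lo hi x = x := by
  unfold PLeaf_c
  rw [min_eq_left h.2, max_eq_right h.1]

private theorem PLeaf_c_lip (lo hi x y : ℝ) : |PLeaf_c lo hi x - PLeaf_c lo hi y| ≤ |x - y| := by
  unfold PLeaf_c
  have h1 := abs_max_sub_max_le_abs (min x hi) (min y hi) lo
  have h2 := abs_min_sub_min_le_max x hi y hi
  rw [sub_self, abs_zero, max_eq_left (abs_nonneg _)] at h2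
  rw [max_comm lo, max_comm lo]
  exact h1.trans h2

/-- the control -/
private def PLeaf_v (u : ℝ → ℝ) (x : ℝ × ℝ) (t : ℝ) : ℝ :=
  (1 - PLeaf_c 0 1 x.2) * u t + PLeaf_c 0 1 x.2 * PLeaf_c (-1) 1 x.1

private theorem PLeaf_v_adm {u : ℝ → ℝ} (hu : Adm u) (x : ℝ × ℝ) : Adm (PLeaf_v u x) := by
  refine ⟨(hu.1.const_mul _).add_const _, fun t => ?_⟩
  have h1 := PLeaf_c_mem (zero_le_one' ℝ) x.2
  have h2 := PLeaf_c_mem (by norm_num : (-1 : ℝ) ≤ 1) x.1
  have h3 := abs_le.1 (hu.2 t)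
  unfold PLeaf_v
  rw [abs_le]
  constructor
  · nlinarith [h1.1, h1.2, h2.1, h2.2, h3.1, h3.2]
  · nlinarith [h1.1, h1.2, h2.1, h2.2, h3.1, h3.2]

private theorem PLeaf_v_sub {u : ℝ → ℝ} (hu : Adm u) (x y : ℝ × ℝ) (t : ℝ) :
    |PLeaf_v u x t - PLeaf_v u y t| ≤ 3 * ‖x - y‖ := by
  have e : PLeaf_v u x t - PLeaf_v u y t =
      (PLeaf_c 0 1 x.2 - PLeaf_c 0 1 y.2) * (PLeaf_c (-1) 1 x.1 - u t) +
        PLeaf_c 0 1 y.2 * (PLeaf_c (-1) 1 x.1 - PLeaf_c (-1) 1 y.1) := by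
    unfold PLeaf_v; ring
  have h1 := PLeaf_c_lip 0 1 x.2 y.2
  have h2 := PLeaf_c_lip (-1) 1 x.1 y.1
  have h3 := PLeaf_c_mem (zero_le_one' ℝ) y.2
  have h4 := PLeaf_c_mem (by norm_num : (-1 : ℝ) ≤ 1) x.1
  have h5 := abs_le.1 (hu.2 t)
  have h6 : |x.2 - y.2| ≤ ‖x - y‖ := norm_snd_le (x - y)
  have h7 : |x.1 - y.1| ≤ ‖x - y‖ := norm_fst_le (x - y)
  have h8 : |PLeaf_c (-1) 1 x.1 - u t| ≤ 2 := by
    rw [abs_le]; constructor <;> linarith [h4.1, h4.2, h5.1, h5.2]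
  have h9 : |PLeaf_c 0 1 y.2| ≤ 1 := by
    rw [abs_le]; constructor <;> linarith [h3.1, h3.2]
  rw [e]
  refine (abs_add_le _ _).trans ?_
  rw [abs_mul, abs_mul]
  have k1 := mul_le_mul (h1.trans h6) h8 (abs_nonneg _) (norm_nonneg _)
  have k2 := mul_le_mul h9 (h2.trans h7) (abs_nonneg _) (by norm_num)
  linarith

private theorem PLeaf_int_le {f : ℝ → ℝ} {a b K : ℝ} (hab : a ≤ b) (_ : 0 ≤ K)
    (hf : ∀ t, |f t| ≤ K) : ∫ s in a..b, |f s| ≤ K * (b - a) := by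
  have h := intervalIntegral.norm_integral_le_of_norm_le_const (a := a) (b := b) (f := fun s => |f s|)
    (C := K) (fun x _ => by rw [Real.norm_eq_abs, abs_abs]; exact hf x)
  rw [abs_of_nonneg (sub_nonneg.2 hab)] at h
  exact (le_abs_self _).trans h

/-- the family of solutions -/
private theorem PLeaf_fam (E : Env F G R M) {u : ℝ → ℝ} (hu : Adm u) (x₀ : ℝ × ℝ) {s s' : ℝ}
    (hs : s < s') : ∃ S : ℝ × ℝ → ℝ → ℝ × ℝ, (∀ x, Continuous (S x)) ∧ (∀ x, S x s = x₀) ∧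
      (∀ x, Sol F G (PLeaf_v u x) (S x) s s') ∧
      Continuous fun z : (ℝ × ℝ) × ℝ => S z.1 (PLeaf_c s s' z.2) := by
  have hM := E.hM
  choose S hSc hSa hSs using fun x : ℝ × ℝ => sol_exists E (PLeaf_v_adm hu x) hs.le x₀
  refine ⟨S, hSc, hSa, hSs, ?_⟩
  obtain ⟨K, hK⟩ : ∃ K : ℝ, K = M * (3 * (s' - s)) * Real.exp (2 * M * (s' - s)) + 2 * M := ⟨_, rfl⟩
  have hss : 0 < s' - s := sub_pos.2 hs
  have hK0 : 0 ≤ K := by rw [hK]; positivity
  refine (LipschitzWith.of_dist_le_mul (K := K.toNNReal) fun z w => ?_).continuous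
  rw [dist_eq_norm, dist_eq_norm, Real.coe_toNNReal _ hK0]
  have h1 : ‖S z.1 (PLeaf_c s s' z.2) - S w.1 (PLeaf_c s s' z.2)‖ ≤
      M * (3 * (s' - s)) * Real.exp (2 * M * (s' - s)) * ‖z - w‖ := by
    have h2 := sol_dist E (PLeaf_v_adm hu z.1) (PLeaf_v_adm hu w.1) (hSs z.1) (hSs w.1)
      _ (PLeaf_c_mem hs.le z.2)
    rw [hSa, hSa, sub_self, norm_zero, zero_add] at h2
    have h3 := PLeaf_int_le (f := fun t => PLeaf_v u z.1 t - PLeaf_v u w.1 t) hs.le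
      (by positivity : (0:ℝ) ≤ 3 * ‖z.1 - w.1‖) (fun t => PLeaf_v_sub hu z.1 w.1 t)
    have h4 : ‖z.1 - w.1‖ ≤ ‖z - w‖ := norm_fst_le (z - w)
    refine h2.trans ?_
    have h5 : ∫ t in s..s', |PLeaf_v u z.1 t - PLeaf_v u w.1 t| ≤ 3 * ‖z - w‖ * (s' - s) :=
      h3.trans (by gcongr)
    calc M * (∫ t in s..s', |PLeaf_v u z.1 t - PLeaf_v u w.1 t|) * Real.exp (2 * M * (s' - s))
        ≤ M * (3 * ‖z - w‖ * (s' - s)) * Real.exp (2 * M * (s' - s)) := by gcongr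
      _ = _ := by ring
  have h2 : ‖S w.1 (PLeaf_c s s' z.2) - S w.1 (PLeaf_c s s' w.2)‖ ≤ 2 * M * ‖z - w‖ := by
    have h3 := sol_lip E (PLeaf_v_adm hu w.1) (hSs w.1) (PLeaf_c_mem hs.le w.2) (PLeaf_c_mem hs.le z.2)
    have h4 : |z.2 - w.2| ≤ ‖z - w‖ := norm_snd_le (z - w)
    have h5 := PLeaf_c_lip s s' z.2 w.2
    exact h3.trans (by gcongr; exact h5.trans h4)
  calc ‖S z.1 (PLeaf_c s s' z.2) - S w.1 (PLeaf_c s s' w.2)‖
      ≤ ‖S z.1 (PLeaf_c s s' z.2) - S w.1 (PLeaf_c s s' z.2)‖ +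
        ‖S w.1 (PLeaf_c s s' z.2) - S w.1 (PLeaf_c s s' w.2)‖ := norm_sub_le_norm_sub_add_norm_sub _ _ _
    _ ≤ _ := by rw [hK, add_mul]; exact add_le_add h1 h2

/-- the speed along the leaf -/
private noncomputable def PLeaf_k (u : ℝ → ℝ) (S : ℝ × ℝ → ℝ → ℝ × ℝ) (μ : ℝ × ℝ × ℝ → ℝ) (s s' : ℝ)
    (x : ℝ × ℝ) : ℝ :=
  ∫ τ in s..s', (PLeaf_c (-1) 1 x.1 - u τ) *
    Real.exp (-∫ t in τ..s', μ (PLeaf_c s s' t, S x (PLeaf_c s s' t)))

private theorem PLeaf_k_cont {u : ℝ → ℝ} (hu : Adm u) {S : ℝ × ℝ → ℝ → ℝ × ℝ}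
    {μ : ℝ × ℝ × ℝ → ℝ} {s s' K : ℝ} (hs : s < s') (hμ : Continuous μ) (hK0 : 0 ≤ K)
    (hK : ∀ z, |μ z| ≤ K) (hS : Continuous fun z : (ℝ × ℝ) × ℝ => S z.1 (PLeaf_c s s' z.2)) :
    Continuous (PLeaf_k u S μ s s') := by
  have hf : Continuous fun z : (ℝ × ℝ) × ℝ => μ (PLeaf_c s s' z.2, S z.1 (PLeaf_c s s' z.2)) :=
    hμ.comp (((PLeaf_c_cont s s').comp continuous_snd).prodMk hS)
  unfold PLeaf_k
  refine intervalIntegral.continuous_of_dominated_interval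
    (bound := fun _ => 2 * Real.exp (K * (s' - s))) ?_ ?_ intervalIntegrable_const ?_
  · intro x
    have h1 : Continuous fun t : ℝ => μ (PLeaf_c s s' t, S x (PLeaf_c s s' t)) :=
      hf.comp (continuous_const.prodMk continuous_id)
    have h2 : Continuous fun τ : ℝ => ∫ t in τ..s', μ (PLeaf_c s s' t, S x (PLeaf_c s s' t)) := by
      have h3 : (fun τ : ℝ => ∫ t in τ..s', μ (PLeaf_c s s' t, S x (PLeaf_c s s' t))) =
          fun τ : ℝ => -∫ t in s'..τ, μ (PLeaf_c s s' t, S x (PLeaf_c s s' t)) := by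
        funext τ; rw [intervalIntegral.integral_symm]
      rw [h3]
      exact (intervalIntegral.continuous_primitive (fun a b => h1.intervalIntegrable a b) s').neg
    exact ((measurable_const.sub hu.1).mul (Real.continuous_exp.comp h2.neg).measurable).aestronglyMeasurable
  · intro x
    refine Eventually.of_forall fun τ hτ => ?_
    rw [uIoc_of_le hs.le] at hτ
    have h1 := PLeaf_c_mem (by norm_num : (-1 : ℝ) ≤ 1) x.1
    have h2 := abs_le.1 (hu.2 τ)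
    have h3 : |PLeaf_c (-1) 1 x.1 - u τ| ≤ 2 := by
      rw [abs_le]; constructor <;> linarith [h1.1, h1.2, h2.1, h2.2]
    rw [Real.norm_eq_abs, abs_mul, abs_of_pos (Real.exp_pos _)]
    refine mul_le_mul h3 (Real.exp_le_exp.2 ?_) (Real.exp_pos _).le (by norm_num)
    have h4 := intervalIntegral.norm_integral_le_of_norm_le_const (a := τ) (b := s')
      (f := fun t => μ (PLeaf_c s s' t, S x (PLeaf_c s s' t))) (C := K) (fun t _ => hK _)
    rw [Real.norm_eq_abs, abs_of_nonneg (sub_nonneg.2 hτ.2)] at h4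
    have h5 : K * (s' - τ) ≤ K * (s' - s) := by
      refine mul_le_mul_of_nonneg_left ?_ hK0
      linarith [hτ.1]
    exact (neg_le_abs _).trans (h4.trans h5)
  · refine Eventually.of_forall fun τ _ => ?_
    have h1 : Continuous fun x : ℝ × ℝ => ∫ t in τ..s', μ (PLeaf_c s s' t, S x (PLeaf_c s s' t)) :=
      intervalIntegral.continuous_parametric_intervalIntegral_of_continuous'
        (f := fun (x : ℝ × ℝ) (t : ℝ) => μ (PLeaf_c s s' t, S x (PLeaf_c s s' t))) hf τ s'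
    exact (((PLeaf_c_cont (-1) 1).comp continuous_fst).sub continuous_const).mul
      (Real.continuous_exp.comp h1.neg)

/-- the integral curve of `G (s', ·)` -/
private theorem PLeaf_curve (E : Env F G R M) (s' : ℝ) (x₀ : ℝ × ℝ) {K : ℝ} (_ : 0 < K) :
    ∃ γ : ℝ → ℝ × ℝ, γ 0 = x₀ ∧ ∀ t ∈ Ioo (-K) K, HasDerivAt γ (G (s', γ t)) t := by
  have hM := E.hM
  have hl : ∀ x y : ℝ × ℝ, ‖G (s', x) - G (s', y)‖ ≤ M * ‖x - y‖ := by
    intro x y
    refine (env_lipG E _ _).trans (le_of_eq ?_)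
    rw [Prod.mk_sub_mk, sub_self, Prod.norm_mk, norm_zero, max_eq_right (norm_nonneg _)]
  have h : IsPicardLindelof (fun _ x => G (s', x)) (tmin := -K) (tmax := K)
      ⟨0, by constructor <;> linarith⟩ x₀ (M * K).toNNReal 0 M.toNNReal M.toNNReal := by
    refine IsPicardLindelof.of_time_independent ?_ ?_ ?_
    · intro x _
      rw [Real.coe_toNNReal _ (by linarith)]
      exact E.Gb _
    · refine LipschitzOnWith.of_dist_le_mul fun x _ y _ => ?_
      rw [dist_eq_norm, dist_eq_norm, Real.coe_toNNReal _ (by linarith)]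
      exact hl x y
    · rw [Real.coe_toNNReal _ (by linarith), Real.coe_toNNReal _ (by positivity)]
      simp
  obtain ⟨γ, h0, hγ⟩ := h.exists_eq_forall_mem_Icc_hasDerivWithinAt₀
  refine ⟨γ, h0, fun t ht => ?_⟩
  exact (hγ t (Ioo_subset_Icc_self ht)).hasDerivAt (Icc_mem_nhds ht.1 ht.2)

private theorem PLeaf_deriv {x : ℝ → ℝ × ℝ} {θ C : ℝ} {f' : ℝ × ℝ} (hC : 0 ≤ C) (hθ : θ ∈ Ico (0 : ℝ) 1)
    (h : ∀ θ' ∈ Icc (0 : ℝ) 1, ‖x θ' - x θ - (θ' - θ) • f'‖ ≤ C * (θ' - θ) ^ 2) :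
    HasDerivWithinAt x f' (Ici θ) θ := by
  rw [hasDerivWithinAt_iff_isLittleO, Asymptotics.isLittleO_iff]
  intro c hc
  have h1 : ∀ᶠ y in 𝓝 θ, y < 1 := Iio_mem_nhds hθ.2
  have h2 : ∀ᶠ y in 𝓝 θ, |y - θ| < c / (C + 1) := by
    have : Metric.ball θ (c / (C + 1)) ∈ 𝓝 θ := Metric.ball_mem_nhds _ (by positivity)
    filter_upwards [this] with y hy
    rwa [Metric.mem_ball, Real.dist_eq] at hy
  filter_upwards [self_mem_nhdsWithin, mem_nhdsWithin_of_mem_nhds h1, mem_nhdsWithin_of_mem_nhds h2]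
    with y hy0 hy1 hy2
  have hy0' : θ ≤ y := hy0
  refine (h y ⟨hθ.1.trans hy0', (le_of_lt hy1)⟩).trans ?_
  rw [Real.norm_eq_abs, ← sq_abs, pow_two, ← mul_assoc]
  refine mul_le_mul_of_nonneg_right ?_ (abs_nonneg _)
  have h3 : C * |y - θ| ≤ C * (c / (C + 1)) := mul_le_mul_of_nonneg_left (le_of_lt hy2) hC
  refine h3.trans ?_
  rw [mul_div_assoc', div_le_iff₀ (by positivity)]
  nlinarith

theorem leaf (E : Env F G R M) {u : ℝ → ℝ} (hu : Adm u) {q : ℝ → ℝ × ℝ} {s s' c0 : ℝ}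
    (hs : s < s') (hq : Sol F G u q s s') (hc0 : 0 < c0)
    (H : ∀ (v : ℝ → ℝ) (r : ℝ → ℝ × ℝ), Adm v → Sol F G v r s s' → r s = q s →
      ∀ t ∈ Icc s s', Dt F G (t, r t) = 0 ∧ c0 ≤ ‖G (t, r t)‖) :
    ∃ lam ∈ Icc (-1 : ℝ) 1, ∃ r : ℝ → ℝ × ℝ,
      Sol F G (fun _ => lam) r s s' ∧ r s = q s ∧ r s' = q s' := by
  have hM := E.hM
  have hss : 0 < s' - s := sub_pos.2 hs
  have hG : Continuous G := E.Gs.continuous
  obtain ⟨S, hSc, hSa, hSs, hSS⟩ := PLeaf_fam E hu (q s) hs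
  obtain ⟨μ, hμe⟩ : ∃ μ, μ = PLeaf_mu F G c0 := ⟨_, rfl⟩
  have hμ : Continuous μ := by rw [hμe]; exact PLeaf_mu_cont E hc0
  obtain ⟨K, hK0, hK⟩ := PLeaf_mu_bdd E hc0
  rw [← hμe] at hK
  have hW : ∀ x, ∀ t ∈ Icc s s', W F G (t, S x t) = μ (t, S x t) • G (t, S x t) := by
    intro x t ht
    obtain ⟨h1, h2⟩ := H (PLeaf_v u x) (S x) (PLeaf_v_adm hu x) (hSs x) (hSa x) t ht
    rw [hμe]
    exact PLeaf_mu_eq hc0 h1 h2
  obtain ⟨k, hk⟩ : ∃ k, k = PLeaf_k u S μ s s' := ⟨_, rfl⟩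
  have hkc : Continuous k := by rw [hk]; exact PLeaf_k_cont hu hs hμ hK0 hK hSS
  obtain ⟨C, hC, hstep⟩ := PLeaf_step E hs.le
  -- the derivative in `θ`
  have hder : ∀ lam, ∀ θ ∈ Ico (0 : ℝ) 1, HasDerivWithinAt (fun θ => S (lam, θ) s')
      (k (lam, θ) • G (s', S (lam, θ) s')) (Ici θ) θ := by
    intro lam θ hθ
    refine PLeaf_deriv (C := C * (2 * (s' - s)) ^ 2) (by positivity) hθ fun θ' hθ' => ?_
    have h1 := hstep (PLeaf_v u (lam, θ)) (PLeaf_v u (lam, θ')) (S (lam, θ)) (S (lam, θ')) μ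
      (PLeaf_v_adm hu _) (PLeaf_v_adm hu _) (hSc _) (hSs _) (hSs _) (by rw [hSa, hSa]) hμ (hW _)
    have hv : ∀ τ, PLeaf_v u (lam, θ') τ - PLeaf_v u (lam, θ) τ =
        (θ' - θ) * (PLeaf_c (-1) 1 lam - u τ) := by
      intro τ
      unfold PLeaf_v
      show (1 - PLeaf_c 0 1 θ') * u τ + PLeaf_c 0 1 θ' * PLeaf_c (-1) 1 lam -
        ((1 - PLeaf_c 0 1 θ) * u τ + PLeaf_c 0 1 θ * PLeaf_c (-1) 1 lam) = _
      rw [PLeaf_c_of_mem hθ', PLeaf_c_of_mem ⟨hθ.1, hθ.2.le⟩]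
      ring
    have h2 : ∫ τ in s..s', (PLeaf_v u (lam, θ') τ - PLeaf_v u (lam, θ) τ) *
        Real.exp (-∫ t in τ..s', μ (t, S (lam, θ) t)) = (θ' - θ) * k (lam, θ) := by
      rw [hk]
      unfold PLeaf_k
      rw [← intervalIntegral.integral_const_mul]
      refine intervalIntegral.integral_congr fun τ hτ => ?_
      rw [uIcc_of_le hs.le] at hτ
      have h3 : ∫ t in τ..s', μ (t, S (lam, θ) t) =
          ∫ t in τ..s', μ (PLeaf_c s s' t, S (lam, θ) (PLeaf_c s s' t)) := by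
        refine intervalIntegral.integral_congr fun t ht => ?_
        rw [uIcc_of_le hτ.2] at ht
        show μ (t, S (lam, θ) t) = μ (PLeaf_c s s' t, S (lam, θ) (PLeaf_c s s' t))
        rw [PLeaf_c_of_mem ⟨hτ.1.trans ht.1, ht.2⟩]
      show (PLeaf_v u (lam, θ') τ - PLeaf_v u (lam, θ) τ) *
        Real.exp (-∫ t in τ..s', μ (t, S (lam, θ) t)) = (θ' - θ) * ((PLeaf_c (-1) 1 lam - u τ) *
        Real.exp (-∫ t in τ..s', μ (PLeaf_c s s' t, S (lam, θ) (PLeaf_c s s' t))))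
      rw [h3, hv]
      ring
    rw [h2, mul_smul] at h1
    refine h1.trans ?_
    have h4 : ∫ t in s..s', |PLeaf_v u (lam, θ') t - PLeaf_v u (lam, θ) t| ≤
        2 * |θ' - θ| * (s' - s) := by
      refine PLeaf_int_le hs.le (by positivity) fun t => ?_
      rw [hv, abs_mul]
      have h5 := PLeaf_c_mem (by norm_num : (-1 : ℝ) ≤ 1) lam
      have h6 := abs_le.1 (hu.2 t)
      have h7 : |PLeaf_c (-1) 1 lam - u t| ≤ 2 := by
        rw [abs_le]; constructor <;> linarith [h5.1, h5.2, h6.1, h6.2]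
      have h8 := mul_le_mul_of_nonneg_left h7 (abs_nonneg (θ' - θ))
      linarith
    have h9 : 0 ≤ ∫ t in s..s', |PLeaf_v u (lam, θ') t - PLeaf_v u (lam, θ) t| :=
      intervalIntegral.integral_nonneg hs.le fun _ _ => abs_nonneg _
    calc C * (∫ t in s..s', |PLeaf_v u (lam, θ') t - PLeaf_v u (lam, θ) t|) ^ 2
        ≤ C * (2 * |θ' - θ| * (s' - s)) ^ 2 := by gcongr
      _ = C * (2 * (s' - s)) ^ 2 * |θ' - θ| ^ 2 := by ring
      _ = C * (2 * (s' - s)) ^ 2 * (θ' - θ) ^ 2 := by rw [sq_abs]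
  have hcont : ∀ lam, Continuous fun θ => S (lam, θ) s' := by
    intro lam
    have h1 : Continuous fun θ : ℝ => S (lam, θ) (PLeaf_c s s' s') :=
      hSS.comp (((continuous_const (y := lam)).prodMk continuous_id).prodMk (continuous_const (y := s')))
    rwa [PLeaf_c_of_mem (right_mem_Icc.2 hs.le)] at h1
  -- the intermediate value
  obtain ⟨ell, hell⟩ : ∃ ell : ℝ → ℝ, ell = fun lam => ∫ θ in (0 : ℝ)..1, k (lam, θ) := ⟨_, rfl⟩
  have hellc : Continuous ell := by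
    rw [hell]
    exact intervalIntegral.continuous_parametric_intervalIntegral_of_continuous'
      (f := fun lam θ => k (lam, θ)) hkc 0 1
  have hell1 : 0 ≤ ell 1 := by
    rw [hell]
    refine intervalIntegral.integral_nonneg zero_le_one fun θ _ => ?_
    rw [hk]
    refine intervalIntegral.integral_nonneg hs.le fun τ _ => ?_
    refine mul_nonneg ?_ (Real.exp_pos _).le
    show 0 ≤ PLeaf_c (-1) 1 1 - u τ
    rw [PLeaf_c_of_mem (right_mem_Icc.2 (by norm_num))]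
    have := abs_le.1 (hu.2 τ)
    linarith [this.2]
  have hell2 : ell (-1) ≤ 0 := by
    rw [hell]
    have h1 : 0 ≤ ∫ θ in (0 : ℝ)..1, -k (-1, θ) := by
      refine intervalIntegral.integral_nonneg zero_le_one fun θ _ => ?_
      rw [hk]
      unfold PLeaf_k
      rw [← intervalIntegral.integral_neg]
      refine intervalIntegral.integral_nonneg hs.le fun τ _ => ?_
      rw [← neg_mul]
      refine mul_nonneg ?_ (Real.exp_pos _).le
      show 0 ≤ -(PLeaf_c (-1) 1 (-1) - u τ)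
      rw [PLeaf_c_of_mem (left_mem_Icc.2 (by norm_num))]
      have := abs_le.1 (hu.2 τ)
      linarith [this.1]
    rw [intervalIntegral.integral_neg] at h1
    show ∫ θ in (0 : ℝ)..1, k (-1, θ) ≤ 0
    linarith
  obtain ⟨lam, hlam, hlam0⟩ : ∃ lam ∈ Icc (-1 : ℝ) 1, ell lam = 0 := by
    have h1 := intermediate_value_Icc (by norm_num : (-1 : ℝ) ≤ 1) hellc.continuousOn
    exact h1 ⟨hell2, hell1⟩
  -- the bound for `k (lam, ·)`
  have hkl : Continuous fun θ : ℝ => k (lam, θ) := hkc.comp (continuous_const.prodMk continuous_id)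
  obtain ⟨B, hB⟩ := isCompact_Icc.exists_bound_of_continuousOn (s := Icc (0 : ℝ) 1) hkl.continuousOn
  have hB0 : 0 ≤ B := (norm_nonneg _).trans (hB 0 ⟨le_rfl, zero_le_one⟩)
  obtain ⟨γ, hγ0, hγ⟩ := PLeaf_curve E s' (q s') (K := B + 1) (by linarith)
  obtain ⟨I, hI⟩ : ∃ I : ℝ → ℝ, I = fun θ => ∫ x in (0 : ℝ)..θ, k (lam, x) := ⟨_, rfl⟩
  have hId : ∀ θ, HasDerivAt I (k (lam, θ)) θ := by
    intro θ
    rw [hI]
    exact (hkl.integral_hasStrictDerivAt 0 θ).hasDerivAt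
  have hIb : ∀ θ ∈ Icc (0 : ℝ) 1, I θ ∈ Ioo (-(B + 1)) (B + 1) := by
    intro θ hθ
    have h1 := intervalIntegral.norm_integral_le_of_norm_le_const (a := (0 : ℝ)) (b := θ)
      (f := fun x => k (lam, x)) (C := B) (fun x hx => by
        rw [uIoc_of_le hθ.1] at hx
        exact hB x ⟨hx.1.le, hx.2.trans hθ.2⟩)
    rw [sub_zero, abs_of_nonneg hθ.1, Real.norm_eq_abs] at h1
    have h2 : |I θ| ≤ B := by
      rw [hI]
      refine h1.trans ?_
      nlinarith [hθ.2]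
    have h3 := abs_le.1 h2
    exact ⟨by linarith [h3.1], by linarith [h3.2]⟩
  have hyd : ∀ θ ∈ Icc (0 : ℝ) 1, HasDerivAt (fun θ => γ (I θ)) (k (lam, θ) • G (s', γ (I θ))) θ := by
    intro θ hθ
    exact (hγ (I θ) (hIb θ hθ)).scomp θ (hId θ)
  have hlip : ∀ θ ∈ Ico (0 : ℝ) 1, LipschitzOnWith (B * M).toNNReal
      ((fun θ x => k (lam, θ) • G (s', x)) θ) (univ : Set (ℝ × ℝ)) := by
    intro θ hθ
    refine LipschitzOnWith.of_dist_le_mul fun x _ y _ => ?_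
    rw [dist_eq_norm, dist_eq_norm, Real.coe_toNNReal _ (by positivity)]
    show ‖k (lam, θ) • G (s', x) - k (lam, θ) • G (s', y)‖ ≤ _
    rw [← smul_sub, norm_smul, mul_assoc]
    have h1 : ‖G (s', x) - G (s', y)‖ ≤ M * ‖x - y‖ := by
      refine (env_lipG E _ _).trans (le_of_eq ?_)
      rw [Prod.mk_sub_mk, sub_self, Prod.norm_mk, norm_zero, max_eq_right (norm_nonneg _)]
    exact mul_le_mul (hB θ ⟨hθ.1, hθ.2.le⟩) h1 (norm_nonneg _) hB0
  have hx0 : S (lam, 0) s' = q s' := by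
    have h1 : PLeaf_v u (lam, 0) = u := by
      funext t
      unfold PLeaf_v
      show (1 - PLeaf_c 0 1 0) * u t + PLeaf_c 0 1 0 * PLeaf_c (-1) 1 lam = u t
      rw [PLeaf_c_of_mem ⟨le_rfl, zero_le_one⟩]
      ring
    have h2 := hSs (lam, 0)
    rw [h1] at h2
    have h3 := sol_dist E hu hu h2 hq s' (right_mem_Icc.2 hs.le)
    rw [hSa, sub_self, norm_zero] at h3
    have h4 : ∫ t in s..s', |u t - u t| = 0 := by simp
    rw [h4, mul_zero, add_zero, zero_mul] at h3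
    exact sub_eq_zero.1 (norm_le_zero_iff.1 h3)
  have huniq := ODE_solution_unique_of_mem_Icc_right (v := fun θ x => k (lam, θ) • G (s', x))
    (s := fun _ => univ) (a := 0) (b := 1) (f := fun θ => S (lam, θ) s') (g := fun θ => γ (I θ))
    hlip (hcont lam).continuousOn (hder lam) (fun _ _ => mem_univ _)
    (fun θ hθ => (hyd θ hθ).continuousAt.continuousWithinAt)
    (fun θ hθ => (hyd θ ⟨hθ.1, hθ.2.le⟩).hasDerivWithinAt) (fun _ _ => mem_univ _) (by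
      show S (lam, 0) s' = γ (I 0)
      have h1 : I 0 = 0 := by rw [hI]; simp
      rw [h1, hγ0, hx0])
  have h1 : S (lam, 1) s' = γ (I 1) := huniq (right_mem_Icc.2 zero_le_one)
  have h2 : I 1 = 0 := by
    rw [hell] at hlam0
    rw [hI]
    exact hlam0
  rw [h2, hγ0] at h1
  refine ⟨lam, hlam, S (lam, 1), ?_, hSa _, h1⟩
  have h3 : PLeaf_v u (lam, 1) = fun _ => lam := by
    funext t
    unfold PLeaf_v
    show (1 - PLeaf_c 0 1 1) * u t + PLeaf_c 0 1 1 * PLeaf_c (-1) 1 lam = lam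
    rw [PLeaf_c_of_mem ⟨zero_le_one, le_rfl⟩, PLeaf_c_of_mem hlam]
    ring
  rw [← h3]
  exact hSs _

theorem leaf_jn (E : Env F G R M) {u : ℝ → ℝ} (hu : Adm u) {q : ℝ → ℝ × ℝ} {s s' c0 : ℝ}
    (hs : s < s') (hq : Sol F G u q s s') (hc0 : 0 < c0) (hsm : 4 * M * (s' - s) ≤ 1)
    (H : ∀ (v : ℝ → ℝ) (r : ℝ → ℝ × ℝ), Adm v → Sol F G v r s s' → r s = q s →
      ∀ t ∈ Icc s s', Dt F G (t, r t) = 0 ∧ c0 ≤ ‖G (t, r t)‖) : Jn F G q s s' := by
  have hM := E.hM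
  obtain ⟨lam, hlam, r, hr, hrs, hrs'⟩ := leaf E hu hs hq hc0 H
  have hadm : Adm fun _ : ℝ => lam := ⟨measurable_const, fun _ => abs_le.2 ⟨hlam.1, hlam.2⟩⟩
  refine ⟨fun _ => lam, r, hadm, hr, hrs, hrs', ?_, ?_⟩
  · intro t ht
    have hsI : s ∈ Icc s s' := left_mem_Icc.2 hs.le
    have h1 := sol_lip E hadm hr hsI ht
    have h2 := sol_lip E hu hq hsI ht
    rw [abs_of_nonneg (sub_nonneg.2 ht.1)] at h1 h2
    have h3 : r t - q t = (r t - r s) - (q t - q s) := by rw [hrs]; abel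
    rw [h3]
    refine (norm_sub_le _ _).trans ((add_le_add h1 h2).trans ?_)
    nlinarith [ht.2]
  · have h1 : {t ∈ Ioo s s' | ¬ SmAt r t} = ∅ := by
      rw [eq_empty_iff_forall_notMem]
      rintro t ⟨ht, h⟩
      exact h (smAt_const E hadm hr (lam := lam) (Eventually.of_forall fun _ _ => rfl) ht)
    rw [h1]
    exact countable_empty

end Pool.Agent.Lib.MP_28b8de_an.PT
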