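import Pool.Agent.Lib.MP_28b8de_an.P.PSol

/-!
MP_28b8de_an, module PZeq (PTD-PZeq): the equation of `z = x - ζ(t,y)` along a trajectory.

PROOFS.  zeq: z(t) = (r t).1 - ζ (t, (r t).2) is Lipschitz on Icc s s' (r Lipschitz, ζ C^1 on the open rectangle, the graph over the compact interval
is compact: ζ∘(t, (r t).2) is locally Lipschitz on the compact interval, hence absolutely continuous) and a.e.
z' = F1 + v G1 - D1 ζ - D2 ζ (F2 + v G2) = za + v zb.  FTC.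
up_an: a ∘ up ζ is analytic on the rectangle if a is analytic on Box R.  za_an, zb_an: z ↦ za F ζ z, zb G ζ z are analytic at the points z of
the box with (z.1, z.2.2) in the rectangle.
chart_shrink: continuity of q at t₀ ∈ (0,T) and of ζ.
-/

namespace Pool.Agent.Lib.MP_28b8de_an.PT

open Filter Topology Set MeasureTheory

variable {F G : ℝ × ℝ × ℝ → ℝ × ℝ} {R M : ℝ}

private theorem PZeq_fst {r : ℝ → ℝ × ℝ} {d : ℝ × ℝ} {t : ℝ} (h : HasDerivAt r d t) :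
    HasDerivAt (fun x => (r x).1) d.1 t := by
  have := h.hasFDerivAt.fst.hasDerivAt
  simpa using this

private theorem PZeq_snd {r : ℝ → ℝ × ℝ} {d : ℝ × ℝ} {t : ℝ} (h : HasDerivAt r d t) :
    HasDerivAt (fun x => (r x).2) d.2 t := by
  have := h.hasFDerivAt.snd.hasDerivAt
  simpa using this

/-- `ζ(t, (r t).2)` is Lipschitz along a Lipschitz curve in an open set where `ζ` is analytic -/
private theorem PZeq_lip {ζ : ℝ × ℝ → ℝ} {U : Set (ℝ × ℝ)} (hζ : AnalyticOnNhd ℝ ζ U)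
    {r : ℝ → ℝ × ℝ} {a b : ℝ} {K : NNReal} (hr : LipschitzOnWith K r (Icc a b))
    (hU : ∀ t ∈ Icc a b, (t, (r t).2) ∈ U) :
    ∃ L : NNReal, LipschitzOnWith L (fun t => (r t).1 - ζ (t, (r t).2)) (Icc a b) := by
  set g : ℝ → ℝ × ℝ := fun t => (t, (r t).2) with hg
  have hr1 : LipschitzOnWith K (fun x => (r x).1) (Icc a b) := by
    refine LipschitzOnWith.of_dist_le_mul fun x hx y hy => ?_
    refine le_trans ?_ (hr.dist_le_mul x hx y hy)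
    rw [Prod.dist_eq]; exact le_max_left _ _
  have hr2 : LipschitzOnWith K (fun x => (r x).2) (Icc a b) := by
    refine LipschitzOnWith.of_dist_le_mul fun x hx y hy => ?_
    refine le_trans ?_ (hr.dist_le_mul x hx y hy)
    rw [Prod.dist_eq]; exact le_max_right _ _
  have hg1 : LipschitzOnWith (max 1 K) g (Icc a b) :=
    (LipschitzWith.id.lipschitzOnWith (s := Icc a b)).prodMk hr2
  have hK : IsCompact (g '' Icc a b) := isCompact_Icc.image_of_continuousOn hg1.continuousOn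
  have hloc : LocallyLipschitzOn (g '' Icc a b) ζ := by
    rintro x ⟨t, ht, rfl⟩
    obtain ⟨L, V, hV, hL⟩ := (hζ (g t) (hU t ht)).contDiffAt (n := 1) |>.exists_lipschitzOnWith
    exact ⟨L, V, mem_nhdsWithin_of_mem_nhds hV, hL⟩
  obtain ⟨L, hL⟩ := LocallyLipschitzOn.exists_lipschitzOnWith_of_compact hK hloc
  have h1 : LipschitzOnWith (L * max 1 K) (fun t => ζ (g t)) (Icc a b) :=
    hL.comp hg1 (fun x hx => mem_image_of_mem _ hx)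
  exact ⟨K + L * max 1 K, hr1.sub h1⟩

private theorem PZeq_der {ζ : ℝ × ℝ → ℝ} {r : ℝ → ℝ × ℝ} {d : ℝ × ℝ} {t : ℝ}
    (hζ : AnalyticAt ℝ ζ (t, (r t).2)) (h : HasDerivAt r d t) :
    HasDerivAt (fun t => (r t).1 - ζ (t, (r t).2))
      (d.1 - D1 ζ (t, (r t).2) - D2 ζ (t, (r t).2) * d.2) t := by
  have h1 : HasDerivAt (fun t => (t, (r t).2)) ((1 : ℝ), d.2) t :=
    (hasDerivAt_id t).prodMk (PZeq_snd h)
  have h2 := (hζ.differentiableAt.hasFDerivAt).comp_hasDerivAt t h1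
  have h3 : fderiv ℝ ζ (t, (r t).2) (1, d.2)
      = D1 ζ (t, (r t).2) + D2 ζ (t, (r t).2) * d.2 := by
    have h4 : ((1 : ℝ), d.2) = ((1 : ℝ), (0 : ℝ)) + d.2 • ((0 : ℝ), (1 : ℝ)) := by
      ext <;> simp
    rw [h4, map_add, map_smul, smul_eq_mul]
    unfold D1 D2
    ring
  rw [h3] at h2
  have h5 := (PZeq_fst h).sub h2
  have h6 : d.1 - D1 ζ (t, (r t).2) - D2 ζ (t, (r t).2) * d.2
      = d.1 - (D1 ζ (t, (r t).2) + D2 ζ (t, (r t).2) * d.2) := by ring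
  rw [h6]
  exact h5

theorem zeq (E : Env F G R M) {ζ : ℝ × ℝ → ℝ} {α β c d : ℝ}
    (hζ : AnalyticOnNhd ℝ ζ (Ioo α β ×ˢ Ioo c d)) {v : ℝ → ℝ} (hv : Adm v) {r : ℝ → ℝ × ℝ}
    {a b : ℝ} (hr : Sol F G v r a b) (hab : Icc a b ⊆ Ioo α β)
    (hy : ∀ t ∈ Icc a b, (r t).2 ∈ Ioo c d) :
    ∀ s ∈ Icc a b, ∀ t ∈ Icc a b,
      ((r t).1 - ζ (t, (r t).2)) - ((r s).1 - ζ (s, (r s).2))
        = ∫ τ in s..t, (za F ζ (τ, r τ) + v τ * zb G ζ (τ, r τ)) := by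
  intro s hs t ht
  have hM0 : 0 ≤ M := le_trans zero_le_one E.hM
  have hU : ∀ t ∈ Icc a b, (t, (r t).2) ∈ Ioo α β ×ˢ Ioo c d := fun t ht => ⟨hab ht, hy t ht⟩
  have hrl : LipschitzOnWith (Real.toNNReal (2 * M)) r (Icc a b) := by
    refine LipschitzOnWith.of_dist_le_mul fun x hx y hy => ?_
    rw [dist_eq_norm, Real.dist_eq, Real.coe_toNNReal _ (by linarith)]
    exact sol_lip E hv hr hy hx
  obtain ⟨L, hL⟩ := PZeq_lip hζ hrl hU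
  have hsub : uIcc s t ⊆ Icc a b := uIcc_subset_Icc hs ht
  have hac := (hL.mono hsub).absolutelyContinuousOnInterval
  rw [← hac.integral_deriv_eq_sub]
  apply intervalIntegral.integral_congr_ae
  have hea : ∀ᵐ x : ℝ, x ≠ a := by simp [ae_iff, measure_singleton]
  have heb : ∀ᵐ x : ℝ, x ≠ b := by simp [ae_iff, measure_singleton]
  filter_upwards [sol_ae E hv hr, hea, heb] with x hx hxa hxb hxm
  have hx1 : x ∈ Icc a b := hsub (uIoc_subset_uIcc hxm)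
  have hx2 : x ∈ Ioo a b := ⟨lt_of_le_of_ne hx1.1 (Ne.symm hxa), lt_of_le_of_ne hx1.2 hxb⟩
  rw [(PZeq_der (hζ _ (hU x hx1)) (hx hx2)).deriv]
  unfold za zb
  simp only [Prod.fst_add, Prod.snd_add, Prod.smul_fst, Prod.smul_snd, smul_eq_mul]
  ring

private theorem PZeq_D1 {ζ : ℝ × ℝ → ℝ} {p : ℝ × ℝ} (hζ : AnalyticAt ℝ ζ p) :
    AnalyticAt ℝ (D1 ζ) p := by
  have h : AnalyticOnNhd ℝ ζ {p} := by
    intro x hx
    rw [mem_singleton_iff.1 hx]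
    exact hζ
  exact D1_an h p (mem_singleton p)

private theorem PZeq_D2 {ζ : ℝ × ℝ → ℝ} {p : ℝ × ℝ} (hζ : AnalyticAt ℝ ζ p) :
    AnalyticAt ℝ (D2 ζ) p := by
  have h : AnalyticOnNhd ℝ ζ {p} := by
    intro x hx
    rw [mem_singleton_iff.1 hx]
    exact hζ
  exact D2_an h p (mem_singleton p)

private theorem PZeq_pr (z : ℝ × ℝ × ℝ) : AnalyticAt ℝ (fun z : ℝ × ℝ × ℝ => (z.1, z.2.2)) z :=
  analyticAt_fst.prod
    (AnalyticAt.comp (g := fun y : ℝ × ℝ => y.2) (f := fun z : ℝ × ℝ × ℝ => z.2) analyticAt_snd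
      analyticAt_snd)

private theorem PZeq_c1 {H : ℝ × ℝ × ℝ → ℝ × ℝ} {z : ℝ × ℝ × ℝ} (h : AnalyticAt ℝ H z) :
    AnalyticAt ℝ (fun z => (H z).1) z :=
  AnalyticAt.comp (g := fun y : ℝ × ℝ => y.1) (f := H) analyticAt_fst h

private theorem PZeq_c2 {H : ℝ × ℝ × ℝ → ℝ × ℝ} {z : ℝ × ℝ × ℝ} (h : AnalyticAt ℝ H z) :
    AnalyticAt ℝ (fun z => (H z).2) z :=
  AnalyticAt.comp (g := fun y : ℝ × ℝ => y.2) (f := H) analyticAt_snd h

theorem za_an (E : Env F G R M) {ζ : ℝ × ℝ → ℝ} {z : ℝ × ℝ × ℝ} (hz : z ∈ Box R)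
    (hζ : AnalyticAt ℝ ζ (z.1, z.2.2)) : AnalyticAt ℝ (za F ζ) z := by
  have h1 : AnalyticAt ℝ (fun z : ℝ × ℝ × ℝ => D1 ζ (z.1, z.2.2)) z :=
    AnalyticAt.comp (g := D1 ζ) (f := fun z : ℝ × ℝ × ℝ => (z.1, z.2.2)) (PZeq_D1 hζ) (PZeq_pr z)
  have h2 : AnalyticAt ℝ (fun z : ℝ × ℝ × ℝ => D2 ζ (z.1, z.2.2)) z :=
    AnalyticAt.comp (g := D2 ζ) (f := fun z : ℝ × ℝ × ℝ => (z.1, z.2.2)) (PZeq_D2 hζ) (PZeq_pr z)
  exact ((PZeq_c1 (E.Fa z hz)).sub h1).sub (h2.mul (PZeq_c2 (E.Fa z hz)))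

theorem zb_an (E : Env F G R M) {ζ : ℝ × ℝ → ℝ} {z : ℝ × ℝ × ℝ} (hz : z ∈ Box R)
    (hζ : AnalyticAt ℝ ζ (z.1, z.2.2)) : AnalyticAt ℝ (zb G ζ) z := by
  have h2 : AnalyticAt ℝ (fun z : ℝ × ℝ × ℝ => D2 ζ (z.1, z.2.2)) z :=
    AnalyticAt.comp (g := D2 ζ) (f := fun z : ℝ × ℝ × ℝ => (z.1, z.2.2)) (PZeq_D2 hζ) (PZeq_pr z)
  exact (PZeq_c1 (E.Ga z hz)).sub (h2.mul (PZeq_c2 (E.Ga z hz)))

private theorem PZeq_up {ζ : ℝ × ℝ → ℝ} {p : ℝ × ℝ} (hζ : AnalyticAt ℝ ζ p) :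
    AnalyticAt ℝ (up ζ) p :=
  analyticAt_fst.prod (hζ.prod analyticAt_snd)

theorem up_an {a : ℝ × ℝ × ℝ → ℝ} (ha : AnalyticOnNhd ℝ a (Box R)) {ζ : ℝ × ℝ → ℝ}
    {s : Set (ℝ × ℝ)} (hζ : AnalyticOnNhd ℝ ζ s) (hbox : ∀ p ∈ s, up ζ p ∈ Box R) :
    AnalyticOnNhd ℝ (fun p => a (up ζ p)) s := fun p hp =>
  AnalyticAt.comp (g := a) (f := up ζ) (ha _ (hbox p hp)) (PZeq_up (hζ p hp))

theorem up_za_an (E : Env F G R M) {ζ : ℝ × ℝ → ℝ} {s : Set (ℝ × ℝ)}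
    (hζ : AnalyticOnNhd ℝ ζ s) (hbox : ∀ p ∈ s, up ζ p ∈ Box R) :
    AnalyticOnNhd ℝ (fun p => za F ζ (up ζ p)) s := fun p hp =>
  AnalyticAt.comp (g := za F ζ) (f := up ζ) (za_an E (hbox p hp) (hζ p hp)) (PZeq_up (hζ p hp))

theorem up_zb_an (E : Env F G R M) {ζ : ℝ × ℝ → ℝ} {s : Set (ℝ × ℝ)}
    (hζ : AnalyticOnNhd ℝ ζ s) (hbox : ∀ p ∈ s, up ζ p ∈ Box R) :
    AnalyticOnNhd ℝ (fun p => zb G ζ (up ζ p)) s := fun p hp =>
  AnalyticAt.comp (g := zb G ζ) (f := up ζ) (zb_an E (hbox p hp) (hζ p hp)) (PZeq_up (hζ p hp))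

theorem chart_shrink {T : ℝ} {q : ℝ → ℝ × ℝ} (hq : ContinuousOn q (Icc 0 T)) {C : Set ℝ}
    {ζ : ℝ × ℝ → ℝ} {α β c d : ℝ} (h : Chart R T q C ζ α β c d) {t₀ : ℝ} (ht₀ : t₀ ∈ C)
    (ht₀' : t₀ ∈ Ioo α β) {N : Set (ℝ × ℝ × ℝ)} (hN : N ∈ 𝓝 (t₀, q t₀)) :
    ∃ α' β' c' d' : ℝ, α ≤ α' ∧ β' ≤ β ∧ c ≤ c' ∧ d' ≤ d ∧ t₀ ∈ Ioo α' β' ∧
      Chart R T q C ζ α' β' c' d' ∧ (∀ t ∈ Ioo α' β', (t, q t) ∈ N) ∧
      ∀ p ∈ Ioo α' β' ×ˢ Ioo c' d', up ζ p ∈ N := by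
  set y0 : ℝ := (q t₀).2 with hy0
  have hy0m : y0 ∈ Ioo c d := h.y t₀ ht₀'
  have hup : up ζ (t₀, y0) = (t₀, q t₀) := by
    unfold up
    rw [← h.x t₀ ht₀ ht₀']
  -- the neighbourhood in `(t,y)`
  have han : AnalyticAt ℝ ζ (t₀, y0) := h.an _ ⟨ht₀', hy0m⟩
  have hpre : (up ζ) ⁻¹' N ∈ 𝓝 (t₀, y0) := by
    apply (PZeq_up han).continuousAt.preimage_mem_nhds
    rw [hup]
    exact hN
  obtain ⟨δ, hδ, hball⟩ := Metric.mem_nhds_iff.1 hpre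
  -- the neighbourhood in `t`
  have ht₀T : Icc 0 T ∈ 𝓝 t₀ :=
    Icc_mem_nhds (lt_of_le_of_lt h.hα ht₀'.1) (lt_of_lt_of_le ht₀'.2 h.hβ)
  have hqc : ContinuousAt q t₀ := hq.continuousAt ht₀T
  have hqc' : ContinuousAt (fun t => (t, q t)) t₀ := continuousAt_id.prodMk hqc
  have hq2 : ContinuousAt (fun t => (q t).2) t₀ := continuous_snd.continuousAt.comp hqc
  have h1 : {t | (t, q t) ∈ N} ∈ 𝓝 t₀ := hqc'.preimage_mem_nhds hN
  have h2 : {t | (q t).2 ∈ Metric.ball y0 δ} ∈ 𝓝 t₀ :=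
    hq2.preimage_mem_nhds (Metric.ball_mem_nhds _ hδ)
  obtain ⟨ε, hε, hεb⟩ := Metric.mem_nhds_iff.1 (inter_mem h1 h2)
  set η : ℝ := min δ ε with hη
  have hη0 : 0 < η := lt_min hδ hε
  have hηδ : η ≤ δ := min_le_left _ _
  have hηε : η ≤ ε := min_le_right _ _
  have hsub : ∀ t ∈ Ioo (max α (t₀ - η)) (min β (t₀ + η)), t ∈ Ioo α β ∧ |t - t₀| < η := by
    rintro t ⟨ht1, ht2⟩
    rw [max_lt_iff] at ht1
    rw [lt_min_iff] at ht2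
    refine ⟨⟨ht1.1, ht2.1⟩, ?_⟩
    rw [abs_lt]
    constructor <;> linarith [ht1.2, ht2.2]
  have hsub2 : ∀ y ∈ Ioo (max c (y0 - δ)) (min d (y0 + δ)), y ∈ Ioo c d ∧ |y - y0| < δ := by
    rintro t ⟨ht1, ht2⟩
    rw [max_lt_iff] at ht1
    rw [lt_min_iff] at ht2
    refine ⟨⟨ht1.1, ht2.1⟩, ?_⟩
    rw [abs_lt]
    constructor <;> linarith [ht1.2, ht2.2]
  have ht₀m : t₀ ∈ Ioo (max α (t₀ - η)) (min β (t₀ + η)) := by
    constructor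
    · rw [max_lt_iff]
      exact ⟨ht₀'.1, by linarith⟩
    · rw [lt_min_iff]
      exact ⟨ht₀'.2, by linarith⟩
  have hin : ∀ t, |t - t₀| < η → (t, q t) ∈ N ∧ |(q t).2 - y0| < δ := by
    intro t ht
    have h3 : t ∈ Metric.ball t₀ ε := by
      rw [Metric.mem_ball, Real.dist_eq]
      linarith
    have h4 := hεb h3
    refine ⟨h4.1, ?_⟩
    have h5 : (q t).2 ∈ Metric.ball y0 δ := h4.2
    rwa [Metric.mem_ball, Real.dist_eq] at h5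
  refine ⟨max α (t₀ - η), min β (t₀ + η), max c (y0 - δ), min d (y0 + δ), le_max_left _ _,
    min_le_left _ _, le_max_left _ _, min_le_left _ _, ht₀m, ?_, ?_, ?_⟩
  · refine ⟨h.hα.trans (le_max_left _ _), (min_le_left _ _).trans h.hβ, ⟨t₀, ht₀, ht₀m⟩, ?_, ?_,
      ?_, ?_⟩
    · apply h.an.mono
      rintro p ⟨hp1, hp2⟩
      exact ⟨(hsub _ hp1).1, (hsub2 _ hp2).1⟩
    · intro t ht
      have h3 := (hin t (hsub t ht).2).2
      have h4 := h.y t (hsub t ht).1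
      rw [abs_lt] at h3
      constructor
      · rw [max_lt_iff]
        exact ⟨h4.1, by linarith [h3.1]⟩
      · rw [lt_min_iff]
        exact ⟨h4.2, by linarith [h3.2]⟩
    · intro t htC ht
      exact h.x t htC (hsub t ht).1
    · rintro p ⟨hp1, hp2⟩
      exact h.box p ⟨(hsub _ hp1).1, (hsub2 _ hp2).1⟩
  · intro t ht
    exact (hin t (hsub t ht).2).1
  · rintro p ⟨hp1, hp2⟩
    have h3 : p ∈ Metric.ball (t₀, y0) δ := by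
      rw [Metric.mem_ball, Prod.dist_eq, max_lt_iff, Real.dist_eq, Real.dist_eq]
      exact ⟨lt_of_lt_of_le (hsub _ hp1).2 hηδ, (hsub2 _ hp2).2⟩
    exact hball h3

end Pool.Agent.Lib.MP_28b8de_an.PT
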