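import Pool.Agent.Lib.MP_28b8de_an.P.PDefs

/-!
MP_28b8de_an, module PZtwo (PTD-PZtwo): analytic functions of `(t,y)` vanishing on the graph of `y` over a perfect
set.

PROOF.  b_j := D2^[j] b, analytic on the rectangle (D2_iter_an).  Suppose ∃ j, ∃ t₃ ∈ C ∩ Ioo α β, b_j (t₃, y t₃) ≠ 0; take the least such
j (Nat.find); j ≥ 1 by h0, so b_{j-1} vanishes at (t, y t) for all t ∈ C ∩ Ioo α β and D2 b_{j-1} (t₃, y t₃) ≠ 0.  Implicit function
theorem as in `exists_zeta` (E/Zeta.lean; there the function is analytic on univ, here only near the point: same proof with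
ContDiffAt at the point): η analytic at t₃ with b_{j-1} p = 0 → p.2 = η p.1 for p near (t₃, y t₃).  y is continuous within
Icc 0 T at t₃, so for t ∈ C near t₃: y t = η t.
Otherwise all b_j vanish on {(t, y t)}.  For t ∈ C ∩ Ioo α β the function y' ↦ b (t, y') is analytic on Ioo c d and all its
derivatives vanish at y t (they are b_j (t, ·)), so it is 0 on Ioo c d (preconnected).  Let t₂ ∈ C ∩ Ioo α β.  For each y' ∈ Ioo c d
the function t ↦ b (t, y') is analytic on Ioo α β and vanishes on C ∩ Ioo α β, which accumulates at t₂ (hC.acc):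
`AnalyticOnNhd.eqOn_zero_of_preconnected_of_frequently_eq_zero`.  So b = 0 on the rectangle.
-/

namespace Pool.Agent.Lib.MP_28b8de_an.PT

open Filter Topology Set MeasureTheory

/-- the derivative along the second variable -/
private theorem PZtwo_deriv2 {G : ℝ × ℝ → ℝ} {t s : ℝ} (h : AnalyticAt ℝ G (t, s)) :
    HasDerivAt (fun r => G (t, r)) (D2 G (t, s)) s := by
  have h1 : HasFDerivAt G (fderiv ℝ G (t, s)) (t, s) := h.differentiableAt.hasFDerivAt
  have h2 : HasDerivAt (fun r : ℝ => (t, r)) ((0 : ℝ), (1 : ℝ)) s :=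
    (hasDerivAt_const s t).prodMk (hasDerivAt_id s)
  exact h1.comp_hasDerivAt s h2

/-- iterated derivatives along the second variable -/
private theorem PZtwo_iter {b : ℝ × ℝ → ℝ} {α β c d : ℝ}
    (hb : AnalyticOnNhd ℝ b (Ioo α β ×ˢ Ioo c d)) {t : ℝ} (ht : t ∈ Ioo α β) (j : ℕ) :
    ∀ s ∈ Ioo c d, iteratedDeriv j (fun r => b (t, r)) s = (D2^[j] b) (t, s) := by
  induction j with
  | zero =>
    intro s _
    simp
  | succ j ih =>
    intro s hs
    rw [iteratedDeriv_succ, Function.iterate_succ_apply']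
    have h1 : iteratedDeriv j (fun r => b (t, r)) =ᶠ[𝓝 s] fun r => (D2^[j] b) (t, r) := by
      filter_upwards [isOpen_Ioo.mem_nhds hs] with r hr
      exact ih r hr
    rw [h1.deriv_eq]
    exact (PZtwo_deriv2 (D2_iter_an hb j _ ⟨ht, hs⟩)).deriv

/-- the analytic implicit function at a point -/
private theorem PZtwo_impl {G : ℝ × ℝ → ℝ} {t₁ z₁ : ℝ} (hG : AnalyticAt ℝ G (t₁, z₁))
    (h0 : G (t₁, z₁) = 0) (h1 : D2 G (t₁, z₁) ≠ 0) :
    ∃ ζ : ℝ → ℝ, AnalyticAt ℝ ζ t₁ ∧ ∀ᶠ p in 𝓝 (t₁, z₁), G p = 0 → p.2 = ζ p.1 := by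
  have hc : ContDiffAt ℝ (⊤ : WithTop ℕ∞) G (t₁, z₁) := hG.contDiffAt
  have pn : (⊤ : WithTop ℕ∞) ≠ 0 := by simp
  have hinv : (fderiv ℝ G (t₁, z₁) ∘L .inr ℝ ℝ ℝ).IsInvertible := by
    refine ⟨ContinuousLinearEquiv.unitsEquivAut ℝ (Units.mk0 (D2 G (t₁, z₁)) h1), ?_⟩
    ext
    simp [D2, ContinuousLinearEquiv.unitsEquivAut]
  refine ⟨hc.implicitFunction pn hinv, ?_, ?_⟩
  · exact (hc.contDiffAt_implicitFunction pn hinv).analyticAt
  · have h := hc.eventually_apply_eq_iff_implicitFunction pn hinv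
    filter_upwards [h] with p hp hp0
    exact (hp.1 (hp0.trans h0.symm)).symm

theorem ztwo {T : ℝ} {C : Set ℝ} (hC : Perf T C) {y : ℝ → ℝ} (hy : ContinuousOn y (Icc 0 T))
    {b : ℝ × ℝ → ℝ} {α β c d : ℝ} (hb : AnalyticOnNhd ℝ b (Ioo α β ×ˢ Ioo c d))
    (hne : ∃ t ∈ C, t ∈ Ioo α β) (hyI : ∀ t ∈ C, t ∈ Ioo α β → y t ∈ Ioo c d)
    (h0 : ∀ t ∈ C, t ∈ Ioo α β → b (t, y t) = 0) :
    (∀ p ∈ Ioo α β ×ˢ Ioo c d, b p = 0) ∨
      ∃ t₃ ∈ C, t₃ ∈ Ioo α β ∧ ∃ η : ℝ → ℝ, AnalyticAt ℝ η t₃ ∧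
        ∃ ε : ℝ, 0 < ε ∧ ∀ t ∈ C, |t - t₃| < ε → y t = η t := by
  classical
  by_cases hex : ∃ j : ℕ, ∃ t₃ ∈ C, t₃ ∈ Ioo α β ∧ (D2^[j] b) (t₃, y t₃) ≠ 0
  · right
    have hspec := Nat.find_spec hex
    have hmin : ∀ m < Nat.find hex, ¬ ∃ t₃ ∈ C, t₃ ∈ Ioo α β ∧ (D2^[m] b) (t₃, y t₃) ≠ 0 :=
      fun m hm => Nat.find_min hex hm
    obtain ⟨t₃, ht₃, hI, hj⟩ := hspec
    rcases hn : Nat.find hex with _ | n
    · rw [hn] at hj
      exact absurd (h0 t₃ ht₃ hI) hj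
    · rw [hn] at hj hmin
      have hz : ∀ t ∈ C, t ∈ Ioo α β → (D2^[n] b) (t, y t) = 0 := by
        intro t ht htI
        by_contra hcon
        exact hmin n (Nat.lt_succ_self n) ⟨t, ht, htI, hcon⟩
      rw [Function.iterate_succ_apply'] at hj
      have hyc : y t₃ ∈ Ioo c d := hyI t₃ ht₃ hI
      obtain ⟨η, hη, hev⟩ := PZtwo_impl (D2_iter_an hb n _ ⟨hI, hyc⟩) (hz t₃ ht₃ hI) hj
      refine ⟨t₃, ht₃, hI, η, hη, ?_⟩
      have hcy : Tendsto (fun t => (t, y t)) (𝓝[Icc 0 T] t₃) (𝓝 (t₃, y t₃)) := by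
        have h1 : ContinuousWithinAt y (Icc 0 T) t₃ := hy t₃ (hC.sub ht₃)
        exact (continuousWithinAt_id.prodMk h1)
      have h2 := hcy.eventually hev
      have h3 : ∀ᶠ t in 𝓝[Icc 0 T] t₃, t ∈ Ioo α β :=
        mem_nhdsWithin_of_mem_nhds (isOpen_Ioo.mem_nhds hI)
      have h4 := h2.and h3
      rw [eventually_iff, Metric.mem_nhdsWithin_iff] at h4
      obtain ⟨ε, hε, hball⟩ := h4
      refine ⟨ε, hε, fun t ht htε => ?_⟩
      have h5 := hball ⟨by rwa [Metric.mem_ball, Real.dist_eq], hC.sub ht⟩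
      exact h5.1 (hz t ht h5.2)
  · left
    push Not at hex
    obtain ⟨t₂, ht₂, hI₂⟩ := hne
    -- each slice over a point of `C` vanishes
    have hs : ∀ t ∈ C, t ∈ Ioo α β → ∀ s ∈ Ioo c d, b (t, s) = 0 := by
      intro t ht htI
      have hyc : y t ∈ Ioo c d := hyI t ht htI
      have hg : AnalyticOnNhd ℝ (fun s => b (t, s)) (Ioo c d) := by
        intro s hs
        have h1 : AnalyticAt ℝ b (t, s) := hb _ ⟨htI, hs⟩
        have h2 : AnalyticAt ℝ (fun r : ℝ => (t, r)) s := analyticAt_const.prod analyticAt_id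
        exact h1.comp h2
      have hord : analyticOrderAt (fun s => b (t, s)) (y t) = ⊤ := by
        rw [ENat.eq_top_iff_forall_ge]
        intro m
        rw [natCast_le_analyticOrderAt_iff_iteratedDeriv_eq_zero (hg _ hyc)]
        intro i _
        rw [PZtwo_iter hb htI i _ hyc]
        exact hex i t ht htI
      rw [analyticOrderAt_eq_top] at hord
      exact hg.eqOn_zero_of_preconnected_of_eventuallyEq_zero isPreconnected_Ioo hyc hord
    rintro ⟨t, s⟩ ⟨ht, hs'⟩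
    simp only at ht hs'
    have hg : AnalyticOnNhd ℝ (fun r => b (r, s)) (Ioo α β) := by
      intro r hr
      have h1 : AnalyticAt ℝ b ((fun r : ℝ => (r, s)) r) := hb _ ⟨hr, hs'⟩
      have h2 : AnalyticAt ℝ (fun r : ℝ => (r, s)) r := analyticAt_id.prod analyticAt_const
      exact AnalyticAt.comp (f := fun r : ℝ => (r, s)) h1 h2
    have hfr : ∃ᶠ z in 𝓝[≠] t₂, b (z, s) = 0 := by
      rw [frequently_iff]
      intro U hU
      rw [Metric.mem_nhdsWithin_iff] at hU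
      obtain ⟨ε, hε, hU⟩ := hU
      obtain ⟨ε', hε', hI'⟩ := Metric.isOpen_iff.1 isOpen_Ioo t₂ hI₂
      obtain ⟨r, hrC, hrne, hrε⟩ := hC.acc t₂ ht₂ (min ε ε') (lt_min hε hε')
      refine ⟨r, hU ⟨?_, hrne⟩, hs r hrC (hI' ?_) s hs'⟩
      · rw [Metric.mem_ball, Real.dist_eq]
        exact lt_of_lt_of_le hrε (min_le_left _ _)
      · rw [Metric.mem_ball, Real.dist_eq]
        exact lt_of_lt_of_le hrε (min_le_right _ _)
    exact hg.eqOn_zero_of_preconnected_of_frequently_eq_zero isPreconnected_Ioo hI₂ hfr ht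

end Pool.Agent.Lib.MP_28b8de_an.PT
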