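import Pool.Agent.Lib.MP_28b8de_an.P.PCurve
import Pool.Agent.Lib.MP_28b8de_an.P.PZtwo
import Pool.Agent.Lib.MP_28b8de_an.P.PZeq
import Pool.Agent.Lib.MP_28b8de_an.P.PInv
import Pool.Agent.Lib.MP_28b8de_an.P.PLeaf

/-!
MP_28b8de_an, module PChartA (PTD-PChartA): the first case of a chart (zb = 0 on C), and the generic dichotomy.

PROOFS.  chart_zero: `ztwo` with y = (q ·).2 (continuous on Icc 0 T, Ioo α β ⊆ Icc 0 T by hα, hβ); in the second alternative t₃ ∈ C ∩ Ioo α β, η analytic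
at t₃, (q t).2 = η t on C near t₃, so q t = (ζ (t, η t), η t) =: γ t there (Chart.x), γ analytic at t₃ ((t₃, η t₃) = (t₃, (q t₃).2) is in the rectangle),
and `curve_goal` (t₃ ∈ Ioo 0 T).
chart_kder: at t ∈ C ∩ Ioo α β: |za F ζ (t, q t)| ≤ |zb G ζ (t, q t)|: `kder` with m t = (q t).1 - ζ (t, (q t).2), A = za F ζ (t, q t), B = zb G ζ (t, q t)
(continuous on Ioo α β: za_an, zb_an are at box points with (t, (q t).2) in the rectangle, tr_box), zeq.
chart_a: (1) by hb and chart_zero: zb G ζ ∘ up ζ = 0 on the rectangle or Goal.  (2) chart_kder: za = 0 at (t, q t) = up ζ (t, (q t).2), t ∈ C ∩ Ioo α β; chart_zero with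
up_za_an: za F ζ ∘ up ζ = 0 on the rectangle or Goal.  (3) Dt F G ∘ up ζ: zero on C; so zero on the rectangle or Goal.  (4) b(p) := (G (up ζ p)).2: if it
vanishes at all (t, (q t).2), t ∈ C ∩ Ioo α β, then it is 0 on the rectangle or Goal; if it is 0 on the rectangle then (zb = 0) also (G (up ζ p)).1 = 0, so
G (up ζ p) = 0.  Take t₂ ∈ C ∩ Ioo α β, ρ from `inv_surf` at (t₂, (q t₂).2); for s < s' in C close to t₂ (|s - t₂| < ρ, |(q s).2 - (q t₂).2| < ρ) the trajectory q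
stays on the surface on Icc s s', where G = 0: q is smooth on Ioo s s' (`smAt_const`, lam = 0), jn_self: Goal.
(5) otherwise there is t₃ ∈ C ∩ Ioo α β with G (t₃, q t₃) ≠ 0.  inv_surf at (t₃, (q t₃).2): for s < s' in C very close to t₃ all trajectories r from q s on Icc s s'
stay on the surface, where Dt = 0, and near (t₃, q t₃) (speed ≤ 2M), where ‖G‖ ≥ c0 := ‖G (t₃, q t₃)‖/2: `leaf_jn`.  Goal.
-/

namespace Pool.Agent.Lib.MP_28b8de_an.PT

open Filter Topology Set MeasureTheory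

variable {F G : ℝ × ℝ × ℝ → ℝ × ℝ} {R M : ℝ}

private theorem PChartA_up {ζ : ℝ × ℝ → ℝ} {q : ℝ → ℝ × ℝ} {t : ℝ}
    (hx : (q t).1 = ζ (t, (q t).2)) : up ζ (t, (q t).2) = (t, q t) := by
  simp only [up, ← hx]

private theorem PChartA_I0 {T : ℝ} {q : ℝ → ℝ × ℝ} {C : Set ℝ} {ζ : ℝ × ℝ → ℝ} {α β c d : ℝ}
    (hch : Chart R T q C ζ α β c d) : ∀ t ∈ Ioo α β, t ∈ Icc 0 T := fun _ ht =>
  ⟨le_trans hch.hα ht.1.le, le_trans ht.2.le hch.hβ⟩

theorem chart_zero {T : ℝ} {u : ℝ → ℝ} {q : ℝ → ℝ × ℝ} (h : Tr F G R M T u q) {C : Set ℝ}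
    (hC : Perf T C) {ζ : ℝ × ℝ → ℝ} {α β c d : ℝ} (hch : Chart R T q C ζ α β c d)
    {b : ℝ × ℝ → ℝ} (hb : AnalyticOnNhd ℝ b (Ioo α β ×ˢ Ioo c d))
    (h0 : ∀ t ∈ C, t ∈ Ioo α β → b (t, (q t).2) = 0) :
    (∀ p ∈ Ioo α β ×ˢ Ioo c d, b p = 0) ∨ Goal F G q C := by
  have hyc : ContinuousOn (fun t => (q t).2) (Icc 0 T) :=
    continuous_snd.comp_continuousOn h.sol.cont
  rcases ztwo hC hyc hb hch.ne (fun t _ htI => hch.y t htI) h0 with
    hz | ⟨t₃, ht₃, ht₃I, η, hη, ε, hε, he⟩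
  · exact Or.inl hz
  right
  have hy3 : (q t₃).2 = η t₃ := he t₃ ht₃ (by simpa using hε)
  have ζan : AnalyticAt ℝ ζ (t₃, η t₃) := by
    rw [← hy3]
    exact hch.an _ ⟨ht₃I, hch.y _ ht₃I⟩
  have hpair : AnalyticAt ℝ (fun t : ℝ => (t, η t)) t₃ := analyticAt_id.prod hη
  have hγ : AnalyticAt ℝ (fun t => (ζ (t, η t), η t)) t₃ :=
    (AnalyticAt.comp (g := ζ) (f := fun t : ℝ => (t, η t)) ζan hpair).prod hη
  have h1 : 0 < t₃ - α := sub_pos.2 ht₃I.1
  have h2 : 0 < β - t₃ := sub_pos.2 ht₃I.2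
  refine curve_goal h hC ht₃ ⟨lt_of_le_of_lt hch.hα ht₃I.1, lt_of_lt_of_le ht₃I.2 hch.hβ⟩ hγ
    (ε := min ε (min (t₃ - α) (β - t₃))) (lt_min hε (lt_min h1 h2)) fun t ht htε => ?_
  have hte : |t - t₃| < ε := lt_of_lt_of_le htε (min_le_left _ _)
  have hta : |t - t₃| < t₃ - α :=
    lt_of_lt_of_le htε ((min_le_right _ _).trans (min_le_left _ _))
  have htb : |t - t₃| < β - t₃ :=
    lt_of_lt_of_le htε ((min_le_right _ _).trans (min_le_right _ _))
  have htI : t ∈ Ioo α β := by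
    rw [abs_lt] at hta htb
    exact ⟨by linarith, by linarith⟩
  have hy : (q t).2 = η t := he t ht hte
  ext
  · simp only
    rw [hch.x t ht htI, hy]
  · simpa using hy

theorem chart_kder {T : ℝ} {u : ℝ → ℝ} {q : ℝ → ℝ × ℝ} (h : Tr F G R M T u q) {C : Set ℝ}
    (hC : Perf T C) {ζ : ℝ × ℝ → ℝ} {α β c d : ℝ} (hch : Chart R T q C ζ α β c d) :
    ∀ t ∈ C, t ∈ Ioo α β → |za F ζ (t, q t)| ≤ |zb G ζ (t, q t)| := by
  intro t ht htI
  have E := h.env
  have hI0 := PChartA_I0 hch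
  have hbx : ∀ t ∈ Ioo α β, (t, q t) ∈ Box R := fun t ht =>
    tr_box h (hI0 t ht) (by simp)
  have hqc : ContinuousOn (fun t => (t, q t)) (Ioo α β) :=
    continuousOn_id.prodMk (h.sol.cont.mono fun t ht => hI0 t ht)
  have Bc : ContinuousOn (fun t => zb G ζ (t, q t)) (Ioo α β) := fun t ht =>
    ContinuousAt.comp_continuousWithinAt (g := zb G ζ)
      (zb_an E (hbx t ht) (hch.an _ ⟨ht, hch.y t ht⟩)).continuousAt (hqc t ht)
  have Ac : ContinuousOn (fun t => za F ζ (t, q t)) (Ioo α β) := fun t ht =>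
    ContinuousAt.comp_continuousWithinAt (g := za F ζ)
      (za_an E (hbx t ht) (hch.an _ ⟨ht, hch.y t ht⟩)).continuousAt (hqc t ht)
  refine kder hC ht htI h.adm (A := fun t => za F ζ (t, q t)) (B := fun t => zb G ζ (t, q t))
    (m := fun t => (q t).1 - ζ (t, (q t).2)) Ac Bc
    (fun s hs hsI => by rw [hch.x s hs hsI, sub_self]) fun s hs s' hs' => ?_
  have hm1 : min s s' ∈ Ioo α β := by
    rcases min_choice s s' with e | e <;> rw [e] <;> assumption
  have hm2 : max s s' ∈ Ioo α β := by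
    rcases max_choice s s' with e | e <;> rw [e] <;> assumption
  have hsub : Icc (min s s') (max s s') ⊆ Ioo α β := fun t ht =>
    ⟨lt_of_lt_of_le hm1.1 ht.1, lt_of_le_of_lt ht.2 hm2.2⟩
  have hq : Sol F G u q (min s s') (max s s') :=
    sol_mono E h.adm h.sol (hI0 _ hm1).1 (hI0 _ hm2).2
  exact zeq E hch.an h.adm hq hsub (fun t ht => hch.y t (hsub ht)) s
    ⟨min_le_left _ _, le_max_left _ _⟩ s' ⟨min_le_right _ _, le_max_right _ _⟩

theorem chart_a {T : ℝ} {u : ℝ → ℝ} {q : ℝ → ℝ × ℝ} (h : Tr F G R M T u q) {C : Set ℝ}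
    (hC : Perf T C) (hD : ∀ t ∈ C, Dt F G (t, q t) = 0)
    {ζ : ℝ × ℝ → ℝ} {α β c d : ℝ} (hch : Chart R T q C ζ α β c d)
    (hb : ∀ t ∈ C, t ∈ Ioo α β → zb G ζ (t, q t) = 0) : Goal F G q C := by
  have E := h.env
  have hM : 0 < M := lt_of_lt_of_le one_pos E.hM
  have hI0 := PChartA_I0 hch
  rcases chart_zero h hC hch (up_zb_an E hch.an hch.box) (fun t ht htI => by
    rw [PChartA_up (hch.x t ht htI)]
    exact hb t ht htI) with hzb | hG
  swap
  · exact hG
  rcases chart_zero h hC hch (up_za_an E hch.an hch.box) (fun t ht htI => by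
    rw [PChartA_up (hch.x t ht htI)]
    have h1 := chart_kder h hC hch t ht htI
    rw [hb t ht htI, abs_zero] at h1
    exact abs_nonpos_iff.1 h1) with hza | hG
  swap
  · exact hG
  rcases chart_zero h hC hch (up_an (Dt_an E) hch.an hch.box) (fun t ht htI => by
    rw [PChartA_up (hch.x t ht htI)]
    exact hD t ht) with hDt | hG
  swap
  · exact hG
  have hlip : ∀ s ∈ Ioo α β, ∀ t ∈ Ioo α β, ‖q t - q s‖ ≤ 2 * M * |t - s| := fun s hs t ht =>
    sol_lip E h.adm h.sol (hI0 s hs) (hI0 t ht)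
  have hsnd : ∀ a b : ℝ × ℝ, |a.2 - b.2| ≤ ‖a - b‖ := fun a b => by
    have := norm_snd_le (a - b)
    simpa using this
  by_cases hG0 : ∀ t ∈ C, t ∈ Ioo α β → (G (up ζ (t, (q t).2))).2 = 0
  · have hG2an : AnalyticOnNhd ℝ (fun z => (G z).2) (Box R) := fun z hz =>
      (ContinuousLinearMap.snd ℝ ℝ ℝ).analyticAt _ |>.comp (E.Ga z hz)
    rcases chart_zero h hC hch (up_an hG2an hch.an hch.box) hG0 with hg | hG
    swap
    · exact hG
    have hGz : ∀ p ∈ Ioo α β ×ˢ Ioo c d, G (up ζ p) = 0 := by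
      intro p hp
      have h1 := hzb p hp
      have h2 : (G (up ζ p)).2 = 0 := hg p hp
      simp only [zb] at h1
      rw [h2, mul_zero, sub_zero] at h1
      ext
      · simpa using h1
      · simpa using h2
    obtain ⟨t₂, ht₂, ht₂I⟩ := hch.ne
    obtain ⟨ρ, hρ, hinv⟩ := inv_surf E hch.an hch.box hza hzb ht₂I (hch.y t₂ ht₂I)
    set δ := min (min (t₂ - α) (β - t₂)) (ρ / (2 * M)) with hδ
    have hδ0 : 0 < δ := lt_min (lt_min (sub_pos.2 ht₂I.1) (sub_pos.2 ht₂I.2)) (by positivity)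
    have hδ1 : δ ≤ t₂ - α := (min_le_left _ _).trans (min_le_left _ _)
    have hδ2 : δ ≤ β - t₂ := (min_le_left _ _).trans (min_le_right _ _)
    have hδ3 : 2 * M * δ ≤ ρ := by
      have : δ ≤ ρ / (2 * M) := min_le_right _ _
      rw [le_div_iff₀ (by positivity)] at this
      linarith
    have hM1 := E.hM
    have hδ4 : δ ≤ ρ := by nlinarith
    have hin : ∀ s ∈ Ioo (t₂ - δ) (t₂ + δ), s ∈ Ioo α β ∧ |s - t₂| < δ := fun s hs =>
      ⟨⟨by linarith [hs.1], by linarith [hs.2]⟩, by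
        rw [abs_lt]; exact ⟨by linarith [hs.1], by linarith [hs.2]⟩⟩
    refine ⟨t₂ - δ, t₂ + δ, ⟨t₂, ht₂, by constructor <;> linarith⟩,
      fun s hsC hsI s' hsC' hsI' hss => ?_⟩
    obtain ⟨hsI1, hs1⟩ := hin s hsI
    obtain ⟨hsI1', hs1'⟩ := hin s' hsI'
    have hq : Sol F G u q s s' := sol_mono E h.adm h.sol (hI0 s hsI1).1 (hI0 s' hsI1').2
    have hy : |(q s).2 - (q t₂).2| < ρ := by
      have h1 := hsnd (q s) (q t₂)
      have h2 := hlip t₂ ht₂I s hsI1
      have h3 : 2 * M * |s - t₂| < 2 * M * δ := by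
        apply mul_lt_mul_of_pos_left hs1
        positivity
      linarith
    have hs := hinv u q s s' h.adm hq hss.le (lt_of_lt_of_le hs1 hδ4) (lt_of_lt_of_le hs1' hδ4)
      hy (hch.x s hsC hsI1)
    have hG0' : ∀ t ∈ Icc s s', G (t, q t) = 0 := by
      intro t ht
      obtain ⟨h1, h2, h3⟩ := hs t ht
      have := hGz (t, (q t).2) ⟨h1, h2⟩
      rwa [PChartA_up h3] at this
    refine jn_self h.adm hq ?_
    have he : {t ∈ Ioo s s' | ¬ SmAt q t} = ∅ := by
      ext t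
      simp only [mem_ofPred_eq, mem_empty_iff_false, iff_false, not_and, not_not]
      intro ht
      refine smAt_const E h.adm hq (lam := 0) (Eventually.of_forall fun r hr => ?_) ht
      rw [hG0' r ⟨hr.1.le, hr.2.le⟩, smul_zero, smul_zero]
    rw [he]
    exact countable_empty
  · push Not at hG0
    obtain ⟨t₃, ht₃, ht₃I, hg⟩ := hG0
    rw [PChartA_up (hch.x t₃ ht₃ ht₃I)] at hg
    have hG3 : G (t₃, q t₃) ≠ 0 := fun e => hg (by rw [e]; rfl)
    have hn : 0 < ‖G (t₃, q t₃)‖ := norm_pos_iff.2 hG3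
    set c0 := ‖G (t₃, q t₃)‖ / 2 with hc0
    have hc0p : 0 < c0 := by positivity
    obtain ⟨ρ, hρ, hinv⟩ := inv_surf E hch.an hch.box hza hzb ht₃I (hch.y t₃ ht₃I)
    set δ := min (min (min (t₃ - α) (β - t₃)) (ρ / (2 * M)))
      (min (c0 / (6 * M * M)) (1 / (8 * M))) with hδ
    have hδ0 : 0 < δ := lt_min (lt_min (lt_min (sub_pos.2 ht₃I.1) (sub_pos.2 ht₃I.2))
      (by positivity)) (lt_min (by positivity) (by positivity))
    have hδ1 : δ ≤ t₃ - α := (min_le_left _ _).trans ((min_le_left _ _).trans (min_le_left _ _))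
    have hδ2 : δ ≤ β - t₃ := (min_le_left _ _).trans ((min_le_left _ _).trans (min_le_right _ _))
    have hδ3 : 2 * M * δ ≤ ρ := by
      have : δ ≤ ρ / (2 * M) := (min_le_left _ _).trans (min_le_right _ _)
      rw [le_div_iff₀ (by positivity)] at this
      linarith
    have hδ5 : 6 * M * M * δ ≤ c0 := by
      have : δ ≤ c0 / (6 * M * M) := (min_le_right _ _).trans (min_le_left _ _)
      rw [le_div_iff₀ (by positivity)] at this
      linarith
    have hδ6 : 8 * M * δ ≤ 1 := by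
      have : δ ≤ 1 / (8 * M) := (min_le_right _ _).trans (min_le_right _ _)
      rw [le_div_iff₀ (by positivity)] at this
      linarith
    have hM1 := E.hM
    have hδ4 : δ ≤ ρ := by nlinarith
    have hin : ∀ s ∈ Ioo (t₃ - δ) (t₃ + δ), s ∈ Ioo α β ∧ |s - t₃| < δ := fun s hs =>
      ⟨⟨by linarith [hs.1], by linarith [hs.2]⟩, by
        rw [abs_lt]; exact ⟨by linarith [hs.1], by linarith [hs.2]⟩⟩
    refine ⟨t₃ - δ, t₃ + δ, ⟨t₃, ht₃, by constructor <;> linarith⟩,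
      fun s hsC hsI s' hsC' hsI' hss => ?_⟩
    obtain ⟨hsI1, hs1⟩ := hin s hsI
    obtain ⟨hsI1', hs1'⟩ := hin s' hsI'
    have hq : Sol F G u q s s' := sol_mono E h.adm h.sol (hI0 s hsI1).1 (hI0 s' hsI1').2
    have hqs : ‖q s - q t₃‖ ≤ 2 * M * δ := by
      have h2 := hlip t₃ ht₃I s hsI1
      have h3 : 2 * M * |s - t₃| ≤ 2 * M * δ := by
        apply mul_le_mul_of_nonneg_left hs1.le
        positivity
      linarith
    have hqs' : ‖q s - q t₃‖ < ρ := by
      have h2 := hlip t₃ ht₃I s hsI1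
      have h3 : 2 * M * |s - t₃| < 2 * M * δ := by
        apply mul_lt_mul_of_pos_left hs1
        positivity
      linarith
    have hy : |(q s).2 - (q t₃).2| < ρ := lt_of_le_of_lt (hsnd (q s) (q t₃)) hqs'
    have hlen : s' - s ≤ 2 * δ := by linarith [hsI.1, hsI'.2]
    refine leaf_jn E h.adm hss hq hc0p ?_ ?_
    · nlinarith
    intro v r hv hr hrs t ht
    have hrs1 : (r s).1 = ζ (s, (r s).2) := by
      rw [hrs]
      exact hch.x s hsC hsI1
    have hs := hinv v r s s' hv hr hss.le (lt_of_lt_of_le hs1 hδ4) (lt_of_lt_of_le hs1' hδ4)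
      (by rw [hrs]; exact hy) hrs1 t ht
    obtain ⟨h1, h2, h3⟩ := hs
    refine ⟨?_, ?_⟩
    · have := hDt (t, (r t).2) ⟨h1, h2⟩
      rwa [PChartA_up h3] at this
    · have hl := env_lipG E (t₃, q t₃) (t, r t)
      have hrt : ‖r t - r s‖ ≤ 2 * M * (2 * δ) := by
        have h4 := sol_lip E hv hr ⟨le_refl _, hss.le⟩ ht
        have h5 : |t - s| ≤ 2 * δ := by
          rw [abs_of_nonneg (sub_nonneg.2 ht.1)]
          linarith [ht.2]
        have h6 : 2 * M * |t - s| ≤ 2 * M * (2 * δ) := by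
          apply mul_le_mul_of_nonneg_left h5
          positivity
        linarith
      have hd : ‖q t₃ - r t‖ ≤ 6 * M * δ := by
        have h7 : q t₃ - r t = -(q s - q t₃) - (r t - r s) := by
          rw [hrs]; abel
        rw [h7]
        have h8 := norm_sub_le (-(q s - q t₃)) (r t - r s)
        rw [norm_neg] at h8
        linarith
      have htt : |t₃ - t| ≤ 6 * M * δ := by
        have h9 : |t₃ - t| ≤ δ := by
          rw [abs_le]
          constructor <;> linarith [ht.1, ht.2, hsI.1, hsI'.2]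
        nlinarith
      have hdz : ‖((t₃, q t₃) : ℝ × ℝ × ℝ) - (t, r t)‖ ≤ 6 * M * δ := by
        rw [Prod.mk_sub_mk, Prod.norm_mk, Real.norm_eq_abs]
        exact max_le htt hd
      have h10 : M * ‖((t₃, q t₃) : ℝ × ℝ × ℝ) - (t, r t)‖ ≤ c0 := by
        have : M * ‖((t₃, q t₃) : ℝ × ℝ × ℝ) - (t, r t)‖ ≤ M * (6 * M * δ) :=
          mul_le_mul_of_nonneg_left hdz hM.le
        linarith
      have h11 : ‖G (t₃, q t₃)‖ ≤ ‖G (t₃, q t₃) - G (t, r t)‖ + ‖G (t, r t)‖ := by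
        have := norm_add_le (G (t₃, q t₃) - G (t, r t)) (G (t, r t))
        rwa [sub_add_cancel] at this
      have h12 : ‖G (t₃, q t₃)‖ = 2 * c0 := by rw [hc0]; ring
      linarith

end Pool.Agent.Lib.MP_28b8de_an.PT
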