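import Pool.Agent.Lib.MP_28b8de_an.P.PChartA
import Pool.Agent.Lib.MP_28b8de_an.P.PFeed
import Pool.Agent.Lib.MP_28b8de_an.P.PSat

/-!
MP_28b8de_an, module PChartS (PTD-PChartS): a chart with zb ≠ 0 and saturated singular control on C.

Hypotheses: zb ≠ 0 at all points (t, q t), t ∈ Ioo α β, and at all points of the surface (obtained by chart_shrink), |za| = |zb| at (t, q t) for all t ∈ C ∩ Ioo α β.
PROOF.  b(p) := (za F ζ (up ζ p))² - (zb G ζ (up ζ p))²: analytic on the rectangle (up_za_an, up_zb_an), 0 on C: chart_zero: b = 0 on the rectangle or Goal.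
So on the rectangle (connected) za = - ν zb on the surface with a constant ν = ±1 (-za/zb continuous with values ±1; preconnected).  Let t₂ ∈ C ∩ Ioo α β and shrink
(chart_shrink) so that near z₂ = (t₂, q t₂), in a ball N, za F ζ and zb G ζ are K-Lipschitz.  For s < s' in C ∩ (small Ioo): z t := (q t).1 - ζ (t, (q t).2),
B t := zb G ζ (t, q t) ≠ 0, ε t := za F ζ (t, q t) + ν zb G ζ (t, q t): |ε t| = |ε - (its value 0 at up ζ (t, (q t).2))| ≤ 2K |z t|; zeq: z t = ∫_s^t (B (u - ν) + ε).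
z s = z s' = 0 (Chart.x).  `sat` gives z = 0 on Icc s s', and `feed_jn` gives Jn F G q s s'.
-/

namespace Pool.Agent.Lib.MP_28b8de_an.PT

open Filter Topology Set MeasureTheory

variable {F G : ℝ × ℝ × ℝ → ℝ × ℝ} {R M : ℝ}

private theorem PChartS_up {ζ : ℝ × ℝ → ℝ} {q : ℝ → ℝ × ℝ} {t : ℝ}
    (hx : (q t).1 = ζ (t, (q t).2)) : up ζ (t, (q t).2) = (t, q t) := by
  unfold up
  rw [← hx]

/-- `za = - ν zb` on the surface with a constant sign `ν` -/
private theorem PChartS_sign (E : Env F G R M) {ζ : ℝ × ℝ → ℝ} {α β c d : ℝ}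
    (hζ : AnalyticOnNhd ℝ ζ (Ioo α β ×ˢ Ioo c d))
    (hbox : ∀ p ∈ Ioo α β ×ˢ Ioo c d, up ζ p ∈ Box R)
    (hb' : ∀ p ∈ Ioo α β ×ˢ Ioo c d, zb G ζ (up ζ p) ≠ 0)
    (hz : ∀ p ∈ Ioo α β ×ˢ Ioo c d, za F ζ (up ζ p) ^ 2 - zb G ζ (up ζ p) ^ 2 = 0) :
    ∃ ν : ℝ, (ν = 1 ∨ ν = -1) ∧
      ∀ p ∈ Ioo α β ×ˢ Ioo c d, za F ζ (up ζ p) + ν * zb G ζ (up ζ p) = 0 := by
  have hP : IsPreconnected (Ioo α β ×ˢ Ioo c d) := isPreconnected_Ioo.prod isPreconnected_Ioo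
  have h1 := hP.eq_or_eq_neg_of_sq_eq (f := fun p => za F ζ (up ζ p))
    (g := fun p => zb G ζ (up ζ p)) (up_za_an E hζ hbox).continuousOn
    (up_zb_an E hζ hbox).continuousOn
    (fun p hp => by
      have := hz p hp
      simp only [Pi.pow_apply]
      linarith) (fun {p} hp => hb' p hp)
  rcases h1 with h1 | h1
  · refine ⟨-1, Or.inr rfl, fun p hp => ?_⟩
    have := h1 hp
    simp only at this
    rw [this]
    ring
  · refine ⟨1, Or.inl rfl, fun p hp => ?_⟩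
    have := h1 hp
    simp only [Pi.neg_apply] at this
    rw [this]
    ring

theorem chart_s {T : ℝ} {u : ℝ → ℝ} {q : ℝ → ℝ × ℝ} (h : Tr F G R M T u q) {C : Set ℝ}
    (hC : Perf T C) {ζ : ℝ × ℝ → ℝ} {α β c d : ℝ} (hch : Chart R T q C ζ α β c d)
    (hb : ∀ t ∈ Ioo α β, zb G ζ (t, q t) ≠ 0)
    (hb' : ∀ p ∈ Ioo α β ×ˢ Ioo c d, zb G ζ (up ζ p) ≠ 0)
    (hs : ∀ t ∈ C, t ∈ Ioo α β → |za F ζ (t, q t)| = |zb G ζ (t, q t)|) : Goal F G q C := by
  have E := h.env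
  have hza := up_za_an E hch.an hch.box
  have hzb := up_zb_an E hch.an hch.box
  have hbA : AnalyticOnNhd ℝ (fun p => za F ζ (up ζ p) ^ 2 - zb G ζ (up ζ p) ^ 2)
      (Ioo α β ×ˢ Ioo c d) := fun p hp => ((hza p hp).pow 2).sub ((hzb p hp).pow 2)
  rcases chart_zero h hC hch hbA (fun t ht htI => by
    have h1 := hs t ht htI
    have h2 := PChartS_up (hch.x t ht htI)
    simp only [h2]
    rw [← sq_abs (za F ζ (t, q t)), h1, sq_abs, sub_self]) with hz | hG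
  swap
  · exact hG
  obtain ⟨ν, hν, hsg⟩ := PChartS_sign E hch.an hch.box hb' hz
  obtain ⟨t₂, ht₂, ht₂I⟩ := hch.ne
  have hI0 : ∀ t ∈ Ioo α β, t ∈ Icc 0 T := fun t ht =>
    ⟨le_trans hch.hα ht.1.le, le_trans ht.2.le hch.hβ⟩
  have hbx : ∀ t ∈ Ioo α β, (t, q t) ∈ Box R := fun t ht =>
    tr_box h (hI0 t ht) (by simp)
  have hzaA : ∀ t ∈ Ioo α β, AnalyticAt ℝ (za F ζ) (t, q t) := fun t ht =>
    za_an E (hbx t ht) (hch.an _ ⟨ht, hch.y t ht⟩)
  have hzbA : ∀ t ∈ Ioo α β, AnalyticAt ℝ (zb G ζ) (t, q t) := fun t ht =>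
    zb_an E (hbx t ht) (hch.an _ ⟨ht, hch.y t ht⟩)
  have haA : AnalyticAt ℝ (fun z => za F ζ z + ν * zb G ζ z) (t₂, q t₂) :=
    (hzaA t₂ ht₂I).add (analyticAt_const.mul (hzbA t₂ ht₂I))
  obtain ⟨K, N, hN, hL⟩ := (haA.contDiffAt (n := 1)).exists_lipschitzOnWith
  obtain ⟨α', β', c', d', hα', hβ', hc', hd', ht₂', hch', hN1, hN2⟩ :=
    chart_shrink h.sol.cont hch ht₂ ht₂I hN
  refine ⟨α', β', ⟨t₂, ht₂, ht₂'⟩, fun s hsC hsI s' hsC' hsI' hss => ?_⟩
  have hsub' : Icc s s' ⊆ Ioo α' β' := fun t ht =>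
    ⟨lt_of_lt_of_le hsI.1 ht.1, lt_of_le_of_lt ht.2 hsI'.2⟩
  have hsub : Icc s s' ⊆ Ioo α β := fun t ht =>
    ⟨lt_of_le_of_lt hα' (hsub' ht).1, lt_of_lt_of_le (hsub' ht).2 hβ'⟩
  have hss' : s ∈ Icc s s' := ⟨le_refl _, hss.le⟩
  have hss'' : s' ∈ Icc s s' := ⟨hss.le, le_refl _⟩
  have hq : Sol F G u q s s' := sol_mono E h.adm h.sol (hI0 s (hsub hss')).1 (hI0 s' (hsub hss'')).2
  have hy : ∀ t ∈ Icc s s', (q t).2 ∈ Ioo c d := fun t ht => hch.y t (hsub ht)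
  have hyc : ContinuousOn (fun t => (q t).2) (Icc s s') := continuous_snd.comp_continuousOn hq.cont
  have hpc : ContinuousOn (fun t => (t, (q t).2)) (Icc s s') := continuousOn_id.prodMk hyc
  have hqc : ContinuousOn (fun t => (t, q t)) (Icc s s') := continuousOn_id.prodMk hq.cont
  have hx0 : ∀ t ∈ C, t ∈ Icc s s' → (q t).1 - ζ (t, (q t).2) = 0 := fun t htC ht => by
    rw [hch.x t htC (hsub ht), sub_self]
  have zc : ContinuousOn (fun t => (q t).1 - ζ (t, (q t).2)) (Icc s s') :=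
    (continuous_fst.comp_continuousOn hq.cont).sub
      (hch.an.continuousOn.comp hpc fun t ht => ⟨hsub ht, hy t ht⟩)
  have Bc : ContinuousOn (fun t => zb G ζ (t, q t)) (Icc s s') := fun t ht =>
    ContinuousAt.comp_continuousWithinAt (g := zb G ζ) (hzbA t (hsub ht)).continuousAt (hqc t ht)
  have Ac : ContinuousOn (fun t => za F ζ (t, q t)) (Icc s s') := fun t ht =>
    ContinuousAt.comp_continuousWithinAt (g := za F ζ) (hzaA t (hsub ht)).continuousAt (hqc t ht)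
  have εc : ContinuousOn (fun t => za F ζ (t, q t) + ν * zb G ζ (t, q t)) (Icc s s') :=
    Ac.add (continuousOn_const.mul Bc)
  have hε : ∀ t ∈ Icc s s', |za F ζ (t, q t) + ν * zb G ζ (t, q t)|
      ≤ (K : ℝ) * |(q t).1 - ζ (t, (q t).2)| := by
    intro t ht
    have h1 := hL.dist_le_mul (t, q t) (hN1 t (hsub' ht)) (up ζ (t, (q t).2))
      (hN2 _ ⟨hsub' ht, hch'.y t (hsub' ht)⟩)
    have h2 := hsg (t, (q t).2) ⟨hsub ht, hy t ht⟩
    rw [h2, Real.dist_eq, sub_zero] at h1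
    have h3 : dist ((t, q t) : ℝ × ℝ × ℝ) (up ζ (t, (q t).2)) = |(q t).1 - ζ (t, (q t).2)| := by
      rw [Prod.dist_eq, Prod.dist_eq]
      simp only [up, dist_self, Real.dist_eq]
      simp
    rw [h3] at h1
    exact h1
  have hzq : ∀ t ∈ Icc s s', (q t).1 - ζ (t, (q t).2)
      = ∫ r in s..t, (zb G ζ (r, q r) * (u r - ν) + (za F ζ (r, q r) + ν * zb G ζ (r, q r))) := by
    intro t ht
    have h1 := zeq E hch.an h.adm hq hsub hy s hss' t ht
    rw [hx0 s hsC hss', sub_zero] at h1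
    rw [h1]
    refine intervalIntegral.integral_congr fun r _ => ?_
    ring
  have hz0 := sat hss K.2 hν h.adm zc Bc εc (fun t ht => hb t (hsub ht)) hε hzq
    (hx0 s' hsC' hss'')
  refine feed_jn E hch.an hch.box hb' h.adm hss hq hsub hy fun t ht => ?_
  have := hz0 t ht
  linarith

end Pool.Agent.Lib.MP_28b8de_an.PT
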