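import Pool.Agent.Lib.MP_28b8de_an.P.PKder
import Pool.Agent.Lib.MP_28b8de_an.P.PPhi
import Pool.Agent.Lib.MP_28b8de_an.P.POde
import Pool.Agent.Lib.MP_28b8de_an.P.PGlue

/-!
MP_28b8de_an, module PCurve (PTD-PCurve): if the trajectory agrees on a portion of C with an analytic curve, then the curve
is an admissible trajectory near some point of C and `Goal` holds.

PROOF.  (WLOG shrink ε: γ analytic on the ball, (t, γ t) ∈ Box R (tr_box), Ioo (t₃-ε) (t₃+ε) ⊆ Ioo 0 T.)  For t ∈ C near t₃ and every linear functional l on ℝ × ℝ: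
m(s) := l (q s - γ s), A(s) := l (F (s, q s) - γ'(s)), B(s) := l (G (s, q s)); `kder`: |l (F - γ')| ≤ |l G| at (t, q t) = (t, γ t).
Let g(t) := G (t, γ t), e(t) := γ'(t) - F (t, γ t): analytic near t₃ (components).  On C: |l e| ≤ |l g| for all l.
(i) g = 0 on C near t₃: then e = 0 on C; both analytic with accumulating zeros at t₃, so g = e = 0 near t₃: γ' = F (t, γ) near t₃;
γ solves the system with control 0: for s < t in C near t₃: Jn (v = 0, r = γ; γ smooth; |γ - q| ≤ 1 near t₃ by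
continuity).
(ii) t₄ ∈ C near t₃ with g t₄ ≠ 0.  l := det(·, g(t)) gives det (e, g) = 0 on C near t₄, hence near t₄ identically (analytic, accumulating
zeros at t₄ ∈ C).  v(t) := (e·g)/(g·g) analytic near t₄, e = v g, and |v| ≤ 1 on C (take l with l g ≠ 0).
 (ii-a) |v t₅| < 1 for some t₅ ∈ C near t₄: |v| < 1 near t₅.  (ii-b) otherwise v² - 1 = 0 on C near t₄, so identically near t₄.
In both cases |v| ≤ 1 on some Ioo around a point of C and γ' = F + v G there: γ is a solution with the control v (cut off to be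
measurable and bounded by 1 everywhere, e.g. by 0 outside the interval), γ smooth, so Jn F G q s t with r = γ for s < t in C near that point.
-/

namespace Pool.Agent.Lib.MP_28b8de_an.PT

open Filter Topology Set MeasureTheory

variable {F G : ℝ × ℝ × ℝ → ℝ × ℝ} {R M : ℝ}

/-- an analytic curve that solves the system with a continuous admissible control joins points of `q` -/
private theorem pcurve_key (E : Env F G R M) {q γ : ℝ → ℝ × ℝ} {C : Set ℝ} {α β : ℝ} {w : ℝ → ℝ}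
    (ha : ∀ t ∈ Ioo α β, AnalyticAt ℝ γ t) (hw : ContinuousOn w (Ioo α β))
    (hw1 : ∀ t ∈ Ioo α β, |w t| ≤ 1)
    (he : ∀ t ∈ Ioo α β, deriv γ t = F (t, γ t) + w t • G (t, γ t))
    (hb : ∀ t ∈ Ioo α β, ‖γ t - q t‖ ≤ 1) (hq : ∀ t ∈ C, t ∈ Ioo α β → q t = γ t) :
    ∀ s ∈ C, s ∈ Ioo α β → ∀ t ∈ C, t ∈ Ioo α β → s < t → Jn F G q s t := by
  classical
  intro s hs hsI t ht htI hst
  have hIcc : ∀ x ∈ Icc s t, x ∈ Ioo α β := fun x hx =>
    ⟨lt_of_lt_of_le hsI.1 hx.1, lt_of_le_of_lt hx.2 htI.2⟩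
  have hγc : ContinuousOn γ (Ioo α β) := fun x hx => (ha x hx).continuousAt.continuousWithinAt
  have hFc : Continuous F := E.Fs.continuous
  have hGc : Continuous G := E.Gs.continuous
  have hpc : ContinuousOn (fun x => (x, γ x)) (Ioo α β) := continuousOn_id.prodMk hγc
  have hvc : ContinuousOn (fun x => F (x, γ x) + w x • G (x, γ x)) (Ioo α β) :=
    (hFc.comp_continuousOn hpc).add (hw.smul (hGc.comp_continuousOn hpc))
  refine ⟨(Ioo α β).piecewise w (fun _ => 0), γ, ⟨?_, ?_⟩, ⟨?_, ?_⟩, (hq s hs hsI).symm,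
    (hq t ht htI).symm, ?_, ?_⟩
  · exact hw.measurable_piecewise continuousOn_const measurableSet_Ioo
  · intro x
    by_cases hx : x ∈ Ioo α β
    · rw [piecewise_eq_of_mem _ _ _ hx]; exact hw1 x hx
    · rw [piecewise_eq_of_notMem _ _ _ hx]; simp
  · exact hγc.mono hIcc
  · intro x hx
    have hsub : uIcc s x ⊆ Ioo α β := by
      intro y hy
      rw [uIcc_of_le hx.1] at hy
      exact hIcc y ⟨hy.1, le_trans hy.2 hx.2⟩
    have h1 : ∫ r in s..x, (F (r, γ r) + (Ioo α β).piecewise w (fun _ => 0) r • G (r, γ r))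
        = ∫ r in s..x, (F (r, γ r) + w r • G (r, γ r)) := by
      refine intervalIntegral.integral_congr fun r hr => ?_
      simp only [piecewise_eq_of_mem _ _ _ (hsub hr)]
    rw [h1, intervalIntegral.integral_eq_sub_of_hasDerivAt (f := γ)]
    · abel
    · intro r hr
      have h2 := (ha r (hsub hr)).differentiableAt.hasDerivAt
      rwa [he r (hsub hr)] at h2
    · exact (hvc.mono hsub).intervalIntegrable
  · intro x hx
    exact hb x (hIcc x hx)
  · have h0 : {x ∈ Ioo s t | ¬ SmAt γ x} = ∅ := by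
      ext x
      simp only [mem_ofPred_eq, mem_empty_iff_false, iff_false, not_and, not_not]
      intro hx
      have hxI := hIcc x ⟨hx.1.le, hx.2.le⟩
      refine ⟨min (x - α) (β - x), lt_min (by linarith [hxI.1]) (by linarith [hxI.2]), ?_⟩
      intro y hy
      have h3 := min_le_left (x - α) (β - x)
      have h4 := min_le_right (x - α) (β - x)
      exact (ha y ⟨by linarith [hy.1], by linarith [hy.2]⟩).contDiffAt.contDiffWithinAt
    rw [h0]; exact countable_empty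

/-- the set of zeros accumulates at points of a perfect set -/
private theorem pcurve_zero {T : ℝ} {C : Set ℝ} (hC : Perf T C) {t : ℝ} (ht : t ∈ C) {δ : ℝ}
    (hδ : 0 < δ) {X : Type*} [NormedAddCommGroup X] [NormedSpace ℝ X] {f : ℝ → X}
    (hf : AnalyticAt ℝ f t) (h : ∀ s ∈ C, |s - t| < δ → f s = 0) : ∀ᶠ s in 𝓝 t, f s = 0 := by
  refine (hf.frequently_zero_iff_eventually_zero).1 ?_
  rw [frequently_iff]
  intro U hU
  rw [mem_nhdsWithin] at hU
  obtain ⟨V, hV, htV, hVU⟩ := hU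
  obtain ⟨ε, hε, hεV⟩ := Metric.isOpen_iff.1 hV t htV
  obtain ⟨s, hs, hst, hsd⟩ := hC.acc t ht (min ε δ) (lt_min hε hδ)
  refine ⟨s, hVU ⟨hεV ?_, hst⟩, h s hs (lt_of_lt_of_le hsd (min_le_right _ _))⟩
  rw [Metric.mem_ball, Real.dist_eq]
  exact lt_of_lt_of_le hsd (min_le_left _ _)

private theorem pcurve_ev {P : ℝ → Prop} {t : ℝ} (h : ∀ᶠ s in 𝓝 t, P s) :
    ∃ δ > 0, ∀ s ∈ Ioo (t - δ) (t + δ), P s := by
  obtain ⟨δ, hδ, h⟩ := Metric.eventually_nhds_iff.1 h
  refine ⟨δ, hδ, fun s hs => h ?_⟩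
  rw [Real.dist_eq, abs_lt]
  constructor <;> linarith [hs.1, hs.2]

theorem curve_goal {T : ℝ} {u : ℝ → ℝ} {q : ℝ → ℝ × ℝ} (h : Tr F G R M T u q) {C : Set ℝ}
    (hC : Perf T C) {γ : ℝ → ℝ × ℝ} {t₃ : ℝ} (ht₃ : t₃ ∈ C) (ht₃' : t₃ ∈ Ioo 0 T)
    (hγ : AnalyticAt ℝ γ t₃) {ε : ℝ} (hε : 0 < ε) (hq : ∀ t ∈ C, |t - t₃| < ε → q t = γ t) :
    Goal F G q C := by
  have E := h.env
  have hFc : Continuous F := E.Fs.continuous
  have hGc : Continuous G := E.Gs.continuous
  have hqc : ContinuousAt q t₃ :=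
    (h.sol.cont t₃ (Ioo_subset_Icc_self ht₃')).continuousAt (Icc_mem_nhds ht₃'.1 ht₃'.2)
  have hq3 : q t₃ = γ t₃ := hq t₃ ht₃ (by simpa using hε)
  -- the working interval
  have ev : ∀ᶠ t in 𝓝 t₃, AnalyticAt ℝ γ t ∧ ‖γ t - q t‖ ≤ 1 ∧ t ∈ Ioo 0 T ∧
      |t - t₃| < ε := by
    refine hγ.eventually_analyticAt.and (Filter.Eventually.and ?_ (Filter.Eventually.and
      (Ioo_mem_nhds ht₃'.1 ht₃'.2) ?_))
    · have hc : ContinuousAt (fun t => ‖γ t - q t‖) t₃ := (hγ.continuousAt.sub hqc).norm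
      have h0 : ‖γ t₃ - q t₃‖ < 1 := by rw [hq3]; simp
      exact (hc.eventually_lt continuousAt_const h0).mono fun t ht => ht.le
    · have hc : ContinuousAt (fun t => |t - t₃|) t₃ :=
        ((continuous_id.sub continuous_const).abs).continuousAt
      exact hc.eventually_lt continuousAt_const (by simpa using hε)
  obtain ⟨δ, hδ, hJ⟩ := pcurve_ev ev
  set α := t₃ - δ with hα
  set β := t₃ + δ with hβ
  have hqC : ∀ t ∈ C, t ∈ Ioo α β → q t = γ t := fun t ht htI => hq t ht (hJ t htI).2.2.2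
  have hIcc : ∀ t ∈ Ioo α β, t ∈ Icc 0 T := fun t ht => Ioo_subset_Icc_self (hJ t ht).2.2.1
  have hbox : ∀ t ∈ Ioo α β, (t, γ t) ∈ Box R := fun t ht => tr_box h (hIcc t ht) (hJ t ht).2.1
  have hpa : ∀ t ∈ Ioo α β, AnalyticAt ℝ (fun t => (t, γ t)) t := fun t ht =>
    AnalyticAt.prod analyticAt_id (hJ t ht).1
  have hga : ∀ t ∈ Ioo α β, AnalyticAt ℝ (fun t => G (t, γ t)) t := fun t ht =>
    AnalyticAt.comp_of_eq (E.Ga _ (hbox t ht)) (hpa t ht) rfl
  have hfa : ∀ t ∈ Ioo α β, AnalyticAt ℝ (fun t => F (t, γ t)) t := fun t ht =>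
    AnalyticAt.comp_of_eq (E.Fa _ (hbox t ht)) (hpa t ht) rfl
  have hda : ∀ t ∈ Ioo α β, AnalyticAt ℝ (deriv γ) t := fun t ht => (hJ t ht).1.deriv
  set g : ℝ → ℝ × ℝ := fun t => G (t, γ t) with hg
  set e : ℝ → ℝ × ℝ := fun t => deriv γ t - F (t, γ t) with he
  have hea : ∀ t ∈ Ioo α β, AnalyticAt ℝ e t := fun t ht => (hda t ht).sub (hfa t ht)
  have hqcJ : ContinuousOn q (Ioo α β) := h.sol.cont.mono hIcc
  have hdc : ContinuousOn (deriv γ) (Ioo α β) := fun t ht =>
    (hda t ht).continuousAt.continuousWithinAt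
  -- the inequality on `C`
  have key : ∀ t ∈ C, t ∈ Ioo α β → ∀ l : (ℝ × ℝ) →L[ℝ] ℝ, |l (e t)| ≤ |l (g t)| := by
    intro t ht htI l
    have hpq : ContinuousOn (fun s => (s, q s)) (Ioo α β) := continuousOn_id.prodMk hqcJ
    have h1 := kder hC ht htI (A := fun s => l (F (s, q s) - deriv γ s))
      (B := fun s => l (G (s, q s))) (u := u) (m := fun s => l (q s - γ s)) h.adm
      (l.continuous.comp_continuousOn ((hFc.comp_continuousOn hpq).sub hdc))
      (l.continuous.comp_continuousOn (hGc.comp_continuousOn hpq))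
      (fun s hs hsI => by simp only [hqC s hs hsI, sub_self, map_zero]) ?_
    · have h2 : l (F (t, q t) - deriv γ t) = - l (e t) := by
        rw [← map_neg, hqC t ht htI]
        congr 1
        simp only [he, neg_sub]
      simp only [h2, abs_neg] at h1
      rw [hqC t ht htI] at h1
      exact h1
    · intro s hs s' hs'
      have hsub : uIcc s s' ⊆ Ioo α β := by
        intro x hx
        rw [mem_uIcc] at hx
        rcases hx with hx | hx
        · exact ⟨lt_of_lt_of_le hs.1 hx.1, lt_of_le_of_lt hx.2 hs'.2⟩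
        · exact ⟨lt_of_lt_of_le hs'.1 hx.1, lt_of_le_of_lt hx.2 hs.2⟩
      have hi1 := rhs_int E h.adm h.sol.cont (hIcc s hs) (hIcc s' hs')
      have hi2 : IntervalIntegrable (deriv γ) volume s s' := (hdc.mono hsub).intervalIntegrable
      have e1 := sol_sub E h.adm h.sol (hIcc s hs) (hIcc s' hs')
      have e2 : ∫ r in s..s', deriv γ r = γ s' - γ s :=
        intervalIntegral.integral_eq_sub_of_hasDerivAt
          (fun r hr => (hJ r (hsub hr)).1.differentiableAt.hasDerivAt) hi2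
      have e3 : (q s' - γ s') - (q s - γ s)
          = ∫ r in s..s', ((F (r, q r) + u r • G (r, q r)) - deriv γ r) := by
        rw [intervalIntegral.integral_sub hi1 hi2, ← e1, e2]; abel
      have e4 := l.intervalIntegral_comp_comm (hi1.sub hi2)
      show l (q s' - γ s') - l (q s - γ s) = _
      rw [← map_sub, e3, ← e4]
      refine intervalIntegral.integral_congr fun r _ => ?_
      simp only [map_sub, map_add, map_smul, smul_eq_mul]
      ring
  by_cases hcase : ∀ t ∈ C, t ∈ Ioo α β → g t = 0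
  · -- case (i)
    have he0 : ∀ t ∈ C, t ∈ Ioo α β → e t = 0 := by
      intro t ht htI
      have h1 := key t ht htI (ContinuousLinearMap.fst ℝ ℝ ℝ)
      have h2 := key t ht htI (ContinuousLinearMap.snd ℝ ℝ ℝ)
      rw [hcase t ht htI] at h1 h2
      simp only [map_zero, abs_zero, abs_nonpos_iff] at h1 h2
      exact Prod.ext h1 h2
    have hmem : ∀ t, |t - t₃| < δ → t ∈ Ioo α β := fun t ht => by
      rw [abs_lt] at ht; constructor <;> simp only [hα, hβ] <;> linarith [ht.1, ht.2]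
    have h3I : t₃ ∈ Ioo α β := hmem t₃ (by simpa using hδ)
    have hev : ∀ᶠ t in 𝓝 t₃, e t = 0 :=
      pcurve_zero hC ht₃ hδ (hea t₃ h3I) fun s hs hsd => he0 s hs (hmem s hsd)
    obtain ⟨δ', hδ', hE⟩ := pcurve_ev (hev.and (Ioo_mem_nhds h3I.1 h3I.2))
    refine ⟨t₃ - δ', t₃ + δ', ⟨t₃, ht₃, by constructor <;> linarith⟩, ?_⟩
    refine pcurve_key E (w := fun _ => 0) (γ := γ) (fun t ht => (hJ t (hE t ht).2).1)
      continuousOn_const (by simp) (fun t ht => ?_) (fun t ht => (hJ t (hE t ht).2).2.1)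
      (fun t ht htI => hqC t ht (hE t htI).2)
    have := (hE t ht).1
    simp only [he, sub_eq_zero] at this
    simp [this]
  · -- case (ii)
    push Not at hcase
    obtain ⟨t₄, h4C, h4I, h4g⟩ := hcase
    set D : ℝ → ℝ := fun t => (e t).1 * (g t).2 - (e t).2 * (g t).1 with hD
    set N : ℝ → ℝ := fun t => (g t).1 * (g t).1 + (g t).2 * (g t).2 with hN
    set v : ℝ → ℝ := fun t => ((e t).1 * (g t).1 + (e t).2 * (g t).2) / N t with hv
    have hN0 : ∀ t, g t ≠ 0 → N t ≠ 0 := by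
      intro t ht h0
      have h1 : (g t).1 * (g t).1 = 0 := by nlinarith [mul_self_nonneg (g t).1, mul_self_nonneg (g t).2]
      have h2 : (g t).2 * (g t).2 = 0 := by nlinarith [mul_self_nonneg (g t).1, mul_self_nonneg (g t).2]
      exact ht (Prod.ext (mul_self_eq_zero.1 h1) (mul_self_eq_zero.1 h2))
    have hfst : ∀ {k : ℝ → ℝ × ℝ} {t : ℝ}, AnalyticAt ℝ k t → AnalyticAt ℝ (fun t => (k t).1) t :=
      fun hk => (ContinuousLinearMap.fst ℝ ℝ ℝ).analyticAt _ |>.comp hk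
    have hsnd : ∀ {k : ℝ → ℝ × ℝ} {t : ℝ}, AnalyticAt ℝ k t → AnalyticAt ℝ (fun t => (k t).2) t :=
      fun hk => (ContinuousLinearMap.snd ℝ ℝ ℝ).analyticAt _ |>.comp hk
    have hDa : ∀ t ∈ Ioo α β, AnalyticAt ℝ D t := fun t ht =>
      ((hfst (hea t ht)).mul (hsnd (hga t ht))).sub ((hsnd (hea t ht)).mul (hfst (hga t ht)))
    have hNa : ∀ t ∈ Ioo α β, AnalyticAt ℝ N t := fun t ht =>
      ((hfst (hga t ht)).mul (hfst (hga t ht))).add ((hsnd (hga t ht)).mul (hsnd (hga t ht)))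
    have hva : ∀ t ∈ Ioo α β, g t ≠ 0 → AnalyticAt ℝ v t := fun t ht hgt =>
      (((hfst (hea t ht)).mul (hfst (hga t ht))).add ((hsnd (hea t ht)).mul (hsnd (hga t ht)))).div
        (hNa t ht) (hN0 t hgt)
    have hD0 : ∀ t ∈ C, t ∈ Ioo α β → D t = 0 := by
      intro t ht htI
      have h1 := key t ht htI ((g t).2 • (ContinuousLinearMap.fst ℝ ℝ ℝ)
        - (g t).1 • (ContinuousLinearMap.snd ℝ ℝ ℝ))
      simp only [FunLike.coe_sub, Pi.sub_apply, FunLike.coe_smul,
        Pi.smul_apply, ContinuousLinearMap.coe_fst', ContinuousLinearMap.coe_snd', smul_eq_mul] at h1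
      have h2 : (g t).2 * (g t).1 - (g t).1 * (g t).2 = 0 := by ring
      rw [h2, abs_zero, abs_nonpos_iff] at h1
      simp only [hD]; linarith
    -- `e = v g` where `D = 0` and `g ≠ 0`
    have hevg : ∀ t, D t = 0 → g t ≠ 0 → e t = v t • g t := by
      intro t hDt hgt
      have hNt := hN0 t hgt
      have hDt' : (e t).1 * (g t).2 = (e t).2 * (g t).1 := by
        simp only [hD] at hDt; linarith
      refine Prod.ext ?_ ?_
      · simp only [hv, Prod.smul_fst, smul_eq_mul]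
        rw [div_mul_eq_mul_div, eq_div_iff hNt]
        simp only [hN]
        linear_combination (g t).2 * hDt'
      · simp only [hv, Prod.smul_snd, smul_eq_mul]
        rw [div_mul_eq_mul_div, eq_div_iff hNt]
        simp only [hN]
        linear_combination (- (g t).1) * hDt'
    have hv1 : ∀ t ∈ C, t ∈ Ioo α β → g t ≠ 0 → |v t| ≤ 1 := by
      intro t ht htI hgt
      have h0 := hevg t (hD0 t ht htI) hgt
      by_cases h1 : (g t).1 = 0
      · have h2 : (g t).2 ≠ 0 := fun h2 => hgt (Prod.ext h1 h2)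
        have h3 := key t ht htI (ContinuousLinearMap.snd ℝ ℝ ℝ)
        rw [h0] at h3
        simp only [ContinuousLinearMap.coe_snd', Prod.smul_snd, smul_eq_mul, abs_mul] at h3
        exact le_of_mul_le_mul_right (by linarith) (abs_pos.2 h2)
      · have h3 := key t ht htI (ContinuousLinearMap.fst ℝ ℝ ℝ)
        rw [h0] at h3
        simp only [ContinuousLinearMap.coe_fst', Prod.smul_fst, smul_eq_mul, abs_mul] at h3
        exact le_of_mul_le_mul_right (by linarith) (abs_pos.2 h1)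
    -- final step around a point `t₅`
    have fin : ∀ t₅ ∈ C, t₅ ∈ Ioo α β → g t₅ ≠ 0 → (∀ᶠ t in 𝓝 t₅, |v t| ≤ 1) →
        (∀ᶠ t in 𝓝 t₅, D t = 0) → Goal F G q C := by
      intro t₅ h5C h5I h5g hv5 hD5
      have hg5 : ∀ᶠ t in 𝓝 t₅, g t ≠ 0 := (hga t₅ h5I).continuousAt.eventually_ne h5g
      obtain ⟨δ', hδ', hE⟩ := pcurve_ev
        (((hv5.and hD5).and hg5).and (Ioo_mem_nhds h5I.1 h5I.2))
      refine ⟨t₅ - δ', t₅ + δ', ⟨t₅, h5C, by constructor <;> linarith⟩, ?_⟩
      refine pcurve_key E (w := v) (γ := γ) (fun t ht => (hJ t (hE t ht).2).1)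
        (fun t ht => (hva t (hE t ht).2 (hE t ht).1.2).continuousAt.continuousWithinAt)
        (fun t ht => (hE t ht).1.1.1) (fun t ht => ?_) (fun t ht => (hJ t (hE t ht).2).2.1)
        (fun t ht htI => hqC t ht (hE t htI).2)
      have h1 := hevg t (hE t ht).1.1.2 (hE t ht).1.2
      simp only [he] at h1
      rw [sub_eq_iff_eq_add] at h1
      rw [h1, add_comm]
    -- near `t₄`
    have hnhd : ∃ δ₄ > 0, ∀ t ∈ Ioo (t₄ - δ₄) (t₄ + δ₄), t ∈ Ioo α β ∧ g t ≠ 0 :=
      pcurve_ev (Filter.Eventually.and (Ioo_mem_nhds h4I.1 h4I.2)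
        ((hga t₄ h4I).continuousAt.eventually_ne h4g))
    obtain ⟨δ₄, hδ₄, h4⟩ := hnhd
    have hmem4 : ∀ t, |t - t₄| < δ₄ → t ∈ Ioo (t₄ - δ₄) (t₄ + δ₄) := fun t ht => by
      rw [abs_lt] at ht; constructor <;> linarith [ht.1, ht.2]
    have hDev : ∀ t₅ ∈ C, t₅ ∈ Ioo (t₄ - δ₄) (t₄ + δ₄) → ∀ᶠ t in 𝓝 t₅, D t = 0 := by
      intro t₅ h5C h5I
      refine pcurve_zero hC h5C (δ := min (t₅ - (t₄ - δ₄)) (t₄ + δ₄ - t₅))
        (lt_min (by linarith [h5I.1]) (by linarith [h5I.2])) (hDa t₅ (h4 t₅ h5I).1) ?_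
      intro s hs hsd
      have h6 := min_le_left (t₅ - (t₄ - δ₄)) (t₄ + δ₄ - t₅)
      have h7 := min_le_right (t₅ - (t₄ - δ₄)) (t₄ + δ₄ - t₅)
      rw [abs_lt] at hsd
      exact hD0 s hs (h4 s ⟨by linarith [hsd.1], by linarith [hsd.2]⟩).1
    by_cases hc2 : ∃ t₅ ∈ C, t₅ ∈ Ioo (t₄ - δ₄) (t₄ + δ₄) ∧ |v t₅| < 1
    · obtain ⟨t₅, h5C, h5I, h5v⟩ := hc2
      refine fin t₅ h5C (h4 t₅ h5I).1 (h4 t₅ h5I).2 ?_ (hDev t₅ h5C h5I)
      have hc : ContinuousAt (fun t => |v t|) t₅ :=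
        ((hva t₅ (h4 t₅ h5I).1 (h4 t₅ h5I).2).continuousAt).abs
      exact (hc.eventually_lt continuousAt_const h5v).mono fun t ht => ht.le
    · push Not at hc2
      have h4I' : t₄ ∈ Ioo (t₄ - δ₄) (t₄ + δ₄) := hmem4 t₄ (by simpa using hδ₄)
      refine fin t₄ h4C h4I h4g ?_ (hDev t₄ h4C h4I')
      have hev : ∀ᶠ t in 𝓝 t₄, v t * v t - 1 = 0 := by
        refine pcurve_zero hC h4C hδ₄
          (((hva t₄ h4I h4g).mul (hva t₄ h4I h4g)).sub analyticAt_const) ?_
        intro s hs hsd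
        have hsI := hmem4 s hsd
        have h5 := hv1 s hs (h4 s hsI).1 (h4 s hsI).2
        have h6 := hc2 s hs hsI
        have h7 : |v s| = 1 := le_antisymm h5 h6
        have h8 : v s * v s = |v s| * |v s| := (abs_mul_abs_self (v s)).symm
        rw [h8, h7]; norm_num
      refine hev.mono fun t ht => ?_
      have h9 : v t * v t = 1 := by linarith
      exact abs_le_one_iff_mul_self_le_one.2 h9.le

end Pool.Agent.Lib.MP_28b8de_an.PT
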