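import Pool.Agent.Lib.MP_28b8de_an.E.OpenMap2
import Pool.Agent.Lib.MP_28b8de_an.E.EDefs
import Pool.Agent.Lib.MP_28b8de_an.Approx

/-!
MP_28b8de_an, module PDefs: definitions for time-dependent planar systems `q' = F(t,q) + u G(t,q)`.
Points of `ℝ × ℝ × ℝ` are `(t, q)` with `q = (x, y)`.
-/

namespace Pool.Agent.Lib.MP_28b8de_an.PT

open Filter Topology Set MeasureTheory

/-- the open box `(-R,R)^3` -/
def Box (R : ℝ) : Set (ℝ × ℝ × ℝ) := Ioo (-R) R ×ˢ Ioo (-R) R ×ˢ Ioo (-R) R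

/-- space derivative of a field -/
noncomputable def dx (F : ℝ × ℝ × ℝ → ℝ × ℝ) (z : ℝ × ℝ × ℝ) : (ℝ × ℝ) →L[ℝ] (ℝ × ℝ) :=
  (fderiv ℝ F z).comp (ContinuousLinearMap.inr ℝ ℝ (ℝ × ℝ))

/-- the bracket `W = G_t + (D G) F - (D F) G` -/
noncomputable def W (F G : ℝ × ℝ × ℝ → ℝ × ℝ) (z : ℝ × ℝ × ℝ) : ℝ × ℝ :=
  fderiv ℝ G z (1, 0) + dx G z (F z) - dx F z (G z)

/-- the determinant `det (G, W)` -/
noncomputable def Dt (F G : ℝ × ℝ × ℝ → ℝ × ℝ) (z : ℝ × ℝ × ℝ) : ℝ :=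
  (G z).1 * (W F G z).2 - (G z).2 * (W F G z).1

/-- standing assumptions on the (cut off) fields -/
structure Env (F G : ℝ × ℝ × ℝ → ℝ × ℝ) (R M : ℝ) : Prop where
  hM : 1 ≤ M
  Fs : ContDiff ℝ (⊤ : ℕ∞) F
  Gs : ContDiff ℝ (⊤ : ℕ∞) G
  Fa : AnalyticOnNhd ℝ F (Box R)
  Ga : AnalyticOnNhd ℝ G (Box R)
  Fb : ∀ z, ‖F z‖ ≤ M
  Gb : ∀ z, ‖G z‖ ≤ M
  Fd : ∀ z, ‖fderiv ℝ F z‖ ≤ M
  Gd : ∀ z, ‖fderiv ℝ G z‖ ≤ M
  Fl : ∀ z w, ‖fderiv ℝ F z - fderiv ℝ F w‖ ≤ M * ‖z - w‖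
  Gl : ∀ z w, ‖fderiv ℝ G z - fderiv ℝ G w‖ ≤ M * ‖z - w‖

/-- admissible controls -/
def Adm (v : ℝ → ℝ) : Prop := Measurable v ∧ ∀ t, |v t| ≤ 1

/-- solutions of `r' = F(t,r) + v G(t,r)` on `[a,b]`, in integral form -/
structure Sol (F G : ℝ × ℝ × ℝ → ℝ × ℝ) (v : ℝ → ℝ) (r : ℝ → ℝ × ℝ) (a b : ℝ) : Prop where
  cont : ContinuousOn r (Icc a b)
  eq : ∀ t ∈ Icc a b, r t = r a + ∫ s in a..t, (F (s, r s) + v s • G (s, r s))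

/-- smooth near `t` -/
def SmAt (r : ℝ → ℝ × ℝ) (t : ℝ) : Prop :=
  ∃ ε > 0, ContDiffOn ℝ (⊤ : ℕ∞) r (Ioo (t - ε) (t + ε))

/-- `q(a)` and `q(b)` are joined on `[a,b]` by a trajectory near `q` with a countable bad set -/
def Jn (F G : ℝ × ℝ × ℝ → ℝ × ℝ) (q : ℝ → ℝ × ℝ) (a b : ℝ) : Prop :=
  ∃ (v : ℝ → ℝ) (r : ℝ → ℝ × ℝ), Adm v ∧ Sol F G v r a b ∧ r a = q a ∧ r b = q b ∧
    (∀ t ∈ Icc a b, ‖r t - q t‖ ≤ 1) ∧ {t ∈ Ioo a b | ¬ SmAt r t}.Countable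

/-- `C` has a portion between whose points `q` can be replaced -/
def Goal (F G : ℝ × ℝ × ℝ → ℝ × ℝ) (q : ℝ → ℝ × ℝ) (C : Set ℝ) : Prop :=
  ∃ α β : ℝ, (∃ t ∈ C, t ∈ Ioo α β) ∧
    ∀ s ∈ C, s ∈ Ioo α β → ∀ t ∈ C, t ∈ Ioo α β → s < t → Jn F G q s t

/-- nonempty closed subsets of `[0,T]` without isolated points -/
structure Perf (T : ℝ) (C : Set ℝ) : Prop where
  sub : C ⊆ Icc 0 T
  closed : IsClosed C
  ne : C.Nonempty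
  acc : ∀ t ∈ C, ∀ ε : ℝ, 0 < ε → ∃ s ∈ C, s ≠ t ∧ |s - t| < ε

/-- a trajectory on `[0,T]` inside the box -/
structure Tr (F G : ℝ × ℝ × ℝ → ℝ × ℝ) (R M T : ℝ) (u : ℝ → ℝ) (q : ℝ → ℝ × ℝ) : Prop where
  env : Env F G R M
  hT : 0 < T
  hTR : T < R
  adm : Adm u
  sol : Sol F G u q 0 T
  box : ∀ t ∈ Icc 0 T, ‖q t‖ ≤ R - 2

/-- the matrix of the linearised equation along `q` -/
noncomputable def Aop (F G : ℝ × ℝ × ℝ → ℝ × ℝ) (u : ℝ → ℝ) (q : ℝ → ℝ × ℝ) (s : ℝ) :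
    (ℝ × ℝ) →L[ℝ] (ℝ × ℝ) :=
  dx F (s, q s) + u s • dx G (s, q s)

/-- solutions of the adjoint equation `p' = - p A` on `[a,b]` -/
structure Adj (F G : ℝ × ℝ × ℝ → ℝ × ℝ) (u : ℝ → ℝ) (q : ℝ → ℝ × ℝ)
    (p : ℝ → (ℝ × ℝ) →L[ℝ] ℝ) (a b : ℝ) : Prop where
  cont : ContinuousOn p (Icc a b)
  eq : ∀ t ∈ Icc a b, p t = p b + ∫ s in t..b, (p s).comp (Aop F G u q s)

/-- a multiplier of `q` on `[0,T]` -/
structure Mul (F G : ℝ × ℝ × ℝ → ℝ × ℝ) (T : ℝ) (u : ℝ → ℝ) (q : ℝ → ℝ × ℝ)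
    (p : ℝ → (ℝ × ℝ) →L[ℝ] ℝ) : Prop where
  adj : Adj F G u q p 0 T
  ne : ∀ t ∈ Icc 0 T, p t ≠ 0
  max : ∀ᵐ s : ℝ, s ∈ Icc 0 T → u s * p s (G (s, q s)) = |p s (G (s, q s))|

/-- the field `z' = za + u zb` for `z = x - ζ(t,y)`, drift -/
noncomputable def za (F : ℝ × ℝ × ℝ → ℝ × ℝ) (ζ : ℝ × ℝ → ℝ) (z : ℝ × ℝ × ℝ) : ℝ :=
  (F z).1 - D1 ζ (z.1, z.2.2) - D2 ζ (z.1, z.2.2) * (F z).2

/-- the field `z' = za + u zb` for `z = x - ζ(t,y)`, controlled part -/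
noncomputable def zb (G : ℝ × ℝ × ℝ → ℝ × ℝ) (ζ : ℝ × ℝ → ℝ) (z : ℝ × ℝ × ℝ) : ℝ :=
  (G z).1 - D2 ζ (z.1, z.2.2) * (G z).2

/-- the point of the surface `x = ζ(t,y)` over `(t,y)` -/
def up (ζ : ℝ × ℝ → ℝ) (p : ℝ × ℝ) : ℝ × ℝ × ℝ := (p.1, ζ p, p.2)

/-- a surface `x = ζ(t,y)` that contains `(t,q(t))` for `t ∈ C ∩ (α,β)` -/
structure Chart (R T : ℝ) (q : ℝ → ℝ × ℝ) (C : Set ℝ) (ζ : ℝ × ℝ → ℝ) (α β c d : ℝ) :
    Prop where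
  hα : 0 ≤ α
  hβ : β ≤ T
  ne : ∃ t ∈ C, t ∈ Ioo α β
  an : AnalyticOnNhd ℝ ζ (Ioo α β ×ˢ Ioo c d)
  y : ∀ t ∈ Ioo α β, (q t).2 ∈ Ioo c d
  x : ∀ t ∈ C, t ∈ Ioo α β → (q t).1 = ζ (t, (q t).2)
  box : ∀ p ∈ Ioo α β ×ˢ Ioo c d, up ζ p ∈ Box R

/-- derivative in the direction `x` -/
noncomputable def Dx (a : ℝ × ℝ × ℝ → ℝ) (z : ℝ × ℝ × ℝ) : ℝ := fderiv ℝ a z (0, 1, 0)

/-- the system with `x` and `y` exchanged -/
def sw (F : ℝ × ℝ × ℝ → ℝ × ℝ) (z : ℝ × ℝ × ℝ) : ℝ × ℝ := (F (z.1, z.2.2, z.2.1)).swap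

/-- the `L^1` seminorm on `[0,T]` -/
noncomputable def l1 (T : ℝ) : Seminorm ℝ BM :=
  Seminorm.of (fun v => ∫ s in Icc (0 : ℝ) T, |v.1 s|)
    (by
      intro v w
      have hv : IntegrableOn (fun s => |v.1 s|) (Icc (0 : ℝ) T) := by
        obtain ⟨K, _, hK⟩ := BM_bdd v
        refine Measure.integrableOn_of_bounded (M := K) (by simp) (BM_meas v).abs.aestronglyMeasurable
          (Eventually.of_forall fun s => ?_)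
        simpa using hK s
      have hw : IntegrableOn (fun s => |w.1 s|) (Icc (0 : ℝ) T) := by
        obtain ⟨K, _, hK⟩ := BM_bdd w
        refine Measure.integrableOn_of_bounded (M := K) (by simp) (BM_meas w).abs.aestronglyMeasurable
          (Eventually.of_forall fun s => ?_)
        simpa using hK s
      have hvw : IntegrableOn (fun s => |(v + w).1 s|) (Icc (0 : ℝ) T) := by
        obtain ⟨K, _, hK⟩ := BM_bdd (v + w)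
        refine Measure.integrableOn_of_bounded (M := K) (by simp)
          (BM_meas (v + w)).abs.aestronglyMeasurable (Eventually.of_forall fun s => ?_)
        simpa using hK s
      rw [← integral_add hv hw]
      exact integral_mono hvw (hv.add hw) fun s => abs_add_le _ _)
    (by
      intro r v
      have h : ∀ s, |(r • v).1 s| = ‖r‖ * |v.1 s| := by
        intro s
        show |r * v.1 s| = _
        rw [abs_mul, Real.norm_eq_abs]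
      simp_rw [h]
      exact integral_const_mul _ _)

theorem l1_apply (T : ℝ) (v : BM) : l1 T v = ∫ s in Icc (0 : ℝ) T, |v.1 s| := rfl

end Pool.Agent.Lib.MP_28b8de_an.PT
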