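import Pool.Agent.Lib.MP_28b8de_an.P.PDefs

/-!
MP_28b8de_an, module PRel: data of a relay on an interval between two points of a perfect set.
`z' = B (u - β)`, `φ' = N + μ φ`, `N ≈ e z^k`, `u = sgn φ`.
-/

namespace Pool.Agent.Lib.MP_28b8de_an.PT

open Filter Topology Set MeasureTheory

/-- relay data on `[s,s']` -/
structure Rel (k : ℕ) (K : ℝ) (s s' : ℝ) (z φ u B β N μ e : ℝ → ℝ) : Prop where
  hs : s < s'
  hK : 0 ≤ K
  hk : 1 ≤ k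
  um : Measurable u
  ub : ∀ t, |u t| ≤ 1
  usgn : ∀ᵐ t : ℝ, t ∈ Icc s s' → u t * φ t = |φ t|
  zc : ContinuousOn z (Icc s s')
  φc : ContinuousOn φ (Icc s s')
  Bc : ContinuousOn B (Icc s s')
  βc : ContinuousOn β (Icc s s')
  Nc : ContinuousOn N (Icc s s')
  μc : ContinuousOn μ (Icc s s')
  ec : ContinuousOn e (Icc s s')
  zeq : ∀ t ∈ Icc s s', z t = ∫ r in s..t, B r * (u r - β r)
  φeq : ∀ t ∈ Icc s s', φ t = ∫ r in s..t, (N r + μ r * φ r)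
  z1 : z s' = 0
  φ1 : φ s' = 0
  B0 : ∀ t ∈ Icc s s', B t ≠ 0
  e0 : ∀ t ∈ Icc s s', e t ≠ 0
  β1 : ∀ t ∈ Icc s s', |β t| < 1
  N1 : ∀ t ∈ Icc s s', |N t - e t * z t ^ k| ≤ K * |z t| ^ (k + 1)
  N2 : ∀ t ∈ Icc s s', |N t - e t * z t ^ k| ≤ |e t| * |z t| ^ k / 2
  βl : ∃ L : NNReal, LipschitzOnWith L β (Icc s s')
  θl : ∃ L : NNReal, LipschitzOnWith L (fun t => e t / B t) (Icc s s')

end Pool.Agent.Lib.MP_28b8de_an.PT
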