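import Pool.Agent.Lib.MP_28b8de_an.P.PGlue

/-!
MP_28b8de_an, module PSeq (PTD-PSeq): infinite concatenation for `Jn`.

PROOF of jn_seq_up.  Let v_i, r_i be the data of Jn (s i) (s (i+1)).  For t < c let i(t) be the least i with
t < s (i+1) (Nat.find); v t := v_{i(t)} t for t < c, v t := 0 for t ≥ c (measurable: `Measurable.find`, or a countable
piecewise function; or v = ∑ indicators), r t := r_{i(t)} t for t < c, r c := q c.
On [s 0, s n] (by induction on n, as in sol_glue) r solves the system with control v.  So for t < c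
r t = r (s 0) + ∫_{s 0}^t (F (τ, r τ) + v τ • G (τ, r τ)) dτ, |r t - q t| ≤ 1, in particular r is 2M-Lipschitz on [s 0, c), so
it has a limit at c, which is lim r (s n) = lim q (s n) = q c (q continuous): r is continuous on [s 0, c]
and the formula holds at c (continuity of the integral; the integrand is bounded and a.e. measurable).  Bad set: contained in the
union of the bad sets of the r_i and {s i}.
A slick variant: r := the function with r = r_i on [s i, s (i+1)); show |r t - q t| ≤ 4M (s (i+1) - s i) on the piece.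
jn_seq_down: the same with s decreasing to c (pieces [s (i+1), s i]), or mirror.
-/

namespace Pool.Agent.Lib.MP_28b8de_an.PT

open Filter Topology Set MeasureTheory

variable {F G : ℝ × ℝ × ℝ → ℝ × ℝ} {R M : ℝ}

private theorem PSeq_cont (E : Env F G R M) {r : ℝ → ℝ × ℝ} {a b : ℝ}
    (hlip : ∀ t ∈ Icc a b, ∀ t' ∈ Icc a b, ‖r t' - r t‖ ≤ 2 * M * |t' - t|) :
    ContinuousOn r (Icc a b) := by
  have hM : (0 : ℝ) ≤ 2 * M := by have := E.hM; linarith
  have : LipschitzOnWith ⟨2 * M, hM⟩ r (Icc a b) := by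
    refine LipschitzOnWith.of_dist_le_mul fun x hx y hy => ?_
    rw [dist_eq_norm, Real.dist_eq]
    exact hlip y hy x hx
  exact this.continuousOn

/-- a Lipschitz function that solves the equation in the open interval is a solution -/
private theorem PSeq_sol (E : Env F G R M) {v : ℝ → ℝ} (hv : Adm v) {r : ℝ → ℝ × ℝ} {a b : ℝ}
    (hab : a < b)
    (hlip : ∀ t ∈ Icc a b, ∀ t' ∈ Icc a b, ‖r t' - r t‖ ≤ 2 * M * |t' - t|)
    (h : ∀ t ∈ Ioo a b, ∀ t' ∈ Ioo a b,
      r t' - r t = ∫ s in t..t', (F (s, r s) + v s • G (s, r s))) : Sol F G v r a b := by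
  have hc := PSeq_cont E hlip
  refine ⟨hc, ?_⟩
  have hI : ∀ s ∈ Icc a b, ∀ t ∈ Icc a b,
      IntervalIntegrable (fun s => F (s, r s) + v s • G (s, r s)) volume s t :=
    fun s hs t ht => rhs_int E hv hc hs ht
  have haI : a ∈ Icc a b := left_mem_Icc.2 hab.le
  have hbI : b ∈ Icc a b := right_mem_Icc.2 hab.le
  have hHc : ContinuousOn (fun t => r t - ∫ s in a..t, (F (s, r s) + v s • G (s, r s)))
      (Icc a b) := by
    refine hc.sub ?_
    have := intervalIntegral.continuousOn_primitive_interval' (hI a haI b hbI) (a := a)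
      (by rw [uIcc_of_le hab.le]; exact haI)
    rwa [uIcc_of_le hab.le] at this
  obtain ⟨m, hm⟩ : (Ioo a b).Nonempty := nonempty_Ioo.2 hab
  have hEq : EqOn (fun t => r t - ∫ s in a..t, (F (s, r s) + v s • G (s, r s)))
      (fun _ => r m - ∫ s in a..m, (F (s, r s) + v s • G (s, r s))) (Ioo a b) := by
    intro t ht
    have h1 := h m hm t ht
    have h2 := intervalIntegral.integral_interval_sub_left (hI a haI t (Ioo_subset_Icc_self ht))
      (hI a haI m (Ioo_subset_Icc_self hm))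
    rw [← h2] at h1
    show r t - _ = r m - _
    rw [sub_eq_sub_iff_sub_eq_sub]
    exact h1
  have hEq2 := hEq.of_subset_closure hHc continuousOn_const Ioo_subset_Icc_self
    (by rw [closure_Ioo hab.ne])
  intro t ht
  have e1 := hEq2 ht
  have e2 := hEq2 haI
  have e3 : r t - ∫ s in a..t, (F (s, r s) + v s • G (s, r s)) =
      r a - ∫ s in a..a, (F (s, r s) + v s • G (s, r s)) := by
    rw [← show _ = r t - ∫ s in a..t, (F (s, r s) + v s • G (s, r s)) from e1.symm]
    exact e2.symm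
  rw [intervalIntegral.integral_same, sub_zero, sub_eq_iff_eq_add] at e3
  exact e3

private theorem PSeq_smAt {r r' : ℝ → ℝ × ℝ} {a b t : ℝ} (ht : t ∈ Ioo a b)
    (he : ∀ τ ∈ Ioo a b, r τ = r' τ) (h : SmAt r' t) : SmAt r t := by
  obtain ⟨ε, hε, h⟩ := h
  refine ⟨min ε (min (t - a) (b - t)), lt_min hε (lt_min (sub_pos.2 ht.1) (sub_pos.2 ht.2)), ?_⟩
  have h1 : min ε (min (t - a) (b - t)) ≤ ε := min_le_left _ _
  have h2 : min ε (min (t - a) (b - t)) ≤ t - a := (min_le_right _ _).trans (min_le_left _ _)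
  have h3 : min ε (min (t - a) (b - t)) ≤ b - t := (min_le_right _ _).trans (min_le_right _ _)
  refine (h.mono (Ioo_subset_Ioo (by linarith) (by linarith))).congr fun τ hτ => ?_
  exact he τ ⟨by linarith [hτ.1], by linarith [hτ.2]⟩

theorem jn_seq_up (E : Env F G R M) {q : ℝ → ℝ × ℝ} {s : ℕ → ℝ} {c : ℝ}
    (hq : ContinuousOn q (Icc (s 0) c)) (hs : StrictMono s) (hlim : Tendsto s atTop (𝓝 c))
    (h : ∀ i, Jn F G q (s i) (s (i + 1))) : Jn F G q (s 0) c := by
  classical
  choose v r hv hr hra hrb hn hbad using h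
  have hsc : ∀ i, s i < c := fun i =>
    (hs (Nat.lt_succ_self i)).trans_le (hs.monotone.ge_of_tendsto hlim (i + 1))
  have hex : ∀ t : ℝ, ∃ n, t < s (n + 1) ∨ c ≤ t := by
    intro t
    rcases lt_or_ge t c with h | h
    · obtain ⟨n, hn⟩ := (hlim.eventually (lt_mem_nhds h)).exists
      exact ⟨n, Or.inl (hn.trans (hs (Nat.lt_succ_self n)))⟩
    · exact ⟨0, Or.inr h⟩
  set V : ℝ → ℝ := fun t => v (Nat.find (hex t)) t with hV
  set Q : ℝ → ℝ × ℝ := fun t => if t < c then r (Nat.find (hex t)) t else q c with hQ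
  have hidx : ∀ i t, s i ≤ t → t < s (i + 1) → Nat.find (hex t) = i := by
    intro i t h1 h2
    rw [Nat.find_eq_iff]
    refine ⟨Or.inl h2, fun n hn => ?_⟩
    rintro (h | h)
    · exact absurd h (not_lt.2 ((hs.monotone (Nat.succ_le_of_lt hn)).trans h1))
    · exact absurd (h2.trans (hsc (i + 1))) (not_lt.2 h)
  have hVe : ∀ i t, s i ≤ t → t < s (i + 1) → V t = v i t := by
    intro i t h1 h2
    simp only [hV, hidx i t h1 h2]
  have hQe : ∀ i t, s i ≤ t → t < s (i + 1) → Q t = r i t := by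
    intro i t h1 h2
    simp only [hQ, hidx i t h1 h2, if_pos (h2.trans (hsc (i + 1)))]
  have hQs : ∀ i, Q (s i) = q (s i) := fun i => by
    rw [hQe i (s i) le_rfl (hs (Nat.lt_succ_self i)), hra]
  have hQc : Q c = q c := by simp only [hQ, lt_irrefl, if_false]
  have hpiece : ∀ t, s 0 ≤ t → t < c → ∃ i, s i ≤ t ∧ t < s (i + 1) := by
    intro t h1 h2
    refine ⟨Nat.find (hex t), ?_, ?_⟩
    · rcases Nat.eq_zero_or_pos (Nat.find (hex t)) with h | h
      · rw [h]; exact h1
      · have := Nat.find_min (hex t) (Nat.sub_lt h one_pos)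
        rw [not_or, not_lt, Nat.sub_add_cancel (show 1 ≤ Nat.find (hex t) from h)] at this
        exact this.1
    · exact (Nat.find_spec (hex t)).resolve_right (not_le.2 h2)
  have hVa : Adm V := by
    refine ⟨?_, fun t => (hv _).2 t⟩
    refine Measurable.find (p := fun n t => t < s (n + 1) ∨ c ≤ t) (fun n => (hv n).1) (fun n => ?_) hex
    exact (measurableSet_Iio (a := s (n + 1))).union (measurableSet_Ici (a := c))
  have hsol : ∀ n, Sol F G V Q (s 0) (s n) := by
    intro n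
    induction n with
    | zero =>
      refine ⟨?_, ?_⟩
      · rw [Icc_self]; exact continuousOn_singleton _ _
      · intro t ht
        rw [Icc_self, mem_singleton_iff] at ht
        rw [ht, intervalIntegral.integral_same, add_zero]
    | succ n ih =>
      have h1 : s 0 ≤ s n := hs.monotone (Nat.zero_le n)
      have h2 : s n < s (n + 1) := hs (Nat.lt_succ_self n)
      have hg := sol_glue E hVa (hv n) h1 h2.le ih (hr n) (by rw [hQs, hra])
      refine sol_congr hg (h1.trans h2.le) (Eventually.of_forall fun t ht => ?_) fun t ht => ?_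
      · by_cases htn : t < s n
        · simp only [if_pos htn]
        · simp only [if_neg htn]
          rw [hVe n t (not_lt.1 htn) ht.2]
      · by_cases htn : t < s n
        · simp only [if_pos htn]
        · simp only [if_neg htn]
          rcases lt_or_eq_of_le ht.2 with h | h
          · exact hQe n t (not_lt.1 htn) h
          · rw [h, hQs, hrb]
  have hM : (0 : ℝ) ≤ M := by have := E.hM; linarith
  have hn2 : ∀ t, t < c → ∃ n, t < s n := fun t ht => (hlim.eventually (lt_mem_nhds ht)).exists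
  have hlip1 : ∀ t ∈ Ico (s 0) c, ∀ t' ∈ Ico (s 0) c, ‖Q t' - Q t‖ ≤ 2 * M * |t' - t| := by
    intro t ht t' ht'
    obtain ⟨n, hn⟩ := hn2 (max t t') (max_lt ht.2 ht'.2)
    exact sol_lip E hVa (hsol n) ⟨ht.1, (le_max_left _ _).trans hn.le⟩
      ⟨ht'.1, (le_max_right _ _).trans hn.le⟩
  have hs0c : s 0 < c := hsc 0
  have hqlim : Tendsto (fun n => q (s n)) atTop (𝓝 (q c)) := by
    have h1 : Tendsto s atTop (𝓝[Icc (s 0) c] c) :=
      tendsto_nhdsWithin_iff.2 ⟨hlim, Eventually.of_forall fun n =>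
        ⟨hs.monotone (Nat.zero_le n), (hsc n).le⟩⟩
    exact (hq c (right_mem_Icc.2 hs0c.le)).tendsto.comp h1
  have hlip2 : ∀ t ∈ Ico (s 0) c, ‖Q c - Q t‖ ≤ 2 * M * |c - t| := by
    intro t ht
    have h1 : Tendsto (fun n => ‖Q (s n) - Q t‖) atTop (𝓝 ‖Q c - Q t‖) := by
      simp only [hQs, hQc]
      exact (hqlim.sub tendsto_const_nhds).norm
    have h2 : Tendsto (fun n => 2 * M * |s n - t|) atTop (𝓝 (2 * M * |c - t|)) :=
      ((hlim.sub tendsto_const_nhds).abs).const_mul _
    refine le_of_tendsto_of_tendsto' h1 h2 fun n => ?_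
    exact hlip1 t ht (s n) ⟨hs.monotone (Nat.zero_le n), hsc n⟩
  have hlip : ∀ t ∈ Icc (s 0) c, ∀ t' ∈ Icc (s 0) c, ‖Q t' - Q t‖ ≤ 2 * M * |t' - t| := by
    intro t ht t' ht'
    rcases lt_or_eq_of_le ht.2 with h | h
    · rcases lt_or_eq_of_le ht'.2 with h' | h'
      · exact hlip1 t ⟨ht.1, h⟩ t' ⟨ht'.1, h'⟩
      · rw [h']; exact hlip2 t ⟨ht.1, h⟩
    · rcases lt_or_eq_of_le ht'.2 with h' | h'
      · rw [h, norm_sub_rev, abs_sub_comm]; exact hlip2 t' ⟨ht'.1, h'⟩
      · rw [h, h']; simp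
  refine ⟨V, Q, hVa, PSeq_sol E hVa hs0c hlip ?_, hQs 0, hQc, ?_, ?_⟩
  · intro t ht t' ht'
    obtain ⟨n, hn⟩ := hn2 (max t t') (max_lt ht.2 ht'.2)
    exact sol_sub E hVa (hsol n) ⟨ht.1.le, (le_max_left _ _).trans hn.le⟩
      ⟨ht'.1.le, (le_max_right _ _).trans hn.le⟩
  · intro t ht
    rcases lt_or_eq_of_le ht.2 with h | h
    · obtain ⟨i, h1, h2⟩ := hpiece t ht.1 h
      rw [hQe i t h1 h2]
      exact hn i t ⟨h1, h2.le⟩
    · rw [h, hQc]; simp
  · refine Countable.mono (s₂ := ⋃ i, ({t ∈ Ioo (s i) (s (i + 1)) | ¬ SmAt (r i) t} ∪ {s i})) ?_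
      (countable_iUnion fun i => (hbad i).union (countable_singleton _))
    rintro t ⟨ht, hb⟩
    obtain ⟨i, h1, h2⟩ := hpiece t ht.1.le ht.2
    refine mem_iUnion.2 ⟨i, ?_⟩
    rcases lt_or_eq_of_le h1 with h | h
    · refine Or.inl ⟨⟨h, h2⟩, fun hsm => hb ?_⟩
      exact PSeq_smAt (r' := r i) ⟨h, h2⟩ (fun τ hτ => hQe i τ hτ.1.le hτ.2) hsm
    · exact Or.inr h.symm

theorem jn_seq_down (E : Env F G R M) {q : ℝ → ℝ × ℝ} {s : ℕ → ℝ} {c : ℝ}
    (hq : ContinuousOn q (Icc c (s 0))) (hs : StrictAnti s) (hlim : Tendsto s atTop (𝓝 c))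
    (h : ∀ i, Jn F G q (s (i + 1)) (s i)) : Jn F G q c (s 0) := by
  classical
  choose v r hv hr hra hrb hn hbad using h
  have hsc : ∀ i, c < s i := fun i =>
    (hs.antitone.le_of_tendsto hlim (i + 1)).trans_lt (hs (Nat.lt_succ_self i))
  have hex : ∀ t : ℝ, ∃ n, s (n + 1) < t ∨ t ≤ c := by
    intro t
    rcases lt_or_ge c t with h | h
    · obtain ⟨n, hn⟩ := (hlim.eventually (gt_mem_nhds h)).exists
      exact ⟨n, Or.inl ((hs (Nat.lt_succ_self n)).trans hn)⟩
    · exact ⟨0, Or.inr h⟩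
  set V : ℝ → ℝ := fun t => v (Nat.find (hex t)) t with hV
  set Q : ℝ → ℝ × ℝ := fun t => if c < t then r (Nat.find (hex t)) t else q c with hQ
  have hidx : ∀ i t, t ≤ s i → s (i + 1) < t → Nat.find (hex t) = i := by
    intro i t h1 h2
    rw [Nat.find_eq_iff]
    refine ⟨Or.inl h2, fun n hn => ?_⟩
    rintro (h | h)
    · exact absurd h (not_lt.2 (h1.trans (hs.antitone (Nat.succ_le_of_lt hn))))
    · exact absurd ((hsc (i + 1)).trans h2) (not_lt.2 h)
  have hVe : ∀ i t, t ≤ s i → s (i + 1) < t → V t = v i t := by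
    intro i t h1 h2
    simp only [hV, hidx i t h1 h2]
  have hQe : ∀ i t, t ≤ s i → s (i + 1) < t → Q t = r i t := by
    intro i t h1 h2
    simp only [hQ, hidx i t h1 h2, if_pos ((hsc (i + 1)).trans h2)]
  have hQs : ∀ i, Q (s i) = q (s i) := fun i => by
    rw [hQe i (s i) le_rfl (hs (Nat.lt_succ_self i)), hrb]
  have hQc : Q c = q c := by simp only [hQ, lt_irrefl, if_false]
  have hpiece : ∀ t, t ≤ s 0 → c < t → ∃ i, t ≤ s i ∧ s (i + 1) < t := by
    intro t h1 h2
    refine ⟨Nat.find (hex t), ?_, ?_⟩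
    · rcases Nat.eq_zero_or_pos (Nat.find (hex t)) with h | h
      · rw [h]; exact h1
      · have := Nat.find_min (hex t) (Nat.sub_lt h one_pos)
        rw [not_or, not_lt, Nat.sub_add_cancel (show 1 ≤ Nat.find (hex t) from h)] at this
        exact this.1
    · exact (Nat.find_spec (hex t)).resolve_right (not_le.2 h2)
  have hVa : Adm V := by
    refine ⟨?_, fun t => (hv _).2 t⟩
    refine Measurable.find (p := fun n t => s (n + 1) < t ∨ t ≤ c) (fun n => (hv n).1) (fun n => ?_) hex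
    exact (measurableSet_Ioi (a := s (n + 1))).union (measurableSet_Iic (a := c))
  have hsol : ∀ n, Sol F G V Q (s n) (s 0) := by
    intro n
    induction n with
    | zero =>
      refine ⟨?_, ?_⟩
      · rw [Icc_self]; exact continuousOn_singleton _ _
      · intro t ht
        rw [Icc_self, mem_singleton_iff] at ht
        rw [ht, intervalIntegral.integral_same, add_zero]
    | succ n ih =>
      have h1 : s n ≤ s 0 := hs.antitone (Nat.zero_le n)
      have h2 : s (n + 1) < s n := hs (Nat.lt_succ_self n)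
      have hg := sol_glue E (hv n) hVa h2.le h1 (hr n) ih (by rw [hQs, hrb])
      refine sol_congr hg (h2.le.trans h1) (Eventually.of_forall fun t ht => ?_) fun t ht => ?_
      · by_cases htn : t < s n
        · simp only [if_pos htn]
          rw [hVe n t htn.le ht.1]
        · simp only [if_neg htn]
      · by_cases htn : t < s n
        · simp only [if_pos htn]
          rcases lt_or_eq_of_le ht.1 with h | h
          · exact hQe n t htn.le h
          · rw [← h, hQs, hra]
        · simp only [if_neg htn]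
  have hM : (0 : ℝ) ≤ M := by have := E.hM; linarith
  have hn2 : ∀ t, c < t → ∃ n, s n < t := fun t ht => (hlim.eventually (gt_mem_nhds ht)).exists
  have hlip1 : ∀ t ∈ Ioc c (s 0), ∀ t' ∈ Ioc c (s 0), ‖Q t' - Q t‖ ≤ 2 * M * |t' - t| := by
    intro t ht t' ht'
    obtain ⟨n, hn⟩ := hn2 (min t t') (lt_min ht.1 ht'.1)
    exact sol_lip E hVa (hsol n) ⟨hn.le.trans (min_le_left _ _), ht.2⟩
      ⟨hn.le.trans (min_le_right _ _), ht'.2⟩
  have hs0c : c < s 0 := hsc 0
  have hqlim : Tendsto (fun n => q (s n)) atTop (𝓝 (q c)) := by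
    have h1 : Tendsto s atTop (𝓝[Icc c (s 0)] c) :=
      tendsto_nhdsWithin_iff.2 ⟨hlim, Eventually.of_forall fun n =>
        ⟨(hsc n).le, hs.antitone (Nat.zero_le n)⟩⟩
    exact (hq c (left_mem_Icc.2 hs0c.le)).tendsto.comp h1
  have hlip2 : ∀ t ∈ Ioc c (s 0), ‖Q c - Q t‖ ≤ 2 * M * |c - t| := by
    intro t ht
    have h1 : Tendsto (fun n => ‖Q (s n) - Q t‖) atTop (𝓝 ‖Q c - Q t‖) := by
      simp only [hQs, hQc]
      exact (hqlim.sub tendsto_const_nhds).norm
    have h2 : Tendsto (fun n => 2 * M * |s n - t|) atTop (𝓝 (2 * M * |c - t|)) :=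
      ((hlim.sub tendsto_const_nhds).abs).const_mul _
    refine le_of_tendsto_of_tendsto' h1 h2 fun n => ?_
    exact hlip1 t ht (s n) ⟨hsc n, hs.antitone (Nat.zero_le n)⟩
  have hlip : ∀ t ∈ Icc c (s 0), ∀ t' ∈ Icc c (s 0), ‖Q t' - Q t‖ ≤ 2 * M * |t' - t| := by
    intro t ht t' ht'
    rcases lt_or_eq_of_le ht.1 with h | h
    · rcases lt_or_eq_of_le ht'.1 with h' | h'
      · exact hlip1 t ⟨h, ht.2⟩ t' ⟨h', ht'.2⟩
      · rw [← h']; exact hlip2 t ⟨h, ht.2⟩
    · rcases lt_or_eq_of_le ht'.1 with h' | h'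
      · rw [← h, norm_sub_rev, abs_sub_comm]; exact hlip2 t' ⟨h', ht'.2⟩
      · rw [← h, ← h']; simp
  refine ⟨V, Q, hVa, PSeq_sol E hVa hs0c hlip ?_, hQc, hQs 0, ?_, ?_⟩
  · intro t ht t' ht'
    obtain ⟨n, hn⟩ := hn2 (min t t') (lt_min ht.1 ht'.1)
    exact sol_sub E hVa (hsol n) ⟨hn.le.trans (min_le_left _ _), ht.2.le⟩
      ⟨hn.le.trans (min_le_right _ _), ht'.2.le⟩
  · intro t ht
    rcases lt_or_eq_of_le ht.1 with h | h
    · obtain ⟨i, h1, h2⟩ := hpiece t ht.2 h
      rw [hQe i t h1 h2]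
      exact hn i t ⟨h2.le, h1⟩
    · rw [← h, hQc]; simp
  · refine Countable.mono (s₂ := ⋃ i, ({t ∈ Ioo (s (i + 1)) (s i) | ¬ SmAt (r i) t} ∪ {s i})) ?_
      (countable_iUnion fun i => (hbad i).union (countable_singleton _))
    rintro t ⟨ht, hb⟩
    obtain ⟨i, h1, h2⟩ := hpiece t ht.2.le ht.1
    refine mem_iUnion.2 ⟨i, ?_⟩
    rcases lt_or_eq_of_le h1 with h | h
    · refine Or.inl ⟨⟨h2, h⟩, fun hsm => hb ?_⟩
      exact PSeq_smAt (r' := r i) ⟨h2, h⟩ (fun τ hτ => hQe i τ hτ.2.le hτ.1) hsm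
    · exact Or.inr h

end Pool.Agent.Lib.MP_28b8de_an.PT
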