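import Pool.Agent.Lib.MP_28b8de_an.P.PDefs

/-!
MP_28b8de_an, module PSol (PTD-PSol): elementary facts on `Env`, `Sol`.

PROOFS.  env_lip: mean value inequality (`Convex.norm_image_sub_le_of_norm_fderiv_le` on univ).
rhs_int: s ↦ F (s, r s) + v s • G (s, r s) is a.e. strongly measurable on Icc a b (r ContinuousOn, F, G continuous, v
measurable) and bounded by 2M; so it is interval integrable between points of Icc a b.  (To handle ContinuousOn: compose
r with the projection to [a,b], e.g. `projIcc` or `IccExtend`, or use ContinuousOn.aestronglyMeasurable.)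
sol_sub: difference of two instances of `eq` (intervalIntegral.integral_interval_sub_left).
sol_lip: norm_integral_le_of_norm_le_const with 2M.
sol_mono: from sol_sub.  sol_congr: replace v by an a.e. equal control, r by an equal function on Icc a b.
sol_glue: r = r₁ on [a,b], r₂ on [b,c]; for t in [b,c]: ∫_a^t = ∫_a^b + ∫_b^t (integral_congr on the pieces).
-/

namespace Pool.Agent.Lib.MP_28b8de_an.PT

open Filter Topology Set MeasureTheory

variable {F G : ℝ × ℝ × ℝ → ℝ × ℝ} {R M : ℝ}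

theorem env_lipF (E : Env F G R M) (z w : ℝ × ℝ × ℝ) : ‖F z - F w‖ ≤ M * ‖z - w‖ :=
  Convex.norm_image_sub_le_of_norm_fderiv_le (𝕜 := ℝ)
    (fun x _ => (E.Fs.differentiable (by simp)) x) (fun x _ => E.Fd x) convex_univ
    (mem_univ w) (mem_univ z)

theorem env_lipG (E : Env F G R M) (z w : ℝ × ℝ × ℝ) : ‖G z - G w‖ ≤ M * ‖z - w‖ :=
  Convex.norm_image_sub_le_of_norm_fderiv_le (𝕜 := ℝ)
    (fun x _ => (E.Gs.differentiable (by simp)) x) (fun x _ => E.Gd x) convex_univ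
    (mem_univ w) (mem_univ z)

theorem rhs_bound (E : Env F G R M) {v : ℝ → ℝ} (hv : Adm v) (z : ℝ × ℝ × ℝ) (s : ℝ) :
    ‖F z + v s • G z‖ ≤ 2 * M := by
  have hM0 : 0 ≤ M := le_trans zero_le_one E.hM
  calc ‖F z + v s • G z‖ ≤ ‖F z‖ + ‖v s • G z‖ := norm_add_le _ _
    _ ≤ M + 1 * M := by
        refine add_le_add (E.Fb z) ?_
        rw [norm_smul]
        exact mul_le_mul (by simpa using hv.2 s) (E.Gb z) (norm_nonneg _) zero_le_one
    _ = 2 * M := by ring

private theorem PSol_ext {r : ℝ → ℝ × ℝ} {a b : ℝ} (hab : a ≤ b) (hr : ContinuousOn r (Icc a b)) :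
    ∃ r' : ℝ → ℝ × ℝ, Continuous r' ∧ ∀ s ∈ Icc a b, r' s = r s := by
  refine ⟨fun s => r (projIcc a b hab s), ?_, ?_⟩
  · exact hr.comp_continuous (continuous_subtype_val.comp continuous_projIcc)
      (fun s => (projIcc a b hab s).2)
  · intro s hs
    simp [projIcc_of_mem hab hs]

private theorem PSol_meas (E : Env F G R M) {v : ℝ → ℝ} (hv : Adm v) {r : ℝ → ℝ × ℝ}
    (hr : Continuous r) : Measurable (fun s => F (s, r s) + v s • G (s, r s)) := by
  have h1 : Continuous fun s => F (s, r s) := E.Fs.continuous.comp (continuous_id.prodMk hr)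
  have h2 : Continuous fun s => G (s, r s) := E.Gs.continuous.comp (continuous_id.prodMk hr)
  exact h1.measurable.add (hv.1.smul h2.measurable)

private theorem PSol_ii (E : Env F G R M) {v : ℝ → ℝ} (hv : Adm v) {r : ℝ → ℝ × ℝ}
    (hr : Continuous r) (s t : ℝ) :
    IntervalIntegrable (fun s => F (s, r s) + v s • G (s, r s)) volume s t := by
  refine IntervalIntegrable.mono_fun' (g := fun _ => 2 * M) intervalIntegrable_const
    (PSol_meas E hv hr).aestronglyMeasurable (Eventually.of_forall fun x => ?_)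
  exact rhs_bound E hv _ _

theorem rhs_int (E : Env F G R M) {v : ℝ → ℝ} (hv : Adm v) {r : ℝ → ℝ × ℝ} {a b : ℝ}
    (hr : ContinuousOn r (Icc a b)) {s t : ℝ} (hs : s ∈ Icc a b) (ht : t ∈ Icc a b) :
    IntervalIntegrable (fun s => F (s, r s) + v s • G (s, r s)) volume s t := by
  obtain ⟨r', hr', he⟩ := PSol_ext (hs.1.trans hs.2) hr
  refine (intervalIntegrable_congr ?_).1 (PSol_ii E hv hr' s t)
  intro x hx
  have hx' : x ∈ Icc a b := (uIcc_subset_Icc hs ht) (uIoc_subset_uIcc hx)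
  simp only [he x hx']

theorem sol_sub (E : Env F G R M) {v : ℝ → ℝ} (hv : Adm v) {r : ℝ → ℝ × ℝ} {a b : ℝ}
    (hr : Sol F G v r a b) {s t : ℝ} (hs : s ∈ Icc a b) (ht : t ∈ Icc a b) :
    r t - r s = ∫ s in s..t, (F (s, r s) + v s • G (s, r s)) := by
  have ha : a ∈ Icc a b := ⟨le_refl _, hs.1.trans hs.2⟩
  rw [hr.eq t ht, hr.eq s hs, add_sub_add_left_eq_sub]
  exact intervalIntegral.integral_interval_sub_left (rhs_int E hv hr.cont ha ht)
    (rhs_int E hv hr.cont ha hs)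

theorem sol_lip (E : Env F G R M) {v : ℝ → ℝ} (hv : Adm v) {r : ℝ → ℝ × ℝ} {a b : ℝ}
    (hr : Sol F G v r a b) {s t : ℝ} (hs : s ∈ Icc a b) (ht : t ∈ Icc a b) :
    ‖r t - r s‖ ≤ 2 * M * |t - s| := by
  rw [sol_sub E hv hr hs ht]
  exact intervalIntegral.norm_integral_le_of_norm_le_const fun x _ => rhs_bound E hv _ _

/-- solutions are differentiable almost everywhere -/
theorem sol_ae (E : Env F G R M) {v : ℝ → ℝ} (hv : Adm v) {r : ℝ → ℝ × ℝ} {a b : ℝ}
    (hr : Sol F G v r a b) :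
    ∀ᵐ t : ℝ, t ∈ Ioo a b → HasDerivAt r (F (t, r t) + v t • G (t, r t)) t := by
  rcases lt_or_ge b a with hab | hab
  · refine Eventually.of_forall fun t ht => ?_
    exact absurd (ht.1.trans ht.2) (not_lt.2 hab.le)
  have ha : a ∈ Icc a b := ⟨le_refl _, hab⟩
  have hb : b ∈ Icc a b := ⟨hab, le_refl _⟩
  have h := (rhs_int E hv hr.cont ha hb).ae_hasDerivAt_integral
  filter_upwards [h] with t ht htab
  have htI : t ∈ uIcc a b := by
    rw [uIcc_of_le hab]; exact Ioo_subset_Icc_self htab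
  have h1 := (ht htI a left_mem_uIcc).const_add (r a)
  refine h1.congr_of_eventuallyEq ?_
  filter_upwards [Ioo_mem_nhds htab.1 htab.2] with x hx
  exact hr.eq x (Ioo_subset_Icc_self hx)

private theorem PSol_fst {r : ℝ → ℝ × ℝ} {d : ℝ × ℝ} {t : ℝ} (h : HasDerivAt r d t) :
    HasDerivAt (fun x => (r x).1) d.1 t := by
  have := h.hasFDerivAt.fst.hasDerivAt
  simpa using this

private theorem PSol_snd {r : ℝ → ℝ × ℝ} {d : ℝ × ℝ} {t : ℝ} (h : HasDerivAt r d t) :
    HasDerivAt (fun x => (r x).2) d.2 t := by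
  have := h.hasFDerivAt.snd.hasDerivAt
  simpa using this

private theorem PSol_ac {g : ℝ → ℝ} {f : ℝ → ℝ} {a b t : ℝ} {K : NNReal}
    (hg : LipschitzOnWith K g (Icc a b)) (hab : a ≤ b) (ht : t ∈ Icc a b)
    (h : ∀ᵐ x : ℝ, x ∈ Ioo a b → HasDerivAt g (f x) x) :
    IntervalIntegrable f volume a t ∧ ∫ x in a..t, f x = g t - g a := by
  have hsub : uIcc a t ⊆ Icc a b := by
    rw [uIcc_of_le ht.1]; exact Icc_subset_Icc le_rfl ht.2
  have hac : AbsolutelyContinuousOnInterval g a t := (hg.mono hsub).absolutelyContinuousOnInterval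
  have hb : ∀ᵐ x : ℝ, x ≠ b := by simp [ae_iff, measure_singleton]
  have hcongr : ∀ᵐ x : ℝ, x ∈ uIoc a t → deriv g x = f x := by
    filter_upwards [h, hb] with x hx hxb hxt
    rw [uIoc_of_le ht.1] at hxt
    exact (hx ⟨hxt.1, lt_of_le_of_ne (hxt.2.trans ht.2) hxb⟩).deriv
  refine ⟨hac.intervalIntegrable_deriv.congr_ae ?_, ?_⟩
  · rw [Filter.EventuallyEq, ae_restrict_iff' measurableSet_uIoc]
    exact hcongr
  · rw [← hac.integral_deriv_eq_sub]
    refine intervalIntegral.integral_congr_ae ?_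
    filter_upwards [hcongr] with x hx hxt
    exact (hx hxt).symm

/-- the converse: Lipschitz and the equation almost everywhere -/
theorem sol_of_ae {v : ℝ → ℝ} {r : ℝ → ℝ × ℝ} {a b : ℝ} {K : NNReal}
    (hr : LipschitzOnWith K r (Icc a b))
    (h : ∀ᵐ t : ℝ, t ∈ Ioo a b → HasDerivAt r (F (t, r t) + v t • G (t, r t)) t) :
    Sol F G v r a b := by
  refine ⟨hr.continuousOn, fun t ht => ?_⟩
  have hab : a ≤ b := ht.1.trans ht.2
  set f : ℝ → ℝ × ℝ := fun s => F (s, r s) + v s • G (s, r s) with hf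
  have hr1 : LipschitzOnWith K (fun x => (r x).1) (Icc a b) := by
    refine LipschitzOnWith.of_dist_le_mul fun x hx y hy => ?_
    refine le_trans ?_ (hr.dist_le_mul x hx y hy)
    rw [Prod.dist_eq]; exact le_max_left _ _
  have hr2 : LipschitzOnWith K (fun x => (r x).2) (Icc a b) := by
    refine LipschitzOnWith.of_dist_le_mul fun x hx y hy => ?_
    refine le_trans ?_ (hr.dist_le_mul x hx y hy)
    rw [Prod.dist_eq]; exact le_max_right _ _
  obtain ⟨i1, e1⟩ := PSol_ac (f := fun s => (f s).1) hr1 hab ht (by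
    filter_upwards [h] with x hx hxt
    exact PSol_fst (hx hxt))
  obtain ⟨i2, e2⟩ := PSol_ac (f := fun s => (f s).2) hr2 hab ht (by
    filter_upwards [h] with x hx hxt
    exact PSol_snd (hx hxt))
  have hi : IntervalIntegrable f volume a t := by
    rw [intervalIntegrable_iff] at i1 i2 ⊢
    exact Integrable.prodMk i1 i2
  have e : ∫ s in a..t, f s = (∫ s in a..t, (f s).1, ∫ s in a..t, (f s).2) := by
    refine Prod.ext ?_ ?_
    · exact ((ContinuousLinearMap.fst ℝ ℝ ℝ).intervalIntegral_comp_comm hi).symm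
    · exact ((ContinuousLinearMap.snd ℝ ℝ ℝ).intervalIntegral_comp_comm hi).symm
  rw [e, e1, e2]
  refine Prod.ext ?_ ?_ <;> simp

theorem sol_mono (E : Env F G R M) {v : ℝ → ℝ} (hv : Adm v) {r : ℝ → ℝ × ℝ} {a b a' b' : ℝ}
    (hr : Sol F G v r a b) (ha : a ≤ a') (hb : b' ≤ b) : Sol F G v r a' b' := by
  refine ⟨hr.cont.mono (Icc_subset_Icc ha hb), fun t ht => ?_⟩
  have h1 : a' ∈ Icc a b := ⟨ha, (ht.1.trans ht.2).trans hb⟩
  have h2 : t ∈ Icc a b := ⟨ha.trans ht.1, ht.2.trans hb⟩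
  rw [← sol_sub E hv hr h1 h2]
  abel

theorem sol_congr {v v' : ℝ → ℝ} {r r' : ℝ → ℝ × ℝ} {a b : ℝ} (hr : Sol F G v r a b)
    (hab : a ≤ b) (hv : ∀ᵐ t : ℝ, t ∈ Ioo a b → v t • G (t, r t) = v' t • G (t, r t))
    (h : ∀ t ∈ Icc a b, r' t = r t) : Sol F G v' r' a b := by
  refine ⟨hr.cont.congr h, fun t ht => ?_⟩
  rw [h t ht, h a ⟨le_refl _, hab⟩, hr.eq t ht]
  congr 1
  have hb : ∀ᵐ x : ℝ, x ≠ b := by simp [ae_iff, measure_singleton]
  refine intervalIntegral.integral_congr_ae ?_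
  filter_upwards [hv, hb] with x hx hxb hxt
  rw [uIoc_of_le ht.1] at hxt
  have hx1 : x ∈ Ioo a b := ⟨hxt.1, lt_of_le_of_ne (hxt.2.trans ht.2) hxb⟩
  rw [h x (Ioo_subset_Icc_self hx1), hx hx1]

private theorem PSol_adm {v₁ v₂ : ℝ → ℝ} (hv₁ : Adm v₁) (hv₂ : Adm v₂) (b : ℝ) :
    Adm (fun t => if t < b then v₁ t else v₂ t) := by
  refine ⟨Measurable.ite measurableSet_Iio hv₁.1 hv₂.1, fun t => ?_⟩
  by_cases h : t < b
  · simpa [h] using hv₁.2 t
  · simpa [h] using hv₂.2 t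

theorem sol_glue (E : Env F G R M) {v₁ v₂ : ℝ → ℝ} (hv₁ : Adm v₁) (hv₂ : Adm v₂)
    {r₁ r₂ : ℝ → ℝ × ℝ} {a b c : ℝ} (hab : a ≤ b) (hbc : b ≤ c) (h₁ : Sol F G v₁ r₁ a b)
    (h₂ : Sol F G v₂ r₂ b c) (h : r₁ b = r₂ b) :
    Sol F G (fun t => if t < b then v₁ t else v₂ t) (fun t => if t < b then r₁ t else r₂ t) a c := by
  have hadm := PSol_adm hv₁ hv₂ b
  have s1 : Sol F G (fun t => if t < b then v₁ t else v₂ t)
      (fun t => if t < b then r₁ t else r₂ t) a b := by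
    refine sol_congr h₁ hab (Eventually.of_forall fun t ht => ?_) fun t ht => ?_
    · simp [ht.2]
    · by_cases htb : t < b
      · simp [htb]
      · have : t = b := le_antisymm ht.2 (not_lt.1 htb)
        simp [this, h]
  have s2 : Sol F G (fun t => if t < b then v₁ t else v₂ t)
      (fun t => if t < b then r₁ t else r₂ t) b c := by
    refine sol_congr h₂ hbc (Eventually.of_forall fun t ht => ?_) fun t ht => ?_
    · simp [not_lt.2 ht.1.le]
    · simp [not_lt.2 ht.1]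
  set v : ℝ → ℝ := fun t => if t < b then v₁ t else v₂ t
  set r : ℝ → ℝ × ℝ := fun t => if t < b then r₁ t else r₂ t
  have hcont : ContinuousOn r (Icc a c) := by
    rw [← Icc_union_Icc_eq_Icc hab hbc]
    exact s1.cont.union_of_isClosed s2.cont isClosed_Icc isClosed_Icc
  refine ⟨hcont, fun t ht => ?_⟩
  rcases le_total t b with htb | htb
  · exact s1.eq t ⟨ht.1, htb⟩
  · have e1 := s1.eq b ⟨hab, le_refl _⟩
    have e2 := s2.eq t ⟨htb, ht.2⟩
    have i1 := rhs_int E hadm hcont (s := a) (t := b) ⟨le_refl _, hab.trans hbc⟩ ⟨hab, hbc⟩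
    have i2 := rhs_int E hadm hcont (s := b) (t := t) ⟨hab, hbc⟩ ht
    rw [← intervalIntegral.integral_add_adjacent_intervals i1 i2, ← add_assoc, ← e1]
    exact e2

/-- points of a trajectory are in the box -/
theorem tr_box {T : ℝ} {u : ℝ → ℝ} {q : ℝ → ℝ × ℝ} (h : Tr F G R M T u q) {t : ℝ}
    (ht : t ∈ Icc 0 T) {r : ℝ × ℝ} (hr : ‖r - q t‖ ≤ 1) : (t, r) ∈ Box R := by
  have hT := h.hT
  have hTR := h.hTR
  have hn : ‖r‖ ≤ R - 1 := by
    have h1 : ‖r‖ ≤ ‖r - q t‖ + ‖q t‖ := by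
      simpa using norm_add_le (r - q t) (q t)
    have h2 := h.box t ht
    linarith
  have n1 : |r.1| ≤ ‖r‖ := norm_fst_le r
  have n2 : |r.2| ≤ ‖r‖ := norm_snd_le r
  have m1 := abs_le.1 n1
  have m2 := abs_le.1 n2
  refine ⟨⟨?_, ?_⟩, ⟨⟨?_, ?_⟩, ⟨?_, ?_⟩⟩⟩
  · show -R < t
    linarith [ht.1]
  · show t < R
    linarith [ht.2]
  · show -R < r.1
    linarith [m1.1]
  · show r.1 < R
    linarith [m1.2]
  · show -R < r.2
    linarith [m2.1]
  · show r.2 < R
    linarith [m2.2]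

end Pool.Agent.Lib.MP_28b8de_an.PT
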